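import Pool.Agent.LibQR35.Defs

/-! ROW C11 : the reciprocals of the levels tend to zero.

PLAN. `ev_large hX m` (LibBGS/Disc.lean): for every `C` eventually `C <= ev Γ D m k`. With
`ev_eq_lam hX m m (oneT Γ) _ one_pos` this is `lam (aF hX m) (bF hX m (oneT Γ)) k` (divided by
`ENNReal.ofReal 1`). `bF (expT φ) u u <= e^M bF (oneT) u u` (`WGT_up` or `bF_le`, `test_bdd hX φ`), so
`lam_le_of_le` gives `lam a (bF (oneT)) k <= ofReal (e^M) * lam a (bF (expT φ)) k`, hence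
`lam .. (expT φ) k → ∞` and `mu = (lam (k+1))⁻¹.toReal → 0`. -/

open MeasureTheory Set Filter Topology
open scoped ContDiff ENNReal NNReal unitInterval

namespace LibQR35

open BGS
open Pool.BGR (PM upI pj)

variable {Γ : Type} [Group Γ] [MulAction Γ Pl] {D : Set Pl}

private theorem C11_lam (hX : Surface Γ D) (m : Mt Γ D) (φ : TestS Γ) (C : ℝ≥0) :
    ∃ k₀ : ℕ, ∀ k, k₀ ≤ k → (C : ℝ≥0∞) < lam (aF hX m) (bF hX m (expT φ)) k := by
  obtain ⟨M, -, hM⟩ := test_bdd hX φ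
  obtain ⟨k₀, hk₀⟩ := ev_large hX m (((Real.exp M).toNNReal) * (C + 1))
  refine ⟨k₀, fun k hk => ?_⟩
  have h1 := hk₀ k hk
  have h2 := ev_eq_lam hX m m (oneT Γ) (fun _ => one_pos) (c := 1) one_pos (fun z => by
    change m.1.1 z = ((1 : ℝ) * 1) • m.1.1 z
    rw [one_mul, one_smul]) k
  rw [ENNReal.ofReal_one, div_one] at h2
  have h3 := lam_le_of_le (a := aF hX m) (Real.exp_pos M) (WGT_up hX m hM) k
  have h4 : ENNReal.ofReal (Real.exp M) * ((C : ℝ≥0∞) + 1) ≤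
      ENNReal.ofReal (Real.exp M) * lam (aF hX m) (bF hX m (expT φ)) k := by
    refine le_trans (le_of_eq ?_) (h1.trans (h2 ▸ h3))
    rw [ENNReal.coe_mul]
    push_cast
    rfl
  have h5 : (C : ℝ≥0∞) + 1 ≤ lam (aF hX m) (bF hX m (expT φ)) k :=
    (ENNReal.mul_le_mul_iff_right (ENNReal.ofReal_pos.2 (Real.exp_pos M)).ne'
      ENNReal.ofReal_ne_top).1 h4
  refine lt_of_lt_of_le ?_ h5
  exact ENNReal.lt_add_right ENNReal.coe_ne_top one_ne_zero

theorem mu_tendsto (hX : Surface Γ D) (m : Mt Γ D) (φ : TestS Γ) :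
    Tendsto (mu (aF hX m) (bF hX m (expT φ))) atTop (𝓝 0) := by
  have h1 : Tendsto (fun k => lam (aF hX m) (bF hX m (expT φ)) (k + 1)) atTop (𝓝 ⊤) := by
    rw [ENNReal.tendsto_nhds_top_iff_nnreal]
    intro C
    obtain ⟨k₀, hk₀⟩ := C11_lam hX m φ C
    filter_upwards [eventually_ge_atTop k₀] with k hk
    exact hk₀ (k + 1) (by omega)
  have h2 : Tendsto (fun k => (lam (aF hX m) (bF hX m (expT φ)) (k + 1))⁻¹) atTop (𝓝 0) := by
    have h3 := ENNReal.tendsto_inv_iff.2 h1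
    rwa [ENNReal.inv_top] at h3
  have h4 := (ENNReal.tendsto_toReal ENNReal.zero_ne_top).comp h2
  rw [ENNReal.toReal_zero] at h4
  exact h4

end LibQR35
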