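import Pool.Agent.LibQR35.Defs

/-! ROW C2 : compactness (Rellich) from `mu → 0`.

PLAN. Let `δ N = 1 / (N + 1)^2`, `F N : Fin (N + 1) → E` from `BGS.frame P h1 hf (N + 1)` with
tolerance `δ N` (LibBGR/Frm.lean).
STEP 1 (tail): if `a g g = 1`... more generally for `g` with `a (F N l) g = 0` for all `l : Fin (N+1)`
and `b g e = 0`: `b g g <= (mu a b (N + 1) + (N + 1) * δ N) * a g g`. (If `a g g = 0`, `g = 0` as in
C0; otherwise scale to `a g g = 1` and apply `kyfan` to the `N + 2` orthonormal vectors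
`F N 0, ..., F N N, g`, all b-orthogonal to `e`.)
STEP 2: the coordinates `a (F N l) (u j i)` (`N : ℕ`, `l : Fin (N+1)`, `i : Fin n`) and `b (u j i) e`
are bounded (Cauchy-Schwarz `LinearMap.BilinForm.apply_mul_apply_le_of_forall_zero_le`), there are
countably many: the sequence of coordinate vectors lies in a product of compact intervals over a
countable index set (a sigma type), which is compact and first countable: `IsCompact.isSeqCompact`,
get `s` strictly monotone with all coordinates convergent, hence Cauchy.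
STEP 3: for `v = u (s p) i - u (s q) i` put `g = v - ∑ a (F N l) v • F N l - (b v e / b e e) • e`,
`a g g <= a v v <= 4 A`, `b v v <= 2 (∑ (a (F N l) v)^2 * mu a b 0 + (b v e)^2 / b e e) + 2 b g g`
(`b (x + y) (x + y) <= 2 b x x + 2 b y y`, `b (F N l) e = 0`, `b` diagonal on the frame). Choose `N`
with `8 A (mu a b (N+1) + (N+1) δ N) <= ε / 2`, then `p, q` large. -/

open MeasureTheory Set Filter Topology
open scoped ContDiff ENNReal NNReal unitInterval

namespace LibQR35

open BGS
open Pool.BGR (PM upI pj)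

variable {E : Type} [AddCommGroup E] [Module ℝ E] {a b : LinearMap.BilinForm ℝ E} {e : E}

private theorem C2_bnn (P : IsPair a b e) (u : E) : 0 ≤ b u u := by
  by_cases h : u = 0
  · rw [h, map_zero]
  · exact (P.bpos u h).le

private theorem C2_csa (P : IsPair a b e) (x y : E) : (a x y) ^ 2 ≤ a x x * a y y := by
  have h := LinearMap.BilinForm.apply_mul_apply_le_of_forall_zero_le a P.apos x y
  rw [P.asym y x] at h
  rw [sq]
  exact h

private theorem C2_csb (P : IsPair a b e) (x y : E) : (b x y) ^ 2 ≤ b x x * b y y := by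
  have h := LinearMap.BilinForm.apply_mul_apply_le_of_forall_zero_le b (C2_bnn P) x y
  rw [P.bsym y x] at h
  rw [sq]
  exact h

private theorem C2_tail (P : IsPair a b e) (h1 : lam a b 1 ≠ 0) {N : ℕ} {δ : ℝ} (F : Fin N → E)
    (hF : ∀ i j, a (F i) (F j) = if i = j then 1 else 0) (hFe : ∀ i, b (F i) e = 0)
    (hlo : ∀ i : Fin N, mu a b i - δ ≤ b (F i) (F i)) (g : E) (hg : ∀ l, a (F l) g = 0)
    (hge : b g e = 0) : b g g ≤ (mu a b N + N * δ) * a g g := by
  rcases (P.apos g).eq_or_lt with h0 | h0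
  · obtain ⟨c, hc⟩ := P.aker g h0.symm
    have h2 : c * b e e = 0 := by
      rw [hc, map_smul, LinearMap.smul_apply, smul_eq_mul] at hge
      exact hge
    have h3 : c = 0 := (mul_eq_zero.1 h2).resolve_right (P.bpos e P.ne).ne'
    have h4 : g = 0 := by rw [hc, h3, zero_smul]
    rw [h4]
    simp
  · set t : ℝ := (√(a g g))⁻¹ with ht
    have hs : 0 < √(a g g) := Real.sqrt_pos.2 h0
    have ht2 : t * t * a g g = 1 := by
      have h2 : √(a g g) * √(a g g) = a g g := Real.mul_self_sqrt h0.le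
      rw [ht]
      field_simp
      rw [sq, h2]
    have hk := kyfan P h1 (n := N + 1) (Fin.snoc (α := fun _ => E) F (t • g)) (by
      intro i j
      refine Fin.lastCases ?_ (fun i => ?_) i
      · refine Fin.lastCases ?_ (fun j => ?_) j
        · simp only [Fin.snoc_last, map_smul, LinearMap.smul_apply, smul_eq_mul, if_true]
          rw [← mul_assoc]
          exact ht2
        · simp only [Fin.snoc_last, Fin.snoc_castSucc, map_smul, LinearMap.smul_apply, smul_eq_mul]
          rw [P.asym g, hg, mul_zero, if_neg (Fin.castSucc_lt_last j).ne']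
      · refine Fin.lastCases ?_ (fun j => ?_) j
        · simp only [Fin.snoc_last, Fin.snoc_castSucc, map_smul, smul_eq_mul]
          rw [hg, mul_zero, if_neg (Fin.castSucc_lt_last i).ne]
        · simp only [Fin.snoc_castSucc, hF, Fin.castSucc_inj])
    rw [Fin.sum_univ_castSucc, Finset.sum_range_succ] at hk
    simp only [Fin.snoc_castSucc, Fin.snoc_last, hFe, map_smul, LinearMap.smul_apply, smul_eq_mul,
      hge, mul_zero] at hk
    have hsum : ∑ k ∈ Finset.range N, mu a b k - N * δ ≤ ∑ i : Fin N, b (F i) (F i) := by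
      rw [Finset.sum_range (fun k => mu a b k)]
      calc ∑ i : Fin N, mu a b i - N * δ = ∑ i : Fin N, (mu a b i - δ) := by
            rw [Finset.sum_sub_distrib, Finset.sum_const, Finset.card_univ, Fintype.card_fin,
              nsmul_eq_mul]
        _ ≤ _ := Finset.sum_le_sum fun i _ => hlo i
    have h5 : t * (t * b g g) ≤ mu a b N + N * δ := by
      have h6 : ∑ i : Fin N, (b (F i) (F i) - 0 ^ 2 / b e e) = ∑ i : Fin N, b (F i) (F i) := by
        refine Finset.sum_congr rfl fun i _ => ?_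
        simp
      rw [h6] at hk
      have h7 : (0 : ℝ) ^ 2 / b e e = 0 := by simp
      rw [h7] at hk
      linarith
    calc b g g = (t * (t * b g g)) * a g g := by
          have : (t * (t * b g g)) * a g g = (t * t * a g g) * b g g := by ring
          rw [this, ht2, one_mul]
      _ ≤ (mu a b N + N * δ) * a g g := mul_le_mul_of_nonneg_right h5 h0.le

private theorem C2_split (P : IsPair a b e) (h1 : lam a b 1 ≠ 0) {N : ℕ} {δ : ℝ} (hδ : 0 ≤ δ)
    (F : Fin N → E)
    (hF : ∀ i j, a (F i) (F j) = if i = j then 1 else 0) (hFe : ∀ i, b (F i) e = 0)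
    (hFb : ∀ i j, i ≠ j → b (F i) (F j) = 0)
    (hlo : ∀ i : Fin N, mu a b i - δ ≤ b (F i) (F i)) (hup : ∀ i : Fin N, b (F i) (F i) ≤ mu a b i)
    (v : E) :
    b v v ≤ 2 * (∑ l, a (F l) v ^ 2 * mu a b 0 + b v e ^ 2 / b e e) +
      2 * ((mu a b N + N * δ) * a v v) := by
  have hbe : 0 < b e e := P.bpos e P.ne
  have hae : ∀ x, a x e = 0 := fun x => by rw [P.asym, P.ae]
  set c : ℝ := b v e / b e e with hc
  set w : E := ∑ l, a (F l) v • F l + c • e with hw
  set g : E := v - w with hg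
  have haw : ∀ x, a x w = ∑ l, a (F l) v * a x (F l) := by
    intro x
    rw [hw, map_add, map_sum, map_smul, hae, smul_zero, add_zero]
    simp only [map_smul, smul_eq_mul]
  have hbw : ∀ x, b x w = ∑ l, a (F l) v * b x (F l) + c * b x e := by
    intro x
    rw [hw, map_add, map_sum, map_smul]
    simp only [map_smul, smul_eq_mul]
  have hgF : ∀ l, a (F l) g = 0 := by
    intro l
    rw [hg, map_sub, haw]
    simp only [hF, mul_ite, mul_one, mul_zero, Finset.sum_ite_eq, Finset.mem_univ, if_true, sub_self]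
  have hebw : b e w = c * b e e := by
    rw [hbw]
    have h2 : ∑ l, a (F l) v * b e (F l) = 0 :=
      Finset.sum_eq_zero fun l _ => by rw [P.bsym, hFe, mul_zero]
    rw [h2, zero_add]
  have hge : b g e = 0 := by
    rw [P.bsym, hg, map_sub, hebw, hc, P.bsym e v]
    field_simp
    ring
  have hagg : a g g ≤ a v v := by
    have h2 : a g w = 0 := by
      rw [haw]
      exact Finset.sum_eq_zero fun l _ => by rw [P.asym g, hgF, mul_zero]
    have h3 : a g g = a g v := by
      conv_lhs => rw [show a g g = a g (v - w) from rfl, map_sub, h2, sub_zero]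
    have h4 : a v g = a v v - ∑ l, a (F l) v ^ 2 := by
      rw [hg, map_sub, haw]
      congr 1
      refine Finset.sum_congr rfl fun l _ => ?_
      rw [P.asym v (F l), sq]
    rw [h3, P.asym, h4]
    have : 0 ≤ ∑ l, a (F l) v ^ 2 := Finset.sum_nonneg fun l _ => sq_nonneg _
    linarith
  have hbFw : ∀ l, b (F l) w = a (F l) v * b (F l) (F l) := by
    intro l
    rw [hbw, hFe, mul_zero, add_zero, Finset.sum_eq_single l]
    · intro j _ hj
      rw [hFb l j (Ne.symm hj), mul_zero]
    · intro h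
      exact absurd (Finset.mem_univ _) h
  have hbww : b w w = ∑ l, a (F l) v ^ 2 * b (F l) (F l) + c ^ 2 * b e e := by
    rw [hbw w, P.bsym w e, hebw]
    congr 1
    · refine Finset.sum_congr rfl fun l _ => ?_
      rw [P.bsym w (F l), hbFw]
      ring
    · ring
  have hbww' : b w w ≤ ∑ l, a (F l) v ^ 2 * mu a b 0 + b v e ^ 2 / b e e := by
    rw [hbww]
    refine add_le_add (Finset.sum_le_sum fun l _ => ?_) ?_
    · exact mul_le_mul_of_nonneg_left ((hup l).trans (mu_anti h1 (Nat.zero_le _))) (sq_nonneg _)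
    · rw [hc]
      apply le_of_eq
      field_simp
  have hpar : b v v ≤ 2 * b w w + 2 * b g g := by
    have h2 : b (w - g) (w - g) = b w w - 2 * b w g + b g g := by
      simp only [map_sub, LinearMap.sub_apply]
      rw [P.bsym g w]
      ring
    have h3 : v = w + g := by rw [hg]; abel
    have h4 : b v v = b w w + 2 * b w g + b g g := by
      conv_lhs => rw [h3]
      simp only [map_add, LinearMap.add_apply]
      rw [P.bsym g w]
      ring
    have h5 := C2_bnn P (w - g)
    linarith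
  have htl := C2_tail P h1 F hF hFe hlo g hgF hge
  have hτ : 0 ≤ mu a b N + N * δ := add_nonneg (mu_nonneg a b N) (by positivity)
  have h6 := mul_le_mul_of_nonneg_left hagg hτ
  linarith

theorem compact_seq (P : IsPair a b e) (h1 : lam a b 1 ≠ 0) (hf : ∀ k, lam a b k ≠ ⊤)
    (h0 : Tendsto (mu a b) atTop (𝓝 0)) {n : ℕ} (u : ℕ → Fin n → E) {A B : ℝ}
    (hA : ∀ j i, a (u j i) (u j i) ≤ A) (hB : ∀ j i, b (u j i) (u j i) ≤ B) :
    ∃ s : ℕ → ℕ, StrictMono s ∧ ∀ ε : ℝ, 0 < ε → ∃ N : ℕ, ∀ p ≥ N, ∀ q ≥ N, ∀ i,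
      b (u (s p) i - u (s q) i) (u (s p) i - u (s q) i) ≤ ε := by
  classical
  have hbe : 0 < b e e := P.bpos e P.ne
  choose F hF hFe hFb hFd using fun N : ℕ => frame P h1 hf (N + 1)
    (ε := 1 / ((N : ℝ) + 1) ^ 2) (by positivity)
  -- the coordinates
  set x : ℕ → ((Σ N : ℕ, Fin (N + 1)) ⊕ Unit) × Fin n → ℝ := fun j z =>
    Sum.elim (fun l => a (F l.1 l.2) (u j z.2)) (fun _ => b (u j z.2) e) z.1 with hx
  set R : ℝ := |A| + |B| * b e e + 1 with hR
  have hR1 : 1 ≤ R := by
    rw [hR]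
    have := mul_nonneg (abs_nonneg B) hbe.le
    linarith [abs_nonneg A]
  have hxR : ∀ j, x j ∈ Set.pi Set.univ fun _ : ((Σ N : ℕ, Fin (N + 1)) ⊕ Unit) × Fin n =>
      Set.Icc (-R) R := by
    rintro j ⟨z, i⟩ -
    have hsq : (x j (z, i)) ^ 2 ≤ R := by
      rcases z with l | l
      · change (a (F l.1 l.2) (u j i)) ^ 2 ≤ R
        refine (C2_csa P _ _).trans ?_
        rw [hF, if_pos rfl, one_mul]
        have h2 := (hA j i).trans (le_abs_self A)
        have h3 := mul_nonneg (abs_nonneg B) hbe.le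
        rw [hR]
        linarith
      · change (b (u j i) e) ^ 2 ≤ R
        refine (C2_csb P _ _).trans ?_
        have h2 := mul_le_mul_of_nonneg_right ((hB j i).trans (le_abs_self B)) hbe.le
        rw [hR]
        linarith [abs_nonneg A]
    have h4 : |x j (z, i)| ≤ R := by
      refine abs_le_of_sq_le_sq ?_ (by linarith)
      nlinarith
    exact abs_le.1 h4
  have hcpt : IsCompact (Set.pi Set.univ fun _ : ((Σ N : ℕ, Fin (N + 1)) ⊕ Unit) × Fin n =>
      Set.Icc (-R) R) := isCompact_univ_pi fun _ => isCompact_Icc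
  obtain ⟨x0, -, s, hs, hlim⟩ := hcpt.tendsto_subseq hxR
  refine ⟨s, hs, fun ε hε => ?_⟩
  rw [tendsto_pi_nhds] at hlim
  -- choice of the frame
  have hτ : Tendsto (fun N : ℕ => mu a b (N + 1) + ((N + 1 : ℕ) : ℝ) * (1 / ((N : ℝ) + 1) ^ 2)) atTop
      (𝓝 0) := by
    have h2 : Tendsto (fun N : ℕ => mu a b (N + 1)) atTop (𝓝 0) := h0.comp (tendsto_add_atTop_nat 1)
    have h3 : Tendsto (fun N : ℕ => ((N + 1 : ℕ) : ℝ) * (1 / ((N : ℝ) + 1) ^ 2)) atTop (𝓝 0) := by
      refine tendsto_one_div_add_atTop_nhds_zero_nat.congr fun N => ?_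
      push_cast
      field_simp
    simpa using h2.add h3
  have hτ' : ∀ᶠ N : ℕ in atTop, mu a b (N + 1) + ((N + 1 : ℕ) : ℝ) * (1 / ((N : ℝ) + 1) ^ 2) <
      ε / (16 * (|A| + 1)) := hτ.eventually_lt_const (by positivity)
  obtain ⟨N, hN⟩ := hτ'.exists
  set Q : ℝ := ((N : ℝ) + 1) * mu a b 0 + 1 / b e e with hQ
  have hQ0 : 0 ≤ Q := by
    have := mu_nonneg a b 0
    positivity
  set η : ℝ := √(ε / (16 * (Q + 1))) with hη
  have hη0 : 0 < η := Real.sqrt_pos.2 (by positivity)
  have hη2 : η ^ 2 = ε / (16 * (Q + 1)) := Real.sq_sqrt (by positivity)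
  have hev1 : ∀ᶠ p in atTop, ∀ z : Fin (N + 1) × Fin n,
      |x (s p) (Sum.inl ⟨N, z.1⟩, z.2) - x0 (Sum.inl ⟨N, z.1⟩, z.2)| < η := by
    rw [Filter.eventually_all]
    intro z
    have h2 := hlim (Sum.inl ⟨N, z.1⟩, z.2)
    have h3 := (Metric.tendsto_nhds.1 h2) η hη0
    simpa [Real.dist_eq] using h3
  have hev2 : ∀ᶠ p in atTop, ∀ i : Fin n,
      |x (s p) (Sum.inr (), i) - x0 (Sum.inr (), i)| < η := by
    rw [Filter.eventually_all]
    intro i
    have h2 := hlim (Sum.inr (), i)
    have h3 := (Metric.tendsto_nhds.1 h2) η hη0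
    simpa [Real.dist_eq] using h3
  obtain ⟨N₀, hN₀⟩ := Filter.eventually_atTop.1 (hev1.and hev2)
  refine ⟨N₀, fun p hp q hq i => ?_⟩
  obtain ⟨hp1, hp2⟩ := hN₀ p hp
  obtain ⟨hq1, hq2⟩ := hN₀ q hq
  set v : E := u (s p) i - u (s q) i with hv
  have hcl : ∀ l : Fin (N + 1), a (F N l) v ^ 2 ≤ (2 * η) ^ 2 := by
    intro l
    have h2 := hp1 (l, i)
    have h3 := hq1 (l, i)
    change |a (F N l) (u (s p) i) - _| < η at h2
    change |a (F N l) (u (s q) i) - _| < η at h3
    have h4 : |a (F N l) v| ≤ 2 * η := by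
      rw [hv, map_sub]
      rw [abs_lt] at h2 h3
      rw [abs_le]
      constructor <;> linarith [h2.1, h2.2, h3.1, h3.2]
    rw [← sq_abs]
    exact pow_le_pow_left₀ (abs_nonneg _) h4 2
  have hce : b v e ^ 2 ≤ (2 * η) ^ 2 := by
    have h2 := hp2 i
    have h3 := hq2 i
    change |b (u (s p) i) e - _| < η at h2
    change |b (u (s q) i) e - _| < η at h3
    have h4 : |b v e| ≤ 2 * η := by
      rw [hv, map_sub, LinearMap.sub_apply]
      rw [abs_lt] at h2 h3
      rw [abs_le]
      constructor <;> linarith [h2.1, h2.2, h3.1, h3.2]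
    rw [← sq_abs]
    exact pow_le_pow_left₀ (abs_nonneg _) h4 2
  have havv : a v v ≤ 4 * |A| := by
    have h2 : a (u (s p) i + u (s q) i) (u (s p) i + u (s q) i) + a v v =
        2 * a (u (s p) i) (u (s p) i) + 2 * a (u (s q) i) (u (s q) i) := by
      rw [hv]
      simp only [map_sub, map_add, LinearMap.sub_apply, LinearMap.add_apply]
      ring
    have h3 := P.apos (u (s p) i + u (s q) i)
    have h4 := (hA (s p) i).trans (le_abs_self A)
    have h5 := (hA (s q) i).trans (le_abs_self A)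
    linarith
  have hsp := C2_split P h1 (N := N + 1) (δ := 1 / ((N : ℝ) + 1) ^ 2) (by positivity) (F N) (hF N)
    (hFe N) (hFb N) (fun i => (hFd N i).1) (fun i => (hFd N i).2) v
  have hm0 := mu_nonneg a b 0
  have hsum : ∑ l, a (F N l) v ^ 2 * mu a b 0 ≤ ((N : ℝ) + 1) * ((2 * η) ^ 2 * mu a b 0) := by
    calc ∑ l, a (F N l) v ^ 2 * mu a b 0 ≤ ∑ _l : Fin (N + 1), (2 * η) ^ 2 * mu a b 0 :=
          Finset.sum_le_sum fun l _ => mul_le_mul_of_nonneg_right (hcl l) hm0
      _ = ((N : ℝ) + 1) * ((2 * η) ^ 2 * mu a b 0) := by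
          rw [Finset.sum_const, Finset.card_univ, Fintype.card_fin, nsmul_eq_mul]
          push_cast
          ring
  have hdiv : b v e ^ 2 / b e e ≤ (2 * η) ^ 2 * (1 / b e e) := by
    rw [mul_one_div]
    exact div_le_div_of_nonneg_right hce hbe.le
  have hfirst : 2 * (∑ l, a (F N l) v ^ 2 * mu a b 0 + b v e ^ 2 / b e e) ≤ ε / 2 := by
    have h2 : 2 * (∑ l, a (F N l) v ^ 2 * mu a b 0 + b v e ^ 2 / b e e) ≤ 8 * η ^ 2 * Q := by
      rw [hQ]
      nlinarith
    have h3 : 8 * η ^ 2 * Q ≤ ε / 2 := by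
      rw [hη2]
      have h4 : 8 * (ε / (16 * (Q + 1))) * Q = ε / 2 * (Q / (Q + 1)) := by
        field_simp
        ring
      rw [h4]
      have h5 : Q / (Q + 1) ≤ 1 := by
        rw [div_le_one (by linarith)]
        linarith
      nlinarith
    linarith
  have hsecond : 2 * ((mu a b (N + 1) + ((N + 1 : ℕ) : ℝ) * (1 / ((N : ℝ) + 1) ^ 2)) * a v v) ≤
      ε / 2 := by
    have hτ0 : 0 ≤ mu a b (N + 1) + ((N + 1 : ℕ) : ℝ) * (1 / ((N : ℝ) + 1) ^ 2) :=
      add_nonneg (mu_nonneg a b (N + 1)) (by positivity)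
    have h2 := mul_le_mul_of_nonneg_left havv hτ0
    have h3 := mul_le_mul_of_nonneg_right hN.le (by positivity : 0 ≤ 4 * |A|)
    have h4 : ε / (16 * (|A| + 1)) * (4 * |A|) ≤ ε / 4 := by
      have h5 : ε / (16 * (|A| + 1)) * (4 * |A|) = ε / 4 * (|A| / (|A| + 1)) := by
        field_simp
        ring
      rw [h5]
      have h6 : |A| / (|A| + 1) ≤ 1 := by
        rw [div_le_one (by positivity)]
        linarith
      nlinarith
    linarith
  linarith

end LibQR35
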