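import Pool.Agent.LibQR35.Defs

/-! ROW C3 : the limit equation (abstract).

PLAN. `b (u j) f - μ a (u j) f = (b - bj) (u j) f + (bj (u j) f - μj a (u j) f) + (μj - μ) a (u j) f`.
First term: `<= ρ j √B √(b f f) → 0` (`hρ'`). Second: its square is at most `τ j * a f f → 0`
(`hnear`), so it tends to `0`. Third: `|a (u j) f| <= √(a f f)` (Cauchy-Schwarz
`LinearMap.BilinForm.apply_mul_apply_le_of_forall_zero_le a P.apos`, `ha`), and `μj - μ → 0`. -/

open MeasureTheory Set Filter Topology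
open scoped ContDiff ENNReal NNReal unitInterval

namespace LibQR35

open BGS
open Pool.BGR (PM upI pj)

variable {E : Type} [AddCommGroup E] [Module ℝ E] {a b : LinearMap.BilinForm ℝ E} {e : E}

theorem weak_limit (P : IsPair a b e) (bj : ℕ → LinearMap.BilinForm ℝ E) (ρ : ℕ → ℝ)
    (hρ : Tendsto ρ atTop (𝓝 0))
    (hρ' : ∀ j u v, |bj j u v - b u v| ≤ ρ j * (√(b u u) * √(b v v))) (u : ℕ → E)
    (ha : ∀ j, a (u j) (u j) = 1) {B : ℝ} (hB : ∀ j, b (u j) (u j) ≤ B) (μj : ℕ → ℝ) {μ : ℝ}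
    (hμj : Tendsto μj atTop (𝓝 μ)) (τ : ℕ → ℝ) (hτ : Tendsto τ atTop (𝓝 0))
    (hnear : ∀ j f, (bj j (u j) f - μj j * a (u j) f) ^ 2 ≤ τ j * a f f) (f : E) :
    Tendsto (fun j => b (u j) f - μ * a (u j) f) atTop (𝓝 0) := by
  have h1 : Tendsto (fun j => bj j (u j) f - b (u j) f) atTop (𝓝 0) := by
    have hb0 : Tendsto (fun j => |ρ j| * (√B * √(b f f))) atTop (𝓝 0) := by
      have h := (hρ.abs).mul_const (√B * √(b f f))
      rwa [abs_zero, zero_mul] at h
    refine squeeze_zero_norm (fun j => ?_) hb0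
    rw [Real.norm_eq_abs]
    refine (hρ' j (u j) f).trans ?_
    refine (mul_le_mul_of_nonneg_right (le_abs_self (ρ j)) (by positivity)).trans ?_
    refine mul_le_mul_of_nonneg_left ?_ (abs_nonneg _)
    exact mul_le_mul_of_nonneg_right (Real.sqrt_le_sqrt (hB j)) (Real.sqrt_nonneg _)
  have h2 : Tendsto (fun j => bj j (u j) f - μj j * a (u j) f) atTop (𝓝 0) := by
    have hb0 : Tendsto (fun j => √(τ j * a f f)) atTop (𝓝 0) := by
      have h := (hτ.mul_const (a f f)).sqrt
      rwa [zero_mul, Real.sqrt_zero] at h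
    refine squeeze_zero_norm (fun j => ?_) hb0
    rw [Real.norm_eq_abs]
    exact Real.abs_le_sqrt (hnear j f)
  have h3 : Tendsto (fun j => (μj j - μ) * a (u j) f) atTop (𝓝 0) := by
    have hb0 : Tendsto (fun j => |μj j - μ| * √(a f f)) atTop (𝓝 0) := by
      have h := ((hμj.sub_const μ).abs).mul_const (√(a f f))
      rwa [sub_self, abs_zero, zero_mul] at h
    refine squeeze_zero_norm (fun j => ?_) hb0
    rw [Real.norm_eq_abs, abs_mul]
    refine mul_le_mul_of_nonneg_left ?_ (abs_nonneg _)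
    apply Real.abs_le_sqrt
    have h := LinearMap.BilinForm.apply_mul_apply_le_of_forall_zero_le a P.apos (u j) f
    rw [P.asym f (u j), ha j, one_mul] at h
    rw [pow_two]
    exact h
  have h4 := ((h2.sub h1).add h3)
  rw [sub_zero, add_zero] at h4
  refine h4.congr fun j => ?_
  ring

end LibQR35
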