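import Pool.Agent.LibQR35.Defs

/-! ROW A1 : the one sided perturbation inequality for a form without sign.

PLAN. Copy of `BGS.KNK_one` (LibBGR/Knk.lean). `b + h` is a pair: symmetric, and
`(b + h) u u >= (1 - κ) b u u > 0` for `u ≠ 0`. `lam a (b + h) 1 ≠ 0` by `lam_ne_zero_of_le`
(`(b + h) u u <= (3/2) b u u`, see KNK_one). `kyfan` for `b + h` and `w` gives
`∑ ((b+h) w w - ((b+h) w e)^2 / (b+h) e e) <= ∑ mu`. Now `(b+h) w e = h w e`, and by polarisation
`|h u v| <= κ / 2 * (b u u + b v v)` for all `u v`; replacing `u` by `t u` and `v` by `v / t`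
(or directly from `0 <= (κ b + h)`, `0 <= (κ b - h)` and
`LinearMap.BilinForm.apply_mul_apply_le_of_forall_zero_le` for these two nonnegative forms:
`2 h u v = (κ b + h) u v - (κ b - h) u v`) one gets `(h u v)^2 <= κ^2 * b u u * b v v`.
Hence `(h w e)^2 / (b+h) e e <= κ^2 * M * b e e / (b e e / 2) = 2 κ^2 M`. -/

open MeasureTheory Set Filter Topology
open scoped ContDiff ENNReal NNReal unitInterval

namespace LibQR35

open BGS
open Pool.BGR (PM upI pj)

variable {E : Type} [AddCommGroup E] [Module ℝ E] {a b : LinearMap.BilinForm ℝ E} {e : E}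

/-- Cauchy-Schwarz for a form dominated by `κ b`. -/
theorem A1_cs (P : IsPair a b e) (h : LinearMap.BilinForm ℝ E) {κ : ℝ}
    (hs : ∀ u v, h u v = h v u) (hκ : ∀ u, |h u u| ≤ κ * b u u) (hκ0 : 0 ≤ κ) (u v : E) :
    h u v ^ 2 ≤ κ ^ 2 * (b u u * b v v) := by
  have key : ∀ s t : ℝ, 2 * (s * t) * h u v ≤ κ * (s ^ 2 * b u u + t ^ 2 * b v v) := by
    intro s t
    have h1 := (abs_le.1 (hκ (s • u + t • v))).2
    have h2 := (abs_le.1 (hκ (s • u - t • v))).1
    have hvu : h v u = h u v := hs v u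
    have bvu : b v u = b u v := P.bsym v u
    simp only [map_add, map_sub, map_smul, LinearMap.add_apply, LinearMap.sub_apply,
      LinearMap.smul_apply, smul_eq_mul, hvu, bvu] at h1 h2
    nlinarith [h1, h2]
  by_cases hu : u = 0
  · subst hu
    simp
  have hbu : 0 < b u u := P.bpos u hu
  rcases hκ0.eq_or_lt with hκ' | hκ'
  · subst hκ'
    have h1 := key 1 1
    have h2 := key 1 (-1)
    have h3 : h u v = 0 := by linarith
    rw [h3]
    simp
  · have h1 := key (h u v) (κ * b u u)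
    have h2 : 0 < κ * b u u := mul_pos hκ' hbu
    have h3 : (κ * b u u) * h u v ^ 2 ≤ (κ * b u u) * (κ ^ 2 * (b u u * b v v)) := by
      linarith [h1]
    exact le_of_mul_le_mul_left h3 h2

theorem signed_pair (P : IsPair a b e) (h1 : lam a b 1 ≠ 0) (h : LinearMap.BilinForm ℝ E) {κ : ℝ}
    (hs : ∀ u v, h u v = h v u) (hκ : ∀ u, |h u u| ≤ κ * b u u) (hκ0 : 0 ≤ κ) (hκ1 : κ ≤ 1 / 2) :
    IsPair a (b + h) e ∧ lam a (b + h) 1 ≠ 0 := by
  have _ := hκ0
  have hbd : ∀ u, |h u u| ≤ 1 / 2 * b u u := fun u =>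
    le_trans (hκ u) (mul_le_mul_of_nonneg_right hκ1 (KNK_bnonneg P u))
  constructor
  · refine ⟨P.asym, ?_, P.apos, ?_, P.ae, P.aker, P.ne⟩
    · intro u v
      simp only [LinearMap.add_apply]
      rw [P.bsym u v, hs u v]
    · intro u hu
      simp only [LinearMap.add_apply]
      have h2 := P.bpos u hu
      have h3 := (abs_le.1 (hbd u)).1
      linarith
  · apply lam_ne_zero_of_le (b := b) (θ := 3 / 2) (by norm_num) _ h1
    intro u
    have h3 := (abs_le.1 (hbd u)).2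
    simp only [LinearMap.add_apply]
    linarith

theorem signed (P : IsPair a b e) (h1 : lam a b 1 ≠ 0) {n : ℕ} (w : Fin n → E)
    (hw : ∀ i j, a (w i) (w j) = if i = j then 1 else 0) (hwe : ∀ i, b (w i) e = 0) {M : ℝ}
    (hM : ∀ i, b (w i) (w i) ≤ M) (h : LinearMap.BilinForm ℝ E) {κ : ℝ}
    (hs : ∀ u v, h u v = h v u) (hκ : ∀ u, |h u u| ≤ κ * b u u) (hκ0 : 0 ≤ κ) (hκ1 : κ ≤ 1 / 2) :
    ∑ i, (b (w i) (w i) + h (w i) (w i)) - n * (2 * κ ^ 2 * M) ≤
      ∑ k ∈ Finset.range n, mu a (b + h) k := by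
  obtain ⟨P', h1'⟩ := signed_pair P h1 h hs hκ hκ0 hκ1
  have hky := kyfan P' h1' w hw
  have hbe : 0 < b e e := P.bpos e P.ne
  have hbe' : b e e / 2 ≤ (b + h) e e := by
    have h2 := (abs_le.1 (hκ e)).1
    have h3 : κ * b e e ≤ 1 / 2 * b e e := mul_le_mul_of_nonneg_right hκ1 hbe.le
    simp only [LinearMap.add_apply]
    linarith
  have hpos : 0 < (b + h) e e := lt_of_lt_of_le (by linarith) hbe'
  refine le_trans ?_ hky
  have hcard : (n : ℝ) * (2 * κ ^ 2 * M) = ∑ _i : Fin n, 2 * κ ^ 2 * M := by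
    rw [Finset.sum_const, Finset.card_univ, Fintype.card_fin, nsmul_eq_mul]
  rw [hcard, ← Finset.sum_sub_distrib]
  apply Finset.sum_le_sum
  intro i _
  have hx : (b + h) (w i) e = h (w i) e := by
    simp only [LinearMap.add_apply, hwe i, zero_add]
  have hself : (b + h) (w i) (w i) = b (w i) (w i) + h (w i) (w i) := by
    simp only [LinearMap.add_apply]
  have hcs := A1_cs P h hs hκ hκ0 (w i) e
  have hbi := KNK_bnonneg P (w i)
  have hM0 : 0 ≤ M := le_trans hbi (hM i)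
  have hdiv : h (w i) e ^ 2 / (b + h) e e ≤ 2 * κ ^ 2 * M := by
    rw [div_le_iff₀ hpos]
    have h5 : κ ^ 2 * (b (w i) (w i) * b e e) ≤ κ ^ 2 * (M * b e e) :=
      mul_le_mul_of_nonneg_left (mul_le_mul_of_nonneg_right (hM i) hbe.le) (sq_nonneg κ)
    have h6 : 2 * κ ^ 2 * M * (b e e / 2) ≤ 2 * κ ^ 2 * M * (b + h) e e :=
      mul_le_mul_of_nonneg_left hbe' (by positivity)
    linarith
  rw [hx, hself]
  linarith

end LibQR35
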