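import Pool.Agent.LibQR35.A1

/-! ROW A2 : one vector of a cluster.

PLAN. Let `u j = w (Fin.natAdd k j)`. The vectors `w 0, ..., w (k-1)`, `∑ θ j • u j` (as
`Fin.snoc`, like `w` in the proof of `BGS.kink`, LibBGR/Knk.lean, or as a function on
`Fin (k + 1)` by cases) are orthonormal for `a` (Fr.orth, `hθ`), orthogonal to `e` for `b`, and
`b v v <= mu a b 0` for each of them (Fr.up, Fr.diag, `mu_anti h1`, `hθ`). Apply `signed` with
`M = mu a b 0` and `n = k + 1`. Then `b (w i) (w i) >= mu a b i - δ` for `i < k`, and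
`b (∑ θ u) (∑ θ u) = ∑ θ j ^ 2 * b (u j) (u j) >= mu a b (k + n - 1) - δ >= mu a b k - 2 δ`
(Fr.diag, Fr.lo, `mu_anti`, `hgap`). -/

open MeasureTheory Set Filter Topology
open scoped ContDiff ENNReal NNReal unitInterval

namespace LibQR35

open BGS
open Pool.BGR (PM upI pj)

variable {E : Type} [AddCommGroup E] [Module ℝ E] {a b : LinearMap.BilinForm ℝ E} {e : E}

theorem cluster_unit (P : IsPair a b e) (h1 : lam a b 1 ≠ 0) {k n : ℕ} {δ : ℝ} (hδ : 0 ≤ δ)
    {w : Fin (k + n) → E} (hw : Fr a b e δ w) (hn : 0 < n)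
    (hgap : mu a b k - mu a b (k + n - 1) ≤ δ) (h : LinearMap.BilinForm ℝ E) {κ : ℝ}
    (hs : ∀ u v, h u v = h v u) (hκ : ∀ u, |h u u| ≤ κ * b u u) (hκ0 : 0 ≤ κ) (hκ1 : κ ≤ 1 / 2)
    (θ : Fin n → ℝ) (hθ : ∑ i, θ i ^ 2 = 1) :
    ∑ i ∈ Finset.range (k + 1), mu a b i - (k + 2) * δ
        + ∑ i : Fin k, h (w (Fin.castAdd n i)) (w (Fin.castAdd n i))
        + ∑ i, ∑ j, θ i * θ j * h (w (Fin.natAdd k i)) (w (Fin.natAdd k j))
        - (k + 1) * (2 * κ ^ 2 * mu a b 0) ≤
      ∑ i ∈ Finset.range (k + 1), mu a (b + h) i := by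
  classical
  have _ := hn
  have _ := hδ
  have hanti := mu_anti (a := a) (b := b) h1
  set U : Fin k → E := fun i => w (Fin.castAdd n i) with hU
  set u : Fin n → E := fun j => w (Fin.natAdd k j) with hu
  set z : E := ∑ j, θ j • u j with hz
  -- values of a bilinear form on `z`
  have hzz : ∀ c : LinearMap.BilinForm ℝ E, c z z = ∑ i, ∑ j, θ i * θ j * c (u i) (u j) := by
    intro c
    rw [hz]
    simp only [map_sum, map_smul, LinearMap.sum_apply, LinearMap.smul_apply, smul_eq_mul,
      Finset.mul_sum]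
    rw [Finset.sum_comm]
    refine Finset.sum_congr rfl fun i _ => Finset.sum_congr rfl fun j _ => ?_
    ring
  have hdd : ∀ c : LinearMap.BilinForm ℝ E, (∀ i j, i ≠ j → c (u i) (u j) = 0) →
      c z z = ∑ i, θ i ^ 2 * c (u i) (u i) := by
    intro c hc
    rw [hzz c]
    refine Finset.sum_congr rfl fun i _ => ?_
    rw [Finset.sum_eq_single i]
    · ring
    · intro j _ hj
      rw [hc i j hj.symm, mul_zero]
    · intro hi
      exact absurd (Finset.mem_univ i) hi
  have hinj : ∀ i j : Fin n, i ≠ j → Fin.natAdd k i ≠ Fin.natAdd k j := by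
    intro i j hij he
    apply hij
    have := congrArg Fin.val he
    simp only [Fin.val_natAdd] at this
    exact Fin.ext (by omega)
  have hUu : ∀ (i : Fin k) (j : Fin n), Fin.castAdd n i ≠ Fin.natAdd k j := by
    intro i j he
    have := congrArg Fin.val he
    simp only [Fin.val_natAdd, Fin.val_castAdd] at this
    have := i.2
    omega
  have auu : ∀ i j, a (u i) (u j) = if i = j then 1 else 0 := by
    intro i j
    simp only [hu]
    rw [hw.orth]
    by_cases hij : i = j
    · rw [if_pos hij, if_pos (by rw [hij])]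
    · rw [if_neg hij, if_neg (hinj i j hij)]
  have aUU : ∀ i j, a (U i) (U j) = if i = j then 1 else 0 := by
    intro i j
    simp only [hU]
    rw [hw.orth]
    by_cases hij : i = j
    · rw [if_pos hij, if_pos (by rw [hij])]
    · rw [if_neg hij, if_neg]
      intro he
      apply hij
      have := congrArg Fin.val he
      simp only [Fin.val_castAdd] at this
      exact Fin.ext this
  have aUu : ∀ i j, a (U i) (u j) = 0 := by
    intro i j
    simp only [hU, hu]
    rw [hw.orth, if_neg (hUu i j)]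
  have aUz : ∀ i, a (U i) z = 0 := by
    intro i
    rw [hz, map_sum]
    refine Finset.sum_eq_zero fun j _ => ?_
    rw [map_smul, aUu, smul_zero]
  have azU : ∀ i, a z (U i) = 0 := fun i => by rw [P.asym, aUz]
  have azz : a z z = 1 := by
    rw [hdd a fun i j hij => by rw [auu, if_neg hij], ← hθ]
    refine Finset.sum_congr rfl fun i _ => ?_
    rw [auu, if_pos rfl, mul_one]
  have bze : b z e = 0 := by
    rw [hz, map_sum, LinearMap.sum_apply]
    refine Finset.sum_eq_zero fun j _ => ?_
    rw [map_smul, LinearMap.smul_apply]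
    simp only [hu]
    rw [hw.one, smul_zero]
  have bzz : b z z = ∑ i, θ i ^ 2 * b (u i) (u i) := by
    refine hdd b fun i j hij => ?_
    simp only [hu]
    exact hw.diag _ _ (hinj i j hij)
  have bzz_le : b z z ≤ mu a b 0 := by
    rw [bzz]
    calc ∑ i, θ i ^ 2 * b (u i) (u i) ≤ ∑ i, θ i ^ 2 * mu a b 0 := by
          refine Finset.sum_le_sum fun i _ => mul_le_mul_of_nonneg_left ?_ (sq_nonneg _)
          exact le_trans (hw.up _) (hanti (Nat.zero_le _))
      _ = mu a b 0 := by rw [← Finset.sum_mul, hθ, one_mul]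
  have le_bzz : mu a b k - 2 * δ ≤ b z z := by
    rw [bzz]
    calc mu a b k - 2 * δ ≤ mu a b (k + n - 1) - δ := by linarith
      _ = ∑ i, θ i ^ 2 * (mu a b (k + n - 1) - δ) := by rw [← Finset.sum_mul, hθ, one_mul]
      _ ≤ ∑ i, θ i ^ 2 * b (u i) (u i) := by
          refine Finset.sum_le_sum fun i _ => mul_le_mul_of_nonneg_left ?_ (sq_nonneg _)
          have h2 := hw.lo (Fin.natAdd k i)
          have h3 : mu a b (k + n - 1) ≤ mu a b (Fin.natAdd k i : Fin (k + n)) := by
            apply hanti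
            have := i.2
            simp only [Fin.val_natAdd]
            omega
          simp only [hu]
          linarith
  set v : Fin (k + 1) → E := Fin.snoc U z with hv
  have g1 : ∀ i j, a (v i) (v j) = if i = j then 1 else 0 := by
    intro i j
    rw [hv]
    refine Fin.lastCases ?_ (fun i => ?_) i
    · refine Fin.lastCases ?_ (fun j => ?_) j
      · simp only [Fin.snoc_last, if_true, azz]
      · have hne' : Fin.last k ≠ Fin.castSucc j := (Fin.castSucc_lt_last j).ne'
        simp only [Fin.snoc_last, Fin.snoc_castSucc, azU, if_neg hne']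
    · refine Fin.lastCases ?_ (fun j => ?_) j
      · have hne' : Fin.castSucc i ≠ Fin.last k := (Fin.castSucc_lt_last i).ne
        simp only [Fin.snoc_last, Fin.snoc_castSucc, aUz, if_neg hne']
      · simp only [Fin.snoc_castSucc, aUU, Fin.castSucc_inj]
  have g2 : ∀ i, b (v i) e = 0 := by
    intro i
    rw [hv]
    refine Fin.lastCases ?_ (fun i => ?_) i
    · simp only [Fin.snoc_last, bze]
    · simp only [Fin.snoc_castSucc]
      exact hw.one _
  have g3 : ∀ i, b (v i) (v i) ≤ mu a b 0 := by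
    intro i
    rw [hv]
    refine Fin.lastCases ?_ (fun i => ?_) i
    · simp only [Fin.snoc_last]
      exact bzz_le
    · simp only [Fin.snoc_castSucc]
      exact le_trans (hw.up _) (hanti (Nat.zero_le _))
  have e1 := signed P h1 v g1 g2 g3 h hs hκ hκ0 hκ1
  rw [Fin.sum_univ_castSucc] at e1
  simp only [hv, Fin.snoc_castSucc, Fin.snoc_last] at e1
  rw [hzz h, Finset.sum_add_distrib] at e1
  have e3 : ∑ i ∈ Finset.range k, mu a b i - k * δ ≤ ∑ i, b (U i) (U i) := by
    rw [← Fin.sum_univ_eq_sum_range (fun i => mu a b i) k]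
    have e4 : (k : ℝ) * δ = ∑ _i : Fin k, δ := by
      rw [Finset.sum_const, Finset.card_univ, Fintype.card_fin, nsmul_eq_mul]
    rw [e4, ← Finset.sum_sub_distrib]
    apply Finset.sum_le_sum
    intro i _
    exact hw.lo (Fin.castAdd n i)
  have e5 : ((k + 1 : ℕ) : ℝ) = (k : ℝ) + 1 := by push_cast; ring
  rw [e5] at e1
  rw [Finset.sum_range_succ (fun i => mu a b i) k]
  have e6 : ((k : ℝ) + 2) * δ = k * δ + 2 * δ := by ring
  have e7 : ∑ i : Fin k, h (U i) (U i) =
      ∑ i : Fin k, h (w (Fin.castAdd n i)) (w (Fin.castAdd n i)) := rfl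
  have e8 : ∑ i, ∑ j, θ i * θ j * h (u i) (u j) =
      ∑ i, ∑ j, θ i * θ j * h (w (Fin.natAdd k i)) (w (Fin.natAdd k j)) := rfl
  rw [e7, e8] at e1
  linarith

end LibQR35
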