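import Pool.Agent.LibQR35.A2

/-! ROW A3 : averages over a cluster.

PLAN. `W i j = (if i = j then 1 / n else 0) + M i j` is symmetric. `BGS.KYF_diag` (LibBGR/Kyf.lean)
gives eigenvalues `t l` and orthonormal `v l` with `∑ l', W l l' * v i l' = t i * v i l`, and
`∑ t l = ∑ W i i = 1`. `t l = ∑ i j, v l i * v l j * W i j >= 1 / n - (1 / n^2) (∑ |v l i|)^2 >= 0`
(Cauchy-Schwarz `(∑ |v l i|)^2 <= n * ∑ (v l i)^2 = n`). Moreover `W i j = ∑ l, t l * v l i * v l j`
(complete orthonormality: the matrix `V = (v l i)` is square with `V * Vᵀ = 1`, hence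
`Vᵀ * V = 1`, `Matrix.mul_eq_one_comm`). Sum the inequalities `cluster_unit` for `θ = v l` with the
weights `t l`; only the term with `θ` depends on `l`. -/

open MeasureTheory Set Filter Topology
open scoped ContDiff ENNReal NNReal unitInterval

namespace LibQR35

open BGS
open Pool.BGR (PM upI pj)

variable {E : Type} [AddCommGroup E] [Module ℝ E] {a b : LinearMap.BilinForm ℝ E} {e : E}

/-- A symmetric matrix `1 / n + M` with trace one and small `M` is an average of rank one
projections. -/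
private theorem A3_dec {n : ℕ} (hn : 0 < n) (M : Fin n → Fin n → ℝ)
    (hMs : ∀ i j, M i j = M j i) (hM0 : ∑ i, M i i = 0)
    (hMb : ∀ i j, |M i j| ≤ 1 / (n : ℝ) ^ 2) :
    ∃ (t : Fin n → ℝ) (v : Fin n → Fin n → ℝ), (∀ l, 0 ≤ t l) ∧ ∑ l, t l = 1 ∧
      (∀ l, ∑ i, v l i ^ 2 = 1) ∧
      ∀ i j, ∑ l, t l * (v l i * v l j) = (if i = j then 1 / (n : ℝ) else 0) + M i j := by
  have hn' : (0 : ℝ) < n := Nat.cast_pos.2 hn
  set W : Matrix (Fin n) (Fin n) ℝ := fun i j => (if i = j then 1 / (n : ℝ) else 0) + M i j with hW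
  have hWs : ∀ i j, W i j = W j i := by
    intro i j
    simp only [hW]
    rw [hMs i j]
    by_cases hij : i = j
    · simp [hij]
    · simp [hij, Ne.symm hij]
  obtain ⟨t, v, _, hv, hWv, htr⟩ := KYF_diag W hWs
  have hv2 : ∀ l, ∑ i, v l i ^ 2 = 1 := by
    intro l
    have := hv l l
    simp only [if_true] at this
    rw [← this]
    exact Finset.sum_congr rfl fun i _ => by ring
  have hcol : ∀ i j, ∑ l, v l i * v l j = if i = j then 1 else 0 := by
    intro i j
    have h1 : (Matrix.of v) * (Matrix.of v).transpose = 1 := by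
      ext i' j'
      rw [Matrix.mul_apply]
      simp only [Matrix.of_apply, Matrix.transpose_apply]
      rw [hv i' j', Matrix.one_apply]
    have h2 := mul_eq_one_comm.1 h1
    have h3 := congrFun (congrFun h2 i) j
    rw [Matrix.mul_apply, Matrix.one_apply] at h3
    simpa only [Matrix.of_apply, Matrix.transpose_apply] using h3
  refine ⟨t, v, ?_, ?_, hv2, ?_⟩
  · intro l
    have h1 : t l = ∑ i, ∑ j, v l i * v l j * W i j := by
      have h2 : t l = ∑ i, v l i * (t l * v l i) := by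
        calc t l = t l * ∑ i, v l i ^ 2 := by rw [hv2 l, mul_one]
          _ = ∑ i, v l i * (t l * v l i) := by
            rw [Finset.mul_sum]
            exact Finset.sum_congr rfl fun i _ => by ring
      rw [h2]
      refine Finset.sum_congr rfl fun i _ => ?_
      rw [← hWv l i, Finset.mul_sum]
      exact Finset.sum_congr rfl fun j _ => by ring
    have h3 : ∑ i, ∑ j, v l i * v l j * W i j = 1 / (n : ℝ) + ∑ i, ∑ j, v l i * v l j * M i j := by
      have h4 : ∀ i, ∑ j, v l i * v l j * W i j =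
          1 / (n : ℝ) * v l i ^ 2 + ∑ j, v l i * v l j * M i j := by
        intro i
        simp only [hW, mul_add]
        rw [Finset.sum_add_distrib]
        congr 1
        simp only [mul_ite, mul_zero]
        rw [Finset.sum_ite_eq]
        simp only [Finset.mem_univ, if_true]
        ring
      simp only [h4]
      rw [Finset.sum_add_distrib, ← Finset.mul_sum, hv2 l, mul_one]
    have h5 : |∑ i, ∑ j, v l i * v l j * M i j| ≤ 1 / (n : ℝ) ^ 2 * (∑ i, |v l i|) ^ 2 := by
      calc |∑ i, ∑ j, v l i * v l j * M i j| ≤ ∑ i, |∑ j, v l i * v l j * M i j| :=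
            Finset.abs_sum_le_sum_abs _ _
        _ ≤ ∑ i, ∑ j, |v l i| * |v l j| * (1 / (n : ℝ) ^ 2) := by
            refine Finset.sum_le_sum fun i _ => ?_
            refine (Finset.abs_sum_le_sum_abs _ _).trans ?_
            refine Finset.sum_le_sum fun j _ => ?_
            rw [abs_mul, abs_mul]
            exact mul_le_mul_of_nonneg_left (hMb i j) (by positivity)
        _ = 1 / (n : ℝ) ^ 2 * (∑ i, |v l i|) ^ 2 := by
            rw [sq (∑ i, |v l i|), Finset.sum_mul_sum, Finset.mul_sum]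
            refine Finset.sum_congr rfl fun i _ => ?_
            rw [Finset.mul_sum]
            exact Finset.sum_congr rfl fun j _ => by ring
    have h6 : (∑ i, |v l i|) ^ 2 ≤ n := by
      have h7 := sq_sum_le_card_mul_sum_sq (s := (Finset.univ : Finset (Fin n)))
        (f := fun i => |v l i|)
      simp only [sq_abs, Finset.card_univ, Fintype.card_fin] at h7
      rw [hv2 l, mul_one] at h7
      exact h7
    have h8 : 1 / (n : ℝ) ^ 2 * (∑ i, |v l i|) ^ 2 ≤ 1 / (n : ℝ) := by
      calc 1 / (n : ℝ) ^ 2 * (∑ i, |v l i|) ^ 2 ≤ 1 / (n : ℝ) ^ 2 * n :=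
            mul_le_mul_of_nonneg_left h6 (by positivity)
        _ = 1 / (n : ℝ) := by field_simp
    rw [h1, h3]
    have h9 := (abs_le.1 h5).1
    linarith
  · rw [← htr]
    simp only [hW, if_true]
    rw [Finset.sum_add_distrib, hM0]
    simp only [Finset.sum_const, Finset.card_univ, Fintype.card_fin, nsmul_eq_mul, add_zero]
    field_simp
  · intro i j
    have h1 : ∀ l, t l * (v l i * v l j) = ∑ j', W i j' * (v l j' * v l j) := by
      intro l
      calc t l * (v l i * v l j) = (t l * v l i) * v l j := by ring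
        _ = ∑ j', W i j' * (v l j' * v l j) := by
          rw [← hWv l i, Finset.sum_mul]
          exact Finset.sum_congr rfl fun j' _ => by ring
    simp only [h1]
    rw [Finset.sum_comm]
    simp only [← Finset.mul_sum, hcol]
    simp only [mul_ite, mul_one, mul_zero]
    rw [Finset.sum_ite_eq']
    simp [hW]

theorem cluster_avg (P : IsPair a b e) (h1 : lam a b 1 ≠ 0) {k n : ℕ} {δ : ℝ} (hδ : 0 ≤ δ)
    {w : Fin (k + n) → E} (hw : Fr a b e δ w) (hn : 0 < n)
    (hgap : mu a b k - mu a b (k + n - 1) ≤ δ) (h : LinearMap.BilinForm ℝ E) {κ : ℝ}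
    (hs : ∀ u v, h u v = h v u) (hκ : ∀ u, |h u u| ≤ κ * b u u) (hκ0 : 0 ≤ κ) (hκ1 : κ ≤ 1 / 2)
    (M : Fin n → Fin n → ℝ) (hMs : ∀ i j, M i j = M j i) (hM0 : ∑ i, M i i = 0)
    (hMb : ∀ i j, |M i j| ≤ 1 / (n : ℝ) ^ 2) :
    ∑ i ∈ Finset.range (k + 1), mu a b i - (k + 2) * δ
        + ∑ i : Fin k, h (w (Fin.castAdd n i)) (w (Fin.castAdd n i))
        + (1 / (n : ℝ)) * ∑ i, h (w (Fin.natAdd k i)) (w (Fin.natAdd k i))
        + ∑ i, ∑ j, M i j * h (w (Fin.natAdd k i)) (w (Fin.natAdd k j))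
        - (k + 1) * (2 * κ ^ 2 * mu a b 0) ≤
      ∑ i ∈ Finset.range (k + 1), mu a (b + h) i := by
  obtain ⟨t, v, ht0, ht1, hv2, hW⟩ := A3_dec hn M hMs hM0 hMb
  have hunit := fun l => cluster_unit P h1 hδ hw hn hgap h hs hκ hκ0 hκ1 (v l) (hv2 l)
  set X : Fin n → Fin n → ℝ := fun i j => h (w (Fin.natAdd k i)) (w (Fin.natAdd k j)) with hX
  set C : ℝ := ∑ i ∈ Finset.range (k + 1), mu a b i - (k + 2) * δ
        + ∑ i : Fin k, h (w (Fin.castAdd n i)) (w (Fin.castAdd n i)) with hC
  set R : ℝ := ∑ i ∈ Finset.range (k + 1), mu a (b + h) i with hR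
  have hkey : ∑ l, t l * (∑ i, ∑ j, v l i * v l j * X i j) =
      (1 / (n : ℝ)) * ∑ i, X i i + ∑ i, ∑ j, M i j * X i j := by
    have h2 : ∑ l, t l * (∑ i, ∑ j, v l i * v l j * X i j) =
        ∑ i, ∑ j, (∑ l, t l * (v l i * v l j)) * X i j := by
      simp only [Finset.mul_sum, Finset.sum_mul]
      rw [Finset.sum_comm]
      refine Finset.sum_congr rfl fun i _ => ?_
      rw [Finset.sum_comm]
      refine Finset.sum_congr rfl fun j _ => ?_
      refine Finset.sum_congr rfl fun l _ => ?_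
      ring
    rw [h2]
    simp only [hW, add_mul, Finset.sum_add_distrib]
    congr 1
    rw [Finset.mul_sum]
    refine Finset.sum_congr rfl fun i _ => ?_
    simp only [ite_mul, zero_mul]
    rw [Finset.sum_ite_eq]
    simp
  have hsum : ∑ l, t l * (C + ∑ i, ∑ j, v l i * v l j * X i j
      - (k + 1) * (2 * κ ^ 2 * mu a b 0)) ≤ ∑ l, t l * R :=
    Finset.sum_le_sum fun l _ => mul_le_mul_of_nonneg_left (hunit l) (ht0 l)
  have hl : ∑ l, t l * (C + ∑ i, ∑ j, v l i * v l j * X i j
      - (k + 1) * (2 * κ ^ 2 * mu a b 0)) =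
      C - (k + 1) * (2 * κ ^ 2 * mu a b 0) +
        ∑ l, t l * (∑ i, ∑ j, v l i * v l j * X i j) := by
    have h3 : ∀ l, t l * (C + ∑ i, ∑ j, v l i * v l j * X i j
        - (k + 1) * (2 * κ ^ 2 * mu a b 0)) =
        t l * (C - (k + 1) * (2 * κ ^ 2 * mu a b 0)) +
          t l * (∑ i, ∑ j, v l i * v l j * X i j) := fun l => by ring
    simp only [h3]
    rw [Finset.sum_add_distrib, ← Finset.sum_mul, ht1, one_mul]
  have hr : ∑ l, t l * R = R := by rw [← Finset.sum_mul, ht1, one_mul]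
  rw [hl, hr, hkey] at hsum
  linarith

end LibQR35
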