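import Pool.Agent.LibQR35.A1

/-! The one sided inequality for a test operator `W`, `0 <= W <= 1`, on a cluster. -/

open MeasureTheory Set Filter Topology
open scoped ContDiff ENNReal NNReal unitInterval

namespace LibQR35

open BGS
open Pool.BGR (PM upI pj)

variable {E : Type} [AddCommGroup E] [Module ℝ E] {a b : LinearMap.BilinForm ℝ E} {e : E}

/-- spectral decomposition with eigenvalues in `[0, 1]` -/
theorem BA2_dec {n : ℕ} (W : Fin n → Fin n → ℝ) (hWs : ∀ i j, W i j = W j i)
    (hW0 : ∀ x : Fin n → ℝ, 0 ≤ ∑ i, ∑ j, W i j * (x i * x j))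
    (hW1 : ∀ x : Fin n → ℝ, ∑ i, ∑ j, W i j * (x i * x j) ≤ ∑ i, x i ^ 2) :
    ∃ (t : Fin n → ℝ) (v : Fin n → Fin n → ℝ), (∀ l, 0 ≤ t l ∧ t l ≤ 1) ∧
      (∀ l l', ∑ i, v l i * v l' i = if l = l' then 1 else 0) ∧
      ∀ i j, ∑ l, t l * (v l i * v l j) = W i j := by
  obtain ⟨t, v, _, hv, hWv, htr⟩ := KYF_diag W hWs
  have hv2 : ∀ l, ∑ i, v l i ^ 2 = 1 := by
    intro l
    have := hv l l
    simp only [if_true] at this
    rw [← this]
    exact Finset.sum_congr rfl fun i _ => by ring
  have hcol : ∀ i j, ∑ l, v l i * v l j = if i = j then 1 else 0 := by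
    intro i j
    have h1 : (Matrix.of v) * (Matrix.of v).transpose = 1 := by
      ext i' j'
      rw [Matrix.mul_apply]
      simp only [Matrix.of_apply, Matrix.transpose_apply]
      rw [hv i' j', Matrix.one_apply]
    have h2 := mul_eq_one_comm.1 h1
    have h3 := congrFun (congrFun h2 i) j
    rw [Matrix.mul_apply, Matrix.one_apply] at h3
    simpa only [Matrix.of_apply, Matrix.transpose_apply] using h3
  refine ⟨t, v, ?_, hv, ?_⟩
  · intro l
    have h1 : t l = ∑ i, ∑ j, W i j * (v l i * v l j) := by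
      have h2 : t l = ∑ i, v l i * (t l * v l i) := by
        calc t l = t l * ∑ i, v l i ^ 2 := by rw [hv2 l, mul_one]
          _ = ∑ i, v l i * (t l * v l i) := by
            rw [Finset.mul_sum]
            exact Finset.sum_congr rfl fun i _ => by ring
      rw [h2]
      refine Finset.sum_congr rfl fun i _ => ?_
      rw [← hWv l i, Finset.mul_sum]
      exact Finset.sum_congr rfl fun j _ => by ring
    rw [h1]
    exact ⟨hW0 (v l), (hW1 (v l)).trans (hv2 l).le⟩
  · intro i j
    have h1 : ∀ l, t l * (v l i * v l j) = ∑ j', W i j' * (v l j' * v l j) := by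
      intro l
      calc t l * (v l i * v l j) = (t l * v l i) * v l j := by ring
        _ = ∑ j', W i j' * (v l j' * v l j) := by
          rw [← hWv l i, Finset.sum_mul]
          exact Finset.sum_congr rfl fun j' _ => by ring
    simp only [h1]
    rw [Finset.sum_comm]
    simp only [← Finset.mul_sum, hcol]
    simp only [mul_ite, mul_one, mul_zero]
    rw [Finset.sum_ite_eq']
    simp

/-- `signed` for any finite index set -/
theorem BA2_signed (P : IsPair a b e) (h1 : lam a b 1 ≠ 0) {ι : Type} [Fintype ι]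
    [DecidableEq ι] (w : ι → E)
    (hw : ∀ i j, a (w i) (w j) = if i = j then 1 else 0) (hwe : ∀ i, b (w i) e = 0) {M : ℝ}
    (hM : ∀ i, b (w i) (w i) ≤ M) (h : LinearMap.BilinForm ℝ E) {κ : ℝ}
    (hs : ∀ u v, h u v = h v u) (hκ : ∀ u, |h u u| ≤ κ * b u u) (hκ0 : 0 ≤ κ) (hκ1 : κ ≤ 1 / 2) :
    ∑ i, (b (w i) (w i) + h (w i) (w i)) - (Fintype.card ι : ℝ) * (2 * κ ^ 2 * M) ≤
      ∑ k ∈ Finset.range (Fintype.card ι), mu a (b + h) k := by
  have g := signed P h1 (fun i : Fin (Fintype.card ι) => w ((Fintype.equivFin ι).symm i))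
    (fun i j => by
      rw [hw]
      by_cases hij : i = j
      · rw [if_pos hij, if_pos (by rw [hij])]
      · rw [if_neg hij, if_neg (fun hh => hij ((Fintype.equivFin ι).symm.injective hh))])
    (fun i => hwe _) (fun i => hM _) h hs hκ hκ0 hκ1
  have hsum : ∑ i : Fin (Fintype.card ι), (b (w ((Fintype.equivFin ι).symm i))
      (w ((Fintype.equivFin ι).symm i)) + h (w ((Fintype.equivFin ι).symm i))
        (w ((Fintype.equivFin ι).symm i))) = ∑ i, (b (w i) (w i) + h (w i) (w i)) :=
    Equiv.sum_comp (Fintype.equivFin ι).symm fun i => b (w i) (w i) + h (w i) (w i)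
  rw [hsum] at g
  exact g

theorem box_gen (P : IsPair a b e) (h1 : lam a b 1 ≠ 0) {k n : ℕ} {δ : ℝ}
    {w : Fin (k + n) → E} (hw : Fr a b e δ w) (h : LinearMap.BilinForm ℝ E) {κ : ℝ}
    (hs : ∀ u v, h u v = h v u) (hκ : ∀ u, |h u u| ≤ κ * b u u) (hκ0 : 0 ≤ κ) (hκ1 : κ ≤ 1 / 2)
    (t : ℝ) (W : Fin n → Fin n → ℝ) (hWs : ∀ i j, W i j = W j i)
    (hW0 : ∀ x : Fin n → ℝ, 0 ≤ ∑ i, ∑ j, W i j * (x i * x j))
    (hW1 : ∀ x : Fin n → ℝ, ∑ i, ∑ j, W i j * (x i * x j) ≤ ∑ i, x i ^ 2) :
    ∑ i : Fin k, (b (w (Fin.castAdd n i)) (w (Fin.castAdd n i))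
          + h (w (Fin.castAdd n i)) (w (Fin.castAdd n i)) - t)
        + ∑ i, ∑ j, W i j *
            (b (w (Fin.natAdd k i)) (w (Fin.natAdd k j))
              + h (w (Fin.natAdd k i)) (w (Fin.natAdd k j)) - if i = j then t else 0)
        - (k + n) * (2 * κ ^ 2 * mu a b 0) ≤
      ∑ i ∈ Finset.range (k + n), max (mu a (b + h) i - t) 0 := by
  classical
  have hanti := mu_anti (a := a) (b := b) h1
  have hmu0 : 0 ≤ mu a b 0 := mu_nonneg a b 0
  obtain ⟨τ, v, hτ, hv, hW⟩ := BA2_dec W hWs hW0 hW1
  have hv2 : ∀ l, ∑ i, v l i ^ 2 = 1 := by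
    intro l
    have := hv l l
    simp only [if_true] at this
    rw [← this]
    exact Finset.sum_congr rfl fun i _ => by ring
  set U : Fin k → E := fun i => w (Fin.castAdd n i) with hU
  set u : Fin n → E := fun j => w (Fin.natAdd k j) with hu
  set V : Fin n → E := fun l => ∑ j, v l j • u j with hV
  have hVV : ∀ (c : LinearMap.BilinForm ℝ E) (l l' : Fin n),
      c (V l) (V l') = ∑ i, ∑ j, v l i * v l' j * c (u i) (u j) := by
    intro c l l'
    simp only [hV, map_sum, map_smul, LinearMap.sum_apply, LinearMap.smul_apply, smul_eq_mul,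
      Finset.mul_sum]
    rw [Finset.sum_comm]
    refine Finset.sum_congr rfl fun i _ => Finset.sum_congr rfl fun j _ => ?_
    ring
  have hdd : ∀ (c : LinearMap.BilinForm ℝ E) (l l' : Fin n),
      (∀ i j, i ≠ j → c (u i) (u j) = 0) →
      c (V l) (V l') = ∑ i, v l i * v l' i * c (u i) (u i) := by
    intro c l l' hc
    rw [hVV c l l']
    refine Finset.sum_congr rfl fun i _ => ?_
    rw [Finset.sum_eq_single i]
    · intro j _ hj
      rw [hc i j hj.symm, mul_zero]
    · intro hi
      exact absurd (Finset.mem_univ i) hi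
  have hinj : ∀ i j : Fin n, i ≠ j → Fin.natAdd k i ≠ Fin.natAdd k j := by
    intro i j hij he
    apply hij
    have := congrArg Fin.val he
    simp only [Fin.val_natAdd] at this
    exact Fin.ext (by omega)
  have hUu : ∀ (i : Fin k) (j : Fin n), Fin.castAdd n i ≠ Fin.natAdd k j := by
    intro i j he
    have := congrArg Fin.val he
    simp only [Fin.val_natAdd, Fin.val_castAdd] at this
    have := i.2
    omega
  have auu : ∀ i j, a (u i) (u j) = if i = j then 1 else 0 := by
    intro i j
    simp only [hu]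
    rw [hw.orth]
    by_cases hij : i = j
    · rw [if_pos hij, if_pos (by rw [hij])]
    · rw [if_neg hij, if_neg (hinj i j hij)]
  have aUU : ∀ i j, a (U i) (U j) = if i = j then 1 else 0 := by
    intro i j
    simp only [hU]
    rw [hw.orth]
    by_cases hij : i = j
    · rw [if_pos hij, if_pos (by rw [hij])]
    · rw [if_neg hij, if_neg]
      intro he
      apply hij
      have := congrArg Fin.val he
      simp only [Fin.val_castAdd] at this
      exact Fin.ext this
  have aUu : ∀ i j, a (U i) (u j) = 0 := by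
    intro i j
    simp only [hU, hu]
    rw [hw.orth, if_neg (hUu i j)]
  have aUV : ∀ i l, a (U i) (V l) = 0 := by
    intro i l
    simp only [hV]
    rw [map_sum]
    refine Finset.sum_eq_zero fun j _ => ?_
    rw [map_smul, aUu, smul_zero]
  have aVU : ∀ i l, a (V l) (U i) = 0 := fun i l => by rw [P.asym, aUV]
  have aVV : ∀ l l', a (V l) (V l') = if l = l' then 1 else 0 := by
    intro l l'
    rw [hdd a l l' fun i j hij => by rw [auu, if_neg hij], ← hv l l']
    refine Finset.sum_congr rfl fun i _ => ?_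
    rw [auu, if_pos rfl, mul_one]
  have bVe : ∀ l, b (V l) e = 0 := by
    intro l
    simp only [hV]
    rw [map_sum, LinearMap.sum_apply]
    refine Finset.sum_eq_zero fun j _ => ?_
    rw [map_smul, LinearMap.smul_apply]
    simp only [hu]
    rw [hw.one, smul_zero]
  have bVV_le : ∀ l, b (V l) (V l) ≤ mu a b 0 := by
    intro l
    rw [hdd b l l fun i j hij => by simp only [hu]; exact hw.diag _ _ (hinj i j hij)]
    calc ∑ i, v l i * v l i * b (u i) (u i) ≤ ∑ i, v l i ^ 2 * mu a b 0 := by
          refine Finset.sum_le_sum fun i _ => ?_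
          rw [← sq]
          exact mul_le_mul_of_nonneg_left (le_trans (hw.up _) (hanti (Nat.zero_le _)))
            (sq_nonneg _)
      _ = mu a b 0 := by rw [← Finset.sum_mul, hv2 l, one_mul]
  set g : Fin n → ℝ := fun l => b (V l) (V l) + h (V l) (V l) - t with hg
  set T : Finset (Fin n) := Finset.univ.filter fun l => 0 < g l with hT
  -- the double sum
  have hdouble : ∑ i, ∑ j, W i j *
        (b (u i) (u j) + h (u i) (u j) - if i = j then t else 0) = ∑ l, τ l * g l := by
    have e1 : ∀ l, τ l * g l = ∑ i, ∑ j, (τ l * (v l i * v l j)) *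
        (b (u i) (u j) + h (u i) (u j) - if i = j then t else 0) := by
      intro l
      have e2 : t = ∑ i, ∑ j, v l i * v l j * (if i = j then t else 0) := by
        have e3 : ∀ i, ∑ j, v l i * v l j * (if i = j then t else 0) = v l i ^ 2 * t := by
          intro i
          simp only [mul_ite, mul_zero]
          rw [Finset.sum_ite_eq]
          simp only [Finset.mem_univ, if_true]
          ring
        simp only [e3]
        rw [← Finset.sum_mul, hv2 l, one_mul]
      have e4 : g l = ∑ i, ∑ j, (v l i * v l j) *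
          (b (u i) (u j) + h (u i) (u j) - if i = j then t else 0) := by
        simp only [hg]
        rw [hVV b l l, hVV h l l]
        nth_rewrite 1 [e2]
        rw [← Finset.sum_add_distrib, ← Finset.sum_sub_distrib]
        refine Finset.sum_congr rfl fun i _ => ?_
        rw [← Finset.sum_add_distrib, ← Finset.sum_sub_distrib]
        refine Finset.sum_congr rfl fun j _ => ?_
        ring
      rw [e4, Finset.mul_sum]
      refine Finset.sum_congr rfl fun i _ => ?_
      rw [Finset.mul_sum]
      refine Finset.sum_congr rfl fun j _ => ?_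
      ring
    simp only [e1]
    symm
    rw [Finset.sum_comm]
    refine Finset.sum_congr rfl fun i _ => ?_
    rw [Finset.sum_comm]
    refine Finset.sum_congr rfl fun j _ => ?_
    rw [← Finset.sum_mul, hW i j]
  have hle : ∑ l, τ l * g l ≤ ∑ l ∈ T, g l := by
    rw [hT, Finset.sum_filter]
    refine Finset.sum_le_sum fun l _ => ?_
    split_ifs with hl
    · exact mul_le_of_le_one_left hl.le (hτ l).2
    · exact mul_nonpos_of_nonneg_of_nonpos (hτ l).1 (not_lt.1 hl)
  -- the vectors
  have hsig := BA2_signed P h1 (ι := Fin k ⊕ ↥T) (Sum.elim U fun l => V l)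
    (by
      rintro (i | i) (j | j)
      · simp only [Sum.elim_inl, aUU, Sum.inl.injEq]
      · simp only [Sum.elim_inl, Sum.elim_inr, aUV, reduceCtorEq, if_false]
      · simp only [Sum.elim_inl, Sum.elim_inr, aVU, reduceCtorEq, if_false]
      · simp only [Sum.elim_inr, aVV, Sum.inr.injEq, Subtype.ext_iff])
    (by
      rintro (i | i)
      · exact hw.one _
      · exact bVe _)
    (M := mu a b 0)
    (by
      rintro (i | i)
      · exact le_trans (hw.up _) (hanti (Nat.zero_le _))
      · exact bVV_le _) h hs hκ hκ0 hκ1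
  rw [Fintype.sum_sum_type, Fintype.card_sum, Fintype.card_fin, Fintype.card_coe] at hsig
  simp only [Sum.elim_inl, Sum.elim_inr] at hsig
  rw [Finset.sum_coe_sort T fun l => b (V l) (V l) + h (V l) (V l)] at hsig
  have hTn : T.card ≤ n := by
    have := Finset.card_le_univ T
    rwa [Fintype.card_fin] at this
  have hTg : ∑ l ∈ T, g l = ∑ l ∈ T, (b (V l) (V l) + h (V l) (V l)) - T.card * t := by
    simp only [hg]
    rw [Finset.sum_sub_distrib, Finset.sum_const, nsmul_eq_mul]
  have hUt : ∑ i : Fin k, (b (U i) (U i) + h (U i) (U i) - t) =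
      ∑ i : Fin k, (b (U i) (U i) + h (U i) (U i)) - k * t := by
    rw [Finset.sum_sub_distrib, Finset.sum_const, Finset.card_univ, Fintype.card_fin,
      nsmul_eq_mul]
  have hmax : ∑ i ∈ Finset.range (k + T.card), mu a (b + h) i - (k + T.card) * t ≤
      ∑ i ∈ Finset.range (k + n), max (mu a (b + h) i - t) 0 := by
    have e1 : ∑ i ∈ Finset.range (k + T.card), mu a (b + h) i - (k + T.card) * t =
        ∑ i ∈ Finset.range (k + T.card), (mu a (b + h) i - t) := by
      rw [Finset.sum_sub_distrib, Finset.sum_const, Finset.card_range, nsmul_eq_mul]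
      push_cast
      ring
    rw [e1]
    refine (Finset.sum_le_sum fun i _ => le_max_left (mu a (b + h) i - t) 0).trans ?_
    refine Finset.sum_le_sum_of_subset_of_nonneg ?_ fun i _ _ => le_max_right _ _
    intro i hi
    rw [Finset.mem_range] at hi ⊢
    omega
  have hκm : ((k : ℝ) + T.card) * (2 * κ ^ 2 * mu a b 0) ≤ (k + n) * (2 * κ ^ 2 * mu a b 0) := by
    refine mul_le_mul_of_nonneg_right ?_ (by positivity)
    have : (T.card : ℝ) ≤ n := by exact_mod_cast hTn
    linarith
  rw [hdouble, hUt]
  push_cast at hsig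
  linarith

end LibQR35
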