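import Pool.Agent.LibQR35.Defs

/-! Second layer (two levels in an interval): definitions. -/

open MeasureTheory Set Filter Topology
open scoped ContDiff ENNReal NNReal unitInterval

namespace LibQR35

open BGS
open Pool.BGR (PM upI pj)

variable {Γ : Type} [Group Γ] [MulAction Γ Pl] {D : Set Pl}

/-- The area of the metric `e^φ m`. -/
noncomputable def arE (hX : Surface Γ D) (m : Mt Γ D) (φ : TestS Γ) : ℝ :=
  bF hX m (expT φ) (oneT Γ) (oneT Γ)

/-- The reciprocals of the eigenvalues of the metric `e^φ m` scaled to area one. -/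
noncomputable def nuE (hX : Surface Γ D) (m : Mt Γ D) (φ : TestS Γ) (k : ℕ) : ℝ :=
  muE hX m φ k / arE hX m φ

/-- The sum of the positive parts of the first `N` of the numbers `nuE - ν`. -/
noncomputable def FE (hX : Surface Γ D) (m : Mt Γ D) (N : ℕ) (ν : ℝ) (φ : TestS Γ) : ℝ :=
  ∑ i ∈ Finset.range N, max (nuE hX m φ i - ν) 0

/-- The centred moments. -/
noncomputable def Xc (Γ : Type) [Group Γ] [MulAction Γ Pl] (D : Set Pl) (m : Pl → Co) (c : ℕ → ℝ)
    (φ : Pl → ℝ) (ν : ℝ) {n : ℕ} (u : Fin n → Pl → ℝ) (j : Dir) (i i' : Fin n) : ℝ :=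
  c j.1 * ∫ z in D, Real.exp (φ z) * per Γ (bmp (j.1 + 1) j.2) z *
    (u i z * u i' z - if i = i' then ν else 0) * √(dt (m z))

/-- The map of a tuple of symmetric matrices, restricted to symmetric matrices, is onto, with a
bounded right inverse. -/
def SurC {n d : ℕ} (K : ℝ) (X : Fin d → Fin n → Fin n → ℝ) : Prop :=
  ∀ q : Fin d → ℝ, ∃ M : Fin n → Fin n → ℝ, (∀ i j, M i j = M j i) ∧
    (∀ i j, |M i j| ≤ K * ‖q‖) ∧ ∀ l, ∑ i, ∑ j, M i j * X l i j = q l

/-- A parametrisation by `Fin d → ℝ` of a space of symmetric matrices. -/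
structure ParC {n d : ℕ} (B : (Fin d → ℝ) →ₗ[ℝ] (Fin n → Fin n → ℝ)) : Prop where
  inj : Function.Injective B
  sym : ∀ t i j, B t i j = B t j i

/-- No nonzero quadratic form in `n` orthogonal eigenfunctions, for the same positive eigenvalue of
a metric of negative curvature, is constant. -/
def IndepC (hX : Surface Γ D) (m : Mt Γ D) (n : ℕ) : Prop :=
  ∀ (w : TestS Γ), (∀ z, 0 < w.1 z) →
    (∃ (m' : Mt Γ D) (q : ℝ), 0 < q ∧ ∀ z, m'.1.1 z = (q * w.1 z) • m.1.1 z) →
    ∀ (la μ : ℝ), 0 < la → 0 < μ → ∀ U : Fin n → TestS Γ,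
    (∀ i (h : TestS Γ), aF hX m (U i) h = la * bF hX m w (U i) h) →
    (∀ i j, bF hX m w (U i) (U j) = if i = j then μ else 0) → ∀ M : Fin n → Fin n → ℝ,
    (∀ i j, M i j = M j i) → ∀ C : ℝ,
    (∀ z, ∑ i, ∑ j, M i j * ((U i).1 z * (U j).1 z) = C) → M = 0

end LibQR35
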