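import Pool.Agent.LibQR35.BD
import Pool.Agent.LibQR40.E1e

/-! ROW BI : no nonzero quadratic form in one or two orthogonal eigenfunctions is constant.

PLAN. `indepC1`: `M 0 0 * U 0 ^ 2 = C`; `QR.has_zero` gives a zero of `U 0`, so `C = 0`; if `M 0 0 ≠ 0` then
`U 0 = 0` everywhere (Subtype.ext, funext), so `μ = bF (U 0) (U 0) = 0`, contradiction. `indepC2`:
`Fin.sum_univ_two`: `M 0 0 * U0^2 + 2 * M 0 1 * U0 * U1 + M 1 1 * U1^2 = C` (symmetry); `QR.no_const` with
`α = M 0 0`, `β = 2 * M 0 1`, `γ = M 1 1`, `δ = C`; independence: `a • U0 + b • U1 = 0` paired with `U0`, `U1` in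
`bF hX m w` gives `a μ = 0`, `b μ = 0`. -/

open MeasureTheory Set Filter Topology
open scoped ContDiff ENNReal NNReal unitInterval

namespace LibQR35

open BGS
open Pool.BGR (PM upI pj)

open QR

variable {Γ : Type} [Group Γ] [MulAction Γ Pl] {D : Set Pl}

private theorem BI_ne (hX : Surface Γ D) (m : Mt Γ D) (w : TestS Γ) {n : ℕ} {μ : ℝ} (hμ : 0 < μ)
    (U : Fin n → TestS Γ) (hb : ∀ i j, bF hX m w (U i) (U j) = if i = j then μ else 0)
    (a : Fin n → ℝ) (h : ∑ i, a i • U i = 0) (j : Fin n) : a j = 0 := by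
  have h1 : bF hX m w (∑ i, a i • U i) (U j) = a j * μ := by
    rw [map_sum, LinearMap.sum_apply, Finset.sum_eq_single j]
    · rw [map_smul, LinearMap.smul_apply, hb, if_pos rfl, smul_eq_mul]
    · intro i _ hij
      rw [map_smul, LinearMap.smul_apply, hb, if_neg hij, smul_zero]
    · intro h2
      exact absurd (Finset.mem_univ j) h2
  rw [h, map_zero, LinearMap.zero_apply] at h1
  exact (mul_eq_zero.1 h1.symm).resolve_right hμ.ne'

theorem indepC1 (hX : Surface Γ D) (m : Mt Γ D) : IndepC hX m 1 := by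
  intro w hw _ la μ hla hμ U hU hb M _ C hC
  have hC' : ∀ z, M 0 0 * ((U 0).1 z * (U 0).1 z) = C := by
    intro z
    have h := hC z
    simpa only [Fin.sum_univ_one] using h
  obtain ⟨z0, hz0⟩ := has_zero hX m w hw hla (U 0) (hU 0)
  have hC0 : C = 0 := by
    have h := hC' z0
    rw [hz0, mul_zero, mul_zero] at h
    exact h.symm
  have hM : M 0 0 = 0 := by
    by_contra hne
    have h1 : ∑ i : Fin 1, (1 : ℝ) • U i = 0 := by
      rw [Fin.sum_univ_one, one_smul]
      refine Subtype.ext (funext fun z => ?_)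
      have h2 := hC' z
      rw [hC0] at h2
      exact mul_self_eq_zero.1 ((mul_eq_zero.1 h2).resolve_left hne)
    exact one_ne_zero (BI_ne hX m w hμ U hb (fun _ => 1) h1 0)
  funext i j
  rw [Subsingleton.elim i 0, Subsingleton.elim j 0, hM]
  rfl

theorem indepC2 (hX : Surface Γ D) (m : Mt Γ D) : IndepC hX m 2 := by
  rintro w hw ⟨m', q, hq, hm⟩ la μ hla hμ U hU hb M hsym C hC
  have hind : ∀ a b : ℝ, a • U 0 + b • U 1 = 0 → a = 0 ∧ b = 0 := by
    intro a b hab
    have h1 : ∑ i : Fin 2, (![a, b] i) • U i = 0 := by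
      rw [Fin.sum_univ_two]
      exact hab
    exact ⟨BI_ne hX m w hμ U hb ![a, b] h1 0, BI_ne hX m w hμ U hb ![a, b] h1 1⟩
  obtain ⟨h1, h2, h3, -⟩ := no_const hX m m' w hw hq hla hm (U 0) (U 1) (hU 0) (hU 1) hind
    (M 0 0) (2 * M 0 1) (M 1 1) C (fun z => by
      have h := hC z
      simp only [Fin.sum_univ_two, hsym 1 0] at h
      rw [← h]
      ring)
  have h4 : M 0 1 = 0 := by linarith
  have h5 : M 1 0 = 0 := by rw [hsym, h4]
  funext i j
  fin_cases i <;> fin_cases j
  · exact h1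
  · exact h4
  · exact h5
  · exact h3

end LibQR35
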