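import Pool.Agent.LibQR35.C1

/-! ROW C9 : limits of the moments.

PLAN. Cauchy-Schwarz for the nonnegative forms `bF hX m w`, `w >= 0` (`KEX_nonneg`,
`LinearMap.BilinForm.apply_mul_apply_le_of_forall_zero_le`). `moment_D`:
`bF (expT (φj j)) (u j) (v j) - bF (expT φ) (u j) (v j) → 0` by `weight_close` and boundedness of
`bF (expT φ) (u j) (u j)` (`<= e^M bF (oneT) (u j) (u j)`, `bF_le`, `test_bdd hX φ`;
`u j = U + (u j - U)`), and `bF (expT φ) (u j) (v j) - bF (expT φ) U V =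
bF (expT φ) (u j - U) (v j) + bF (expT φ) U (v j - V) → 0`. `moment_bump`: `P = per Γ (bmp ..)` is in
TestS (`KEX_eta` / `PH1_per`), bounded by some `C` (`test_bdd`) and nonnegative; the integrand is that of
`bF hX m (KEX_mul (expT (φj j)) P)`; compare with weight `exp φ * P` exactly as before:
`|exp φj - exp φ| <= (exp ε - 1) exp φ` and `|P| <= C` give
`|difference| <= C (exp ε - 1) ∫ exp φ |u| |v| √dt` — or apply `weight_close` to the two functions
`P * u j` and `v j` (`KEX_mul`). `Xm_tendsto` is `moment_bump` times the constant `c j.1`. -/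

open MeasureTheory Set Filter Topology
open scoped ContDiff ENNReal NNReal unitInterval

namespace LibQR35

open BGS
open Pool.BGR (PM upI pj)

variable {Γ : Type} [Group Γ] [MulAction Γ Pl] {D : Set Pl}

/-- Cauchy-Schwarz. -/
private theorem C9_cs {V : Type} [AddCommGroup V] [Module ℝ V] (B : LinearMap.BilinForm ℝ V)
    (hs : ∀ u v, B u v = B v u) (h0 : ∀ u, 0 ≤ B u u) (u v : V) :
    |B u v| ≤ √(B u u) * √(B v v) := by
  have h1 := LinearMap.BilinForm.apply_mul_apply_le_of_forall_zero_le B h0 u v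
  rw [hs v u] at h1
  rw [← Real.sqrt_mul (h0 u)]
  refine Real.abs_le_sqrt ?_
  rw [sq]
  exact h1

/-- Continuity of a form dominated by another one. -/
private theorem C9_cont {V : Type} [AddCommGroup V] [Module ℝ V] (B O : LinearMap.BilinForm ℝ V)
    (hs : ∀ u v, B u v = B v u) (h0 : ∀ u, 0 ≤ B u u) {C : ℝ} (hC : ∀ u, B u u ≤ C * O u u)
    (u v : ℕ → V) (U W : V)
    (hu : Tendsto (fun j => O (u j - U) (u j - U)) atTop (𝓝 0))
    (hv : Tendsto (fun j => O (v j - W) (v j - W)) atTop (𝓝 0)) :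
    Tendsto (fun j => B (u j) (v j)) atTop (𝓝 (B U W)) := by
  have hsq : ∀ (x : ℕ → V) (X : V), Tendsto (fun j => O (x j - X) (x j - X)) atTop (𝓝 0) →
      Tendsto (fun j => √(B (x j - X) (x j - X))) atTop (𝓝 0) := by
    intro x X hx
    have h1 : Tendsto (fun j => C * O (x j - X) (x j - X)) atTop (𝓝 0) := by
      simpa using hx.const_mul C
    have h2 : Tendsto (fun j => B (x j - X) (x j - X)) atTop (𝓝 0) :=
      squeeze_zero (fun j => h0 _) (fun j => hC _) h1
    simpa using h2.sqrt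
  have hu' := hsq u U hu
  have hv' := hsq v W hv
  have hz : ∀ (f : ℕ → ℝ) (x y : ℕ → V), (∀ j, f j = B (x j) (y j)) →
      Tendsto (fun j => √(B (x j) (x j)) * √(B (y j) (y j))) atTop (𝓝 0) →
      Tendsto f atTop (𝓝 0) := by
    intro f x y hf hxy
    refine squeeze_zero_norm (fun j => ?_) hxy
    rw [hf j, Real.norm_eq_abs]
    exact C9_cs B hs h0 _ _
  have h1 : Tendsto (fun j => B (u j - U) (v j - W)) atTop (𝓝 0) :=
    hz _ (fun j => u j - U) (fun j => v j - W) (fun j => rfl) (by simpa using hu'.mul hv')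
  have h2 : Tendsto (fun j => B (u j - U) W) atTop (𝓝 0) :=
    hz _ (fun j => u j - U) (fun _ => W) (fun j => rfl) (by simpa using hu'.mul_const (√(B W W)))
  have h3 : Tendsto (fun j => B U (v j - W)) atTop (𝓝 0) :=
    hz _ (fun _ => U) (fun j => v j - W) (fun j => rfl) (by simpa using hv'.const_mul (√(B U U)))
  have h4 : (fun j => B (u j) (v j)) =
      fun j => B (u j - U) (v j - W) + B (u j - U) W + B U (v j - W) + B U W := by
    funext j
    simp only [map_sub, LinearMap.sub_apply]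
    ring
  rw [h4]
  simpa using ((h1.add h2).add h3).add_const (B U W)

private theorem C9_dom (hX : Surface Γ D) (m : Mt Γ D) (φ : TestS Γ) :
    ∃ C : ℝ, ∀ u, bF hX m (expT φ) u u ≤ C * bF hX m (oneT Γ) u u := by
  obtain ⟨M, _, hM⟩ := test_bdd hX φ
  refine ⟨Real.exp M, fun u => bF_le hX m (fun z => ?_) u⟩
  rw [expT_apply]
  change Real.exp (φ.1 z) ≤ Real.exp M * 1
  rw [mul_one, Real.exp_le_exp]
  exact (abs_le.1 (hM z)).2

theorem moment_D (hX : Surface Γ D) (m : Mt Γ D) (φj : ℕ → TestS Γ) (φ : TestS Γ)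
    (hφ : ∀ ε : ℝ, 0 < ε → ∀ᶠ j in atTop, ∀ z, |(φj j).1 z - φ.1 z| ≤ ε) (u v : ℕ → TestS Γ)
    (U V : TestS Γ)
    (hu : Tendsto (fun j => bF hX m (oneT Γ) (u j - U) (u j - U)) atTop (𝓝 0))
    (hv : Tendsto (fun j => bF hX m (oneT Γ) (v j - V) (v j - V)) atTop (𝓝 0)) :
    Tendsto (fun j => bF hX m (expT (φj j)) (u j) (v j)) atTop
      (𝓝 (bF hX m (expT φ) U V)) := by
  obtain ⟨C, hC⟩ := C9_dom hX m φ
  have hs := KEX_symm hX m (expT φ)
  have h0 := KEX_nonneg hX m (expT φ) (fun z => (KEX_pos φ z).le)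
  have h1 := C9_cont _ _ hs h0 hC u v U V hu hv
  have h2 := C9_cont _ _ hs h0 hC u u U U hu hu
  have h3 := C9_cont _ _ hs h0 hC v v V V hv hv
  set q : ℝ := √(bF hX m (expT φ) U U) * √(bF hX m (expT φ) V V) with hq
  have h4 : Tendsto (fun j => √(bF hX m (expT φ) (u j) (u j)) *
      √(bF hX m (expT φ) (v j) (v j))) atTop (𝓝 q) := h2.sqrt.mul h3.sqrt
  have hq0 : 0 ≤ q := mul_nonneg (Real.sqrt_nonneg _) (Real.sqrt_nonneg _)
  have h5 : Tendsto (fun j => bF hX m (expT (φj j)) (u j) (v j) -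
      bF hX m (expT φ) (u j) (v j)) atTop (𝓝 0) := by
    rw [Metric.tendsto_nhds]
    intro δ hδ
    have hx : 0 < δ / (2 * (q + 1)) := by positivity
    have hε : 0 < Real.log (1 + δ / (2 * (q + 1))) := Real.log_pos (by linarith)
    have h6 : ∀ᶠ j in atTop, √(bF hX m (expT φ) (u j) (u j)) *
        √(bF hX m (expT φ) (v j) (v j)) < q + 1 := h4.eventually_lt_const (by linarith)
    filter_upwards [hφ _ hε, h6] with j hj1 hj2
    have h7 := weight_close hX m hj1 (u j) (v j)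
    rw [Real.exp_log (by linarith)] at h7
    rw [dist_zero_right, Real.norm_eq_abs]
    calc _ ≤ _ := h7
      _ ≤ (1 + δ / (2 * (q + 1)) - 1) * (q + 1) :=
          mul_le_mul_of_nonneg_left hj2.le (by linarith)
      _ = δ / 2 := by
          field_simp
          ring
      _ < δ := by linarith
  have h8 := h5.add h1
  simpa using h8

theorem Xm_tendsto (hX : Surface Γ D) (m : Mt Γ D) (c : ℕ → ℝ) (φj : ℕ → TestS Γ) (φ : TestS Γ)
    (hφ : ∀ ε : ℝ, 0 < ε → ∀ᶠ j in atTop, ∀ z, |(φj j).1 z - φ.1 z| ≤ ε) {n : ℕ}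
    (u : ℕ → Fin n → TestS Γ) (U : Fin n → TestS Γ)
    (hu : ∀ i, Tendsto (fun j => bF hX m (oneT Γ) (u j i - U i) (u j i - U i)) atTop (𝓝 0))
    (j : Dir) (i i' : Fin n) :
    Tendsto (fun N => Xm Γ D m.1.1 c (φj N).1 (fun i => (u N i).1) j i i') atTop
      (𝓝 (Xm Γ D m.1.1 c φ.1 (fun i => (U i).1) j i i')) := by
  set P : TestS Γ := ⟨per Γ (bmp (j.1 + 1) j.2), PH1_per hX j.1 j.2⟩ with hP
  have hform : ∀ (ψ : TestS Γ) (w w' : TestS Γ),
      c j.1 * ∫ z in D, Real.exp (ψ.1 z) * per Γ (bmp (j.1 + 1) j.2) z * w.1 z * w'.1 z *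
        √(dt (m.1.1 z)) = c j.1 * bF hX m (expT ψ) (KEX_mul P w) w' := by
    intro ψ w w'
    rw [bF_apply]
    congr 1
    refine integral_congr_ae (ae_of_all _ fun z => ?_)
    change Real.exp (ψ.1 z) * per Γ (bmp (j.1 + 1) j.2) z * w.1 z * w'.1 z * √(dt (m.1.1 z)) =
      Real.exp (ψ.1 z) * (per Γ (bmp (j.1 + 1) j.2) z * w.1 z) * w'.1 z * √(dt (m.1.1 z))
    ring
  unfold Xm
  have h1 : (fun N => c j.1 * ∫ z in D, Real.exp ((φj N).1 z) * per Γ (bmp (j.1 + 1) j.2) z *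
      (u N i).1 z * (u N i').1 z * √(dt (m.1.1 z))) =
      fun N => c j.1 * bF hX m (expT (φj N)) (KEX_mul P (u N i)) (u N i') := by
    funext N
    exact hform _ _ _
  rw [h1, hform φ (U i) (U i')]
  refine Tendsto.const_mul _ (moment_D hX m φj φ hφ _ _ _ _ ?_ (hu i'))
  obtain ⟨C, _, hC⟩ := test_bdd hX P
  have h2 : ∀ x : TestS Γ, bF hX m (oneT Γ) (KEX_mul P x) (KEX_mul P x) ≤
      C ^ 2 * bF hX m (oneT Γ) x x := by
    intro x
    have h3 : bF hX m (oneT Γ) (KEX_mul P x) (KEX_mul P x) = bF hX m (KEX_mul P P) x x := by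
      rw [bF_apply, bF_apply]
      refine integral_congr_ae (ae_of_all _ fun z => ?_)
      change (1 : ℝ) * (P.1 z * x.1 z) * (P.1 z * x.1 z) * √(dt (m.1.1 z)) =
        (P.1 z * P.1 z) * x.1 z * x.1 z * √(dt (m.1.1 z))
      ring
    rw [h3]
    refine bF_le hX m (fun z => ?_) x
    change P.1 z * P.1 z ≤ C ^ 2 * 1
    have h4 := hC z
    have h5 : P.1 z * P.1 z = |P.1 z| ^ 2 := by rw [sq_abs, sq]
    rw [h5, mul_one]
    exact pow_le_pow_left₀ (abs_nonneg _) h4 2
  have h6 : ∀ N, KEX_mul P (u N i) - KEX_mul P (U i) = KEX_mul P (u N i - U i) := by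
    intro N
    refine Subtype.ext (funext fun z => ?_)
    change P.1 z * (u N i).1 z - P.1 z * (U i).1 z = P.1 z * ((u N i).1 z - (U i).1 z)
    ring
  have h7 : Tendsto (fun N => C ^ 2 * bF hX m (oneT Γ) (u N i - U i) (u N i - U i)) atTop
      (𝓝 0) := by simpa using (hu i).const_mul (C ^ 2)
  refine squeeze_zero (fun N => KEX_nonneg hX m (oneT Γ) (fun _ => zero_le_one) _) (fun N => ?_) h7
  rw [h6 N]
  exact h2 _

end LibQR35
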