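import Pool.Agent.LibQR35.BD
import Pool.Agent.LibQR35.C9

/-! ROW BM : limits of the centred moments; openness of surjectivity.

PLAN. `Xc = Xm - (if i = i' then ν else 0) * (c * ∫ exp φ * per * √dt)`, and the second integral is
`bF hX m (KEX_mul (expT φ) (per ..)) 1 1`, i.e. it is of the form `Xm` with the two functions equal to the
constant one (`oneT Γ`): apply `Xm_tendsto` also to the constant sequences `u N = fun _ => oneT Γ` (the
differences vanish). `surC_open`: copy of `sur_open` (row C7, LibQR35/C7.lean) without the traces. -/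

open MeasureTheory Set Filter Topology
open scoped ContDiff ENNReal NNReal unitInterval

namespace LibQR35

open BGS
open Pool.BGR (PM upI pj)

variable {Γ : Type} [Group Γ] [MulAction Γ Pl] {D : Set Pl}

theorem Xc_tendsto (hX : Surface Γ D) (m : Mt Γ D) (c : ℕ → ℝ) (φj : ℕ → TestS Γ) (φ : TestS Γ)
    (hφ : ∀ ε : ℝ, 0 < ε → ∀ᶠ j in atTop, ∀ z, |(φj j).1 z - φ.1 z| ≤ ε) {n : ℕ}
    (u : ℕ → Fin n → TestS Γ) (U : Fin n → TestS Γ)
    (hu : ∀ i, Tendsto (fun j => bF hX m (oneT Γ) (u j i - U i) (u j i - U i)) atTop (𝓝 0))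
    (νj : ℕ → ℝ) {ν : ℝ} (hν : Tendsto νj atTop (𝓝 ν)) (j : Dir) (i i' : Fin n) :
    Tendsto (fun N => Xc Γ D m.1.1 c (φj N).1 (νj N) (fun i => (u N i).1) j i i') atTop
      (𝓝 (Xc Γ D m.1.1 c φ.1 ν (fun i => (U i).1) j i i')) := by
  set P : TestS Γ := ⟨per Γ (bmp (j.1 + 1) j.2), PH1_per hX j.1 j.2⟩ with hP
  have hkey : ∀ (ψ : TestS Γ) (κ : ℝ) (w : Fin n → TestS Γ),
      Xc Γ D m.1.1 c ψ.1 κ (fun i => (w i).1) j i i' =
        Xm Γ D m.1.1 c ψ.1 (fun i => (w i).1) j i i' - (if i = i' then κ else 0) *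
          Xm Γ D m.1.1 c ψ.1 (fun _ : Fin n => (oneT Γ).1) j i i' := by
    intro ψ κ w
    have h1 : IntegrableOn (fun z => (expT ψ).1 z * (KEX_mul P (w i)).1 z * (w i').1 z *
        √(dt (m.1.1 z))) D :=
      Cmp_int hX (BGR_b_cont m (expT ψ).2.1 (KEX_mul P (w i)).2.1 (w i').2.1)
    have h2 : IntegrableOn (fun z => (expT ψ).1 z * (KEX_mul P (oneT Γ)).1 z * (oneT Γ).1 z *
        √(dt (m.1.1 z))) D :=
      Cmp_int hX (BGR_b_cont m (expT ψ).2.1 (KEX_mul P (oneT Γ)).2.1 (oneT Γ).2.1)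
    have e1 : Xm Γ D m.1.1 c ψ.1 (fun i => (w i).1) j i i' = c j.1 *
        ∫ z in D, (expT ψ).1 z * (KEX_mul P (w i)).1 z * (w i').1 z * √(dt (m.1.1 z)) := by
      unfold Xm
      congr 1
      refine integral_congr_ae (ae_of_all _ fun z => ?_)
      change Real.exp (ψ.1 z) * per Γ (bmp (j.1 + 1) j.2) z * (w i).1 z * (w i').1 z *
        √(dt (m.1.1 z)) =
        Real.exp (ψ.1 z) * (per Γ (bmp (j.1 + 1) j.2) z * (w i).1 z) * (w i').1 z *
          √(dt (m.1.1 z))
      ring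
    have e2 : Xm Γ D m.1.1 c ψ.1 (fun _ : Fin n => (oneT Γ).1) j i i' = c j.1 *
        ∫ z in D, (expT ψ).1 z * (KEX_mul P (oneT Γ)).1 z * (oneT Γ).1 z *
          √(dt (m.1.1 z)) := by
      unfold Xm
      congr 1
      refine integral_congr_ae (ae_of_all _ fun z => ?_)
      change Real.exp (ψ.1 z) * per Γ (bmp (j.1 + 1) j.2) z * (1 : ℝ) * (1 : ℝ) *
        √(dt (m.1.1 z)) =
        Real.exp (ψ.1 z) * (per Γ (bmp (j.1 + 1) j.2) z * (1 : ℝ)) * (1 : ℝ) *
          √(dt (m.1.1 z))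
      ring
    have e3 : Xc Γ D m.1.1 c ψ.1 κ (fun i => (w i).1) j i i' = c j.1 *
        ∫ z in D, ((expT ψ).1 z * (KEX_mul P (w i)).1 z * (w i').1 z * √(dt (m.1.1 z)) -
          (if i = i' then κ else 0) * ((expT ψ).1 z * (KEX_mul P (oneT Γ)).1 z *
            (oneT Γ).1 z * √(dt (m.1.1 z)))) := by
      unfold Xc
      congr 1
      refine integral_congr_ae (ae_of_all _ fun z => ?_)
      change Real.exp (ψ.1 z) * per Γ (bmp (j.1 + 1) j.2) z *
        ((w i).1 z * (w i').1 z - if i = i' then κ else 0) * √(dt (m.1.1 z)) =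
        Real.exp (ψ.1 z) * (per Γ (bmp (j.1 + 1) j.2) z * (w i).1 z) * (w i').1 z *
          √(dt (m.1.1 z)) - (if i = i' then κ else 0) *
          (Real.exp (ψ.1 z) * (per Γ (bmp (j.1 + 1) j.2) z * (1 : ℝ)) * (1 : ℝ) *
          √(dt (m.1.1 z)))
      ring
    rw [e1, e2, e3, integral_sub h1 (h2.const_mul _), integral_const_mul]
    ring
  have h1 := Xm_tendsto hX m c φj φ hφ u U hu j i i'
  have h2 := Xm_tendsto hX m c φj φ hφ (fun _ _ => oneT Γ) (fun _ : Fin n => oneT Γ)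
    (fun i => by
      simp only [sub_self, map_zero]
      exact tendsto_const_nhds) j i i'
  have h3 : Tendsto (fun N => if i = i' then νj N else 0) atTop
      (𝓝 (if i = i' then ν else 0)) := by
    split_ifs
    · exact hν
    · exact tendsto_const_nhds
  simp only [hkey]
  exact h1.sub (h3.mul h2)

theorem surC_open {n d : ℕ} (X : ℕ → Fin d → Fin n → Fin n → ℝ) (X' : Fin d → Fin n → Fin n → ℝ)
    (hX : ∀ l i j, Tendsto (fun N => X N l i j) atTop (𝓝 (X' l i j)))
    (h : ∀ q : Fin d → ℝ, ∃ M : Fin n → Fin n → ℝ, (∀ i j, M i j = M j i) ∧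
      ∀ l, ∑ i, ∑ j, M i j * X' l i j = q l) :
    ∃ K : ℝ, 0 < K ∧ ∀ᶠ N in atTop, SurC K (X N) := by
  choose M hM1 hM3 using fun l' : Fin d => h (Pi.single l' 1)
  let A : ℕ → Matrix (Fin d) (Fin d) ℝ := fun N => Matrix.of fun l l' =>
    ∑ i, ∑ j, M l' i j * X N l i j
  have hAe : ∀ N l l', A N l l' = ∑ i, ∑ j, M l' i j * X N l i j := fun N l l' => rfl
  have hA : Tendsto A atTop (𝓝 (1 : Matrix (Fin d) (Fin d) ℝ)) := by
    refine tendsto_pi_nhds.2 fun l => tendsto_pi_nhds.2 fun l' => ?_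
    have h1 : (1 : Matrix (Fin d) (Fin d) ℝ) l l' = ∑ i, ∑ j, M l' i j * X' l i j := by
      rw [hM3, Matrix.one_apply, Pi.single_apply]
    rw [h1]
    exact tendsto_finsetSum _ fun i _ => tendsto_finsetSum _ fun j _ => (hX l i j).const_mul _
  have hdet : Tendsto (fun N => (A N).det) atTop (𝓝 1) := by
    have h1 := ((continuous_id (X := Matrix (Fin d) (Fin d) ℝ)).matrix_det.tendsto 1).comp hA
    simpa only [Function.comp_def, id_eq, Matrix.det_one] using h1
  have hadj : Tendsto (fun N => (A N).adjugate) atTop (𝓝 1) := by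
    have h1 := ((continuous_id (X := Matrix (Fin d) (Fin d) ℝ)).matrix_adjugate.tendsto 1).comp hA
    simpa only [Function.comp_def, id_eq, Matrix.adjugate_one] using h1
  have hB : ∀ l l', ∀ᶠ N in atTop, |(A N)⁻¹ l l'| ≤ 2 := by
    intro l l'
    have h1 : Tendsto (fun N => (A N)⁻¹ l l') atTop (𝓝 ((1 : Matrix (Fin d) (Fin d) ℝ) l l')) := by
      have h2 := (hdet.inv₀ one_ne_zero).mul ((tendsto_pi_nhds.1 ((tendsto_pi_nhds.1 hadj) l)) l')
      rw [inv_one, one_mul] at h2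
      refine h2.congr fun N => ?_
      rw [Matrix.inv_def, Matrix.smul_apply, Ring.inverse_eq_inv', smul_eq_mul]
    have h3 : |(1 : Matrix (Fin d) (Fin d) ℝ) l l'| < 2 := by
      rw [Matrix.one_apply]
      split_ifs
      · rw [abs_one]
        norm_num
      · rw [abs_zero]
        norm_num
    exact (h1.abs.eventually (eventually_lt_nhds h3)).mono fun N hN => hN.le
  have hu : ∀ᶠ N in atTop, (A N).det ≠ 0 := hdet.eventually_ne one_ne_zero
  refine ⟨2 * d * (∑ l, ∑ i, ∑ j, |M l i j|) + 1, by positivity, ?_⟩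
  filter_upwards [hu, eventually_all.2 fun l => eventually_all.2 fun l' => hB l l'] with N hN hBN
  intro q
  have ht : ∀ l, |((A N)⁻¹.mulVec q) l| ≤ 2 * d * ‖q‖ := by
    intro l
    rw [Matrix.mulVec, dotProduct]
    calc |∑ l', (A N)⁻¹ l l' * q l'| ≤ ∑ l', |(A N)⁻¹ l l' * q l'| :=
          Finset.abs_sum_le_sum_abs _ _
      _ ≤ ∑ _l' : Fin d, 2 * ‖q‖ := by
          refine Finset.sum_le_sum fun l' _ => ?_
          rw [abs_mul]
          exact mul_le_mul (hBN l l') (norm_le_pi_norm q l') (abs_nonneg _) (by norm_num)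
      _ = 2 * d * ‖q‖ := by
          rw [Finset.sum_const, Finset.card_univ, Fintype.card_fin, nsmul_eq_mul]
          ring
  refine ⟨fun i j => ∑ l', ((A N)⁻¹.mulVec q) l' * M l' i j, fun i j => ?_, fun i j => ?_,
    fun l => ?_⟩
  · exact Finset.sum_congr rfl fun l' _ => by rw [hM1]
  · calc |∑ l', ((A N)⁻¹.mulVec q) l' * M l' i j|
        ≤ ∑ l', |((A N)⁻¹.mulVec q) l' * M l' i j| := Finset.abs_sum_le_sum_abs _ _
      _ ≤ ∑ l', (2 * d * ‖q‖) * (∑ i, ∑ j, |M l' i j|) := by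
          refine Finset.sum_le_sum fun l' _ => ?_
          rw [abs_mul]
          refine mul_le_mul (ht l') ?_ (abs_nonneg _) (by positivity)
          refine (Finset.single_le_sum (f := fun j => |M l' i j|) (fun j _ => abs_nonneg _)
            (Finset.mem_univ j)).trans ?_
          exact Finset.single_le_sum (f := fun i => ∑ j, |M l' i j|)
            (fun i _ => Finset.sum_nonneg fun j _ => abs_nonneg _) (Finset.mem_univ i)
      _ = 2 * d * (∑ l, ∑ i, ∑ j, |M l i j|) * ‖q‖ := by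
          rw [← Finset.mul_sum]
          ring
      _ ≤ _ := by
          rw [add_mul, one_mul]
          linarith [norm_nonneg q]
  · have h1 : (A N).mulVec ((A N)⁻¹.mulVec q) = q := by
      rw [Matrix.mulVec_mulVec, Matrix.mul_nonsing_inv _ (isUnit_iff_ne_zero.2 hN),
        Matrix.one_mulVec]
    have h2 := congrFun h1 l
    rw [Matrix.mulVec, dotProduct] at h2
    rw [← h2]
    simp only [hAe, Finset.sum_mul]
    calc ∑ i, ∑ j, ∑ l', ((A N)⁻¹.mulVec q) l' * M l' i j * X N l i j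
        = ∑ i, ∑ l', ∑ j, ((A N)⁻¹.mulVec q) l' * M l' i j * X N l i j :=
          Finset.sum_congr rfl fun i _ => Finset.sum_comm
      _ = ∑ l', ∑ i, ∑ j, ((A N)⁻¹.mulVec q) l' * M l' i j * X N l i j := Finset.sum_comm
      _ = _ := by
          refine Finset.sum_congr rfl fun l' _ => Finset.sum_congr rfl fun i _ =>
            Finset.sum_congr rfl fun j _ => ?_
          ring

theorem SurC.mono {n d : ℕ} {K K' : ℝ} (h : K ≤ K') {X : Fin d → Fin n → Fin n → ℝ}
    (hs : SurC K X) : SurC K' X := by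
  intro q
  obtain ⟨M, h1, h3, h4⟩ := hs q
  exact ⟨M, h1, fun i j => (h3 i j).trans (mul_le_mul_of_nonneg_right h (norm_nonneg q)), h4⟩

end LibQR35
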