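import Pool.Agent.LibQR35.Defs

open MeasureTheory Set Filter Topology
open scoped ContDiff ENNReal NNReal unitInterval

namespace LibQR35

open BGS
open Pool.BGR (PM upI pj)

variable {Γ : Type} [Group Γ] [MulAction Γ Pl] {D : Set Pl}

private theorem C1_exp {s t ε : ℝ} (h : |t - s| ≤ ε) :
    |Real.exp t - Real.exp s| ≤ (Real.exp ε - 1) * Real.exp s := by
  obtain ⟨h1, h2⟩ := abs_le.mp h
  have e1 : Real.exp t = Real.exp (t - s) * Real.exp s := by
    rw [← Real.exp_add]; congr 1; ring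
  have e2 : Real.exp t - Real.exp s = (Real.exp (t - s) - 1) * Real.exp s := by
    rw [e1]; ring
  rw [e2, abs_mul, abs_of_pos (Real.exp_pos s)]
  refine mul_le_mul_of_nonneg_right ?_ (Real.exp_pos s).le
  rw [abs_le]
  have h3 : Real.exp (t - s) ≤ Real.exp ε := Real.exp_le_exp.mpr h2
  have h4 : Real.exp (-ε) ≤ Real.exp (t - s) := Real.exp_le_exp.mpr (by linarith)
  have h5 := Real.add_one_le_exp ε
  have h6 := Real.add_one_le_exp (-ε)
  constructor <;> linarith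

private theorem C1_lin {μ : Measure Pl} {f g k : Pl → ℝ} (hf : Integrable f μ) (hg : Integrable g μ)
    (hk : Integrable k μ) (p q : ℝ) :
    ∫ z, (p * f z + q * g z + k z) ∂μ = p * ∫ z, f z ∂μ + q * ∫ z, g z ∂μ + ∫ z, k z ∂μ := by
  have h1 : Integrable (fun z => p * f z + q * g z) μ := (hf.const_mul p).add (hg.const_mul q)
  rw [integral_add h1 hk, integral_add (hf.const_mul p) (hg.const_mul q), integral_const_mul,
    integral_const_mul]

private theorem C1_cs (hX : Surface Γ D) (m : Mt Γ D) {φ : TestS Γ} (u v : TestS Γ) :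
    ∫ z in D, Real.exp (φ.1 z) * |u.1 z| * |v.1 z| * √(dt (m.1.1 z)) ≤
      √(bF hX m (expT φ) u u) * √(bF hX m (expT φ) v v) := by
  have cφ : Continuous φ.1 := φ.2.1.continuous
  have cu : Continuous u.1 := u.2.1.continuous
  have cv : Continuous v.1 := v.2.1.continuous
  have cr := BGR_rho m
  set C : ℝ := ∫ z in D, Real.exp (φ.1 z) * |u.1 z| * |v.1 z| * √(dt (m.1.1 z)) with hC
  set A : ℝ := bF hX m (expT φ) u u with hA
  set B : ℝ := bF hX m (expT φ) v v with hB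
  have eA : A = ∫ z in D, Real.exp (φ.1 z) * u.1 z * u.1 z * √(dt (m.1.1 z)) := by
    rw [hA, bF_apply]; rfl
  have eB : B = ∫ z in D, Real.exp (φ.1 z) * v.1 z * v.1 z * √(dt (m.1.1 z)) := by
    rw [hB, bF_apply]; rfl
  have iA : IntegrableOn (fun z => Real.exp (φ.1 z) * u.1 z * u.1 z * √(dt (m.1.1 z))) D :=
    Cmp_int hX (by fun_prop)
  have iB : IntegrableOn (fun z => Real.exp (φ.1 z) * v.1 z * v.1 z * √(dt (m.1.1 z))) D :=
    Cmp_int hX (by fun_prop)
  have iC : IntegrableOn (fun z => Real.exp (φ.1 z) * |u.1 z| * |v.1 z| * √(dt (m.1.1 z))) D :=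
    Cmp_int hX (by fun_prop)
  have hA0 : 0 ≤ A := by
    rw [eA]
    refine integral_nonneg fun z => ?_
    have : 0 ≤ Real.exp (φ.1 z) * (u.1 z * u.1 z) * √(dt (m.1.1 z)) :=
      mul_nonneg (mul_nonneg (Real.exp_pos _).le (mul_self_nonneg _)) (Real.sqrt_nonneg _)
    calc (0 : ℝ) ≤ _ := this
      _ = _ := by ring
  have hB0 : 0 ≤ B := by
    rw [eB]
    refine integral_nonneg fun z => ?_
    have : 0 ≤ Real.exp (φ.1 z) * (v.1 z * v.1 z) * √(dt (m.1.1 z)) :=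
      mul_nonneg (mul_nonneg (Real.exp_pos _).le (mul_self_nonneg _)) (Real.sqrt_nonneg _)
    calc (0 : ℝ) ≤ _ := this
      _ = _ := by ring
  have key : ∀ t : ℝ, 0 ≤ A * (t * t) + (-2 * C) * t + B := by
    intro t
    have h1 : 0 ≤ ∫ z in D, Real.exp (φ.1 z) * (t * |u.1 z| - |v.1 z|) ^ 2 * √(dt (m.1.1 z)) :=
      integral_nonneg fun z => by positivity
    have h2 : ∫ z in D, Real.exp (φ.1 z) * (t * |u.1 z| - |v.1 z|) ^ 2 * √(dt (m.1.1 z)) =
        ∫ z in D, ((t * t) * (Real.exp (φ.1 z) * u.1 z * u.1 z * √(dt (m.1.1 z))) +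
          (-2 * t) * (Real.exp (φ.1 z) * |u.1 z| * |v.1 z| * √(dt (m.1.1 z))) +
          (Real.exp (φ.1 z) * v.1 z * v.1 z * √(dt (m.1.1 z)))) := by
      congr 1
      funext z
      have e1 : u.1 z * u.1 z = |u.1 z| * |u.1 z| := (abs_mul_abs_self _).symm
      have e2 : v.1 z * v.1 z = |v.1 z| * |v.1 z| := (abs_mul_abs_self _).symm
      calc Real.exp (φ.1 z) * (t * |u.1 z| - |v.1 z|) ^ 2 * √(dt (m.1.1 z))
          = (t * t) * (Real.exp (φ.1 z) * (|u.1 z| * |u.1 z|) * √(dt (m.1.1 z))) +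
          (-2 * t) * (Real.exp (φ.1 z) * |u.1 z| * |v.1 z| * √(dt (m.1.1 z))) +
          (Real.exp (φ.1 z) * (|v.1 z| * |v.1 z|) * √(dt (m.1.1 z))) := by ring
        _ = _ := by rw [← e1, ← e2]; ring
    have h3 := C1_lin iA iC iB (t * t) (-2 * t)
    rw [h2] at h1
    rw [h3, ← eA, ← eB, ← hC] at h1
    linarith
  have hd := discrim_le_zero key
  unfold discrim at hd
  have h3 : C ^ 2 ≤ A * B := by nlinarith [hd]
  calc C ≤ |C| := le_abs_self C
    _ ≤ √(A * B) := Real.abs_le_sqrt h3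
    _ = √A * √B := Real.sqrt_mul hA0 B

theorem weight_close (hX : Surface Γ D) (m : Mt Γ D) {φ φ' : TestS Γ} {ε : ℝ}
    (h : ∀ z, |φ'.1 z - φ.1 z| ≤ ε) (u v : TestS Γ) :
    |bF hX m (expT φ') u v - bF hX m (expT φ) u v| ≤
      (Real.exp ε - 1) * (√(bF hX m (expT φ) u u) * √(bF hX m (expT φ) v v)) := by
  have cφ : Continuous φ.1 := φ.2.1.continuous
  have cφ' : Continuous φ'.1 := φ'.2.1.continuous
  have cu : Continuous u.1 := u.2.1.continuous
  have cv : Continuous v.1 := v.2.1.continuous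
  have cr := BGR_rho m
  have hε : 0 ≤ ε := (abs_nonneg _).trans (h 0)
  have i1 : IntegrableOn (fun z => Real.exp (φ'.1 z) * u.1 z * v.1 z * √(dt (m.1.1 z))) D :=
    Cmp_int hX (by fun_prop)
  have i2 : IntegrableOn (fun z => Real.exp (φ.1 z) * u.1 z * v.1 z * √(dt (m.1.1 z))) D :=
    Cmp_int hX (by fun_prop)
  have i3 : IntegrableOn (fun z => Real.exp (φ.1 z) * |u.1 z| * |v.1 z| * √(dt (m.1.1 z))) D :=
    Cmp_int hX (by fun_prop)
  have e1 : bF hX m (expT φ') u v - bF hX m (expT φ) u v =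
      ∫ z in D, (Real.exp (φ'.1 z) * u.1 z * v.1 z * √(dt (m.1.1 z)) -
        Real.exp (φ.1 z) * u.1 z * v.1 z * √(dt (m.1.1 z))) := by
    rw [integral_sub i1 i2, bF_apply, bF_apply]; rfl
  rw [e1]
  have h2 : |∫ z in D, (Real.exp (φ'.1 z) * u.1 z * v.1 z * √(dt (m.1.1 z)) -
        Real.exp (φ.1 z) * u.1 z * v.1 z * √(dt (m.1.1 z)))| ≤
      ∫ z in D, (Real.exp ε - 1) * (Real.exp (φ.1 z) * |u.1 z| * |v.1 z| * √(dt (m.1.1 z))) := by
    refine (abs_integral_le_integral_abs).trans ?_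
    refine integral_mono (i1.sub i2).abs (i3.const_mul _) fun z => ?_
    have e2 : Real.exp (φ'.1 z) * u.1 z * v.1 z * √(dt (m.1.1 z)) -
        Real.exp (φ.1 z) * u.1 z * v.1 z * √(dt (m.1.1 z)) =
        (Real.exp (φ'.1 z) - Real.exp (φ.1 z)) * (u.1 z * v.1 z * √(dt (m.1.1 z))) := by ring
    show |Real.exp (φ'.1 z) * u.1 z * v.1 z * √(dt (m.1.1 z)) -
        Real.exp (φ.1 z) * u.1 z * v.1 z * √(dt (m.1.1 z))| ≤ _
    rw [e2, abs_mul, abs_mul, abs_mul, abs_of_nonneg (Real.sqrt_nonneg _)]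
    calc |Real.exp (φ'.1 z) - Real.exp (φ.1 z)| * (|u.1 z| * |v.1 z| * √(dt (m.1.1 z)))
        ≤ ((Real.exp ε - 1) * Real.exp (φ.1 z)) * (|u.1 z| * |v.1 z| * √(dt (m.1.1 z))) :=
          mul_le_mul_of_nonneg_right (C1_exp (h z)) (by positivity)
      _ = _ := by ring
  refine h2.trans ?_
  rw [integral_const_mul]
  refine mul_le_mul_of_nonneg_left (C1_cs hX m u v) ?_
  linarith [Real.add_one_le_exp ε]

theorem weight_le (hX : Surface Γ D) (m : Mt Γ D) {φ φ' : TestS Γ} {ε : ℝ}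
    (h : ∀ z, |φ'.1 z - φ.1 z| ≤ ε) (u : TestS Γ) :
    bF hX m (expT φ') u u ≤ Real.exp ε * bF hX m (expT φ) u u := by
  refine bF_le hX m (fun z => ?_) u
  rw [expT_apply, expT_apply, ← Real.exp_add]
  refine Real.exp_le_exp.mpr ?_
  have := (abs_le.mp (h z)).2
  linarith

end LibQR35
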