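import Pool.Agent.LibQR35.BD
import Pool.Agent.LibQR35.C1

/-! ROW BN : the area, limits of the centred moments, continuity.

PLAN. `arE hX m φ = ∫ z in D, exp φ √dt`. `arE_bounds`: `exp (-M) <= exp φ <= exp M` and
`∫ z in D, √dt = 1` (`m.2.area`); or `WGT_up`, `WGT_dn`, `WGT_one` in LibBGR/AE_WGT.lean. `arE_close`:
`weight_close` with `u = v = 1` (the two square roots multiply to `arE hX m φ`).
`arE_cont`, `nuE_cont`, `FE_cont`: `phi_cont` (LibBGR/AE_PH2.lean) as in `muE_cont`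
(LibBGR/AE_SCT.lean), `arE_close`, `muE_cont`, quotients, finite sums of `max`.
`nu_x`: the area of `m'` is `q * arE = 1` (`FRC_sqrt`), so `q = 1 / arE`; and
`x m' (k+1) = (muE k)⁻¹ / q / (4 π)` (see the proof of `gap_of_mu` in LibBGR/AE_GMU.lean). -/

open MeasureTheory Set Filter Topology
open scoped ContDiff ENNReal NNReal unitInterval

namespace LibQR35

open BGS
open Pool.BGR (PM upI pj)

variable {Γ : Type} [Group Γ] [MulAction Γ Pl] {D : Set Pl}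

private theorem BN_one (hX : Surface Γ D) (m : Mt Γ D) :
    bF hX m (oneT Γ) (oneT Γ) (oneT Γ) = 1 := by
  rw [bF_apply]
  refine Eq.trans ?_ m.2.area
  refine integral_congr_ae (ae_of_all _ fun z => ?_)
  show (1 : ℝ) * 1 * 1 * √(dt (m.1.1 z)) = √(dt (m.1.1 z))
  ring

theorem arE_bounds (hX : Surface Γ D) (m : Mt Γ D) {M : ℝ} (φ : TestS Γ) (h : ∀ z, |φ.1 z| ≤ M) :
    Real.exp (-M) ≤ arE hX m φ ∧ arE hX m φ ≤ Real.exp M := by
  have h1 := WGT_dn hX m h (oneT Γ)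
  have h2 := WGT_up hX m h (oneT Γ)
  rw [BN_one] at h1 h2
  refine ⟨?_, ?_⟩
  · rw [Real.exp_neg, inv_le_iff_one_le_mul₀ (Real.exp_pos M), mul_comm]
    exact h1
  · rw [mul_one] at h2
    exact h2

theorem arE_pos (hX : Surface Γ D) (m : Mt Γ D) (φ : TestS Γ) : 0 < arE hX m φ := by
  obtain ⟨M, -, hM⟩ := test_bdd hX φ
  exact (Real.exp_pos _).trans_le (arE_bounds hX m φ hM).1

theorem arE_close (hX : Surface Γ D) (m : Mt Γ D) {φ φ' : TestS Γ} {ε : ℝ}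
    (h : ∀ z, |φ'.1 z - φ.1 z| ≤ ε) :
    |arE hX m φ' - arE hX m φ| ≤ (Real.exp ε - 1) * arE hX m φ := by
  have h1 : |arE hX m φ' - arE hX m φ| ≤
      (Real.exp ε - 1) * (√(arE hX m φ) * √(arE hX m φ)) :=
    weight_close hX m h (oneT Γ) (oneT Γ)
  rw [Real.mul_self_sqrt (arE_pos hX m φ).le] at h1
  exact h1

private theorem BN_cont (hX : Surface Γ D) (m : Mt Γ D) (L : ℕ) {c : ℕ → ℝ} (hc : Cs c)
    (Φ : (Dir → I) → TestS Γ) (ψ : TestS Γ)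
    (hΦ : ∀ ξ z, (Φ ξ).1 z = ψ.1 z + phi Γ L c ξ z) :
    Continuous fun ξ => arE hX m (Φ ξ) := by
  rw [continuous_iff_continuousAt]
  intro ξ₀
  set A : ℝ := arE hX m (Φ ξ₀) with hA
  have h1 : Tendsto (fun ε : ℝ => (Real.exp ε - 1) * A) (𝓝[>] 0) (𝓝 0) := by
    have h2 : Continuous fun ε : ℝ => (Real.exp ε - 1) * A := by fun_prop
    have h3 := (h2.tendsto 0).mono_left (nhdsWithin_le_nhds (s := Ioi (0 : ℝ)))
    simpa using h3
  rw [ContinuousAt, Metric.tendsto_nhds]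
  intro η hη
  obtain ⟨ε, hε1, hε2⟩ := ((h1.eventually (gt_mem_nhds hη)).and self_mem_nhdsWithin).exists
  filter_upwards [phi_cont hX L hc ξ₀ hε2] with ξ hξ
  rw [Real.dist_eq]
  refine lt_of_le_of_lt (arE_close hX m fun z => ?_) hε1
  have h4 := hξ z
  rw [hΦ, hΦ]
  have e : ψ.1 z + phi Γ L c ξ z - (ψ.1 z + phi Γ L c ξ₀ z) =
      phi Γ L c ξ z - phi Γ L c ξ₀ z := by ring
  rw [e]
  exact h4

theorem nuE_cont (hX : Surface Γ D) (m : Mt Γ D) (L : ℕ) {c : ℕ → ℝ} (hc : Cs c)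
    (Φ : (Dir → I) → TestS Γ) (ψ : TestS Γ)
    (hΦ : ∀ ξ z, (Φ ξ).1 z = ψ.1 z + phi Γ L c ξ z) (i : ℕ) :
    Continuous fun ξ => nuE hX m (Φ ξ) i := by
  exact (muE_cont hX m L hc i Φ ψ hΦ).div (BN_cont hX m L hc Φ ψ hΦ)
    fun ξ => (arE_pos hX m (Φ ξ)).ne'

theorem FE_cont (hX : Surface Γ D) (m : Mt Γ D) (L : ℕ) {c : ℕ → ℝ} (hc : Cs c)
    (Φ : (Dir → I) → TestS Γ) (ψ : TestS Γ)
    (hΦ : ∀ ξ z, (Φ ξ).1 z = ψ.1 z + phi Γ L c ξ z) (N : ℕ) (ν : ℝ) :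
    Continuous fun ξ => FE hX m N ν (Φ ξ) := by
  unfold FE
  exact continuous_finsetSum _ fun i _ =>
    ((nuE_cont hX m L hc Φ ψ hΦ i).sub continuous_const).max continuous_const

theorem nu_x (hX : Surface Γ D) (m m' : Mt Γ D) (φ : TestS Γ) {q : ℝ} (hq : 0 < q)
    (h : ∀ z, m'.1.1 z = (q * Real.exp (φ.1 z)) • m.1.1 z) (k : ℕ) :
    x m' (k + 1) = (4 * Real.pi * nuE hX m φ k)⁻¹ ∧ 0 < nuE hX m φ k := by
  obtain ⟨M, hM, hφ⟩ := test_bdd hX φ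
  obtain ⟨c₀, hc₀, hlo⟩ := muE_lower hX m M
  have hpos : 0 < muE hX m φ k := lt_of_lt_of_le (div_pos hc₀ (by positivity)) (hlo φ hφ k)
  have hA := arE_pos hX m φ
  have hx : x m' (k + 1) = (muE hX m φ k)⁻¹ / q / (4 * Real.pi) := by
    rw [GMU_x hX m m' φ hq h (k + 1)]
    unfold muE mu
    rw [ENNReal.toReal_inv, inv_inv]
  have hqA : q * arE hX m φ = 1 := by
    have h1 := m'.2.area
    rw [arE, bF_apply, ← integral_const_mul, ← h1]
    refine integral_congr_ae (ae_of_all _ fun z => ?_)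
    show q * (Real.exp (φ.1 z) * 1 * 1 * √(dt (m.1.1 z))) = √(dt (m'.1.1 z))
    rw [h z, FRC_sqrt (mul_pos hq (Real.exp_pos _))]
    ring
  have hn : nuE hX m φ k = muE hX m φ k * q := by
    rw [nuE, div_eq_iff hA.ne', mul_assoc, hqA, mul_one]
  rw [hn, hx]
  have hpi := Real.pi_pos
  refine ⟨?_, mul_pos hpos hq⟩
  field_simp

end LibQR35
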