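import Pool.Agent.LibQR35.Defs

open MeasureTheory Set Filter Topology
open scoped ContDiff ENNReal NNReal unitInterval

namespace LibQR35

open BGS
open Pool.BGR (PM upI pj)

variable {E : Type} [AddCommGroup E] [Module ℝ E] {a b : LinearMap.BilinForm ℝ E} {e : E}

private theorem C0_step1 (P : IsPair a b e) (h1 : lam a b 1 ≠ 0) {n : ℕ} {δ : ℝ}
    {W : Fin (n + 1) → E} (orth : ∀ i j, a (W i) (W j) = if i = j then 1 else 0)
    (one : ∀ i, b (W i) e = 0) (lo : ∀ i : Fin (n + 1), mu a b i - δ ≤ b (W i) (W i))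
    (up : ∀ i : Fin (n + 1), b (W i) (W i) ≤ mu a b i) (g : E) (hg1 : a g g = 1) (hg2 : ∀ l, a (W l) g = 0)
    (hg3 : b g e = 0) :
    b (W (Fin.last n)) g ^ 2 ≤ ((n + 1 : ℕ) * δ) * ((n + 1 : ℕ) * δ + mu a b 0) := by
  set x : ℝ := b (W (Fin.last n)) g with hx
  have hbg : 0 ≤ b g g := by
    by_cases h0 : g = 0
    · rw [h0]; simp
    · exact (P.bpos g h0).le
  have key : ∀ t : ℝ, 0 ≤ ((n + 1 : ℕ) * δ + mu a b 0) * (t * t) + (-2 * x) * t +
      (n + 1 : ℕ) * δ := by
    intro t
    have ht : 0 < 1 + t ^ 2 := by positivity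
    set c : ℝ := (√(1 + t ^ 2))⁻¹ with hc
    have hc2 : c * c = (1 + t ^ 2)⁻¹ := by
      rw [hc, ← mul_inv, Real.mul_self_sqrt ht.le]
    set u : Fin (n + 1) → E := Fin.snoc (fun l : Fin n => W l.castSucc)
      (c • (W (Fin.last n) + t • g)) with hu
    have u1 : ∀ l : Fin n, u l.castSucc = W l.castSucc := fun l => by rw [hu, Fin.snoc_castSucc]
    have u2 : u (Fin.last n) = c • (W (Fin.last n) + t • g) := by rw [hu, Fin.snoc_last]
    have horth : ∀ i j, a (u i) (u j) = if i = j then 1 else 0 := by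
      intro i j
      induction i using Fin.lastCases with
      | last =>
        induction j using Fin.lastCases with
        | last =>
          rw [u2]
          simp only [map_smul, map_add, LinearMap.add_apply, LinearMap.smul_apply, smul_eq_mul,
            if_true]
          rw [orth, hg2, hg1, P.asym g, hg2]
          simp only [if_true]
          have : c * (c * (1 + t * 0 + t * (0 + t * 1))) = (c * c) * (1 + t ^ 2) := by ring
          have h3 : c * (c * (1 + t ^ 2)) = 1 := by
            rw [← mul_assoc, hc2, inv_mul_cancel₀ ht.ne']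
          linear_combination h3
        | cast j =>
          rw [u2, u1]
          simp only [map_smul, map_add, LinearMap.add_apply, LinearMap.smul_apply, smul_eq_mul]
          rw [orth, P.asym g, hg2]
          rw [if_neg (Fin.castSucc_lt_last j).ne', mul_zero, add_zero, mul_zero]
      | cast i =>
        induction j using Fin.lastCases with
        | last =>
          rw [u2, u1]
          simp only [map_smul, map_add, smul_eq_mul]
          rw [orth, hg2]
          rw [if_neg (Fin.castSucc_lt_last i).ne, mul_zero, add_zero, mul_zero]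
        | cast j =>
          rw [u1, u1, orth]
    have hk := kyfan P h1 u horth
    have hue : ∀ l, b (u l) e = 0 := by
      intro l
      induction l using Fin.lastCases with
      | last =>
        rw [u2]
        simp only [map_smul, map_add, LinearMap.add_apply, LinearMap.smul_apply, smul_eq_mul]
        rw [one, hg3]; ring
      | cast l => rw [u1, one]
    have e1 : ∑ i, (b (u i) (u i) - b (u i) e ^ 2 / b e e) = ∑ i, b (u i) (u i) := by
      refine Finset.sum_congr rfl fun l _ => ?_
      rw [hue l]; simp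
    rw [e1, Fin.sum_univ_castSucc, Finset.sum_range, Fin.sum_univ_castSucc] at hk
    have e2 : ∑ l : Fin n, mu a b (l.castSucc : Fin (n + 1)) ≤
        ∑ l : Fin n, (b (u l.castSucc) (u l.castSucc) + δ) := by
      refine Finset.sum_le_sum fun l _ => ?_
      rw [u1]
      have := lo l.castSucc
      linarith
    rw [Finset.sum_add_distrib, Finset.sum_const, Finset.card_univ, Fintype.card_fin,
      nsmul_eq_mul] at e2
    have e3 := lo (Fin.last n)
    have e4 : b (u (Fin.last n)) (u (Fin.last n)) =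
        (1 + t ^ 2)⁻¹ * (b (W (Fin.last n)) (W (Fin.last n)) + 2 * t * x + t ^ 2 * b g g) := by
      rw [u2]
      simp only [map_smul, map_add, LinearMap.add_apply, LinearMap.smul_apply, smul_eq_mul]
      rw [P.bsym g (W (Fin.last n)), ← hx, ← hc2]
      ring
    rw [e4] at hk
    have e5 : (1 + t ^ 2)⁻¹ * (b (W (Fin.last n)) (W (Fin.last n)) + 2 * t * x + t ^ 2 * b g g) ≤
        b (W (Fin.last n)) (W (Fin.last n)) + (n + 1 : ℕ) * δ := by
      push_cast
      simp only [Fin.val_last] at hk e3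
      simp only [Fin.val_castSucc] at hk e2
      linarith
    rw [inv_mul_le_iff₀ ht] at e5
    have e6 : b (W (Fin.last n)) (W (Fin.last n)) ≤ mu a b 0 :=
      (up _).trans (mu_anti h1 (Nat.zero_le _))
    have e7 : t ^ 2 * b (W (Fin.last n)) (W (Fin.last n)) ≤ t ^ 2 * mu a b 0 :=
      mul_le_mul_of_nonneg_left e6 (sq_nonneg t)
    have e8 : 0 ≤ t ^ 2 * b g g := mul_nonneg (sq_nonneg t) hbg
    nlinarith
  have hd := discrim_le_zero key
  unfold discrim at hd
  nlinarith [hd]

private theorem C0_core (P : IsPair a b e) (h1 : lam a b 1 ≠ 0) {n : ℕ} {δ : ℝ} (hδ : 0 ≤ δ)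
    {W : Fin (n + 1) → E} (orth : ∀ i j, a (W i) (W j) = if i = j then 1 else 0)
    (one : ∀ i, b (W i) e = 0) (diag : ∀ i j, i ≠ j → b (W i) (W j) = 0)
    (lo : ∀ i : Fin (n + 1), mu a b i - δ ≤ b (W i) (W i))
    (up : ∀ i : Fin (n + 1), b (W i) (W i) ≤ mu a b i) (f : E) :
    (b (W (Fin.last n)) f - mu a b n * a (W (Fin.last n)) f) ^ 2 ≤
      2 * (((n + 1 : ℕ) * δ) * ((n + 1 : ℕ) * δ + mu a b 0)) * a f f := by
  have hbe : 0 < b e e := P.bpos e P.ne
  set K : ℝ := ((n + 1 : ℕ) * δ) * ((n + 1 : ℕ) * δ + mu a b 0) with hK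
  have hm0 : 0 ≤ mu a b 0 := mu_nonneg a b 0
  have hK0 : 0 ≤ K := by positivity
  have aWe : ∀ l, a (W l) e = 0 := fun l => by rw [P.asym, P.ae]
  have aee : ∀ v, a v e = 0 := fun v => by rw [P.asym, P.ae]
  set s : E := ∑ l, a (W l) f • W l with hs
  set r : ℝ := b f e / b e e with hr
  set g : E := f - s - r • e with hg
  have a1 : ∀ l, a (W l) s = a (W l) f := by
    intro l
    rw [hs]
    simp only [map_sum, map_smul, smul_eq_mul]
    rw [Finset.sum_eq_single l]
    · rw [orth, if_pos rfl, mul_one]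
    · intro k _ hk
      rw [orth, if_neg (Ne.symm hk), mul_zero]
    · intro hl; exact absurd (Finset.mem_univ l) hl
  have hg2 : ∀ l, a (W l) g = 0 := by
    intro l
    rw [hg, map_sub, map_sub, map_smul, aWe, a1]
    simp
  have bse : b s e = 0 := by
    rw [hs]
    simp only [map_sum, map_smul, LinearMap.sum_apply, LinearMap.smul_apply, smul_eq_mul]
    refine Finset.sum_eq_zero fun l _ => ?_
    rw [one, mul_zero]
  have hg3 : b g e = 0 := by
    rw [hg]
    simp only [map_sub, map_smul, LinearMap.sub_apply, LinearMap.smul_apply, smul_eq_mul]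
    rw [bse, hr]
    field_simp
    ring
  -- decomposition of f
  have hf : f = g + s + r • e := by rw [hg]; abel
  have ags : a g s = 0 := by
    rw [hs]
    simp only [map_sum, map_smul, smul_eq_mul]
    refine Finset.sum_eq_zero fun l _ => ?_
    rw [P.asym g, hg2, mul_zero]
  have ass : a s s = ∑ l, a (W l) f ^ 2 := by
    have e0 : a s s = ∑ l, a (W l) f * a (W l) s := by
      have : a s = ∑ l, a (W l) f • a (W l) := by
        rw [hs, map_sum]
        simp only [map_smul]
      rw [this]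
      simp only [LinearMap.sum_apply, LinearMap.smul_apply, smul_eq_mul]
    rw [e0]
    refine Finset.sum_congr rfl fun l _ => ?_
    rw [a1]; ring
  have aff : a f f = a g g + ∑ l, a (W l) f ^ 2 := by
    have : a f f = a (g + s + r • e) (g + s + r • e) := by rw [← hf]
    rw [this]
    simp only [map_add, map_smul, LinearMap.add_apply, LinearMap.smul_apply, smul_eq_mul]
    rw [aee g, aee s, P.ae e, P.ae g, P.ae s, P.asym s g, ags, ass]
    ring
  have bwf : b (W (Fin.last n)) f = b (W (Fin.last n)) g +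
      a (W (Fin.last n)) f * b (W (Fin.last n)) (W (Fin.last n)) := by
    have e1 : b (W (Fin.last n)) s = a (W (Fin.last n)) f * b (W (Fin.last n)) (W (Fin.last n)) := by
      rw [hs]
      simp only [map_sum, map_smul, smul_eq_mul]
      rw [Finset.sum_eq_single (Fin.last n)]
      · intro k _ hk
        rw [diag _ _ (Ne.symm hk), mul_zero]
      · intro hl; exact absurd (Finset.mem_univ _) hl
    have e2 : b (W (Fin.last n)) f = b (W (Fin.last n)) (g + s + r • e) := by rw [← hf]
    rw [e2, map_add, map_add, map_smul, one, e1]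
    simp
  have hG : 0 ≤ a g g := P.apos g
  have hy : b (W (Fin.last n)) g ^ 2 ≤ K * a g g := by
    by_cases h0 : a g g = 0
    · obtain ⟨c, hc⟩ := P.aker g h0
      have h2 : c * b e e = 0 := by
        rw [hc, map_smul, LinearMap.smul_apply, smul_eq_mul] at hg3
        exact hg3
      have h3 : c = 0 := (mul_eq_zero.mp h2).resolve_right hbe.ne'
      rw [hc, h3]
      simp
    · have hGpos : 0 < a g g := lt_of_le_of_ne hG (Ne.symm h0)
      set q : ℝ := (√(a g g))⁻¹ with hq
      have hq2 : q * q = (a g g)⁻¹ := by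
        rw [hq, ← mul_inv, Real.mul_self_sqrt hG]
      have h4 := C0_step1 P h1 orth one lo up (q • g)
        (by
          simp only [map_smul, LinearMap.smul_apply, smul_eq_mul]
          rw [← mul_assoc, hq2, inv_mul_cancel₀ h0])
        (fun l => by rw [map_smul, hg2, smul_zero])
        (by rw [map_smul, LinearMap.smul_apply, hg3, smul_zero])
      rw [map_smul, smul_eq_mul, mul_pow, pow_two q, hq2, ← hK, inv_mul_le_iff₀ hGpos] at h4
      linarith
  have hA : a (W (Fin.last n)) f ^ 2 ≤ ∑ l, a (W l) f ^ 2 :=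
    Finset.single_le_sum (f := fun l => a (W l) f ^ 2) (fun l _ => sq_nonneg _)
      (Finset.mem_univ (Fin.last n))
  have hlo := lo (Fin.last n)
  have hup := up (Fin.last n)
  simp only [Fin.val_last] at hlo hup
  set A : ℝ := a (W (Fin.last n)) f with hAdef
  set y : ℝ := b (W (Fin.last n)) g with hydef
  set d : ℝ := b (W (Fin.last n)) (W (Fin.last n)) - mu a b n with hd
  have hd1 : -δ ≤ d := by linarith
  have hd2 : d ≤ 0 := by linarith
  have hdd : d ^ 2 ≤ K := by
    have h5 : d ^ 2 ≤ δ ^ 2 := by nlinarith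
    have h6 : δ ≤ (n + 1 : ℕ) * δ := by
      push_cast
      nlinarith [(Nat.cast_nonneg n : (0 : ℝ) ≤ n)]
    have h7 : δ ^ 2 ≤ K := by
      rw [hK]
      nlinarith
    linarith
  have e9 : b (W (Fin.last n)) f - mu a b n * A = y + d * A := by
    rw [bwf, hd]; ring
  rw [e9, aff]
  have h10 : (y + d * A) ^ 2 ≤ 2 * y ^ 2 + 2 * (d ^ 2 * A ^ 2) := by nlinarith [sq_nonneg (y - d * A)]
  have h11 : d ^ 2 * A ^ 2 ≤ K * ∑ l, a (W l) f ^ 2 := mul_le_mul hdd hA (sq_nonneg _) hK0
  calc (y + d * A) ^ 2 ≤ 2 * y ^ 2 + 2 * (d ^ 2 * A ^ 2) := h10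
    _ ≤ 2 * (K * a g g) + 2 * (K * ∑ l, a (W l) f ^ 2) := by linarith
    _ = 2 * K * (a g g + ∑ l, a (W l) f ^ 2) := by ring

theorem near_eigen (P : IsPair a b e) (h1 : lam a b 1 ≠ 0) {N : ℕ} {δ : ℝ} (hδ : 0 ≤ δ)
    {w : Fin N → E} (hw : Fr a b e δ w) (i : Fin N) (f : E) :
    (b (w i) f - mu a b i * a (w i) f) ^ 2 ≤ 4 * (N * δ) * (N * δ + mu a b 0) * a f f := by
  have hi : (i : ℕ) + 1 ≤ N := i.2
  have hc := C0_core P h1 (n := (i : ℕ)) hδ (W := fun l => w (Fin.castLE hi l))
    (fun p q => by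
      rw [hw.orth]
      simp only [Fin.castLE_inj])
    (fun p => hw.one _)
    (fun p q hpq => hw.diag _ _ (fun h => hpq (Fin.castLE_inj.mp h)))
    (fun p => by simpa using hw.lo (Fin.castLE hi p))
    (fun p => by simpa using hw.up (Fin.castLE hi p)) f
  have e1 : Fin.castLE hi (Fin.last (i : ℕ)) = i := by
    ext; simp
  simp only [e1] at hc
  have hm0 : 0 ≤ mu a b 0 := mu_nonneg a b 0
  have haf : 0 ≤ a f f := P.apos f
  have h3 : (((i : ℕ) + 1 : ℕ) : ℝ) * δ ≤ N * δ :=
    mul_le_mul_of_nonneg_right (by exact_mod_cast hi) hδ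
  have h4 : (0 : ℝ) ≤ (((i : ℕ) + 1 : ℕ) : ℝ) * δ := by positivity
  refine hc.trans ?_
  have h5 : ((((i : ℕ) + 1 : ℕ) : ℝ) * δ) * ((((i : ℕ) + 1 : ℕ) : ℝ) * δ + mu a b 0) ≤
      (N * δ) * (N * δ + mu a b 0) := mul_le_mul h3 (by linarith) (by linarith) (by linarith)
  have h6 : 0 ≤ (N * δ) * (N * δ + mu a b 0) := le_trans (mul_nonneg h4 (by linarith)) h5
  calc 2 * (((((i : ℕ) + 1 : ℕ) : ℝ) * δ) * ((((i : ℕ) + 1 : ℕ) : ℝ) * δ + mu a b 0)) * a f f
      ≤ 2 * ((N * δ) * (N * δ + mu a b 0)) * a f f := by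
        refine mul_le_mul_of_nonneg_right ?_ haf
        linarith
    _ ≤ 4 * ((N * δ) * (N * δ + mu a b 0)) * a f f := by
        refine mul_le_mul_of_nonneg_right ?_ haf
        linarith
    _ = 4 * (N * δ) * (N * δ + mu a b 0) * a f f := by ring

end LibQR35
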