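import Pool.Agent.LibQR35.Defs

/-! ROW C6 : the bump functions detect continuous functions.

PLAN. STEP 1 (plane): let `G : Pl → ℝ` be continuous and `∫ z, bmp (R+1) p z * G z = 0` for all `R` and
all `p ∈ grid L (R+1)`. Then `G z = 0` for `z ∈ bigSq L = [-L, L) × [-L, L)`: suppose `G z > 0` (the case
`< 0` by `-G`), so `G > 0` on a ball of radius `ρ` about `z`. Take `R` with `1 / (R+1) < ρ`,
`p = (⌊(R+1) z.1⌋, ⌊(R+1) z.2⌋)`; `p ∈ grid L (R+1)`; the support of `bmp (R+1) p` is in the square with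
corner `p/(R+1)` and side `1/(R+1)`, which contains `z` (`bmp_supp` in LibBGR/Bmp.lean, `UPP_sq`), so
`bmp * G >= 0` and it is positive at the centre: the integral is positive
(`integral_pos_iff_support_of_nonneg` or `Continuous.integral_pos_of_hasCompactSupport_nonneg_nonzero`).
STEP 2: for `F ∈ TestS`, apply it to `G = exp φ * F * √dt` through `per_int` (LibBGR/Per.lean:
`∫ z in D, per Γ f z * g z * √dt = ∫ z, f z * g z * √dt` for invariant continuous `g`) with
`g = exp φ * F`: so `F = 0` on `bigSq L ⊇ D`, hence everywhere (`hX.orbit z`, invariance). -/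

open MeasureTheory Set Filter Topology
open scoped ContDiff ENNReal NNReal unitInterval

namespace LibQR35

open BGS
open Pool.BGR (PM upI pj)

variable {Γ : Type} [Group Γ] [MulAction Γ Pl] {D : Set Pl}

private theorem C6_pos {L : ℕ} {G : Pl → ℝ} (hG : Continuous G)
    (h : ∀ R : ℕ, ∀ p ∈ grid L (R + 1), ∫ z, bmp (R + 1) p z * G z = 0) :
    ∀ z ∈ bigSq L, ¬ 0 < G z := by
  intro z hz hpos
  obtain ⟨ρ, hρ, hball⟩ := Metric.isOpen_iff.1 (isOpen_lt continuous_const hG) z hpos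
  obtain ⟨R, hR⟩ := exists_nat_one_div_lt hρ
  have hR0 : (0 : ℝ) < R + 1 := by positivity
  have hcast : (((R + 1 : ℕ) : ℝ)) = R + 1 := by push_cast; rfl
  set p : ℤ × ℤ := (⌊((R : ℝ) + 1) * z.1⌋, ⌊((R : ℝ) + 1) * z.2⌋) with hp
  have hfl : ∀ t : ℝ, t ∈ Ico (-(L : ℝ)) (-(L : ℝ) + 2 * L) →
      ⌊((R : ℝ) + 1) * t⌋ ∈ Finset.Ico (-((L : ℤ) * ((R + 1 : ℕ) : ℤ))) ((L : ℤ) * ((R + 1 : ℕ) : ℤ)) := by
    intro t ht
    rw [Finset.mem_Ico]
    constructor
    · rw [Int.le_floor]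
      push_cast
      nlinarith [ht.1]
    · rw [Int.floor_lt]
      push_cast
      nlinarith [ht.2]
  have hgrid : p ∈ grid L (R + 1) := by
    unfold grid
    rw [Finset.mem_product]
    exact ⟨hfl z.1 hz.1, hfl z.2 hz.2⟩
  have hself : ∀ t : ℝ, ((⌊((R : ℝ) + 1) * t⌋ : ℤ) : ℝ) / ((R : ℝ) + 1) ≤ t ∧
      t < ((⌊((R : ℝ) + 1) * t⌋ : ℤ) : ℝ) / ((R : ℝ) + 1) + 1 / ((R : ℝ) + 1) := by
    intro t
    constructor
    · rw [div_le_iff₀ hR0]
      nlinarith [Int.floor_le (((R : ℝ) + 1) * t)]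
    · rw [← add_div, lt_div_iff₀ hR0]
      nlinarith [Int.lt_floor_add_one (((R : ℝ) + 1) * t)]
  have hsupp : ∀ w : Pl, bmp (R + 1) p w ≠ 0 → 0 < G w := by
    intro w hw
    have h1 := bmp_supp (Nat.le_add_left 1 R) p hw
    rw [hcast] at h1
    have h2 := hself z.1
    have h3 := hself z.2
    apply hball
    rw [Metric.mem_ball, Prod.dist_eq, max_lt_iff, Real.dist_eq, Real.dist_eq]
    obtain ⟨⟨h4, h5⟩, ⟨h6, h7⟩⟩ := h1
    constructor
    · rw [abs_lt]
      constructor <;> linarith [h2.1, h2.2]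
    · rw [abs_lt]
      constructor <;> linarith [h3.1, h3.2]
  have hnn : 0 ≤ fun w => bmp (R + 1) p w * G w := by
    intro w
    by_cases hw : bmp (R + 1) p w = 0
    · simp [hw]
    · exact mul_nonneg (bmp_nonneg _ _ _) (hsupp w hw).le
  set c : Pl := (((p.1 : ℝ) + 1 / 2) / ((R : ℝ) + 1), ((p.2 : ℝ) + 1 / 2) / ((R : ℝ) + 1)) with hc
  have hc1 : bmp (R + 1) p c = 1 := by
    apply BMP_one (Nat.le_add_left 1 R)
    rw [hcast]
    have hq : ∀ q : ℝ, (q + 1 / 2) / ((R : ℝ) + 1) ∈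
        Icc ((q + 3 / 8) / ((R : ℝ) + 1)) ((q + 5 / 8) / ((R : ℝ) + 1)) := by
      intro q
      constructor <;> · rw [div_le_div_iff_of_pos_right hR0]; linarith
    exact ⟨hq _, hq _⟩
  have hint := Continuous.integral_pos_of_hasCompactSupport_nonneg_nonzero
    (μ := (volume : Measure Pl)) (f := fun w => bmp (R + 1) p w * G w) (x := c)
    ((bmp_smooth (R + 1) p).continuous.mul hG)
    ((bmp_compact (Nat.le_add_left 1 R) p).mul_right) hnn (by
      show bmp (R + 1) p c * G c ≠ 0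
      rw [hc1, one_mul]
      exact (hsupp c (by rw [hc1]; exact one_ne_zero)).ne')
  rw [h R p hgrid] at hint
  exact lt_irrefl _ hint

theorem bumps_detect (hX : Surface Γ D) (m : Mt Γ D) {L : ℕ} (hL : D ⊆ bigSq L) (φ F : TestS Γ)
    (h : ∀ j : Dir, Valid L j →
      ∫ z in D, Real.exp (φ.1 z) * per Γ (bmp (j.1 + 1) j.2) z * F.1 z * √(dt (m.1.1 z)) = 0) :
    ∀ z, F.1 z = 0 := by
  have hFc : Continuous F.1 := F.2.1.continuous
  have hφc : Continuous φ.1 := φ.2.1.continuous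
  have hgc : Continuous fun z => Real.exp (φ.1 z) * F.1 z := (Real.continuous_exp.comp hφc).mul hFc
  have hρ := BGR_rho m
  have hint : ∀ R : ℕ, ∀ p ∈ grid L (R + 1),
      ∫ z, bmp (R + 1) p z * (Real.exp (φ.1 z) * F.1 z * √(dt (m.1.1 z))) = 0 := by
    intro R p hp
    have h1 := h (R, p) hp
    have h2 := per_int hX m (bmp_smooth (R + 1) p) (bmp_compact (Nat.le_add_left 1 R) p) hgc
      (fun γ z => by
        show Real.exp (φ.1 (γ • z)) * F.1 (γ • z) = _
        rw [φ.2.2 γ z, F.2.2 γ z])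
    have h3 : ∀ z, bmp (R + 1) p z * (Real.exp (φ.1 z) * F.1 z * √(dt (m.1.1 z))) =
        bmp (R + 1) p z * (Real.exp (φ.1 z) * F.1 z) * √(dt (m.1.1 z)) := fun z => by ring
    simp only [h3]
    rw [← h2, ← h1]
    congr 1
    ext z
    ring
  have hcont : Continuous fun z => Real.exp (φ.1 z) * F.1 z * √(dt (m.1.1 z)) := hgc.mul hρ
  have hzero : ∀ z ∈ bigSq L, F.1 z = 0 := by
    intro z hz
    have h1 := C6_pos hcont hint z hz
    have h2 := C6_pos (G := fun z => -(Real.exp (φ.1 z) * F.1 z * √(dt (m.1.1 z)))) hcont.neg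
      (fun R p hp => by
        have h4 := hint R p hp
        simp only [mul_neg]
        rw [integral_neg, h4, neg_zero]) z hz
    have h3 : Real.exp (φ.1 z) * F.1 z * √(dt (m.1.1 z)) = 0 := by
      apply le_antisymm (not_lt.1 h1)
      linarith [not_lt.1 h2]
    have hs : 0 < √(dt (m.1.1 z)) := Real.sqrt_pos.2 (m.2.pos z).2
    rcases mul_eq_zero.1 h3 with h4 | h4
    · rcases mul_eq_zero.1 h4 with h5 | h5
      · exact absurd h5 (Real.exp_ne_zero _)
      · exact h5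
    · exact absurd h4 hs.ne'
  intro z
  obtain ⟨γ, hγ, -⟩ := hX.orbit z
  rw [← F.2.2 γ z]
  exact hzero _ (hL hγ)

end LibQR35
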