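import Pool.Agent.LibQR35.Defs

/-! ROW C7 : choice of the coordinates; openness of surjectivity.

PLAN. `select`: induction on `d` for the statement: for every finite dimensional real vector space
`V` (`Type`), `T : V →ₗ (ι → ℝ)` injective on `s` (only `0` is killed by all coordinates in `s`),
`Module.finrank ℝ V = d`, there is `J : Fin d → ι` in `s` with `∀ t : V, (∀ l, T t (J l) = 0) → t = 0`.
Step: pick `v ≠ 0`, `i ∈ s` with `T v i ≠ 0`, restrict to the kernel of `t ↦ T t i` (dimension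
`d - 1`, rank-nullity), `J = Fin.cons i J'`. Then for `V = Fin d → ℝ` the map `t ↦ (T t (J l))_l` is
an injective endomorphism of `Fin d → ℝ`, hence surjective (`LinearMap.injective_iff_surjective`);
surjectivity implies that `J` is injective.
`sur_open`: take `M l` with `∑ M l i j * X∞ l' i j = (if l = l' then 1 else 0)` (`h` for the standard
basis). The matrices `A N l' l = ∑ M l i j * X N l' i j` tend to the identity, so `det (A N) → 1`,
`(A N)⁻¹ = (det)⁻¹ • adjugate` has entries tending to those of `1` (`Continuous.matrix_adjugate` or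
entrywise continuity of `Ring.inverse`), in particular bounded by `2` for large `N`; given `q` take
`t = (A N)⁻¹ *ᵥ q`, `M = ∑ t l • M l`, `K = 2 * d * ∑ l, ∑ i, ∑ j, |M l i j| + 1`. -/

open MeasureTheory Set Filter Topology
open scoped ContDiff ENNReal NNReal unitInterval

namespace LibQR35

open BGS
open Pool.BGR (PM upI pj)

private theorem C7_select {ι : Type} (s : Set ι) : ∀ (d : ℕ) (V : Type) [AddCommGroup V]
    [Module ℝ V] [FiniteDimensional ℝ V] (T : V →ₗ[ℝ] (ι → ℝ)), Module.finrank ℝ V = d →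
    (∀ t, (∀ i ∈ s, T t i = 0) → t = 0) →
    ∃ J : Fin d → ι, (∀ l, J l ∈ s) ∧ ∀ t : V, (∀ l, T t (J l) = 0) → t = 0 := by
  intro d
  induction d with
  | zero =>
    intro V _ _ _ T hV _
    have : Subsingleton V := Module.finrank_zero_iff.1 hV
    exact ⟨Fin.elim0, fun l => l.elim0, fun t _ => Subsingleton.elim _ _⟩
  | succ d ih =>
    intro V _ _ _ T hV hT
    have hnt : Nontrivial V := Module.nontrivial_of_finrank_pos (R := ℝ) (by omega)
    obtain ⟨v, hv⟩ := exists_ne (0 : V)
    obtain ⟨i, hi, hvi⟩ : ∃ i ∈ s, T v i ≠ 0 := by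
      by_contra hcon
      push Not at hcon
      exact hv (hT v hcon)
    let φ : V →ₗ[ℝ] ℝ := (LinearMap.proj i) ∘ₗ T
    have hφ : ∀ t, φ t = T t i := fun t => rfl
    have hr : LinearMap.range φ = ⊤ := by
      refine LinearMap.range_eq_top.2 fun y => ?_
      refine ⟨(y / T v i) • v, ?_⟩
      rw [map_smul, hφ, smul_eq_mul, div_mul_cancel₀ _ hvi]
    have hK : Module.finrank ℝ (LinearMap.ker φ) = d := by
      have h1 := LinearMap.finrank_range_add_finrank_ker φ
      rw [hr, finrank_top, Module.finrank_self, hV] at h1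
      omega
    obtain ⟨J, hJ, hJ'⟩ := ih (LinearMap.ker φ) (T ∘ₗ (LinearMap.ker φ).subtype) hK
      (fun t ht => Subtype.ext (hT t fun i hi => ht i hi))
    refine ⟨Fin.cons i J, fun l => ?_, fun t ht => ?_⟩
    · refine Fin.cases ?_ (fun l => ?_) l
      · rw [Fin.cons_zero]
        exact hi
      · rw [Fin.cons_succ]
        exact hJ l
    · have h0 : φ t = 0 := by
        rw [hφ]
        have := ht 0
        rwa [Fin.cons_zero] at this
      have h1 := hJ' ⟨t, h0⟩ fun l => by
        have := ht l.succ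
        rwa [Fin.cons_succ] at this
      exact congrArg Subtype.val h1

theorem select {ι : Type} {d : ℕ} (T : (Fin d → ℝ) →ₗ[ℝ] (ι → ℝ)) (s : Set ι)
    (hT : ∀ t, (∀ i ∈ s, T t i = 0) → t = 0) :
    ∃ J : Fin d → ι, Function.Injective J ∧ (∀ l, J l ∈ s) ∧
      ∀ q : Fin d → ℝ, ∃ t, ∀ l, T t (J l) = q l := by
  obtain ⟨J, hJ, hJ'⟩ := C7_select s d (Fin d → ℝ) T (by simp) hT
  let A : (Fin d → ℝ) →ₗ[ℝ] (Fin d → ℝ) := LinearMap.pi fun l => (LinearMap.proj (J l)) ∘ₗ T
  have hA : ∀ t l, A t l = T t (J l) := fun t l => rfl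
  have hinj : Function.Injective A := by
    refine (injective_iff_map_eq_zero A).2 fun t ht => hJ' t fun l => ?_
    rw [← hA, ht]
    rfl
  have hsur : Function.Surjective A := LinearMap.injective_iff_surjective.1 hinj
  have hq : ∀ q : Fin d → ℝ, ∃ t, ∀ l, T t (J l) = q l := fun q => by
    obtain ⟨t, ht⟩ := hsur q
    exact ⟨t, fun l => by rw [← hA, ht]⟩
  refine ⟨J, fun l l' hll => ?_, hJ, hq⟩
  by_contra hne
  obtain ⟨t, ht⟩ := hq (Pi.single l 1)
  have h1 := ht l
  have h2 := ht l'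
  rw [hll, h2, Pi.single_eq_same, Pi.single_eq_of_ne (Ne.symm hne)] at h1
  exact zero_ne_one h1

theorem sur_open {n d : ℕ} (X : ℕ → Fin d → Fin n → Fin n → ℝ) (X' : Fin d → Fin n → Fin n → ℝ)
    (hX : ∀ l i j, Tendsto (fun N => X N l i j) atTop (𝓝 (X' l i j)))
    (h : ∀ q : Fin d → ℝ, ∃ M : Fin n → Fin n → ℝ, (∀ i j, M i j = M j i) ∧ ∑ i, M i i = 0 ∧
      ∀ l, ∑ i, ∑ j, M i j * X' l i j = q l) :
    ∃ K : ℝ, 0 < K ∧ ∀ᶠ N in atTop, Sur K (X N) := by
  choose M hM1 hM2 hM3 using fun l' : Fin d => h (Pi.single l' 1)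
  let A : ℕ → Matrix (Fin d) (Fin d) ℝ := fun N => Matrix.of fun l l' =>
    ∑ i, ∑ j, M l' i j * X N l i j
  have hAe : ∀ N l l', A N l l' = ∑ i, ∑ j, M l' i j * X N l i j := fun N l l' => rfl
  have hA : Tendsto A atTop (𝓝 (1 : Matrix (Fin d) (Fin d) ℝ)) := by
    refine tendsto_pi_nhds.2 fun l => tendsto_pi_nhds.2 fun l' => ?_
    have h1 : (1 : Matrix (Fin d) (Fin d) ℝ) l l' = ∑ i, ∑ j, M l' i j * X' l i j := by
      rw [hM3, Matrix.one_apply, Pi.single_apply]
    rw [h1]
    exact tendsto_finsetSum _ fun i _ => tendsto_finsetSum _ fun j _ => (hX l i j).const_mul _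
  have hdet : Tendsto (fun N => (A N).det) atTop (𝓝 1) := by
    have h1 := ((continuous_id (X := Matrix (Fin d) (Fin d) ℝ)).matrix_det.tendsto 1).comp hA
    simpa only [Function.comp_def, id_eq, Matrix.det_one] using h1
  have hadj : Tendsto (fun N => (A N).adjugate) atTop (𝓝 1) := by
    have h1 := ((continuous_id (X := Matrix (Fin d) (Fin d) ℝ)).matrix_adjugate.tendsto 1).comp hA
    simpa only [Function.comp_def, id_eq, Matrix.adjugate_one] using h1
  have hB : ∀ l l', ∀ᶠ N in atTop, |(A N)⁻¹ l l'| ≤ 2 := by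
    intro l l'
    have h1 : Tendsto (fun N => (A N)⁻¹ l l') atTop (𝓝 ((1 : Matrix (Fin d) (Fin d) ℝ) l l')) := by
      have h2 := (hdet.inv₀ one_ne_zero).mul ((tendsto_pi_nhds.1 ((tendsto_pi_nhds.1 hadj) l)) l')
      rw [inv_one, one_mul] at h2
      refine h2.congr fun N => ?_
      rw [Matrix.inv_def, Matrix.smul_apply, Ring.inverse_eq_inv', smul_eq_mul]
    have h3 : |(1 : Matrix (Fin d) (Fin d) ℝ) l l'| < 2 := by
      rw [Matrix.one_apply]
      split_ifs
      · rw [abs_one]
        norm_num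
      · rw [abs_zero]
        norm_num
    exact (h1.abs.eventually (eventually_lt_nhds h3)).mono fun N hN => hN.le
  have hu : ∀ᶠ N in atTop, (A N).det ≠ 0 := hdet.eventually_ne one_ne_zero
  refine ⟨2 * d * (∑ l, ∑ i, ∑ j, |M l i j|) + 1, by positivity, ?_⟩
  filter_upwards [hu, eventually_all.2 fun l => eventually_all.2 fun l' => hB l l'] with N hN hBN
  intro q
  have ht : ∀ l, |((A N)⁻¹.mulVec q) l| ≤ 2 * d * ‖q‖ := by
    intro l
    rw [Matrix.mulVec, dotProduct]
    calc |∑ l', (A N)⁻¹ l l' * q l'| ≤ ∑ l', |(A N)⁻¹ l l' * q l'| :=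
          Finset.abs_sum_le_sum_abs _ _
      _ ≤ ∑ _l' : Fin d, 2 * ‖q‖ := by
          refine Finset.sum_le_sum fun l' _ => ?_
          rw [abs_mul]
          exact mul_le_mul (hBN l l') (norm_le_pi_norm q l') (abs_nonneg _) (by norm_num)
      _ = 2 * d * ‖q‖ := by
          rw [Finset.sum_const, Finset.card_univ, Fintype.card_fin, nsmul_eq_mul]
          ring
  refine ⟨fun i j => ∑ l', ((A N)⁻¹.mulVec q) l' * M l' i j, fun i j => ?_, ?_, fun i j => ?_,
    fun l => ?_⟩
  · exact Finset.sum_congr rfl fun l' _ => by rw [hM1]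
  · rw [Finset.sum_comm]
    refine Finset.sum_eq_zero fun l' _ => ?_
    rw [← Finset.mul_sum, hM2, mul_zero]
  · calc |∑ l', ((A N)⁻¹.mulVec q) l' * M l' i j|
        ≤ ∑ l', |((A N)⁻¹.mulVec q) l' * M l' i j| := Finset.abs_sum_le_sum_abs _ _
      _ ≤ ∑ l', (2 * d * ‖q‖) * (∑ i, ∑ j, |M l' i j|) := by
          refine Finset.sum_le_sum fun l' _ => ?_
          rw [abs_mul]
          refine mul_le_mul (ht l') ?_ (abs_nonneg _) (by positivity)
          refine (Finset.single_le_sum (f := fun j => |M l' i j|) (fun j _ => abs_nonneg _)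
            (Finset.mem_univ j)).trans ?_
          exact Finset.single_le_sum (f := fun i => ∑ j, |M l' i j|)
            (fun i _ => Finset.sum_nonneg fun j _ => abs_nonneg _) (Finset.mem_univ i)
      _ = 2 * d * (∑ l, ∑ i, ∑ j, |M l i j|) * ‖q‖ := by
          rw [← Finset.mul_sum]
          ring
      _ ≤ _ := by
          rw [add_mul, one_mul]
          linarith [norm_nonneg q]
  · have h1 : (A N).mulVec ((A N)⁻¹.mulVec q) = q := by
      rw [Matrix.mulVec_mulVec, Matrix.mul_nonsing_inv _ (isUnit_iff_ne_zero.2 hN),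
        Matrix.one_mulVec]
    have h2 := congrFun h1 l
    rw [Matrix.mulVec, dotProduct] at h2
    rw [← h2]
    simp only [hAe, Finset.sum_mul]
    calc ∑ i, ∑ j, ∑ l', ((A N)⁻¹.mulVec q) l' * M l' i j * X N l i j
        = ∑ i, ∑ l', ∑ j, ((A N)⁻¹.mulVec q) l' * M l' i j * X N l i j :=
          Finset.sum_congr rfl fun i _ => Finset.sum_comm
      _ = ∑ l', ∑ i, ∑ j, ((A N)⁻¹.mulVec q) l' * M l' i j * X N l i j := Finset.sum_comm
      _ = _ := by
          refine Finset.sum_congr rfl fun l' _ => Finset.sum_congr rfl fun i _ =>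
            Finset.sum_congr rfl fun j _ => ?_
          ring

theorem Sur.mono {n d : ℕ} {K K' : ℝ} (h : K ≤ K') {X : Fin d → Fin n → Fin n → ℝ}
    (hs : Sur K X) : Sur K' X := by
  intro q
  obtain ⟨M, h1, h2, h3, h4⟩ := hs q
  exact ⟨M, h1, h2, fun i j => (h3 i j).trans (mul_le_mul_of_nonneg_right h (norm_nonneg q)), h4⟩

end LibQR35
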