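import Pool.Agent.LibQR35.Defs

/-! ROW CB : the counting lemma (helper40's (A)).

PLAN. All norms are sup norms on `Fin d → ℝ`. CLAIM: if `s, s' ∈ B` have slopes `g, g'` as in `hB`
and the closed balls of radius `c₀/2` about `g` and `g'` meet in `p`, then `‖s - s'‖ <= 4 ε / c₀`.
Proof: let `l` be a coordinate with `|s' l - s l| = ‖s' - s‖` (`Finset.exists_max_image`; the case
`d = 0` or `s = s'` is trivial), `σ` its sign, `e = σ` on `l` and `0` elsewhere. Use `hB` at `s` with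
the slope `p + (c₀/2) e`, `y = s'`, and at `s'` with the slope `p - (c₀/2) e`, `y = s`, and add:
`c₀ ‖s' - s‖ <= 2 ε + 2 M ‖s' - s‖^2`, and `2 M ‖s' - s‖ <= c₀ / 2` by `hQ`.
MAIN: let `T ⊆ B` be a finite set with pairwise distances `> 4 ε / c₀`. Its balls
`closedBall (g s) (c₀/2)` are pairwise disjoint inside `closedBall 0 (L + c₀)`, of volume `c₀^d`
each (`Real.volume_pi_closedBall`), so `T.card * c₀^d <= (2 (L + c₀))^d`. Take `T` of maximal
cardinality: `B` is covered by the closed balls of radius `4 ε / c₀` about `T`, so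
`volume B <= T.card * (8 ε / c₀)^d`. -/

open MeasureTheory Set Filter Topology
open scoped ContDiff ENNReal NNReal unitInterval

namespace LibQR35

open BGS
open Pool.BGR (PM upI pj)

private theorem CB_sum {d : ℕ} (p s s' : Fin d → ℝ) (l : Fin d) (x : ℝ) :
    ∑ i, (p i + if i = l then x else 0) * (s' i - s i) =
      ∑ i, p i * (s' i - s i) + x * (s' l - s l) := by
  simp only [add_mul, Finset.sum_add_distrib, ite_mul, zero_mul, Finset.sum_ite_eq',
    Finset.mem_univ, if_true]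

private theorem CB_norm {d : ℕ} {p g : Fin d → ℝ} {c₀ x : ℝ} (l : Fin d)
    (hp : ‖p - g‖ ≤ c₀ / 2) (hx : |x| ≤ c₀ / 2) :
    ‖(fun i => p i + if i = l then x else 0) - g‖ ≤ c₀ := by
  have h0 : 0 ≤ c₀ := by linarith [norm_nonneg (p - g)]
  refine (pi_norm_le_iff_of_nonneg h0).2 fun i => ?_
  have h1 : |p i - g i| ≤ c₀ / 2 := (norm_le_pi_norm (p - g) i).trans hp
  rw [Pi.sub_apply, Real.norm_eq_abs]
  split_ifs with h
  · calc |p i + x - g i| = |(p i - g i) + x| := by ring_nf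
      _ ≤ |p i - g i| + |x| := abs_add_le _ _
      _ ≤ c₀ := by linarith
  · rw [add_zero]; linarith

private theorem CB_close {d : ℕ} (F : (Fin d → ℝ) → ℝ) {c₀ ε M : ℝ} (hc : 0 < c₀) (hε : 0 < ε)
    (hM : 0 < M) (Q : Set (Fin d → ℝ)) (hQ : ∀ x ∈ Q, ∀ y ∈ Q, ‖x - y‖ ≤ c₀ / (4 * M))
    {s s' g g' p : Fin d → ℝ} (hs : s ∈ Q) (hs' : s' ∈ Q)
    (h : ∀ q : Fin d → ℝ, ‖q - g‖ ≤ c₀ → ∀ y ∈ Q,
      F s + ∑ i, q i * (y i - s i) - ε - M * ‖y - s‖ ^ 2 ≤ F y)
    (h' : ∀ q : Fin d → ℝ, ‖q - g'‖ ≤ c₀ → ∀ y ∈ Q,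
      F s' + ∑ i, q i * (y i - s' i) - ε - M * ‖y - s'‖ ^ 2 ≤ F y)
    (hp : ‖p - g‖ ≤ c₀ / 2) (hp' : ‖p - g'‖ ≤ c₀ / 2) : dist s s' ≤ 4 * ε / c₀ := by
  rcases Nat.eq_zero_or_pos d with h0 | h0
  · subst h0
    rw [Subsingleton.elim s s', dist_self]
    positivity
  have : Nonempty (Fin d) := ⟨⟨0, h0⟩⟩
  obtain ⟨l, hl⟩ := Finite.exists_max (fun i => |s' i - s i|)
  have hl' : ‖s' - s‖ = |s' l - s l| := by
    refine le_antisymm ((pi_norm_le_iff_of_nonneg (abs_nonneg _)).2 fun i => ?_)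
      (norm_le_pi_norm (s' - s) l)
    exact hl i
  obtain ⟨x, hx, hx'⟩ : ∃ x : ℝ, |x| ≤ c₀ / 2 ∧ x * (s' l - s l) = c₀ / 2 * |s' l - s l| := by
    rcases le_total 0 (s' l - s l) with h1 | h1
    · exact ⟨c₀ / 2, by rw [abs_of_pos (by positivity)], by rw [abs_of_nonneg h1]⟩
    · refine ⟨-(c₀ / 2), by rw [abs_neg, abs_of_pos (by positivity)], ?_⟩
      rw [abs_of_nonpos h1]
      ring
  have h1 := h _ (CB_norm l hp hx) s' hs'
  have h2 := h' _ (CB_norm l hp' (x := -x) (by rwa [abs_neg])) s hs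
  rw [CB_sum] at h1 h2
  have h3 : ∑ i, p i * (s i - s' i) = -∑ i, p i * (s' i - s i) := by
    rw [← Finset.sum_neg_distrib]
    exact Finset.sum_congr rfl fun i _ => by ring
  have h4 : ‖s - s'‖ = ‖s' - s‖ := norm_sub_rev _ _
  have h5 : -x * (s l - s' l) = x * (s' l - s l) := by ring
  rw [h3, h4, h5, hx', ← hl'] at h2
  rw [hx', ← hl'] at h1
  have h6 := hQ s' hs' s hs
  have h7 : M * ‖s' - s‖ ≤ c₀ / 4 := by
    rw [le_div_iff₀ (by positivity)] at h6
    linarith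
  have h8 := mul_le_mul_of_nonneg_right h7 (norm_nonneg (s' - s))
  rw [dist_eq_norm, h4, le_div_iff₀ hc]
  nlinarith

/-- **The counting lemma.** -/
theorem count_bad {d : ℕ} (F : (Fin d → ℝ) → ℝ) {c₀ ε L M : ℝ} (hc : 0 < c₀) (hε : 0 < ε)
    (hL : 0 ≤ L) (hM : 0 < M) (Q B : Set (Fin d → ℝ)) (hBQ : B ⊆ Q)
    (hQ : ∀ x ∈ Q, ∀ y ∈ Q, ‖x - y‖ ≤ c₀ / (4 * M))
    (hB : ∀ s ∈ B, ∃ g : Fin d → ℝ, ‖g‖ ≤ L ∧ ∀ g' : Fin d → ℝ, ‖g' - g‖ ≤ c₀ → ∀ y ∈ Q,
      F s + ∑ i, g' i * (y i - s i) - ε - M * ‖y - s‖ ^ 2 ≤ F y) :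
    volume B ≤ ENNReal.ofReal ((2 * (L + c₀) / c₀) ^ d * (8 * ε / c₀) ^ d) := by
  classical
  choose! g hg1 hg2 using hB
  have hclose : ∀ s ∈ B, ∀ s' ∈ B, 4 * ε / c₀ < dist s s' →
      Disjoint (Metric.closedBall (g s) (c₀ / 2)) (Metric.closedBall (g s') (c₀ / 2)) := by
    intro s hs s' hs' hd
    rw [Set.disjoint_left]
    intro p hp hp'
    rw [mem_closedBall_iff_norm] at hp hp'
    exact absurd (CB_close F hc hε hM Q hQ (hBQ hs) (hBQ hs') (hg2 s hs) (hg2 s' hs') hp hp')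
      (not_le.2 hd)
  -- the bound for separated sets
  have hcard : ∀ T : Finset (Fin d → ℝ), (∀ t ∈ T, t ∈ B) →
      (∀ t ∈ T, ∀ t' ∈ T, t ≠ t' → 4 * ε / c₀ < dist t t') →
      (T.card : ℝ) ≤ (2 * (L + c₀) / c₀) ^ d := by
    intro T hT hsep
    have h1 : volume (⋃ t ∈ T, Metric.closedBall (g t) (c₀ / 2)) =
        ∑ t ∈ T, volume (Metric.closedBall (g t) (c₀ / 2)) := by
      refine measure_biUnion_finset ?_ fun t _ => Metric.isClosed_closedBall.measurableSet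
      intro t ht t' ht' hne
      exact hclose t (hT t ht) t' (hT t' ht') (hsep t ht t' ht' hne)
    have h2 : volume (⋃ t ∈ T, Metric.closedBall (g t) (c₀ / 2)) ≤
        volume (Metric.closedBall (0 : Fin d → ℝ) (L + c₀)) := by
      refine measure_mono (Set.iUnion₂_subset fun t ht => ?_)
      refine Metric.closedBall_subset_closedBall' ?_
      rw [dist_zero_right]
      linarith [hg1 t (hT t ht)]
    rw [h1, Real.volume_pi_closedBall _ (by positivity)] at h2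
    simp only [Real.volume_pi_closedBall _ (show (0 : ℝ) ≤ c₀ / 2 by positivity),
      Finset.sum_const, Fintype.card_fin] at h2
    rw [nsmul_eq_mul, ← ENNReal.ofReal_natCast, ← ENNReal.ofReal_mul (by positivity),
      ENNReal.ofReal_le_ofReal_iff (by positivity), show 2 * (c₀ / 2) = c₀ by ring] at h2
    rw [div_pow, le_div_iff₀ (by positivity)]
    exact h2
  -- a separated set of maximal cardinality
  obtain ⟨T, hT, hsep, hmax⟩ : ∃ T : Finset (Fin d → ℝ), (∀ t ∈ T, t ∈ B) ∧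
      (∀ t ∈ T, ∀ t' ∈ T, t ≠ t' → 4 * ε / c₀ < dist t t') ∧
      ∀ T' : Finset (Fin d → ℝ), (∀ t ∈ T', t ∈ B) →
        (∀ t ∈ T', ∀ t' ∈ T', t ≠ t' → 4 * ε / c₀ < dist t t') → T'.card ≤ T.card := by
    let S : Set ℕ := {n | ∃ T : Finset (Fin d → ℝ), (∀ t ∈ T, t ∈ B) ∧
      (∀ t ∈ T, ∀ t' ∈ T, t ≠ t' → 4 * ε / c₀ < dist t t') ∧ T.card = n}
    have hS0 : S.Nonempty := ⟨0, ∅, by simp, by simp, rfl⟩
    have hSb : BddAbove S := by
      refine ⟨⌊(2 * (L + c₀) / c₀) ^ d⌋₊, ?_⟩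
      rintro n ⟨T, h1, h2, rfl⟩
      exact Nat.le_floor (hcard T h1 h2)
    obtain ⟨T, h1, h2, h3⟩ := Nat.sSup_mem hS0 hSb
    refine ⟨T, h1, h2, fun T' h1' h2' => ?_⟩
    rw [h3]
    exact le_csSup hSb ⟨T', h1', h2', rfl⟩
  have hcov : B ⊆ ⋃ t ∈ T, Metric.closedBall t (4 * ε / c₀) := by
    intro s hs
    by_contra hcon
    simp only [Set.mem_iUnion, Metric.mem_closedBall, not_exists, not_le] at hcon
    have hsT : s ∉ T := fun h => by
      have := hcon s h
      rw [dist_self] at this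
      exact absurd this (not_lt.2 (by positivity))
    have h1 := hmax (insert s T) (by
      intro t ht
      rcases Finset.mem_insert.1 ht with rfl | ht
      · exact hs
      · exact hT t ht) (by
      intro t ht t' ht' hne
      rcases Finset.mem_insert.1 ht with h2 | h2
      · rcases Finset.mem_insert.1 ht' with h3 | h3
        · exact absurd (h2.trans h3.symm) hne
        · rw [h2]
          exact hcon t' h3
      · rcases Finset.mem_insert.1 ht' with h3 | h3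
        · rw [h3, dist_comm]
          exact hcon t h2
        · exact hsep t h2 t' h3 hne)
    rw [Finset.card_insert_of_notMem hsT] at h1
    omega
  calc volume B ≤ volume (⋃ t ∈ T, Metric.closedBall t (4 * ε / c₀)) := measure_mono hcov
    _ ≤ ∑ t ∈ T, volume (Metric.closedBall t (4 * ε / c₀)) := measure_biUnion_finset_le _ _
    _ = (T.card : ℝ≥0∞) * ENNReal.ofReal ((8 * ε / c₀) ^ d) := by
        simp only [Real.volume_pi_closedBall _ (show (0 : ℝ) ≤ 4 * ε / c₀ by positivity),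
          Finset.sum_const, Fintype.card_fin, nsmul_eq_mul]
        congr 3
        ring
    _ = ENNReal.ofReal ((T.card : ℝ) * (8 * ε / c₀) ^ d) := by
        rw [ENNReal.ofReal_mul (by positivity), ENNReal.ofReal_natCast]
    _ ≤ _ := ENNReal.ofReal_le_ofReal
        (mul_le_mul_of_nonneg_right (hcard T hT hsep) (by positivity))

end LibQR35
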