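import Pool.Agent.LibQR35.Defs

/-! ROW CG : the counting lemma with parallelepipeds.

PLAN. Convexify: `F' y = F y + M * ∑ i, y i ^ 2`. The hypothesis says: for `s ∈ B`, `‖τ‖ <= 1`, `y ∈ Q`:
`F' s + ∑ i, (p + A τ) i * (y i - s i) - ε <= F' y` with `p = a + 2 M s`, `(A τ) i = ∑ j, A i j * τ j`.
Choose `a s`, `A s` for `s ∈ B`; `p s = a s + 2 M s`. The half box `H s = {p s + A s τ | ‖τ‖ <= 1/2}` is the
image of a closed ball, its volume is `|det (A s)| >= Θ` (`Real.map_matrix_volume_pi_eq_smul_volume_pi` /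
`MeasureTheory.Measure.addHaar_image_linearMap`, `Real.volume_pi_closedBall`, radius 1/2), and
`H s ⊆ closedBall 0 (L + 2 M + d L)`.
CLAIM: if `H s` and `H s'` meet in `p₀` (`s, s' ∈ B`), then `‖A(s)ᵀ (s' - s)‖ <= 4 ε`, i.e. for every `j`:
`|∑ i, A i j * (s' i - s i)| <= 4 ε`. Proof: `p₀ = p s + A s τ`, `‖τ‖ <= 1/2`; for `e = ± (1/2)` in the
coordinate `j`: `τ + e` is admissible at `s`, so `F' s + <p₀ + A e, s' - s> - ε <= F' s'`; and at `s'` with the
slope `p₀`: `F' s' + <p₀, s - s'> - ε <= F' s`. Add: `<A e, s' - s> <= 2 ε`.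
MAIN: a finite set `T ⊆ B` with pairwise disjoint half boxes has `T.card * Θ <= (2 (L + 2 M + d L))^d`; take
`T` of maximal cardinality; every `s' ∈ B` has a half box meeting that of some `s ∈ T` (itself if `s' ∈ T`,
`Θ > 0` is not needed for that), so `B ⊆ ⋃_{s ∈ T} {s' | A(s)ᵀ (s' - s) ∈ closedBall 0 (4 ε)}`, and this
preimage has volume `(8 ε)^d / |det| <= (8 ε)^d / Θ` (`Measure.addHaar_preimage_linearMap`,
`Matrix.det_transpose`; translation). Total `<= (2 (L + 2 M + d L))^d / Θ * ((8 ε)^d / Θ)`. -/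

open MeasureTheory Set Filter Topology
open scoped ContDiff ENNReal NNReal unitInterval

namespace LibQR35

open BGS
open Pool.BGR (PM upI pj)

private theorem CG_conv {d : ℕ} {F : (Fin d → ℝ) → ℝ} {ε M : ℝ} {s a y : Fin d → ℝ}
    {A : Matrix (Fin d) (Fin d) ℝ} {τ : Fin d → ℝ}
    (h : F s + ∑ i, (a i + ∑ j, A i j * τ j) * (y i - s i) - ε - M * ∑ i, (y i - s i) ^ 2 ≤ F y) :
    (F s + M * ∑ i, s i ^ 2) +
      ∑ i, ((fun i => a i + 2 * M * s i) + A.mulVec τ) i * (y i - s i) - ε ≤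
      F y + M * ∑ i, y i ^ 2 := by
  have h1 : ∑ i, ((fun i => a i + 2 * M * s i) + A.mulVec τ) i * (y i - s i) =
      ∑ i, (a i + ∑ j, A i j * τ j) * (y i - s i) + M * ∑ i, y i ^ 2 - M * ∑ i, s i ^ 2 -
        M * ∑ i, (y i - s i) ^ 2 := by
    rw [Finset.mul_sum, Finset.mul_sum, Finset.mul_sum, ← Finset.sum_add_distrib,
      ← Finset.sum_sub_distrib, ← Finset.sum_sub_distrib]
    refine Finset.sum_congr rfl fun i _ => ?_
    simp only [Pi.add_apply, Matrix.mulVec, dotProduct]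
    ring
  rw [h1]
  linarith

private theorem CG_close {d : ℕ} {F' : (Fin d → ℝ) → ℝ} {ε : ℝ} {s s' p p' τ τ' : Fin d → ℝ}
    {A A' : Matrix (Fin d) (Fin d) ℝ}
    (h : ∀ τ : Fin d → ℝ, ‖τ‖ ≤ 1 → F' s + ∑ i, (p + A.mulVec τ) i * (s' i - s i) - ε ≤ F' s')
    (h' : ∀ τ : Fin d → ℝ, ‖τ‖ ≤ 1 → F' s' + ∑ i, (p' + A'.mulVec τ) i * (s i - s' i) - ε ≤ F' s)
    (hτ : ‖τ‖ ≤ 1 / 2) (hτ' : ‖τ'‖ ≤ 1 / 2) (he : p + A.mulVec τ = p' + A'.mulVec τ')
    (j : Fin d) : |∑ i, A i j * (s' i - s i)| ≤ 4 * ε := by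
  have hn : ∀ x : ℝ, |x| ≤ 1 / 2 → ‖τ + Pi.single j x‖ ≤ 1 := by
    intro x hx
    have h1 : ‖(Pi.single j x : Fin d → ℝ)‖ ≤ 1 / 2 := by
      refine (pi_norm_le_iff_of_nonneg (by norm_num)).2 fun i => ?_
      rw [Real.norm_eq_abs]
      by_cases hij : i = j
      · subst hij
        rw [Pi.single_eq_same]
        exact hx
      · rw [Pi.single_eq_of_ne hij, abs_zero]
        norm_num
    calc ‖τ + Pi.single j x‖ ≤ ‖τ‖ + ‖(Pi.single j x : Fin d → ℝ)‖ := norm_add_le _ _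
      _ ≤ 1 := by linarith
  have hs : ∀ x : ℝ, |x| ≤ 1 / 2 → x * ∑ i, A i j * (s' i - s i) ≤ 2 * ε := by
    intro x hx
    have h1 := h _ (hn x hx)
    have h2 := h' τ' (by linarith)
    rw [← he] at h2
    have h3 : ∑ i, (p + A.mulVec (τ + Pi.single j x)) i * (s' i - s i) =
        ∑ i, (p + A.mulVec τ) i * (s' i - s i) + x * ∑ i, A i j * (s' i - s i) := by
      rw [Finset.mul_sum, ← Finset.sum_add_distrib]
      refine Finset.sum_congr rfl fun i _ => ?_
      rw [Matrix.mulVec_add, Pi.add_apply, Pi.add_apply, Pi.add_apply, Matrix.mulVec_single]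
      simp only [Pi.smul_apply, MulOpposite.smul_eq_mul_unop, MulOpposite.unop_op, Matrix.col_apply]
      ring
    have h4 : ∑ i, (p + A.mulVec τ) i * (s i - s' i) =
        -∑ i, (p + A.mulVec τ) i * (s' i - s i) := by
      rw [← Finset.sum_neg_distrib]
      exact Finset.sum_congr rfl fun i _ => by ring
    rw [h3] at h1
    rw [h4] at h2
    linarith
  have h1 := hs (1 / 2) (by rw [abs_of_pos]; norm_num)
  have h2 := hs (-(1 / 2)) (by rw [abs_neg, abs_of_pos]; norm_num)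
  rw [abs_le]
  constructor <;> linarith

private theorem CG_vol {d : ℕ} (p : Fin d → ℝ) (A : Matrix (Fin d) (Fin d) ℝ) :
    volume ((fun τ : Fin d → ℝ => p + A.mulVec τ) '' Metric.closedBall 0 (1 / 2)) =
      ENNReal.ofReal |A.det| := by
  have h1 : (fun τ : Fin d → ℝ => p + A.mulVec τ) '' Metric.closedBall 0 (1 / 2) =
      (fun x => p + x) '' ((Matrix.toLin' A) '' Metric.closedBall 0 (1 / 2)) := by
    rw [Set.image_image]
    rfl
  rw [h1, Set.image_add_left, measure_preimage_add, Measure.addHaar_image_linearMap,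
    LinearMap.det_toLin', Real.volume_pi_closedBall _ (by norm_num)]
  norm_num

private theorem CG_pre {d : ℕ} (s : Fin d → ℝ) (A : Matrix (Fin d) (Fin d) ℝ) {Θ ε : ℝ}
    (hΘ : 0 < Θ) (hε : 0 < ε) (hA : Θ ≤ |A.det|) :
    volume {s' : Fin d → ℝ | ∀ j, |∑ i, A i j * (s' i - s i)| ≤ 4 * ε} ≤
      ENNReal.ofReal ((8 * ε) ^ d / Θ) := by
  have h1 : {s' : Fin d → ℝ | ∀ j, |∑ i, A i j * (s' i - s i)| ≤ 4 * ε} =
      (fun x => -s + x) ⁻¹' ((Matrix.toLin' A.transpose) ⁻¹' Metric.closedBall 0 (4 * ε)) := by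
    ext s'
    simp only [Set.mem_ofPred_eq, Set.mem_preimage, mem_closedBall_zero_iff, Matrix.toLin'_apply]
    rw [pi_norm_le_iff_of_nonneg (by positivity)]
    refine forall_congr' fun j => ?_
    rw [Real.norm_eq_abs]
    have : A.transpose.mulVec (-s + s') j = ∑ i, A i j * (s' i - s i) := by
      simp only [Matrix.mulVec, dotProduct, Matrix.transpose_apply, Pi.add_apply, Pi.neg_apply]
      exact Finset.sum_congr rfl fun i _ => by ring
    rw [this]
  have h0 : A.det ≠ 0 := by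
    intro h
    rw [h, abs_zero] at hA
    linarith
  rw [h1, measure_preimage_add, Measure.addHaar_preimage_linearMap _
    (by rwa [LinearMap.det_toLin', Matrix.det_transpose]), LinearMap.det_toLin',
    Matrix.det_transpose, Real.volume_pi_closedBall _ (by positivity),
    ← ENNReal.ofReal_mul (abs_nonneg _)]
  refine ENNReal.ofReal_le_ofReal ?_
  rw [Fintype.card_fin, abs_inv, show 2 * (4 * ε) = 8 * ε by ring, inv_mul_eq_div]
  exact div_le_div_of_nonneg_left (by positivity) hΘ hA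

/-- **The counting lemma**, parallelepipeds of slopes. -/
theorem count_gen {d : ℕ} (F : (Fin d → ℝ) → ℝ) {ε L M Θ : ℝ} (hε : 0 < ε) (hL : 0 < L)
    (hM : 0 < M) (hΘ : 0 < Θ) (Q B : Set (Fin d → ℝ)) (hBQ : B ⊆ Q) (hQ : ∀ y ∈ Q, ‖y‖ ≤ 1)
    (hB : ∀ s ∈ B, ∃ (a : Fin d → ℝ) (A : Matrix (Fin d) (Fin d) ℝ), ‖a‖ ≤ L ∧
      (∀ i j, |A i j| ≤ L) ∧ Θ ≤ |A.det| ∧ ∀ τ : Fin d → ℝ, ‖τ‖ ≤ 1 → ∀ y ∈ Q,
      F s + ∑ i, (a i + ∑ j, A i j * τ j) * (y i - s i) - ε - M * ∑ i, (y i - s i) ^ 2 ≤ F y) :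
    volume B ≤ ENNReal.ofReal ((2 * (L + 2 * M + d * L)) ^ d / Θ * ((8 * ε) ^ d / Θ)) := by
  classical
  choose! a A ha hA hdet hmain using hB
  -- the convexified statement
  obtain ⟨F', hF'⟩ : ∃ F' : (Fin d → ℝ) → ℝ, F' = fun y => F y + M * ∑ i, y i ^ 2 := ⟨_, rfl⟩
  obtain ⟨p, hp⟩ : ∃ p : (Fin d → ℝ) → Fin d → ℝ, p = fun s i => a s i + 2 * M * s i := ⟨_, rfl⟩
  have hconv : ∀ s ∈ B, ∀ τ : Fin d → ℝ, ‖τ‖ ≤ 1 → ∀ y ∈ Q,
      F' s + ∑ i, (p s + (A s).mulVec τ) i * (y i - s i) - ε ≤ F' y := by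
    intro s hs τ hτ y hy
    rw [hF', hp]
    exact CG_conv (hmain s hs τ hτ y hy)
  let H : (Fin d → ℝ) → Set (Fin d → ℝ) := fun s =>
    (fun τ : Fin d → ℝ => p s + (A s).mulVec τ) '' Metric.closedBall 0 (1 / 2)
  have hHc : ∀ s, IsCompact (H s) := fun s =>
    (isCompact_closedBall _ _).image (by fun_prop)
  have hHv : ∀ s, volume (H s) = ENNReal.ofReal |(A s).det| := fun s => CG_vol _ _
  have hR : 0 ≤ L + 2 * M + d * L := by positivity
  have hHs : ∀ s ∈ B, H s ⊆ Metric.closedBall 0 (L + 2 * M + d * L) := by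
    rintro s hs _ ⟨τ, hτ, rfl⟩
    rw [mem_closedBall_zero_iff] at hτ ⊢
    refine (pi_norm_le_iff_of_nonneg hR).2 fun i => ?_
    rw [Real.norm_eq_abs]
    have h1 : |a s i| ≤ L := (norm_le_pi_norm (a s) i).trans (ha s hs)
    have h2 : |s i| ≤ 1 := (norm_le_pi_norm s i).trans (hQ s (hBQ hs))
    have h3 : |(A s).mulVec τ i| ≤ d * L := by
      simp only [Matrix.mulVec, dotProduct]
      calc |∑ j, A s i j * τ j| ≤ ∑ j, |A s i j * τ j| := Finset.abs_sum_le_sum_abs _ _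
        _ ≤ ∑ _j : Fin d, L := by
            refine Finset.sum_le_sum fun j _ => ?_
            rw [abs_mul]
            have h4 : |τ j| ≤ 1 := ((norm_le_pi_norm τ j).trans hτ).trans (by norm_num)
            calc |A s i j| * |τ j| ≤ L * 1 :=
                  mul_le_mul (hA s hs i j) h4 (abs_nonneg _) hL.le
              _ = L := mul_one _
        _ = d * L := by simp
    have h5 : |2 * M * s i| ≤ 2 * M := by
      rw [abs_mul, abs_of_pos (show (0 : ℝ) < 2 * M by positivity)]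
      calc 2 * M * |s i| ≤ 2 * M * 1 := mul_le_mul_of_nonneg_left h2 (by positivity)
        _ = 2 * M := mul_one _
    show |p s i + (A s).mulVec τ i| ≤ _
    rw [hp]
    calc |a s i + 2 * M * s i + (A s).mulVec τ i| ≤ |a s i + 2 * M * s i| + |(A s).mulVec τ i| :=
          abs_add_le _ _
      _ ≤ |a s i| + |2 * M * s i| + |(A s).mulVec τ i| := by
          gcongr
          exact abs_add_le _ _
      _ ≤ L + 2 * M + d * L := by linarith
  have hmeet : ∀ s ∈ B, ∀ s' ∈ B, ¬ Disjoint (H s) (H s') →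
      ∀ j, |∑ i, A s i j * (s' i - s i)| ≤ 4 * ε := by
    intro s hs s' hs' hd j
    rw [Set.not_disjoint_iff] at hd
    obtain ⟨q, ⟨τ, hτ, h1⟩, ⟨τ', hτ', h2⟩⟩ := hd
    rw [mem_closedBall_zero_iff] at hτ hτ'
    exact CG_close (F' := F') (fun t ht => hconv s hs t ht s' (hBQ hs'))
      (fun t ht => hconv s' hs' t ht s (hBQ hs)) hτ hτ' (h1.trans h2.symm) j
  -- the bound for disjoint families
  have hcard : ∀ T : Finset (Fin d → ℝ), (∀ t ∈ T, t ∈ B) →
      (∀ t ∈ T, ∀ t' ∈ T, t ≠ t' → Disjoint (H t) (H t')) →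
      (T.card : ℝ) ≤ (2 * (L + 2 * M + d * L)) ^ d / Θ := by
    intro T hT hsep
    have h1 : volume (⋃ t ∈ T, H t) = ∑ t ∈ T, volume (H t) := by
      refine measure_biUnion_finset ?_ fun t _ => (hHc t).isClosed.measurableSet
      intro t ht t' ht' hne
      exact hsep t ht t' ht' hne
    have h2 : volume (⋃ t ∈ T, H t) ≤
        volume (Metric.closedBall (0 : Fin d → ℝ) (L + 2 * M + d * L)) :=
      measure_mono (Set.iUnion₂_subset fun t ht => hHs t (hT t ht))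
    have h3 : ∑ _t ∈ T, ENNReal.ofReal Θ ≤ ∑ t ∈ T, volume (H t) := by
      refine Finset.sum_le_sum fun t ht => ?_
      rw [hHv]
      exact ENNReal.ofReal_le_ofReal (hdet t (hT t ht))
    rw [h1, Real.volume_pi_closedBall _ hR] at h2
    have h4 := h3.trans h2
    rw [Finset.sum_const, Fintype.card_fin, nsmul_eq_mul, ← ENNReal.ofReal_natCast,
      ← ENNReal.ofReal_mul (by positivity), ENNReal.ofReal_le_ofReal_iff (by positivity)] at h4
    rw [le_div_iff₀ hΘ]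
    exact h4
  -- a disjoint family of maximal cardinality
  obtain ⟨T, hT, hsep, hmax⟩ : ∃ T : Finset (Fin d → ℝ), (∀ t ∈ T, t ∈ B) ∧
      (∀ t ∈ T, ∀ t' ∈ T, t ≠ t' → Disjoint (H t) (H t')) ∧
      ∀ T' : Finset (Fin d → ℝ), (∀ t ∈ T', t ∈ B) →
        (∀ t ∈ T', ∀ t' ∈ T', t ≠ t' → Disjoint (H t) (H t')) → T'.card ≤ T.card := by
    let S : Set ℕ := {n | ∃ T : Finset (Fin d → ℝ), (∀ t ∈ T, t ∈ B) ∧
      (∀ t ∈ T, ∀ t' ∈ T, t ≠ t' → Disjoint (H t) (H t')) ∧ T.card = n}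
    have hS0 : S.Nonempty := ⟨0, ∅, by simp, by simp, rfl⟩
    have hSb : BddAbove S := by
      refine ⟨⌊(2 * (L + 2 * M + d * L)) ^ d / Θ⌋₊, ?_⟩
      rintro n ⟨T, h1, h2, rfl⟩
      exact Nat.le_floor (hcard T h1 h2)
    obtain ⟨T, h1, h2, h3⟩ := Nat.sSup_mem hS0 hSb
    refine ⟨T, h1, h2, fun T' h1' h2' => ?_⟩
    rw [h3]
    exact le_csSup hSb ⟨T', h1', h2', rfl⟩
  have hcov : B ⊆ ⋃ t ∈ T, {s' : Fin d → ℝ | ∀ j, |∑ i, A t i j * (s' i - t i)| ≤ 4 * ε} := by
    intro s hs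
    by_contra hcon
    simp only [Set.mem_iUnion, Set.mem_ofPred_eq, not_exists] at hcon
    have hd : ∀ t ∈ T, Disjoint (H t) (H s) := by
      intro t ht
      by_contra h
      exact hcon t ht (hmeet t (hT t ht) s hs h)
    have hsT : s ∉ T := fun h => by
      refine hcon s h fun j => ?_
      simp only [sub_self, mul_zero, Finset.sum_const_zero, abs_zero]
      positivity
    have h1 := hmax (insert s T) (by
      intro t ht
      rcases Finset.mem_insert.1 ht with rfl | ht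
      · exact hs
      · exact hT t ht) (by
      intro t ht t' ht' hne
      rcases Finset.mem_insert.1 ht with h2 | h2
      · rcases Finset.mem_insert.1 ht' with h3 | h3
        · exact absurd (h2.trans h3.symm) hne
        · rw [h2]
          exact (hd t' h3).symm
      · rcases Finset.mem_insert.1 ht' with h3 | h3
        · rw [h3]
          exact hd t h2
        · exact hsep t h2 t' h3 hne)
    rw [Finset.card_insert_of_notMem hsT] at h1
    omega
  calc volume B ≤ volume (⋃ t ∈ T, {s' : Fin d → ℝ | ∀ j, |∑ i, A t i j * (s' i - t i)| ≤ 4 * ε}) :=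
        measure_mono hcov
    _ ≤ ∑ t ∈ T, volume {s' : Fin d → ℝ | ∀ j, |∑ i, A t i j * (s' i - t i)| ≤ 4 * ε} :=
        measure_biUnion_finset_le _ _
    _ ≤ ∑ _t ∈ T, ENNReal.ofReal ((8 * ε) ^ d / Θ) :=
        Finset.sum_le_sum fun t ht => CG_pre t (A t) hΘ hε (hdet t (hT t ht))
    _ = ENNReal.ofReal ((T.card : ℝ) * ((8 * ε) ^ d / Θ)) := by
        rw [Finset.sum_const, nsmul_eq_mul, ENNReal.ofReal_mul (by positivity),
          ENNReal.ofReal_natCast]
    _ ≤ _ := ENNReal.ofReal_le_ofReal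
        (mul_le_mul_of_nonneg_right (hcard T hT hsep) (by positivity))

end LibQR35
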