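import Pool.Agent.LibQR35.GD
import Pool.Agent.LibQR35.C0
import Pool.Agent.LibQR35.C1
import Pool.Agent.LibQR35.C2
import Pool.Agent.LibQR35.C3
import Pool.Agent.LibQR35.C6
import Pool.Agent.LibQR35.C7
import Pool.Agent.LibQR35.C9
import Pool.Agent.LibQR35.C11
import Pool.Agent.LibQR40.Api

/-! Compactness over all parameters: limits of frames. -/

open MeasureTheory Set Filter Topology
open scoped ContDiff ENNReal NNReal unitInterval

namespace LibQR35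

open BGS
open Pool.BGR (PM upI pj)

variable {Γ : Type} [Group Γ] [MulAction Γ Pl] {D : Set Pl}

theorem compact_core (hX : Surface Γ D) (m : Mt Γ D) (L : ℕ) {c : ℕ → ℝ} (hc : Cs c)
    (ψ : TestS Γ) (Φ : (Dir → I) → TestS Γ) (hΦ : ∀ ξ z, (Φ ξ).1 z = ψ.1 z + phi Γ L c ξ z)
    (k n : ℕ) (ξ : ℕ → Dir → I) (w : ∀ _ : ℕ, Fin (k + n) → TestS Γ) (δ : ℕ → ℝ)
    (hδ0 : ∀ N, 0 ≤ δ N) (hδ : Tendsto δ atTop (𝓝 0))
    (hFr : ∀ N, Fr (aF hX m) (bF hX m (expT (Φ (ξ N)))) (oneT Γ) (δ N) (w N)) :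
    ∃ (s : ℕ → ℕ) (ξ' : Dir → I) (U : Fin n → TestS Γ), StrictMono s ∧
      (∀ η : ℝ, 0 < η → ∀ᶠ N in atTop, ∀ z, |(Φ (ξ (s N))).1 z - (Φ ξ').1 z| ≤ η) ∧
      (∀ i, Tendsto (fun N => muE hX m (Φ (ξ (s N))) i) atTop (𝓝 (muE hX m (Φ ξ') i))) ∧
      (∀ i, Tendsto (fun N => nuE hX m (Φ (ξ (s N))) i) atTop (𝓝 (nuE hX m (Φ ξ') i))) ∧
      (∀ i, 0 < muE hX m (Φ ξ') i) ∧
      (∀ i : Fin n, QR.IsEig hX m (expT (Φ ξ')) (muE hX m (Φ ξ') (k + i))⁻¹ (U i)) ∧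
      (∀ i j : Fin n, bF hX m (expT (Φ ξ')) (U i) (U j) =
        if i = j then muE hX m (Φ ξ') (k + i) else 0) ∧
      ∀ i : Fin n, Tendsto (fun N => bF hX m (oneT Γ) (w (s N) (Fin.natAdd k i) - U i)
        (w (s N) (Fin.natAdd k i) - U i)) atTop (𝓝 0) := by
  -- convergence of the parameters
  obtain ⟨ξ', s1, hs1, hξ⟩ := CompactSpace.tendsto_subseq ξ
  obtain ⟨M1, hM1, hψ⟩ := test_bdd hX ψ
  obtain ⟨M2, hM2, hφb⟩ := phi_bound hX L hc
  have hΦb : ∀ ξ z, |(Φ ξ).1 z| ≤ M1 + M2 := by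
    intro ξ z
    rw [hΦ]
    exact (abs_add_le _ _).trans (add_le_add (hψ z) (hφb ξ z))
  have hdiff : ∀ ξ ξ₂ z, |(Φ ξ).1 z - (Φ ξ₂).1 z| ≤ 2 * (M1 + M2) := by
    intro ξ ξ₂ z
    have h1 : |(Φ ξ).1 z - (Φ ξ₂).1 z| ≤ |(Φ ξ).1 z| + |(Φ ξ₂).1 z| := abs_sub _ _
    linarith [hΦb ξ z, hΦb ξ₂ z]
  obtain ⟨M₀, hM₀, hup⟩ := muE_upper hX m (M1 + M2)
  have hup' : ∀ ξ i, muE hX m (Φ ξ) i ≤ M₀ := fun ξ i => hup _ (hΦb ξ) i
  have hmono : ∀ ξ, Antitone (muE hX m (Φ ξ)) := fun ξ => mu_anti (expT_lam1 hX m (Φ ξ))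
  have hcont : ∀ i, Continuous fun ξ => muE hX m (Φ ξ) i := fun i => muE_cont hX m L hc i Φ ψ hΦ
  set φ' := Φ ξ' with hφ'
  have hpair : ∀ ξ, IsPair (aF hX m) (bF hX m (expT (Φ ξ))) (oneT Γ) := fun ξ =>
    pair_surface hX m (expT (Φ ξ)) fun z => Real.exp_pos _
  -- the limits of the levels
  have hμpos : ∀ i, 0 < muE hX m φ' i := by
    obtain ⟨c₀, hc₀, hlo⟩ := muE_lower hX m (M1 + M2)
    exact fun i => lt_of_lt_of_le (by positivity) (hlo φ' (hΦb ξ') i)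
  have hs1t : Tendsto s1 atTop atTop := hs1.tendsto_atTop
  have hδlim : Tendsto (fun N : ℕ => δ (s1 N)) atTop (𝓝 0) := hδ.comp hs1t
  have hmulim : ∀ i, Tendsto (fun N => muE hX m (Φ (ξ (s1 N))) i) atTop (𝓝 (muE hX m φ' i)) :=
    fun i => ((hcont i).tendsto ξ').comp hξ
  -- the cluster
  set u : ℕ → Fin n → TestS Γ := fun N i => w (s1 N) (Fin.natAdd k i) with hu
  have huA : ∀ N i, aF hX m (u N i) (u N i) = 1 := by
    intro N i
    have := (hFr (s1 N)).orth (Fin.natAdd k i) (Fin.natAdd k i)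
    simpa using this
  have huB0 : ∀ N i, bF hX m (expT (Φ (ξ (s1 N)))) (u N i) (u N i) ≤ M₀ := fun N i =>
    ((hFr (s1 N)).up (Fin.natAdd k i)).trans (hup' _ _)
  have huB : ∀ N i, bF hX m (expT φ') (u N i) (u N i) ≤ Real.exp (2 * (M1 + M2)) * M₀ := by
    intro N i
    refine (weight_le hX m (φ := Φ (ξ (s1 N))) (φ' := φ') (hdiff _ _) (u N i)).trans ?_
    exact mul_le_mul_of_nonneg_left (huB0 N i) (Real.exp_pos _).le
  obtain ⟨s2, hs2, hcauchy⟩ := compact_seq (hpair ξ') (expT_lam1 hX m φ') (expT_top hX m φ')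
    (mu_tendsto hX m φ') u (fun N i => (huA N i).le) huB
  have hs2t : Tendsto s2 atTop atTop := hs2.tendsto_atTop
  -- the distances of the exponents
  set ε : ℕ → ℝ := fun N => ⨆ z, |(Φ (ξ (s1 (s2 N)))).1 z - φ'.1 z| with hε
  have hεbdd : ∀ N, BddAbove (range fun z => |(Φ (ξ (s1 (s2 N)))).1 z - φ'.1 z|) := by
    intro N
    refine ⟨2 * (M1 + M2), ?_⟩
    rintro _ ⟨z, rfl⟩
    exact hdiff _ _ z
  have hεle : ∀ N z, |(Φ (ξ (s1 (s2 N)))).1 z - φ'.1 z| ≤ ε N := fun N z => le_ciSup (hεbdd N) z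
  have hφlim : ∀ η : ℝ, 0 < η → ∀ᶠ N in atTop, ∀ z, |(Φ (ξ (s1 (s2 N)))).1 z - φ'.1 z| ≤ η := by
    intro η hη
    have h1 := (hξ.comp hs2t).eventually (phi_cont hX L hc ξ' hη)
    filter_upwards [h1] with N hN z
    have h2 := hN z
    rw [hφ', hΦ, hΦ]
    simpa using h2
  have hε0 : ∀ N, 0 ≤ ε N := fun N => (abs_nonneg _).trans (hεle N 0)
  have hεlim : Tendsto ε atTop (𝓝 0) := by
    rw [Metric.tendsto_atTop]
    intro η hη
    obtain ⟨N₀, hN₀⟩ := eventually_atTop.1 (hφlim (η / 2) (by positivity))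
    refine ⟨N₀, fun N hN => ?_⟩
    rw [Real.dist_eq, sub_zero, abs_of_nonneg (hε0 N)]
    have : ε N ≤ η / 2 := ciSup_le (hN₀ N hN)
    linarith
  have hρlim : Tendsto (fun N => Real.exp (ε N) - 1) atTop (𝓝 0) := by
    have h1 := (Real.continuous_exp.tendsto 0).comp hεlim
    have h2 := h1.sub_const 1
    simpa using h2
  have hρ' : ∀ N (f g : TestS Γ), |bF hX m (expT (Φ (ξ (s1 (s2 N))))) f g -
      bF hX m (expT φ') f g| ≤ (Real.exp (ε N) - 1) *
        (√(bF hX m (expT φ') f f) * √(bF hX m (expT φ') g g)) := fun N f g =>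
    weight_close hX m (hεle N) f g
  have hδlim2 : Tendsto (fun N : ℕ => δ (s1 (s2 N))) atTop (𝓝 0) := hδlim.comp hs2t
  -- the limit equation
  set τ : ℕ → ℝ := fun N => 4 * (((k + n : ℕ) : ℝ) * δ (s1 (s2 N))) *
    (((k + n : ℕ) : ℝ) * δ (s1 (s2 N)) + muE hX m (Φ (ξ (s1 (s2 N)))) 0) with hτ
  have hτlim : Tendsto τ atTop (𝓝 0) := by
    have h1 : Tendsto (fun N => ((k + n : ℕ) : ℝ) * δ (s1 (s2 N))) atTop (𝓝 0) := by
      have := hδlim2.const_mul ((k + n : ℕ) : ℝ)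
      rwa [mul_zero] at this
    have h2 : Tendsto (fun N => muE hX m (Φ (ξ (s1 (s2 N)))) 0) atTop (𝓝 (muE hX m φ' 0)) :=
      (hmulim 0).comp hs2t
    have h3 := (h1.const_mul 4).mul (h1.add h2)
    rw [mul_zero, zero_mul] at h3
    exact h3
  have hweak : ∀ (i : Fin n) (f : TestS Γ), Tendsto (fun N => bF hX m (expT φ') (u (s2 N) i) f -
      muE hX m φ' (k + i) * aF hX m (u (s2 N) i) f) atTop (𝓝 0) := by
    intro i f
    refine weak_limit (hpair ξ') (fun N => bF hX m (expT (Φ (ξ (s1 (s2 N))))))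
      (fun N => Real.exp (ε N) - 1) hρlim hρ' (fun N => u (s2 N) i) (fun N => huA _ i)
      (fun N => huB _ i) (fun N => muE hX m (Φ (ξ (s1 (s2 N)))) (k + i)) ?_ τ hτlim ?_ f
    · exact (hmulim (k + i)).comp hs2t
    · intro N g
      exact near_eigen (hpair _) (expT_lam1 hX m _) (hδ0 _) (hFr _) (Fin.natAdd k i) g
  -- the limits
  have hlim : ∀ i : Fin n, ∃ U : TestS Γ, QR.IsEig hX m (expT φ') (muE hX m φ' (k + i))⁻¹ U ∧
      Tendsto (fun N => bF hX m (oneT Γ) (u (s2 N) i - U) (u (s2 N) i - U)) atTop (𝓝 0) := by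
    intro i
    refine QR.limit_eig hX m (expT φ') (fun z => Real.exp_pos _) (muE hX m φ' (k + i))⁻¹
      (fun N => u (s2 N) i) ?_ ?_ ?_
    · intro η hη
      obtain ⟨N, hN⟩ := hcauchy (Real.exp (-(M1 + M2)) * η) (by positivity)
      refine ⟨N, fun p hp q hq => ?_⟩
      have h1 := hN p hp q hq i
      have h2 := bF_le hX m (w := oneT Γ) (w' := expT φ') (θ := Real.exp (M1 + M2)) (fun z => by
        rw [expT_apply]
        change (1 : ℝ) ≤ _
        rw [← Real.exp_add]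
        apply Real.one_le_exp
        linarith [(abs_le.1 (hΦb ξ' z)).1]) (u (s2 p) i - u (s2 q) i)
      refine h2.trans ?_
      calc Real.exp (M1 + M2) * bF hX m (expT φ') (u (s2 p) i - u (s2 q) i)
            (u (s2 p) i - u (s2 q) i) ≤ Real.exp (M1 + M2) * (Real.exp (-(M1 + M2)) * η) :=
            mul_le_mul_of_nonneg_left h1 (Real.exp_pos _).le
        _ = η := by rw [← mul_assoc, ← Real.exp_add, add_neg_cancel, Real.exp_zero, one_mul]
    · exact ⟨1, fun N => (huA _ i).le⟩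
    · intro f
      have h1 := (hweak i f).const_mul (-(muE hX m φ' (k + i))⁻¹)
      rw [mul_zero] at h1
      refine h1.congr fun N => ?_
      have h2 := (hμpos (k + i)).ne'
      field_simp
      ring
  choose U hUeig hUlim using hlim
  have horth : ∀ i j : Fin n, bF hX m (expT φ') (U i) (U j) = if i = j then muE hX m φ' (k + i) else 0 := by
    intro i j
    have h1 := moment_D hX m (fun N => Φ (ξ (s1 (s2 N)))) φ' hφlim (fun N => u (s2 N) i)
      (fun N => u (s2 N) j) (U i) (U j) (hUlim i) (hUlim j)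
    refine tendsto_nhds_unique h1 ?_
    by_cases hij : i = j
    · subst hij
      rw [if_pos rfl]
      have h2 : Tendsto (fun N => muE hX m (Φ (ξ (s1 (s2 N)))) (k + i)) atTop
          (𝓝 (muE hX m φ' (k + i))) := (hmulim (k + i)).comp hs2t
      have h3 := h2.sub hδlim2
      rw [sub_zero] at h3
      refine tendsto_of_tendsto_of_tendsto_of_le_of_le h3 h2 (fun N => ?_) (fun N => ?_)
      · exact (hFr (s1 (s2 N))).lo (Fin.natAdd k i)
      · exact (hFr (s1 (s2 N))).up (Fin.natAdd k i)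
    · rw [if_neg hij]
      have h2 : ∀ N, bF hX m (expT (Φ (ξ (s1 (s2 N))))) (u (s2 N) i) (u (s2 N) j) = 0 := by
        intro N
        refine (hFr (s1 (s2 N))).diag _ _ fun h => hij ?_
        exact Fin.natAdd_injective _ _ h
      simp only [h2]
      exact tendsto_const_nhds
  refine ⟨fun N => s1 (s2 N), ξ', U, hs1.comp hs2, hφlim, fun i => (hmulim i).comp hs2t,
    fun i => ?_, hμpos, hUeig, horth, hUlim⟩
  exact ((nuE_cont hX m L hc Φ ψ hΦ i).tendsto ξ').comp (hξ.comp hs2t)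

end LibQR35
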