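import Mathlib

/-! ROW DL : the law of a difference (only Mathlib).

PLAN. `law_diff`: `μ {z | z.2 - z.1 ∈ A} <= μ ({z | z.2 - z.1 ∈ A} ∩ {z | z.1 ∈ Icc 0 X}) <= ∫⁻ over that set`
`= ∫⁻ x in Icc 0 X, ∫⁻ y, 1_A (y - x) * ofReal (C * |y - x|)` (Tonelli, `setLIntegral_prod` / `lintegral_prod`, indicator
functions) `= ∫⁻ x in Icc 0 X, ∫⁻ s in A, ofReal (C * |s|)` (`lintegral_sub_right_eq_self`)
`= ofReal X * ∫⁻ s in A, ofReal (C * |s|) = ∫⁻ s in A, ofReal (C * X * |s|)`. -/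

open MeasureTheory Set Filter Topology
open scoped ENNReal NNReal

namespace LibQR35

theorem law_diff (μ : Measure (ℝ × ℝ)) {C X : ℝ} (hC : 0 ≤ C) (hX : 0 ≤ X)
    (h : ∀ A : Set (ℝ × ℝ), MeasurableSet A → μ A ≤ ∫⁻ z in A, ENNReal.ofReal (C * |z.2 - z.1|))
    (h0 : μ {z | z.1 ∉ Icc 0 X} = 0) {A : Set ℝ} (hA : MeasurableSet A) :
    μ {z | z.2 - z.1 ∈ A} ≤ ∫⁻ s in A, ENNReal.ofReal (C * X * |s|) := by
  set G : ℝ → ℝ≥0∞ := fun s => ENNReal.ofReal (C * |s|) with hG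
  have hGm : Measurable G := ENNReal.measurable_ofReal.comp (by fun_prop)
  have hGA : Measurable (A.indicator G) := hGm.indicator hA
  have hS : MeasurableSet {z : ℝ × ℝ | z.2 - z.1 ∈ A} :=
    (measurable_snd.sub measurable_fst) hA
  have hZ : MeasurableSet {z : ℝ × ℝ | z.1 ∈ Icc 0 X} := measurable_fst measurableSet_Icc
  have h1 : μ {z | z.2 - z.1 ∈ A} ≤
      μ ({z | z.2 - z.1 ∈ A} ∩ {z : ℝ × ℝ | z.1 ∈ Icc 0 X}) := by
    have h2 : {z : ℝ × ℝ | z.2 - z.1 ∈ A} ⊆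
        ({z | z.2 - z.1 ∈ A} ∩ {z : ℝ × ℝ | z.1 ∈ Icc 0 X}) ∪ {z | z.1 ∉ Icc 0 X} := by
      intro z hz
      by_cases hz1 : z.1 ∈ Icc 0 X
      · exact Or.inl ⟨hz, hz1⟩
      · exact Or.inr hz1
    refine (measure_mono h2).trans ((measure_union_le _ _).trans ?_)
    rw [h0, add_zero]
  refine h1.trans ((h _ (hS.inter hZ)).trans ?_)
  rw [← lintegral_indicator (hS.inter hZ)]
  have h3 : ∀ z : ℝ × ℝ, ({z | z.2 - z.1 ∈ A} ∩ {z : ℝ × ℝ | z.1 ∈ Icc 0 X}).indicator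
      (fun z : ℝ × ℝ => ENNReal.ofReal (C * |z.2 - z.1|)) z =
      (Icc 0 X).indicator (fun _ => (1 : ℝ≥0∞)) z.1 * A.indicator G (z.2 - z.1) := by
    intro z
    by_cases ha : z.2 - z.1 ∈ A
    · by_cases hz1 : z.1 ∈ Icc 0 X
      · have hz : z ∈ {z : ℝ × ℝ | z.2 - z.1 ∈ A} ∩ {z : ℝ × ℝ | z.1 ∈ Icc 0 X} := ⟨ha, hz1⟩
        rw [indicator_of_mem hz, indicator_of_mem ha, indicator_of_mem hz1, one_mul]
      · rw [indicator_of_notMem (fun hh => hz1 hh.2), indicator_of_notMem hz1, zero_mul]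
    · rw [indicator_of_notMem (fun hh => ha hh.1), indicator_of_notMem ha, mul_zero]
  simp only [h3]
  have hm : Measurable fun z : ℝ × ℝ =>
      (Icc 0 X).indicator (fun _ => (1 : ℝ≥0∞)) z.1 * A.indicator G (z.2 - z.1) :=
    ((measurable_const.indicator measurableSet_Icc).comp measurable_fst).mul
      (hGA.comp (measurable_snd.sub measurable_fst))
  rw [Measure.volume_eq_prod, lintegral_prod _ hm.aemeasurable]
  have h4 : ∀ x : ℝ, ∫⁻ y, (Icc 0 X).indicator (fun _ => (1 : ℝ≥0∞)) x * A.indicator G (y - x) =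
      (Icc 0 X).indicator (fun _ => (1 : ℝ≥0∞)) x * ∫⁻ s in A, G s := by
    intro x
    have hmx : Measurable fun y : ℝ => A.indicator G (y - x) :=
      hGA.comp (measurable_id.sub_const x)
    rw [lintegral_const_mul _ hmx,
      lintegral_sub_right_eq_self (fun s => A.indicator G s) x, lintegral_indicator hA]
  simp only [h4]
  rw [lintegral_mul_const _ (measurable_const.indicator measurableSet_Icc),
    lintegral_indicator measurableSet_Icc, setLIntegral_one, Real.volume_Icc, sub_zero,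
    ← lintegral_const_mul _ hGm]
  refine lintegral_mono fun s => ?_
  simp only [hG]
  rw [← ENNReal.ofReal_mul hX]
  apply ENNReal.ofReal_le_ofReal
  apply le_of_eq
  ring

end LibQR35
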