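import Mathlib

/-! ROW DM : a measure with small mass on small sets has a density (only Mathlib).

PLAN. (1) `U` open with `lam U < ⊤`. For `z ∈ U` and `n` large `z - t ∈ U` for all `t ∈ S n` (`hSs`), so
`1_U z <= liminf_n (lam (S n))⁻¹ * ∫⁻ t in S n, 1_U (z - t) ∂lam`. Integrate over `μ`, Fatou (`lintegral_liminf_le`),
Tonelli (`lintegral_lintegral_swap`), and `∫⁻ t, 1_{S n} t * 1_U (z - t) ∂lam = ∫⁻ y, 1_{S n} (z - y) * 1_U y ∂lam`
(`lintegral_sub_left_eq_self`): `μ U <= liminf_n (lam (S n))⁻¹ * ∫⁻ y in U, μ {z | z - y ∈ S n} ∂lam <=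
liminf_n ∫⁻ y in U, (g y + e n) ∂lam = ∫⁻ y in U, g y ∂lam` (`e n * lam U → 0`).
(2) `U` open: `U ∩ ball 0 n` increases to `U` (`measure_iUnion` / `Monotone.measure_iUnion`).
(3) `A` measurable: `lam.withDensity g` is locally finite (`IsLocallyFiniteMeasure.withDensity_coe` or similar, `g`
continuous), hence outer regular (`Set.exists_isOpen_lt_of_lt`): `μ A <= μ U <= lam.withDensity g U`. -/

open MeasureTheory Set Filter Topology
open scoped ENNReal NNReal

namespace LibQR35

theorem DM_open1 {E : Type*} [NormedAddCommGroup E] [NormedSpace ℝ E] [MeasurableSpace E]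
    [BorelSpace E] [FiniteDimensional ℝ E] (lam : Measure E) [lam.IsAddHaarMeasure] (μ : Measure E)
    [IsFiniteMeasure μ] (g : E → ℝ≥0) (hg : Continuous g) (S : ℕ → Set E)
    (hSm : ∀ n, MeasurableSet (S n)) (hS0 : ∀ n, lam (S n) ≠ 0) (hS1 : ∀ n, lam (S n) ≠ ⊤)
    (hSs : ∀ δ : ℝ, 0 < δ → ∀ᶠ n in atTop, S n ⊆ Metric.ball 0 δ) (e : ℕ → ℝ≥0)
    (he : Tendsto e atTop (𝓝 0))
    (h : ∀ n y, μ {z | z - y ∈ S n} ≤ lam (S n) * (g y + e n)) {U : Set E} (hU : IsOpen U)
    (hUf : lam U ≠ ⊤) : μ U ≤ ∫⁻ y in U, g y ∂lam := by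
  have hmeas : ∀ n, MeasurableSet {p : E × E | p.1 - p.2 ∈ S n} := fun n =>
    (measurable_fst.sub measurable_snd) (hSm n)
  have hmind : ∀ n, Measurable (fun p : E × E =>
      ({p : E × E | p.1 - p.2 ∈ S n}.indicator (fun _ => (1 : ℝ≥0∞)) p)) := fun n =>
    measurable_const.indicator (hmeas n)
  set f : ℕ → E → ℝ≥0∞ := fun n z => (lam (S n))⁻¹ * ∫⁻ y in U,
    ({p : E × E | p.1 - p.2 ∈ S n}.indicator (fun _ => (1 : ℝ≥0∞)) (z, y)) ∂lam with hf
  have hfm : ∀ n, Measurable (f n) := fun n =>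
    (Measurable.lintegral_prod_right' (hmind n)).const_mul _
  have h1 : ∀ z ∈ U, ∀ᶠ n in atTop, f n z = 1 := by
    intro z hz
    obtain ⟨δ, hδ, hball⟩ := Metric.isOpen_iff.1 hU z hz
    filter_upwards [hSs δ hδ] with n hn
    have h2 : (∫⁻ y in U, ({p : E × E | p.1 - p.2 ∈ S n}.indicator
        (fun _ => (1 : ℝ≥0∞)) (z, y)) ∂lam) = lam (S n) := by
      have h3 : (∫⁻ y in U, ({p : E × E | p.1 - p.2 ∈ S n}.indicator
          (fun _ => (1 : ℝ≥0∞)) (z, y)) ∂lam) =
          ∫⁻ y, ((S n).indicator (fun _ => (1 : ℝ≥0∞)) (z - y)) ∂lam := by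
        rw [← lintegral_indicator hU.measurableSet]
        apply lintegral_congr
        intro y
        by_cases hy : z - y ∈ S n
        · have hyU : y ∈ U := by
            apply hball
            have h4 := hn hy
            rw [Metric.mem_ball, dist_zero_right] at h4
            rw [Metric.mem_ball, dist_eq_norm, norm_sub_rev]
            exact h4
          rw [indicator_of_mem hyU, indicator_of_mem (show (z, y) ∈ {p : E × E | p.1 - p.2 ∈ S n}
            from hy), indicator_of_mem hy]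
        · rw [indicator_of_notMem hy]
          by_cases hyU : y ∈ U
          · rw [indicator_of_mem hyU, indicator_of_notMem (show (z, y) ∉
              {p : E × E | p.1 - p.2 ∈ S n} from hy)]
          · rw [indicator_of_notMem hyU]
      rw [h3, lintegral_sub_left_eq_self (fun t => (S n).indicator (fun _ => (1 : ℝ≥0∞)) t) z,
        lintegral_indicator (hSm n), lintegral_const, one_mul, Measure.restrict_apply_univ]
    show (lam (S n))⁻¹ * _ = 1
    rw [h2]
    exact ENNReal.inv_mul_cancel (hS0 n) (hS1 n)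
  have h5 : μ U ≤ ∫⁻ z, liminf (fun n => f n z) atTop ∂μ := by
    calc μ U = ∫⁻ z, U.indicator (fun _ => (1 : ℝ≥0∞)) z ∂μ := by
          rw [lintegral_indicator hU.measurableSet, lintegral_const, one_mul,
            Measure.restrict_apply_univ]
      _ ≤ ∫⁻ z, liminf (fun n => f n z) atTop ∂μ := by
          apply lintegral_mono
          intro z
          by_cases hz : z ∈ U
          · rw [indicator_of_mem hz]
            have h6 : liminf (fun n => f n z) atTop = liminf (fun _ : ℕ => (1 : ℝ≥0∞)) atTop :=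
              liminf_congr (h1 z hz)
            show (1 : ℝ≥0∞) ≤ liminf (fun n => f n z) atTop
            rw [h6, liminf_const]
          · rw [indicator_of_notMem hz]
            exact zero_le
  have h7 : ∀ n, ∫⁻ z, f n z ∂μ ≤ (∫⁻ y in U, g y ∂lam) + e n * lam U := by
    intro n
    have h8 : ∫⁻ z, (∫⁻ y in U, ({p : E × E | p.1 - p.2 ∈ S n}.indicator
        (fun _ => (1 : ℝ≥0∞)) (z, y)) ∂lam) ∂μ =
        ∫⁻ y in U, μ {z | z - y ∈ S n} ∂lam := by
      rw [lintegral_lintegral_swap (hmind n).aemeasurable]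
      apply lintegral_congr
      intro y
      have hms : MeasurableSet {z : E | z - y ∈ S n} := (measurable_id.sub_const y) (hSm n)
      have h9 : ∫⁻ z, ({z : E | z - y ∈ S n}.indicator (fun _ => (1 : ℝ≥0∞)) z) ∂μ =
          μ {z | z - y ∈ S n} := by
        rw [lintegral_indicator hms, lintegral_const, one_mul, Measure.restrict_apply_univ]
      exact h9
    have h10 : ∫⁻ y in U, μ {z | z - y ∈ S n} ∂lam ≤
        lam (S n) * ((∫⁻ y in U, g y ∂lam) + e n * lam U) := by
      calc ∫⁻ y in U, μ {z | z - y ∈ S n} ∂lam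
          ≤ ∫⁻ y in U, lam (S n) * (g y + e n) ∂lam := lintegral_mono fun y => h n y
        _ = lam (S n) * ∫⁻ y in U, ((g y : ℝ≥0∞) + e n) ∂lam := by
            rw [lintegral_const_mul]
            exact (hg.measurable.coe_nnreal_ennreal.add_const _)
        _ = lam (S n) * ((∫⁻ y in U, g y ∂lam) + e n * lam U) := by
            rw [lintegral_add_left hg.measurable.coe_nnreal_ennreal, lintegral_const,
              Measure.restrict_apply_univ]
    show ∫⁻ z, (lam (S n))⁻¹ * _ ∂μ ≤ _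
    rw [lintegral_const_mul _ (Measurable.lintegral_prod_right' (hmind n)), h8]
    calc (lam (S n))⁻¹ * ∫⁻ y in U, μ {z | z - y ∈ S n} ∂lam
        ≤ (lam (S n))⁻¹ * (lam (S n) * ((∫⁻ y in U, g y ∂lam) + e n * lam U)) := by
          gcongr
      _ = (∫⁻ y in U, g y ∂lam) + e n * lam U := by
          rw [← mul_assoc, ENNReal.inv_mul_cancel (hS0 n) (hS1 n), one_mul]
  have h11 : Tendsto (fun n => (∫⁻ y in U, g y ∂lam) + (e n : ℝ≥0∞) * lam U) atTop
      (𝓝 ((∫⁻ y in U, g y ∂lam) + (0 : ℝ≥0∞) * lam U)) := by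
    apply Tendsto.const_add
    apply ENNReal.Tendsto.mul_const
    · have := ENNReal.tendsto_coe.2 he
      simpa using this
    · right
      exact hUf
  calc μ U ≤ ∫⁻ z, liminf (fun n => f n z) atTop ∂μ := h5
    _ ≤ liminf (fun n => ∫⁻ z, f n z ∂μ) atTop := lintegral_liminf_le hfm
    _ ≤ liminf (fun n => (∫⁻ y in U, g y ∂lam) + (e n : ℝ≥0∞) * lam U) atTop :=
        liminf_le_liminf (Eventually.of_forall h7)
    _ = (∫⁻ y in U, g y ∂lam) + (0 : ℝ≥0∞) * lam U := h11.liminf_eq
    _ = ∫⁻ y in U, g y ∂lam := by rw [zero_mul, add_zero]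

theorem dens_le {E : Type*} [NormedAddCommGroup E] [NormedSpace ℝ E] [MeasurableSpace E]
    [BorelSpace E] [FiniteDimensional ℝ E] (lam : Measure E) [lam.IsAddHaarMeasure] (μ : Measure E)
    [IsFiniteMeasure μ] (g : E → ℝ≥0) (hg : Continuous g) (S : ℕ → Set E)
    (hSm : ∀ n, MeasurableSet (S n)) (hS0 : ∀ n, lam (S n) ≠ 0) (hS1 : ∀ n, lam (S n) ≠ ⊤)
    (hSs : ∀ δ : ℝ, 0 < δ → ∀ᶠ n in atTop, S n ⊆ Metric.ball 0 δ) (e : ℕ → ℝ≥0)
    (he : Tendsto e atTop (𝓝 0))
    (h : ∀ n y, μ {z | z - y ∈ S n} ≤ lam (S n) * (g y + e n)) {A : Set E} (hA : MeasurableSet A) :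
    μ A ≤ ∫⁻ y in A, g y ∂lam := by
  have h2 : ∀ U : Set E, IsOpen U → μ U ≤ ∫⁻ y in U, g y ∂lam := by
    intro U hU
    have hmono : Monotone fun n : ℕ => U ∩ Metric.ball (0 : E) n := fun a b hab =>
      inter_subset_inter_right U (Metric.ball_subset_ball (by exact_mod_cast hab))
    have hun : (⋃ n : ℕ, U ∩ Metric.ball (0 : E) n) = U := by
      rw [← inter_iUnion, Metric.iUnion_ball_nat, inter_univ]
    calc μ U = μ (⋃ n : ℕ, U ∩ Metric.ball (0 : E) n) := by rw [hun]
      _ = ⨆ n : ℕ, μ (U ∩ Metric.ball (0 : E) n) := hmono.measure_iUnion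
      _ ≤ ∫⁻ y in U, g y ∂lam := by
          apply iSup_le
          intro n
          calc μ (U ∩ Metric.ball (0 : E) n) ≤ ∫⁻ y in U ∩ Metric.ball (0 : E) n, g y ∂lam := by
                apply DM_open1 lam μ g hg S hSm hS0 hS1 hSs e he h
                  (hU.inter Metric.isOpen_ball)
                exact (lt_of_le_of_lt (measure_mono inter_subset_right)
                  measure_ball_lt_top).ne
            _ ≤ ∫⁻ y in U, g y ∂lam := lintegral_mono_set inter_subset_left
  have : IsLocallyFiniteMeasure (lam.withDensity fun y => (g y : ℝ≥0∞)) :=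
    IsLocallyFiniteMeasure.withDensity_coe hg
  rw [← withDensity_apply _ hA, A.measure_eq_iInf_isOpen (lam.withDensity fun y => (g y : ℝ≥0∞))]
  refine le_iInf fun U => le_iInf fun hAU => le_iInf fun hU => ?_
  rw [withDensity_apply _ hU.measurableSet]
  exact (measure_mono hAU).trans (h2 U hU)

end LibQR35
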