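import Pool.Agent.LibQR35.DM

/-! ROW DN : densities on the line and in the plane (from `dens_le`, row DM).

PLAN. `dens1`: `dens_le` with `S n = Icc 0 (1/(n+1))`, `g = C.toNNReal` (constant), `e = 0`;
`{z | z - y ∈ Icc 0 ε} = Icc y (y + ε)`. `C < 0` is allowed (`ENNReal.ofReal` of a negative number is `0`).
`dens2`: `S n = Icc 0 ε ×ˢ Icc 0 ε`, `ε = 1/(n+1)`, `g z = (C * |z.2 - z.1|).toNNReal`, `e n = (C * ε).toNNReal`
(`C * ε^2 * (|b - a| + ε)`; distinguish `0 <= C` and `C < 0`), volume of the square: `Measure.volume_eq_prod`,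
`Measure.prod_prod`, `Real.volume_Icc`. -/

open MeasureTheory Set Filter Topology
open scoped ENNReal NNReal

namespace LibQR35

theorem DN_eps0 (n : ℕ) : (0 : ℝ) < 1 / ((n : ℝ) + 1) := Nat.one_div_pos_of_nat

theorem DN_small {δ : ℝ} (hδ : 0 < δ) : ∀ᶠ n : ℕ in atTop, 1 / ((n : ℝ) + 1) < δ :=
  (tendsto_one_div_add_atTop_nhds_zero_nat (𝕜 := ℝ)).eventually (gt_mem_nhds hδ)

theorem dens1 (μ : Measure ℝ) [IsFiniteMeasure μ] {C : ℝ}
    (h : ∀ a ε : ℝ, 0 < ε → μ (Icc a (a + ε)) ≤ ENNReal.ofReal (C * ε)) {A : Set ℝ}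
    (hA : MeasurableSet A) : μ A ≤ ENNReal.ofReal C * volume A := by
  have h1 := dens_le volume μ (fun _ => C.toNNReal) continuous_const
    (fun n : ℕ => Icc (0 : ℝ) (1 / ((n : ℝ) + 1))) (fun n => measurableSet_Icc)
    (fun n => by
      rw [Real.volume_Icc, sub_zero]
      exact (ENNReal.ofReal_pos.2 (DN_eps0 n)).ne')
    (fun n => by
      rw [Real.volume_Icc]
      exact ENNReal.ofReal_ne_top)
    (fun δ hδ => by
      filter_upwards [DN_small hδ] with n hn z hz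
      rw [Metric.mem_ball, dist_zero_right, Real.norm_eq_abs, abs_of_nonneg hz.1]
      exact lt_of_le_of_lt hz.2 hn)
    (fun _ => 0) tendsto_const_nhds
    (fun n y => by
      have h2 : {z : ℝ | z - y ∈ Icc (0 : ℝ) (1 / ((n : ℝ) + 1))} =
          Icc y (y + 1 / ((n : ℝ) + 1)) := by
        ext z
        simp only [mem_ofPred_eq, mem_Icc]
        constructor
        · rintro ⟨h3, h4⟩
          exact ⟨by linarith, by linarith⟩
        · rintro ⟨h3, h4⟩
          exact ⟨by linarith, by linarith⟩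
      rw [h2, Real.volume_Icc, sub_zero, ENNReal.coe_zero, add_zero, mul_comm]
      refine (h y _ (DN_eps0 n)).trans (le_of_eq ?_)
      rw [ENNReal.ofReal_mul' (DN_eps0 n).le]
      rfl)
    hA
  refine h1.trans (le_of_eq ?_)
  rw [lintegral_const, Measure.restrict_apply_univ]
  rfl

theorem dens2 (μ : Measure (ℝ × ℝ)) [IsFiniteMeasure μ] {C : ℝ}
    (h : ∀ a b ε : ℝ, 0 < ε →
      μ (Icc a (a + ε) ×ˢ Icc b (b + ε)) ≤ ENNReal.ofReal (C * ε ^ 2 * (|b - a| + ε)))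
    {A : Set (ℝ × ℝ)} (hA : MeasurableSet A) :
    μ A ≤ ∫⁻ z in A, ENNReal.ofReal (C * |z.2 - z.1|) := by
  have hvol : ∀ n : ℕ, volume (Icc (0 : ℝ) (1 / ((n : ℝ) + 1)) ×ˢ Icc (0 : ℝ)
      (1 / ((n : ℝ) + 1))) = ENNReal.ofReal ((1 / ((n : ℝ) + 1)) ^ 2) := by
    intro n
    rw [Measure.volume_eq_prod, Measure.prod_prod, Real.volume_Icc, sub_zero, pow_two,
      ENNReal.ofReal_mul (DN_eps0 n).le]
  have h1 := dens_le volume μ (fun z : ℝ × ℝ => (C * |z.2 - z.1|).toNNReal)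
    (continuous_real_toNNReal.comp (continuous_const.mul
      (continuous_abs.comp (continuous_snd.sub continuous_fst))))
    (fun n : ℕ => Icc (0 : ℝ) (1 / ((n : ℝ) + 1)) ×ˢ Icc (0 : ℝ) (1 / ((n : ℝ) + 1)))
    (fun n => measurableSet_Icc.prod measurableSet_Icc)
    (fun n => by
      rw [hvol n]
      exact (ENNReal.ofReal_pos.2 (pow_pos (DN_eps0 n) 2)).ne')
    (fun n => by
      rw [hvol n]
      exact ENNReal.ofReal_ne_top)
    (fun δ hδ => by
      filter_upwards [DN_small hδ] with n hn z hz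
      rw [Metric.mem_ball, dist_zero_right, Prod.norm_def, max_lt_iff, Real.norm_eq_abs,
        Real.norm_eq_abs, abs_of_nonneg hz.1.1, abs_of_nonneg hz.2.1]
      exact ⟨lt_of_le_of_lt hz.1.2 hn, lt_of_le_of_lt hz.2.2 hn⟩)
    (fun n : ℕ => (C * (1 / ((n : ℝ) + 1))).toNNReal)
    (by
      have h2 : Tendsto (fun n : ℕ => C * (1 / ((n : ℝ) + 1))) atTop (𝓝 (C * 0)) :=
        (tendsto_one_div_add_atTop_nhds_zero_nat (𝕜 := ℝ)).const_mul C
      have h3 := (continuous_real_toNNReal.tendsto (C * 0)).comp h2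
      rw [mul_zero, Real.toNNReal_zero] at h3
      exact h3)
    (fun n y => by
      have h2 : {z : ℝ × ℝ | z - y ∈ Icc (0 : ℝ) (1 / ((n : ℝ) + 1)) ×ˢ
          Icc (0 : ℝ) (1 / ((n : ℝ) + 1))} =
          Icc y.1 (y.1 + 1 / ((n : ℝ) + 1)) ×ˢ Icc y.2 (y.2 + 1 / ((n : ℝ) + 1)) := by
        ext z
        simp only [mem_ofPred_eq, mem_prod, mem_Icc, Prod.fst_sub, Prod.snd_sub]
        constructor
        · rintro ⟨⟨h3, h4⟩, h5, h6⟩
          exact ⟨⟨by linarith, by linarith⟩, by linarith, by linarith⟩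
        · rintro ⟨⟨h3, h4⟩, h5, h6⟩
          exact ⟨⟨by linarith, by linarith⟩, by linarith, by linarith⟩
      rw [h2, hvol n]
      refine (h y.1 y.2 _ (DN_eps0 n)).trans ?_
      have h7 : C * (1 / ((n : ℝ) + 1)) ^ 2 * (|y.2 - y.1| + 1 / ((n : ℝ) + 1)) =
          (1 / ((n : ℝ) + 1)) ^ 2 * (C * |y.2 - y.1| + C * (1 / ((n : ℝ) + 1))) := by
        ring
      rw [h7, ENNReal.ofReal_mul (pow_nonneg (DN_eps0 n).le 2)]
      gcongr
      exact ENNReal.ofReal_add_le)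
    hA
  exact h1

end LibQR35
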