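import Pool.Agent.LibBGR.AE_AEM

/-! Quadratic repulsion: definitions. -/

open MeasureTheory Set Filter Topology
open scoped ContDiff ENNReal NNReal unitInterval

namespace LibQR35

open BGS
open Pool.BGR (PM upI pj)

section Abstract

variable {E : Type} [AddCommGroup E] [Module ℝ E]

/-- A frame, orthonormal for `a`, diagonal for `b`, with diagonal entries within `δ` of the
numbers `mu a b i`. -/
structure Fr (a b : LinearMap.BilinForm ℝ E) (e : E) (δ : ℝ) {N : ℕ} (w : Fin N → E) : Prop where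
  orth : ∀ i j, a (w i) (w j) = if i = j then 1 else 0
  one : ∀ i, b (w i) e = 0
  diag : ∀ i j, i ≠ j → b (w i) (w j) = 0
  lo : ∀ i : Fin N, mu a b i - δ ≤ b (w i) (w i)
  up : ∀ i : Fin N, b (w i) (w i) ≤ mu a b i

end Abstract

section Cube

variable {κ : Type} [DecidableEq κ] {d : ℕ}

open Classical in
/-- Change the coordinates `J`. -/
noncomputable def upJ (J : Fin d → κ) (ξ : κ → I) (y : Fin d → I) : κ → I := fun j =>
  if h : ∃ l, J l = j then y (Classical.choose h) else ξ j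

/-- The displacement from the coordinates `J` of `ξ` to `y`. -/
def dsp (J : Fin d → κ) (ξ : κ → I) (y : Fin d → I) : Fin d → ℝ := fun l => (y l : ℝ) - ξ (J l)

/-- The parameters at which `S`, as a function of the coordinates `J`, has up to the error `ε` a
whole ball of slopes from below. -/
def BadJ (S : (κ → I) → ℝ) (J : Fin d → κ) (L c₀ r M ε : ℝ) : Set (κ → I) :=
  {ξ | ∃ a : Fin d → ℝ, ‖a‖ ≤ L ∧ ∀ g : Fin d → ℝ, ‖g - a‖ ≤ c₀ → ∀ y : Fin d → I,
    ‖dsp J ξ y‖ < r →
      S ξ + ∑ l, g l * dsp J ξ y l - ε - M * ‖dsp J ξ y‖ ^ 2 ≤ S (upJ J ξ y)}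

end Cube

/-- The map of a tuple of symmetric matrices restricted to traceless symmetric matrices is onto,
with a bounded right inverse. -/
def Sur {n d : ℕ} (K : ℝ) (X : Fin d → Fin n → Fin n → ℝ) : Prop :=
  ∀ q : Fin d → ℝ, ∃ M : Fin n → Fin n → ℝ, (∀ i j, M i j = M j i) ∧ ∑ i, M i i = 0 ∧
    (∀ i j, |M i j| ≤ K * ‖q‖) ∧ ∀ l, ∑ i, ∑ j, M i j * X l i j = q l

/-- A parametrisation by `Fin d → ℝ` of a space of traceless symmetric matrices. -/
structure Par {n d : ℕ} (B : (Fin d → ℝ) →ₗ[ℝ] (Fin n → Fin n → ℝ)) : Prop where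
  inj : Function.Injective B
  sym : ∀ t i j, B t i j = B t j i
  tr : ∀ t, ∑ i, B t i i = 0

variable {Γ : Type} [Group Γ] [MulAction Γ Pl] {D : Set Pl}

/-- The directions allowed in the random series. -/
def Valid (L : ℕ) (j : Dir) : Prop := j.2 ∈ grid L (j.1 + 1)

/-- The moments of the products of the functions `u i` against the direction `j`. -/
noncomputable def Xm (Γ : Type) [Group Γ] [MulAction Γ Pl] (D : Set Pl) (m : Pl → Co) (c : ℕ → ℝ)
    (φ : Pl → ℝ) {n : ℕ} (u : Fin n → Pl → ℝ) (j : Dir) (i i' : Fin n) : ℝ :=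
  c j.1 * ∫ z in D, Real.exp (φ z) * per Γ (bmp (j.1 + 1) j.2) z * u i z * u i' z * √(dt (m z))

/-- The products of `n` orthogonal eigenfunctions for the same eigenvalue satisfy no traceless
relation. -/
def Indep (hX : Surface Γ D) (m : Mt Γ D) (n : ℕ) : Prop :=
  ∀ (w : TestS Γ), (∀ z, 0 < w.1 z) → ∀ (la μ : ℝ), 0 < μ → ∀ U : Fin n → TestS Γ,
    (∀ i (h : TestS Γ), aF hX m (U i) h = la * bF hX m w (U i) h) →
    (∀ i j, bF hX m w (U i) (U j) = if i = j then μ else 0) → ∀ M : Fin n → Fin n → ℝ,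
    (∀ i j, M i j = M j i) → ∑ i, M i i = 0 →
    (∀ z, ∑ i, ∑ j, M i j * ((U i).1 z * (U j).1 z) = 0) → M = 0

end LibQR35
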