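import Pool.Agent.LibQR35.I0

/-! ROW I2 : independence of the products of two eigenfunctions, up to the trace.

PLAN. `rotate` gives `t 0 + t 1 = 0` and `t 0 * (W 0)^2 + t 1 * (W 1)^2 = 0`. If `t 0 ≠ 0` then
`(W 0 - W 1) * (W 0 + W 1) = 0` pointwise; both factors are `IsEig` (linear), so by `QR.prod_zero`
`W 0 = W 1` or `W 0 = - W 1`; then `μ = bF (W 0) (W 0) = ± bF (W 0) (W 1) = 0`, contradiction. -/

open MeasureTheory Set Filter Topology
open scoped ContDiff ENNReal NNReal unitInterval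

namespace LibQR35

open BGS
open Pool.BGR (PM upI pj)

open QR

variable {Γ : Type} [Group Γ] [MulAction Γ Pl] {D : Set Pl}

private theorem I2_sub (hX : Surface Γ D) (m : Mt Γ D) (w : TestS Γ) {la : ℝ} {U V : TestS Γ}
    (hU : IsEig hX m w la U) (hV : IsEig hX m w la V) : IsEig hX m w la (U - V) := by
  intro h
  rw [map_sub, map_sub, LinearMap.sub_apply, LinearMap.sub_apply, hU h, hV h]
  ring

private theorem I2_add (hX : Surface Γ D) (m : Mt Γ D) (w : TestS Γ) {la : ℝ} {U V : TestS Γ}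
    (hU : IsEig hX m w la U) (hV : IsEig hX m w la V) : IsEig hX m w la (U + V) := by
  intro h
  rw [map_add, map_add, LinearMap.add_apply, LinearMap.add_apply, hU h, hV h]
  ring

theorem indep2 (hX : Surface Γ D) (m : Mt Γ D) (w : TestS Γ) (hw : ∀ z, 0 < w.1 z) {la μ : ℝ}
    (hμ : 0 < μ) (U : Fin 2 → TestS Γ) (hU : ∀ i, IsEig hX m w la (U i))
    (hor : ∀ i j, bF hX m w (U i) (U j) = if i = j then μ else 0) (M : Fin 2 → Fin 2 → ℝ)
    (hM : ∀ i j, M i j = M j i) (hM0 : ∑ i, M i i = 0)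
    (h : ∀ z, ∑ i, ∑ j, M i j * ((U i).1 z * (U j).1 z) = 0) : M = 0 := by
  obtain ⟨t, W, hW, hWo, hts, ht0, hq⟩ := rotate hX m w U hU hor M hM
  rw [hM0, Fin.sum_univ_two] at hts
  apply ht0
  by_contra hne
  have h0 : t 0 ≠ 0 := by
    intro h0
    apply hne
    rw [h0, zero_add] at hts
    intro i
    fin_cases i
    · exact h0
    · exact hts
  have h1 : ∀ z, (W 0 - W 1).1 z * (W 0 + W 1).1 z = 0 := by
    intro z
    have h2 := hq z
    rw [h z, Fin.sum_univ_two] at h2
    have h3 : t 1 = -t 0 := by linarith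
    rw [h3] at h2
    have h4 : t 0 * (((W 0).1 z - (W 1).1 z) * ((W 0).1 z + (W 1).1 z)) = 0 := by
      linear_combination h2
    have h5 := (mul_eq_zero.1 h4).resolve_left h0
    exact h5
  have h00 : bF hX m w (W 0) (W 0) = μ := by
    rw [hWo, if_pos rfl]
  have h01 : bF hX m w (W 0) (W 1) = 0 := by
    rw [hWo, if_neg (by decide)]
  rcases prod_zero hX m w hw (I2_sub hX m w (hW 0) (hW 1)) (I2_add hX m w (hW 0) (hW 1)) h1 with
    h2 | h2
  · have h3 : W 1 = W 0 := (sub_eq_zero.1 h2).symm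
    rw [h3, h00] at h01
    exact hμ.ne' h01
  · have h3 : W 1 = -W 0 := (neg_eq_of_add_eq_zero_right h2).symm
    rw [h3, map_neg, h00] at h01
    linarith

end LibQR35
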