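import Pool.Agent.LibQR35.I0

/-! ROW I3 : independence of the products of three eigenfunctions, up to the trace.

PLAN. `rotate` gives `t 0 + t 1 + t 2 = 0`, `∑ t i * (W i)^2 = 0`. Suppose not all `t i` vanish.
CASE 1: some `t i = 0`: then the other two are `s` and `- s` with `s ≠ 0`, and
`(W j - W k) * (W j + W k) = 0`, contradiction as in I2 (`QR.prod_zero`; prove once a lemma: for
`j ≠ k` not `∀ z, (W j)^2 = (W k)^2`). CASE 2: all nonzero: two of them have the same sign and the
third the opposite sign (sum zero): `|t i| (W i)^2 + |t j| (W j)^2 = |t k| (W k)^2`; with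
`√|t| • W` (`IsEig` is linear) `QR.sum_sq` gives `a √|t i| W i + b √|t j| W j = 0` with `a ≠ 0` or
`b ≠ 0`; pairing with `W i` and `W j` in `bF` gives `a √|t i| μ = 0 = b √|t j| μ`, contradiction. -/

open MeasureTheory Set Filter Topology
open scoped ContDiff ENNReal NNReal unitInterval

namespace LibQR35

open BGS
open Pool.BGR (PM upI pj)

open QR

variable {Γ : Type} [Group Γ] [MulAction Γ Pl] {D : Set Pl}

theorem I3_smul (hX : Surface Γ D) (m : Mt Γ D) (w : TestS Γ) {la : ℝ} {U : TestS Γ}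
    (hU : IsEig hX m w la U) (c : ℝ) : IsEig hX m w la (c • U) := by
  intro h
  simp only [map_smul, LinearMap.smul_apply, smul_eq_mul]
  rw [hU h]
  ring

theorem I3_ne (hX : Surface Γ D) (m : Mt Γ D) (w : TestS Γ) (hw : ∀ z, 0 < w.1 z) {la μ : ℝ}
    (hμ : 0 < μ) {U V : TestS Γ} (hU : IsEig hX m w la U) (hV : IsEig hX m w la V)
    (h1 : bF hX m w U U = μ) (h2 : bF hX m w U V = 0) (h : ∀ z, U.1 z ^ 2 = V.1 z ^ 2) : False := by
  have k1 : IsEig hX m w la (U - V) := by
    intro x
    simp only [map_sub, LinearMap.sub_apply]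
    rw [hU x, hV x]
    ring
  have k2 : IsEig hX m w la (U + V) := by
    intro x
    simp only [map_add, LinearMap.add_apply]
    rw [hU x, hV x]
    ring
  rcases QR.prod_zero hX m w hw k1 k2 (fun z => by
    show (U.1 z - V.1 z) * (U.1 z + V.1 z) = 0
    have := h z
    linear_combination this) with h3 | h3
  · have h4 : V = U := (sub_eq_zero.1 h3).symm
    rw [h4] at h2
    linarith
  · have h4 : V = -U := eq_neg_of_add_eq_zero_right h3
    rw [h4, map_neg] at h2
    linarith

theorem I3_core (hX : Surface Γ D) (m : Mt Γ D) (w : TestS Γ) (hw : ∀ z, 0 < w.1 z) {la μ : ℝ}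
    (hμ : 0 < μ) {A B C : TestS Γ} (hA : IsEig hX m w la A) (hB : IsEig hX m w la B)
    (hC : IsEig hX m w la C) (hAA : bF hX m w A A = μ) (hBB : bF hX m w B B = μ)
    (hAB : bF hX m w A B = 0) (hBA : bF hX m w B A = 0) (hAC : bF hX m w A C = 0) {s r : ℝ}
    (hs : 0 < s) (hr : 0 ≤ r)
    (h : ∀ z, s * A.1 z ^ 2 + r * B.1 z ^ 2 = (s + r) * C.1 z ^ 2) : False := by
  rcases hr.eq_or_lt with h0 | h0
  · refine I3_ne hX m w hw hμ hA hC hAA hAC fun z => ?_
    have := h z
    rw [← h0] at this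
    have h1 : s * A.1 z ^ 2 = s * C.1 z ^ 2 := by linarith
    exact mul_left_cancel₀ hs.ne' h1
  · have e1 : √s ^ 2 = s := Real.sq_sqrt hs.le
    have e2 : √r ^ 2 = r := Real.sq_sqrt h0.le
    have e3 : √(s + r) ^ 2 = s + r := Real.sq_sqrt (by linarith)
    obtain ⟨a, b, hab, hsum⟩ := QR.sum_sq hX m w hw (I3_smul hX m w hA (√s))
      (I3_smul hX m w hB (√r)) (I3_smul hX m w hC (√(s + r))) (fun z => by
        show (√s * A.1 z) ^ 2 + (√r * B.1 z) ^ 2 = (√(s + r) * C.1 z) ^ 2
        rw [mul_pow, mul_pow, mul_pow, e1, e2, e3]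
        exact h z)
    have k1 := congrArg (fun x => bF hX m w x A) hsum
    have k2 := congrArg (fun x => bF hX m w x B) hsum
    simp only [map_add, LinearMap.add_apply, map_smul, LinearMap.smul_apply, smul_eq_mul,
      map_zero, LinearMap.zero_apply, hAA, hBB, hAB, hBA] at k1 k2
    have hs' : 0 < √s := Real.sqrt_pos.2 hs
    have hr' : 0 < √r := Real.sqrt_pos.2 h0
    have k3 : a * (√s * μ) = 0 := by linarith
    have k4 : b * (√r * μ) = 0 := by linarith
    rcases hab with ha | hb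
    · exact (mul_ne_zero ha (by positivity)) k3
    · exact (mul_ne_zero hb (by positivity)) k4

theorem I3_sum3 (f : Fin 3 → ℝ) (i j k : Fin 3) (hij : i ≠ j) (hik : i ≠ k) (hjk : j ≠ k) :
    ∑ l, f l = f i + f j + f k := by
  rw [Fin.sum_univ_three]
  fin_cases i <;> fin_cases j <;> fin_cases k <;> simp_all <;> ring

theorem indep3 (hX : Surface Γ D) (m : Mt Γ D) (w : TestS Γ) (hw : ∀ z, 0 < w.1 z) {la μ : ℝ}
    (hμ : 0 < μ) (U : Fin 3 → TestS Γ) (hU : ∀ i, IsEig hX m w la (U i))
    (hor : ∀ i j, bF hX m w (U i) (U j) = if i = j then μ else 0) (M : Fin 3 → Fin 3 → ℝ)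
    (hM : ∀ i j, M i j = M j i) (hM0 : ∑ i, M i i = 0)
    (h : ∀ z, ∑ i, ∑ j, M i j * ((U i).1 z * (U j).1 z) = 0) : M = 0 := by
  obtain ⟨t, W, hW, hWo, ht, h0, hz⟩ := rotate hX m w U hU hor M hM
  apply h0
  have hdiag : ∀ i, bF hX m w (W i) (W i) = μ := fun i => by rw [hWo]; simp
  have hoff : ∀ i j, i ≠ j → bF hX m w (W i) (W j) = 0 := fun i j hij => by rw [hWo]; simp [hij]
  have key1 : ∀ i j k : Fin 3, i ≠ j → i ≠ k → j ≠ k → 0 < t i → 0 ≤ t j → False := by
    intro i j k hij hik hjk hi hj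
    have ht' : t i + t j + t k = 0 := by
      rw [← I3_sum3 t i j k hij hik hjk, ht, hM0]
    refine I3_core hX m w hw hμ (hW i) (hW j) (hW k) (hdiag i) (hdiag j) (hoff i j hij)
      (hoff j i hij.symm) (hoff i k hik) hi hj fun z => ?_
    have h1 := hz z
    rw [h z, I3_sum3 _ i j k hij hik hjk] at h1
    have h2 : t k = -(t i + t j) := by linarith
    rw [h2] at h1
    linarith
  have key2 : ∀ i j k : Fin 3, i ≠ j → i ≠ k → j ≠ k → t i < 0 → t j ≤ 0 → False := by
    intro i j k hij hik hjk hi hj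
    have ht' : t i + t j + t k = 0 := by
      rw [← I3_sum3 t i j k hij hik hjk, ht, hM0]
    refine I3_core hX m w hw hμ (hW i) (hW j) (hW k) (hdiag i) (hdiag j) (hoff i j hij)
      (hoff j i hij.symm) (hoff i k hik) (neg_pos.2 hi) (neg_nonneg.2 hj) fun z => ?_
    have h1 := hz z
    rw [h z, I3_sum3 _ i j k hij hik hjk] at h1
    have h2 : t k = -(t i + t j) := by linarith
    rw [h2] at h1
    linarith
  intro i
  obtain ⟨j, k, hij, hik, hjk⟩ : ∃ j k : Fin 3, i ≠ j ∧ i ≠ k ∧ j ≠ k := by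
    revert i
    decide
  by_contra hi
  rcases lt_or_gt_of_ne hi with hi | hi
  · rcases le_or_gt (t j) 0 with hj | hj
    · exact key2 i j k hij hik hjk hi hj
    · rcases le_or_gt (t k) 0 with hk | hk
      · exact key2 i k j hik hij hjk.symm hi hk
      · exact key1 j k i hjk hij.symm hik.symm hj hk.le
  · rcases le_or_gt 0 (t j) with hj | hj
    · exact key1 i j k hij hik hjk hi hj
    · rcases le_or_gt 0 (t k) with hk | hk
      · exact key1 i k j hik hij hjk.symm hi hk
      · exact key2 j k i hjk hij.symm hik.symm hj hk.le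

end LibQR35
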