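import Pool.Agent.LibQR35.PC
import Pool.Agent.LibQR35.CB

/-! ROW PM : the measure of the bad set.

PLAN. Let `ρ = min (r / 2) (c₀ / (4 M))`, `N` a natural number with `1 / N <= ρ`, `1 <= N`. By
`slice_leJ` (with `BadJ_closed ... .measurableSet`; `κ` is countable, so `κ → I` is a Borel space)
it suffices to bound, for fixed `ξ`, the volume of `A = {y : Fin d → I | upJ J ξ y ∈ BadJ ...}`.
By `upJ_apply` and `upJ_upJ`, for `y ∈ A` with `a` as in `BadJ`: for all `g` with `‖g - a‖ <= c₀`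
and all `y'` with `‖y' - y‖ < r`, `F y + ∑ g l (y' l - y l) - ε - M ‖y' - y‖^2 <= F y'` where
`F x = S (upJ J ξ (fun l => pj (x l)))` on `Fin d → ℝ` (`Pool.BGR.pj_of_mem`, `pj_coe`). The image
of `A` under the coordinatewise inclusion `ι : (Fin d → I) → (Fin d → ℝ)` is the union over the
`N^d` cubes `Q_k = ∏ [k_l / N, (k_l + 1) / N]`, `k : Fin d → Fin N`, intersected with
`ι (Fin d → I)`, of sets to which `count_bad` applies (`Q = Q_k ∩ range ι`, diameter `<= 1/N`).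
`volume A <= volume (ι '' A)`: `ι` is measure preserving onto its image (
`MeasureTheory.volume_preserving_pi` style, or: `volume A = volume (ι '' A)` because
`(volume : Measure I) = Measure.comap Subtype.val volume`; one inequality suffices, e.g. from
`Measure.pi` of the measures `volume.restrict (Icc 0 1)` and `Measure.pi_map_pi`).
The sum of the `N^d` bounds is `C * ε ^ d`. -/

open MeasureTheory Set Filter Topology
open scoped ContDiff ENNReal NNReal unitInterval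

namespace LibQR35

open BGS
open Pool.BGR (PM upI pj)

variable {κ : Type} [DecidableEq κ] [Countable κ]

/-- The inclusion of the unit cube. -/
private def PM_io (d : ℕ) (y : Fin d → I) : Fin d → ℝ := fun l => (y l : ℝ)

private theorem PM_vol (d : ℕ) (A : Set (Fin d → I)) :
    (volume : Measure (Fin d → I)) A ≤ (volume : Measure (Fin d → ℝ)) (PM_io d '' A) := by
  have hmeas : Measurable (PM_io d) :=
    measurable_pi_lambda _ fun l => measurable_subtype_coe.comp (measurable_pi_apply l)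
  have hmap : (volume : Measure I).map Subtype.val = (volume : Measure ℝ).restrict (Icc 0 1) :=
    map_comap_subtype_coe measurableSet_Icc volume
  have h1 : (volume : Measure (Fin d → I)).map (PM_io d) =
      Measure.pi (fun _ : Fin d => (volume : Measure ℝ).restrict (Icc 0 1)) := by
    have h2 := Measure.pi_map_pi (μ := fun _ : Fin d => (volume : Measure I))
      (f := fun _ : Fin d => (Subtype.val : I → ℝ))
      (hμ := fun _ => by rw [hmap]; infer_instance) (fun _ => measurable_subtype_coe.aemeasurable)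
    rw [hmap] at h2
    rw [← h2]
    rfl
  calc (volume : Measure (Fin d → I)) A ≤ volume (PM_io d ⁻¹' (PM_io d '' A)) :=
        measure_mono (subset_preimage_image _ _)
    _ ≤ (volume : Measure (Fin d → I)).map (PM_io d) (PM_io d '' A) :=
        Measure.le_map_apply hmeas.aemeasurable _
    _ ≤ (volume : Measure (Fin d → ℝ)) (PM_io d '' A) := by
        rw [h1, ← Measure.restrict_pi_pi]
        exact Measure.restrict_apply_le _ _

/-- The small cubes. -/
private def PM_Q (d N : ℕ) (k : Fin d → Fin N) : Set (Fin d → ℝ) :=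
  {x | (∀ l, ((k l : ℕ) : ℝ) / N ≤ x l ∧ x l ≤ (((k l : ℕ) : ℝ) + 1) / N) ∧ x ∈ range (PM_io d)}

private theorem PM_cover (d N : ℕ) (hN : 1 ≤ N) (x : Fin d → ℝ) (hx : x ∈ range (PM_io d)) :
    ∃ k : Fin d → Fin N, x ∈ PM_Q d N k := by
  have hN0 : (0 : ℝ) < N := by exact_mod_cast hN
  have hl : ∀ l : Fin d, ∃ k : Fin N, ((k : ℕ) : ℝ) / N ≤ x l ∧ x l ≤ (((k : ℕ) : ℝ) + 1) / N := by
    intro l
    obtain ⟨y, rfl⟩ := hx
    have h0 : (0 : ℝ) ≤ PM_io d y l := (y l).2.1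
    have h1 : PM_io d y l ≤ 1 := (y l).2.2
    have h2 : (0 : ℝ) ≤ N * PM_io d y l := mul_nonneg hN0.le h0
    by_cases h : ⌊(N : ℝ) * PM_io d y l⌋₊ < N
    · refine ⟨⟨_, h⟩, ?_, ?_⟩
      · rw [div_le_iff₀ hN0]
        exact (Nat.floor_le h2).trans_eq (mul_comm _ _)
      · rw [le_div_iff₀ hN0]
        exact (mul_comm _ _).trans_le (Nat.lt_floor_add_one _).le
    · have h3 : (N : ℝ) ≤ N * PM_io d y l := by
        have := (Nat.le_floor_iff h2).1 (not_lt.1 h)
        exact this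
      have h4 : 1 ≤ PM_io d y l := by
        by_contra h5
        have := mul_lt_mul_of_pos_left (not_le.1 h5) hN0
        linarith
      refine ⟨⟨N - 1, by omega⟩, ?_, ?_⟩
      · rw [div_le_iff₀ hN0]
        have h5 : ((N - 1 : ℕ) : ℝ) ≤ N := by exact_mod_cast Nat.sub_le _ _
        nlinarith
      · have h5 : ((N - 1 : ℕ) : ℝ) + 1 = N := by
          have : N - 1 + 1 = N := by omega
          exact_mod_cast this
        show PM_io d y l ≤ (((N - 1 : ℕ) : ℝ) + 1) / N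
        rw [h5, div_self hN0.ne']
        exact h1
  choose k hk using hl
  exact ⟨k, hk, hx⟩

private theorem PM_diam (d N : ℕ) (hN : 1 ≤ N) (k : Fin d → Fin N) :
    ∀ x ∈ PM_Q d N k, ∀ y ∈ PM_Q d N k, ‖x - y‖ ≤ 1 / N := by
  intro x hx y hy
  have hN0 : (0 : ℝ) < N := by exact_mod_cast hN
  rw [pi_norm_le_iff_of_nonneg (by positivity)]
  intro l
  have h1 := hx.1 l
  have h2 := hy.1 l
  have h3 : (((k l : ℕ) : ℝ) + 1) / N = ((k l : ℕ) : ℝ) / N + 1 / N := by ring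
  rw [h3] at h1 h2
  rw [Pi.sub_apply, Real.norm_eq_abs, abs_le]
  constructor <;> linarith [h1.1, h1.2, h2.1, h2.2]

omit [Countable κ] in
private theorem PM_slice (d N : ℕ) (hN : 1 ≤ N) {L c₀ r M : ℝ} (hL : 0 ≤ L) (hc : 0 < c₀)
    (hM : 0 < M) (hNr : 1 / (N : ℝ) < r) (hNc : 1 / (N : ℝ) ≤ c₀ / (4 * M))
    (S : (κ → I) → ℝ) {J : Fin d → κ} (hJ : Function.Injective J) {ε : ℝ} (hε : 0 < ε)
    (ξ : κ → I) (k : Fin d → Fin N) :
    (volume : Measure (Fin d → ℝ))
      (PM_io d '' {y | upJ J ξ y ∈ BadJ S J L c₀ r M ε} ∩ PM_Q d N k) ≤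
      ENNReal.ofReal ((2 * (L + c₀) / c₀) ^ d * (8 * ε / c₀) ^ d) := by
  refine count_bad (fun x => S (upJ J ξ (fun l => pj (x l)))) hc hε hL hM (PM_Q d N k) _
    inter_subset_right (fun x hx y hy => (PM_diam d N hN k x hx y hy).trans hNc) ?_
  rintro s ⟨⟨y0, hy0, rfl⟩, hs⟩
  obtain ⟨a, haL, ha⟩ := hy0
  refine ⟨a, haL, fun g hg y hy => ?_⟩
  obtain ⟨y1, rfl⟩ := hy.2
  have hd : dsp J (upJ J ξ y0) y1 = PM_io d y1 - PM_io d y0 := by
    funext l
    show (y1 l : ℝ) - (upJ J ξ y0 (J l) : ℝ) = (y1 l : ℝ) - (y0 l : ℝ)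
    rw [upJ_apply hJ]
  have hn : ‖dsp J (upJ J ξ y0) y1‖ < r := by
    rw [hd]
    exact lt_of_le_of_lt (PM_diam d N hN k _ hy _ hs) hNr
  have h := ha g hg y1 hn
  rw [hd, upJ_upJ] at h
  have hpj : ∀ z : Fin d → I, (fun l => pj (PM_io d z l)) = z := by
    intro z
    funext l
    exact Pool.BGR.pj_coe (z l)
  show S (upJ J ξ (fun l => pj (PM_io d y0 l))) + ∑ i, g i * (PM_io d y1 i - PM_io d y0 i) - ε -
    M * ‖PM_io d y1 - PM_io d y0‖ ^ 2 ≤ S (upJ J ξ (fun l => pj (PM_io d y1 l)))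
  rw [hpj, hpj]
  exact h

theorem bad_meas (d : ℕ) {L c₀ r M : ℝ} (hL : 0 ≤ L) (hc : 0 < c₀) (hr : 0 < r) (hM : 0 < M) :
    ∃ C : ℝ, 0 < C ∧ ∀ S : (κ → I) → ℝ, Continuous S → ∀ J : Fin d → κ, Function.Injective J →
      ∀ ε : ℝ, 0 < ε → PM κ (BadJ S J L c₀ r M ε) ≤ ENNReal.ofReal (C * ε ^ d) := by
  have hρ : 0 < min (r / 2) (c₀ / (4 * M)) := lt_min (by positivity) (by positivity)
  obtain ⟨n, hn⟩ := exists_nat_one_div_lt hρ
  obtain ⟨N, hNn⟩ : ∃ N : ℕ, N = n + 1 := ⟨_, rfl⟩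
  have hN : 1 ≤ N := by omega
  have hN0 : (0 : ℝ) < N := by exact_mod_cast hN
  have hn' : 1 / (N : ℝ) < min (r / 2) (c₀ / (4 * M)) := by
    rw [hNn]
    push_cast
    exact hn
  have hNr : 1 / (N : ℝ) < r := by
    have := hn'.trans_le (min_le_left _ _)
    linarith
  have hNc : 1 / (N : ℝ) ≤ c₀ / (4 * M) := (hn'.trans_le (min_le_right _ _)).le
  have hLc : 0 < L + c₀ := by linarith
  refine ⟨(N : ℝ) ^ d * ((2 * (L + c₀) / c₀) ^ d * (8 / c₀) ^ d), by positivity, ?_⟩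
  intro S hS J hJ ε hε
  refine slice_leJ hJ (BadJ_closed hS J L c₀ r M ε).measurableSet _ fun ξ => ?_
  refine (PM_vol d _).trans ?_
  have hcov : PM_io d '' {y | upJ J ξ y ∈ BadJ S J L c₀ r M ε} ⊆
      ⋃ k : Fin d → Fin N, (PM_io d '' {y | upJ J ξ y ∈ BadJ S J L c₀ r M ε} ∩ PM_Q d N k) := by
    intro x hx
    obtain ⟨k, hk⟩ := PM_cover d N hN x (image_subset_range _ _ hx)
    exact mem_iUnion.2 ⟨k, hx, hk⟩
  refine (measure_mono hcov).trans ((measure_iUnion_fintype_le _ _).trans ?_)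
  refine (Finset.sum_le_sum fun k _ => PM_slice d N hN hL hc hM hNr hNc S hJ hε ξ k).trans ?_
  rw [Finset.sum_const, Finset.card_univ, Fintype.card_fun, Fintype.card_fin, Fintype.card_fin,
    nsmul_eq_mul]
  have h1 : (N : ℝ) ^ d * ((2 * (L + c₀) / c₀) ^ d * (8 / c₀) ^ d) * ε ^ d =
      (N : ℝ) ^ d * ((2 * (L + c₀) / c₀) ^ d * (8 * ε / c₀) ^ d) := by
    have : 8 * ε / c₀ = (8 / c₀) * ε := by ring
    rw [this, mul_pow (8 / c₀) ε]
    ring
  rw [h1, ENNReal.ofReal_mul (p := (N : ℝ) ^ d) (by positivity)]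
  refine le_of_eq ?_
  congr 1
  rw [ENNReal.ofReal_pow hN0.le, ENNReal.ofReal_natCast]
  push_cast
  rfl

end LibQR35
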