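import Pool.Agent.LibQR35.Defs

/-! ROW PJ : change of several coordinates, Fubini in several coordinates.

PLAN. `upJ_apply`: `Classical.choose_spec` and injectivity. Measurability by
`measurable_pi_lambda` (each coordinate of `upJ J p.1 p.2` is a coordinate of `p.1` or of `p.2`).
`map_upJ`: copy of `Pool.BGR.map_upI` (LibBGR/Prod.lean, 40 lines): `Measure.eq_infinitePi`, the
preimage of `Set.pi s t` is `(Set.pi (s \ range J) t) ×ˢ (Set.pi univ fun l => if J l ∈ s then t (J l)
else univ)`, `Measure.pi_pi`, `Measure.infinitePi_pi`; the product over `s` splits into `s` minus the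
range and the part of `s` in the range (reindexed by the injective `J`, `Finset.prod_image` or
`Finset.prod_subtype`). ALTERNATIVE: induction on `d` with `map_upI` (then the measure on
`Fin (d+1) → I` is split by `MeasurableEquiv.piFinSuccAbove`,
`volume_preserving_piFinSuccAbove`). `slice_leJ`: copy of `Pool.BGR.slice_le`. -/

open MeasureTheory Set Filter Topology
open scoped ContDiff ENNReal NNReal unitInterval

namespace LibQR35

open BGS
open Pool.BGR (PM upI pj)

variable {κ : Type} [DecidableEq κ] {d : ℕ}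

theorem upJ_apply {J : Fin d → κ} (hJ : Function.Injective J) (ξ : κ → I) (y : Fin d → I)
    (l : Fin d) : upJ J ξ y (J l) = y l := by
  have h : ∃ l', J l' = J l := ⟨l, rfl⟩
  unfold upJ
  rw [dif_pos h]
  exact congrArg y (hJ (Classical.choose_spec h))

theorem upJ_other {J : Fin d → κ} (ξ : κ → I) (y : Fin d → I) {j : κ} (hj : ∀ l, J l ≠ j) :
    upJ J ξ y j = ξ j := by
  unfold upJ
  rw [dif_neg]
  rintro ⟨l, hl⟩
  exact hj l hl

theorem upJ_upJ {J : Fin d → κ} (ξ : κ → I) (y y' : Fin d → I) :
    upJ J (upJ J ξ y) y' = upJ J ξ y' := by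
  funext j
  by_cases h : ∃ l, J l = j
  · unfold upJ
    rw [dif_pos h, dif_pos h]
  · have h' : ∀ l, J l ≠ j := fun l hl => h ⟨l, hl⟩
    rw [upJ_other _ _ h', upJ_other _ _ h', upJ_other _ _ h']

theorem upJ_self {J : Fin d → κ} (hJ : Function.Injective J) (ξ : κ → I) :
    upJ J ξ (fun l => ξ (J l)) = ξ := by
  funext j
  by_cases h : ∃ l, J l = j
  · obtain ⟨l, rfl⟩ := h
    rw [upJ_apply hJ]
  · have h' : ∀ l, J l ≠ j := fun l hl => h ⟨l, hl⟩
    rw [upJ_other _ _ h']

theorem continuous_upJ (J : Fin d → κ) :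
    Continuous fun p : (κ → I) × (Fin d → I) => upJ J p.1 p.2 := by
  refine continuous_pi fun j => ?_
  by_cases h : ∃ l, J l = j
  · have h1 : (fun p : (κ → I) × (Fin d → I) => upJ J p.1 p.2 j) =
        fun p => p.2 (Classical.choose h) := by
      funext p
      unfold upJ
      rw [dif_pos h]
    rw [h1]
    exact (continuous_apply _).comp continuous_snd
  · have h1 : (fun p : (κ → I) × (Fin d → I) => upJ J p.1 p.2 j) = fun p => p.1 j := by
      funext p
      exact upJ_other _ _ fun l hl => h ⟨l, hl⟩
    rw [h1]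
    exact (continuous_apply _).comp continuous_fst

theorem measurable_upJ (J : Fin d → κ) :
    Measurable fun p : (κ → I) × (Fin d → I) => upJ J p.1 p.2 := by
  refine measurable_pi_lambda _ fun j => ?_
  by_cases h : ∃ l, J l = j
  · have h1 : (fun p : (κ → I) × (Fin d → I) => upJ J p.1 p.2 j) =
        fun p => p.2 (Classical.choose h) := by
      funext p
      unfold upJ
      rw [dif_pos h]
    rw [h1]
    exact (measurable_pi_apply _).comp measurable_snd
  · have h1 : (fun p : (κ → I) × (Fin d → I) => upJ J p.1 p.2 j) = fun p => p.1 j := by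
      funext p
      exact upJ_other _ _ fun l hl => h ⟨l, hl⟩
    rw [h1]
    exact (measurable_pi_apply _).comp measurable_fst

theorem map_upJ {J : Fin d → κ} (hJ : Function.Injective J) :
    ((PM κ).prod (volume : Measure (Fin d → I))).map
      (fun p : (κ → I) × (Fin d → I) => upJ J p.1 p.2) = PM κ := by
  classical
  unfold PM
  refine Measure.eq_infinitePi _ fun s t ht => ?_
  rw [Measure.map_apply (measurable_upJ J) (MeasurableSet.pi s.countable_toSet fun j _ => ht j)]
  have h1 : (fun p : (κ → I) × (Fin d → I) => upJ J p.1 p.2) ⁻¹' (Set.pi s t) =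
      (Set.pi ((s.filter fun j => ∀ l, J l ≠ j : Finset κ) : Set κ) t) ×ˢ
        (Set.pi univ fun l => if J l ∈ s then t (J l) else univ) := by
    ext ⟨ξ, y⟩
    simp only [mem_preimage, Set.mem_pi, Finset.mem_coe, mem_prod, Finset.mem_filter, mem_univ,
      true_implies]
    constructor
    · intro h
      refine ⟨?_, ?_⟩
      · rintro j ⟨hjs, hj⟩
        have h2 := h j hjs
        rwa [upJ_other ξ y hj] at h2
      · intro l
        split_ifs with hl
        · have h2 := h (J l) hl
          rwa [upJ_apply hJ] at h2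
        · exact mem_univ _
    · rintro ⟨h2, h3⟩ j hj
      by_cases hl : ∃ l, J l = j
      · obtain ⟨l, rfl⟩ := hl
        rw [upJ_apply hJ]
        have h4 := h3 l
        rwa [if_pos hj] at h4
      · have hl' : ∀ l, J l ≠ j := fun l hjl => hl ⟨l, hjl⟩
        rw [upJ_other ξ y hl']
        exact h2 j ⟨hj, hl'⟩
  rw [h1, Measure.prod_prod, Measure.infinitePi_pi _ (fun j _ => ht j), volume_pi, Measure.pi_pi]
  have e1 : ∀ l, (volume : Measure I) (if J l ∈ s then t (J l) else univ) =
      if J l ∈ s then (volume : Measure I) (t (J l)) else 1 := by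
    intro l
    split_ifs
    · rfl
    · exact measure_univ
  rw [Finset.prod_congr rfl (fun l _ => e1 l), ← Finset.prod_filter]
  have e2 : ∏ l ∈ Finset.univ.filter (fun l => J l ∈ s), (volume : Measure I) (t (J l)) =
      ∏ j ∈ s.filter (fun j => ¬ ∀ l, J l ≠ j), (volume : Measure I) (t j) := by
    have e3 : s.filter (fun j => ¬ ∀ l, J l ≠ j) =
        (Finset.univ.filter (fun l => J l ∈ s)).image J := by
      ext j
      simp only [Finset.mem_filter, Finset.mem_image, Finset.mem_univ, true_and]
      constructor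
      · rintro ⟨hj, h⟩
        push Not at h
        obtain ⟨l, rfl⟩ := h
        exact ⟨l, hj, rfl⟩
      · rintro ⟨l, hl, rfl⟩
        exact ⟨hl, fun h => h l rfl⟩
    rw [e3, Finset.prod_image fun x _ y _ h => hJ h]
  rw [e2, Finset.prod_filter_mul_prod_filter_not]

theorem slice_leJ {J : Fin d → κ} (hJ : Function.Injective J) {A : Set (κ → I)}
    (hA : MeasurableSet A) (c : ℝ≥0∞)
    (h : ∀ ξ, (volume : Measure (Fin d → I)) {y | upJ J ξ y ∈ A} ≤ c) : PM κ A ≤ c := by
  have h1 : PM κ A = ((PM κ).prod (volume : Measure (Fin d → I)))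
      ((fun p : (κ → I) × (Fin d → I) => upJ J p.1 p.2) ⁻¹' A) := by
    conv_lhs => rw [← map_upJ hJ]
    exact Measure.map_apply (measurable_upJ J) hA
  rw [h1, Measure.prod_apply (measurable_upJ J hA)]
  calc ∫⁻ ξ, volume (Prod.mk ξ ⁻¹' ((fun p : (κ → I) × (Fin d → I) => upJ J p.1 p.2) ⁻¹' A))
        ∂(PM κ)
      ≤ ∫⁻ _, c ∂(PM κ) := lintegral_mono fun ξ => h ξ
    _ = c := by rw [lintegral_const, measure_univ, mul_one]

end LibQR35
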