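import Pool.Agent.LibQR35.Defs
import Pool.Agent.LibQR35.PJ

/-! ROW PK : the exponent after a change of several coordinates.

PLAN. Induction on `d`: for `J : Fin (d+1) → Dir` injective,
`upJ J ξ y = upI (upJ (J ∘ Fin.castSucc) ξ (y ∘ Fin.castSucc)) (J (Fin.last d)) (y (Fin.last d))`
(ext, cases, `upJ_apply`, `upJ_other`), then `BGS.phi_up` (LibBGR/AE_PH2.lean) and
`Fin.sum_univ_castSucc`; the old value of the coordinate `J (Fin.last d)` is `ξ (J (Fin.last d))`
by `upJ_other`. -/

open MeasureTheory Set Filter Topology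
open scoped ContDiff ENNReal NNReal unitInterval

namespace LibQR35

open BGS
open Pool.BGR (PM upI pj)

variable {Γ : Type} [Group Γ] [MulAction Γ Pl] {D : Set Pl}

private theorem PK_succ {κ : Type} [DecidableEq κ] {d : ℕ} {J : Fin (d + 1) → κ}
    (hJ : Function.Injective J) (ξ : κ → I) (y : Fin (d + 1) → I) :
    upJ J ξ y = upI (upJ (fun l : Fin d => J l.castSucc) ξ (fun l => y l.castSucc))
      (J (Fin.last d)) (y (Fin.last d)) := by
  have hJ' : Function.Injective (fun l : Fin d => J l.castSucc) :=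
    hJ.comp (Fin.castSucc_injective d)
  funext j
  by_cases h : ∃ l, J l = j
  · obtain ⟨l, rfl⟩ := h
    rw [upJ_apply hJ]
    induction l using Fin.lastCases with
    | last => simp [upI]
    | cast l =>
      have hne : J l.castSucc ≠ J (Fin.last d) := fun h =>
        (Fin.castSucc_lt_last l).ne (hJ h)
      rw [upI, Function.update_of_ne hne]
      exact (upJ_apply hJ' ξ (fun l => y l.castSucc) l).symm
  · push Not at h
    rw [upJ_other ξ y h, upI, Function.update_of_ne (fun e => h _ e.symm),
      upJ_other ξ _ (fun l => h _)]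

theorem phi_upJ (hX : Surface Γ D) (L : ℕ) {c : ℕ → ℝ} (hc : Cs c) {d : ℕ} {J : Fin d → Dir}
    (hJ : Function.Injective J) (hv : ∀ l, Valid L (J l)) (ξ : Dir → I) (y : Fin d → I) (z : Pl) :
    phi Γ L c (upJ J ξ y) z = phi Γ L c ξ z +
      ∑ l, c (J l).1 * dsp J ξ y l * per Γ (bmp ((J l).1 + 1) (J l).2) z := by
  induction d with
  | zero =>
    have h0 : upJ J ξ y = ξ := funext fun j => upJ_other ξ y (fun l => l.elim0)
    rw [h0]
    simp
  | succ d ih =>
    have hJ' : Function.Injective (fun l : Fin d => J l.castSucc) :=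
      hJ.comp (Fin.castSucc_injective d)
    have h1 := ih (J := fun l : Fin d => J l.castSucc) hJ' (fun l => hv _)
      (fun l => y l.castSucc)
    have h2 := phi_up hX L hc (upJ (fun l : Fin d => J l.castSucc) ξ (fun l => y l.castSucc))
      (J (Fin.last d)).1 (hv (Fin.last d)) (y (Fin.last d)) z
    have h3 : upJ (fun l : Fin d => J l.castSucc) ξ (fun l => y l.castSucc) (J (Fin.last d)) =
        ξ (J (Fin.last d)) := upJ_other ξ _ fun l h => (Fin.castSucc_lt_last l).ne (hJ h)
    have h4 : ((J (Fin.last d)).1, (J (Fin.last d)).2) = J (Fin.last d) := rfl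
    rw [h4, h3] at h2
    rw [PK_succ hJ, h2, h1, Fin.sum_univ_castSucc, ← add_assoc]
    rfl

end LibQR35
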