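import Pool.Agent.LibQR35.A3
import Pool.Agent.LibQR35.PK

/-! ROW S1 : a cluster gives a ball of slopes. -/

open MeasureTheory Set Filter Topology
open scoped ContDiff ENNReal NNReal unitInterval

namespace LibQR35

open BGS
open Pool.BGR (PM upI pj)

variable {Γ : Type} [Group Γ] [MulAction Γ Pl] {D : Set Pl}

theorem S1_bF_sum (hX : Surface Γ D) (m : Mt Γ D) {ι : Type} (s : Finset ι) (τ : ι → ℝ)
    (W : ι → TestS Γ) (u v : TestS Γ) :
    bF hX m (∑ l ∈ s, τ l • W l) u v = ∑ l ∈ s, τ l * bF hX m (W l) u v := by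
  classical
  induction s using Finset.induction_on with
  | empty =>
    rw [Finset.sum_empty, Finset.sum_empty, bF_apply]
    simp
  | insert i s hi ih =>
    rw [Finset.sum_insert hi, Finset.sum_insert hi, add_comm (τ i • W i), bF_add_smul,
      LinearMap.add_apply, LinearMap.add_apply, LinearMap.smul_apply, LinearMap.smul_apply, ih,
      smul_eq_mul, add_comm]

theorem slice_surface (hX : Surface Γ D) (m : Mt Γ D) (L : ℕ) {c : ℕ → ℝ} (hc : Cs c)
    (ψ : TestS Γ) (k n d : ℕ) (hn : 0 < n) {K : ℝ} (hK : 0 < K) :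
    ∃ L₁ c₀ r M : ℝ, 0 ≤ L₁ ∧ 0 < c₀ ∧ 0 < r ∧ 0 < M ∧
      ∀ (Φ : (Dir → I) → TestS Γ), (∀ ξ z, (Φ ξ).1 z = ψ.1 z + phi Γ L c ξ z) →
      ∀ (J : Fin d → Dir), Function.Injective J → (∀ l, Valid L (J l)) → ∀ δ : ℝ, 0 < δ →
      ∀ (ξ : Dir → I) (w : Fin (k + n) → TestS Γ),
        Fr (aF hX m) (bF hX m (expT (Φ ξ))) (oneT Γ) δ w →
        muE hX m (Φ ξ) k - muE hX m (Φ ξ) (k + n - 1) ≤ δ →
        Sur K (fun l => Xm Γ D m.1.1 c (Φ ξ).1 (fun i => (w (Fin.natAdd k i)).1) (J l)) →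
        ξ ∈ BadJ (fun ξ => SE hX m k (Φ ξ)) J L₁ c₀ r M ((k + 2) * δ) := by
  obtain ⟨C, hC0, hC⟩ := per_bmp_le hX L
  obtain ⟨M₁, hM1, hM1'⟩ := test_bdd hX ψ
  obtain ⟨M₂, hM2, hM2'⟩ := phi_bound hX L hc
  obtain ⟨M₀, hM0, hM0'⟩ := muE_upper hX m (M₁ + M₂)
  have hn' : (0 : ℝ) < n := by exact_mod_cast hn
  refine ⟨C * (k + 1) * M₀, 1 / ((n : ℝ) ^ 2 * K), 1 / (2 * (d * C) + 1),
    (k + 1) * (2 * (d * C) ^ 2 * M₀) + 1, by positivity, by positivity, by positivity,
    by positivity, ?_⟩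
  intro Φ hΦ J hJ hv δ hδ ξ w hw hgap hsur
  set φ : TestS Γ := Φ ξ with hφ
  set b := bF hX m (expT φ) with hb
  have hφM : ∀ z, |φ.1 z| ≤ M₁ + M₂ := by
    intro z
    rw [hφ, hΦ ξ z]
    exact (abs_add_le _ _).trans (add_le_add (hM1' z) (hM2' ξ z))
  have hmu : ∀ i, mu (aF hX m) b i ≤ M₀ := fun i => hM0' φ hφM i
  have hbnn : ∀ u, 0 ≤ b u u := fun u => KEX_nonneg hX m _ (fun z => (KEX_pos φ z).le) u
  have hR : ∀ l, 1 ≤ (J l).1 + 1 := fun l => Nat.le_add_left 1 _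
  set η : Fin d → TestS Γ := fun l => KEX_eta hX (hR l) (J l).2 with hη
  set B : Fin d → TestS Γ → TestS Γ → ℝ := fun l u v =>
    c (J l).1 * bF hX m (KEX_mul (expT φ) (η l)) u v with hB
  have hBb : ∀ l u, |B l u u| ≤ C * b u u := by
    intro l u
    have h1 : 0 ≤ bF hX m (KEX_mul (expT φ) (η l)) u u := KEX_nonneg hX m _
      (fun z => mul_nonneg (KEX_pos φ z).le (per_bmp_nonneg _ _ z)) u
    have h2 : bF hX m (KEX_mul (expT φ) (η l)) u u ≤ C * b u u := bF_le hX m (fun z => by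
      rw [KEX_mul_apply, mul_comm]
      exact mul_le_mul_of_nonneg_right (hC _ (hR l) _ (hv l) z) (KEX_pos φ z).le) u
    have h3 := hc.pos (J l).1
    have h4 := hc.le_one (J l).1
    rw [hB]
    dsimp only
    rw [abs_of_nonneg (mul_nonneg h3.le h1)]
    nlinarith
  -- the slopes
  set a : Fin d → ℝ := fun l => ∑ i : Fin k, B l (w (Fin.castAdd n i)) (w (Fin.castAdd n i)) +
    (1 / (n : ℝ)) * ∑ i : Fin n, B l (w (Fin.natAdd k i)) (w (Fin.natAdd k i)) with ha
  have hBw : ∀ l i, |B l (w i) (w i)| ≤ C * M₀ := fun l i =>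
    (hBb l (w i)).trans (mul_le_mul_of_nonneg_left ((hw.up i).trans (hmu _)) hC0.le)
  refine ⟨a, ?_, ?_⟩
  · refine (pi_norm_le_iff_of_nonneg (by positivity)).2 fun l => ?_
    rw [Real.norm_eq_abs, ha]
    dsimp only
    have h1 : |∑ i : Fin k, B l (w (Fin.castAdd n i)) (w (Fin.castAdd n i))| ≤ k * (C * M₀) := by
      refine (Finset.abs_sum_le_sum_abs _ _).trans ((Finset.sum_le_sum fun i _ => hBw l _).trans ?_)
      simp
    have h2 : |∑ i : Fin n, B l (w (Fin.natAdd k i)) (w (Fin.natAdd k i))| ≤ n * (C * M₀) := by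
      refine (Finset.abs_sum_le_sum_abs _ _).trans ((Finset.sum_le_sum fun i _ => hBw l _).trans ?_)
      simp
    have h3 : |1 / (n : ℝ) * ∑ i : Fin n, B l (w (Fin.natAdd k i)) (w (Fin.natAdd k i))| ≤
        C * M₀ := by
      rw [abs_mul, abs_of_nonneg (by positivity)]
      calc 1 / (n : ℝ) * _ ≤ 1 / (n : ℝ) * (n * (C * M₀)) :=
            mul_le_mul_of_nonneg_left h2 (by positivity)
        _ = C * M₀ := by field_simp
    calc _ ≤ k * (C * M₀) + C * M₀ := (abs_add_le _ _).trans (add_le_add h1 h3)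
      _ = C * (k + 1) * M₀ := by ring
  intro g hg y hy
  set s : Fin d → ℝ := dsp J ξ y with hs
  have hsl : ∀ l, |s l| ≤ ‖s‖ := fun l => norm_le_pi_norm s l
  set q : Fin d → ℝ := g - a with hq
  obtain ⟨M', hMs, hMt, hMb, hMq⟩ := hsur q
  -- the perturbation
  set W : TestS Γ := ∑ l, (s l * c (J l).1) • KEX_mul (expT φ) (η l) with hW
  set h : LinearMap.BilinForm ℝ (TestS Γ) := bF hX m W with hh
  have hhB : ∀ u v, h u v = ∑ l, s l * B l u v := by
    intro u v
    rw [hh, hW, S1_bF_sum]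
    refine Finset.sum_congr rfl fun l _ => ?_
    rw [hB]
    ring
  have hdC : 0 ≤ (d : ℝ) * C := by positivity
  have hκ : ∀ u, |h u u| ≤ d * C * ‖s‖ * b u u := by
    intro u
    rw [hhB]
    refine (Finset.abs_sum_le_sum_abs _ _).trans ?_
    calc ∑ l, |s l * B l u u| ≤ ∑ _l : Fin d, ‖s‖ * (C * b u u) :=
          Finset.sum_le_sum fun l _ => by
            rw [abs_mul]
            exact mul_le_mul (hsl l) (hBb l u) (abs_nonneg _) (norm_nonneg _)
      _ = d * C * ‖s‖ * b u u := by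
          simp
          ring
  have hκ1 : d * C * ‖s‖ ≤ 1 / 2 := by
    have h1 : ‖s‖ ≤ 1 / (2 * (d * C) + 1) := hy.le
    rw [le_div_iff₀ (by positivity)] at h1
    nlinarith [norm_nonneg s]
  have hcl := cluster_avg (pair_surface hX m (expT φ) (fun z => Real.exp_pos _))
    (expT_lam1 hX m φ) hδ.le hw hn hgap h (KEX_symm hX m W) hκ (by positivity) hκ1 M' hMs hMt
    (fun i j => by
      refine (hMb i j).trans ?_
      calc K * ‖q‖ ≤ K * (1 / ((n : ℝ) ^ 2 * K)) := mul_le_mul_of_nonneg_left hg hK.le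
        _ = 1 / (n : ℝ) ^ 2 := by field_simp)
  -- the slope term
  have hsl1 : ∑ i : Fin k, h (w (Fin.castAdd n i)) (w (Fin.castAdd n i))
        + (1 / (n : ℝ)) * ∑ i, h (w (Fin.natAdd k i)) (w (Fin.natAdd k i))
        + ∑ i, ∑ j, M' i j * h (w (Fin.natAdd k i)) (w (Fin.natAdd k j)) = ∑ l, g l * s l := by
    have h1 : ∑ i, ∑ j, M' i j * h (w (Fin.natAdd k i)) (w (Fin.natAdd k j)) =
        ∑ l, s l * q l := by
      have h2 : ∀ i j, M' i j * h (w (Fin.natAdd k i)) (w (Fin.natAdd k j)) =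
          ∑ l, s l * (M' i j * B l (w (Fin.natAdd k i)) (w (Fin.natAdd k j))) := by
        intro i j
        rw [hhB, Finset.mul_sum]
        refine Finset.sum_congr rfl fun l _ => ?_
        ring
      simp only [h2]
      calc _ = ∑ i, ∑ l, ∑ j, s l * (M' i j * B l (w (Fin.natAdd k i)) (w (Fin.natAdd k j))) :=
            Finset.sum_congr rfl fun i _ => Finset.sum_comm
        _ = ∑ l, ∑ i, ∑ j, s l * (M' i j * B l (w (Fin.natAdd k i)) (w (Fin.natAdd k j))) :=
            Finset.sum_comm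
        _ = ∑ l, s l * q l := by
            refine Finset.sum_congr rfl fun l _ => ?_
            rw [← hMq l, Finset.mul_sum]
            refine Finset.sum_congr rfl fun i _ => ?_
            rw [Finset.mul_sum]
            rfl
    have h3 : ∑ i : Fin k, h (w (Fin.castAdd n i)) (w (Fin.castAdd n i)) =
        ∑ l, s l * ∑ i : Fin k, B l (w (Fin.castAdd n i)) (w (Fin.castAdd n i)) := by
      simp only [hhB, Finset.mul_sum]
      exact Finset.sum_comm
    have h4 : ∑ i, h (w (Fin.natAdd k i)) (w (Fin.natAdd k i)) =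
        ∑ l, s l * ∑ i : Fin n, B l (w (Fin.natAdd k i)) (w (Fin.natAdd k i)) := by
      simp only [hhB, Finset.mul_sum]
      exact Finset.sum_comm
    rw [h1, h3, h4, Finset.mul_sum, ← Finset.sum_add_distrib, ← Finset.sum_add_distrib]
    refine Finset.sum_congr rfl fun l _ => ?_
    rw [hq, ha]
    simp only [Pi.sub_apply]
    ring
  -- comparison with the perturbed weight
  have hcmp : ∀ i, mu (aF hX m) (b + h) i ≤ muE hX m (Φ (upJ J ξ y)) i := by
    intro i
    have h1 := mu_le_of_le (a := aF hX m) (b := b + h)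
      (b' := bF hX m (expT (Φ (upJ J ξ y)))) one_pos (expT_lam1 hX m _) (fun u => by
        have h2 : b + h = bF hX m (expT φ + (1 : ℝ) • W) := by
          rw [bF_add_smul, one_smul]
        rw [h2]
        refine bF_le hX m (fun z => ?_) u
        have h3 : (expT φ + (1 : ℝ) • W).1 z = Real.exp (φ.1 z) *
            ((∑ l, c (J l).1 * s l * per Γ (bmp ((J l).1 + 1) (J l).2) z) + 1) := by
          rw [one_smul, Submodule.coe_add, Pi.add_apply, expT_apply, hW, Submodule.coe_sum,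
            Finset.sum_apply, mul_add, mul_one, add_comm, Finset.mul_sum]
          congr 1
          refine Finset.sum_congr rfl fun l _ => ?_
          rw [Submodule.coe_smul, Pi.smul_apply, smul_eq_mul, KEX_mul_apply, expT_apply]
          change s l * c (J l).1 * (Real.exp (φ.1 z) * per Γ (bmp ((J l).1 + 1) (J l).2) z) = _
          ring
        rw [h3, one_mul, expT_apply, hΦ (upJ J ξ y) z, phi_upJ hX L hc hJ hv ξ y z, ← add_assoc,
          ← hΦ ξ z, Real.exp_add]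
        exact mul_le_mul_of_nonneg_left (Real.add_one_le_exp _) (Real.exp_pos _).le) i
    rw [one_mul] at h1
    exact h1
  have hfin : ∑ i ∈ Finset.range (k + 1), mu (aF hX m) (b + h) i ≤ SE hX m k (Φ (upJ J ξ y)) :=
    Finset.sum_le_sum fun i _ => hcmp i
  have hSξ : SE hX m k φ = ∑ i ∈ Finset.range (k + 1), mu (aF hX m) b i := rfl
  have herr : ((k : ℝ) + 1) * (2 * (d * C * ‖s‖) ^ 2 * mu (aF hX m) b 0) ≤
      ((k + 1) * (2 * (d * C) ^ 2 * M₀) + 1) * ‖s‖ ^ 2 := by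
    have h1 : 2 * (d * C * ‖s‖) ^ 2 * mu (aF hX m) b 0 ≤ 2 * (d * C * ‖s‖) ^ 2 * M₀ :=
      mul_le_mul_of_nonneg_left (hmu 0) (by positivity)
    have h2 : ((k : ℝ) + 1) * (2 * (d * C * ‖s‖) ^ 2 * mu (aF hX m) b 0) ≤
        ((k : ℝ) + 1) * (2 * (d * C * ‖s‖) ^ 2 * M₀) :=
      mul_le_mul_of_nonneg_left h1 (by positivity)
    refine h2.trans ?_
    have h3 : ((k : ℝ) + 1) * (2 * (d * C * ‖s‖) ^ 2 * M₀) =
        ((k + 1) * (2 * (d * C) ^ 2 * M₀)) * ‖s‖ ^ 2 := by ring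
    rw [h3]
    nlinarith [sq_nonneg ‖s‖]
  change SE hX m k φ + ∑ l, g l * s l - (k + 2) * δ -
    ((k + 1) * (2 * (d * C) ^ 2 * M₀) + 1) * ‖s‖ ^ 2 ≤ SE hX m k (Φ (upJ J ξ y))
  rw [hSξ]
  linarith

end LibQR35
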