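import Pool.Agent.LibQR35.Defs

/-! ROW X1 : gaps of the metric from gaps of the reciprocals, uniformly.

PLAN. `BGS.gap_of_mu` (LibBGR/AE_GMU.lean) with uniform constants. `q <= e^M`: the area of `m'` is
one: `1 = ∫ z in D, √(dt (m'.1.1 z)) = ∫ q e^φ √(dt m) >= q e^(-M) ∫ √(dt m) = q e^(-M)` (`FRC_sqrt`,
`m.2.area`, `m'.2.area`). `x m' (k+1) = (muE k)⁻¹ / q / (4 π)`, `x m' 0 = 0` (inside the proof of
`gap_of_mu`, `GMU_x`, `GMU_lam0`). `muE_upper hX m M`: all `muE <= M₀`. So with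
`C₃ = min (1 / (M₀ e^M 4 π)) (1 / (M₀^2 e^M 4 π))` both claims hold; the second one needs
`muE (n + j) <= muE n` (`mu_anti (expT_lam1 hX m φ)`). -/

open MeasureTheory Set Filter Topology
open scoped ContDiff ENNReal NNReal unitInterval

namespace LibQR35

open BGS
open Pool.BGR (PM upI pj)

variable {Γ : Type} [Group Γ] [MulAction Γ Pl] {D : Set Pl}

theorem X1_area (hX : Surface Γ D) (m : Mt Γ D) {M : ℝ} {φ : TestS Γ} (hφ : ∀ z, |φ.1 z| ≤ M)
    (m' : Mt Γ D) {q : ℝ} (hq : 0 < q)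
    (h : ∀ z, m'.1.1 z = (q * Real.exp (φ.1 z)) • m.1.1 z) : q ≤ Real.exp M := by
  have h1 := m.2.area
  have h2 := m'.2.area
  have h3 : ∫ z in D, √(dt (m'.1.1 z)) = ∫ z in D, (q * Real.exp (φ.1 z)) * √(dt (m.1.1 z)) := by
    refine integral_congr_ae (Eventually.of_forall fun z => ?_)
    change √(dt (m'.1.1 z)) = (q * Real.exp (φ.1 z)) * √(dt (m.1.1 z))
    rw [h z, FRC_sqrt (mul_pos hq (Real.exp_pos _))]
  have h4 : ∫ z in D, (q * Real.exp (-M)) * √(dt (m.1.1 z)) = q * Real.exp (-M) := by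
    rw [integral_const_mul, h1, mul_one]
  have h5 : ∫ z in D, (q * Real.exp (-M)) * √(dt (m.1.1 z)) ≤
      ∫ z in D, (q * Real.exp (φ.1 z)) * √(dt (m.1.1 z)) := by
    refine setIntegral_mono_on (Cmp_int hX (continuous_const.mul (BGR_rho m)))
      (Cmp_int hX ((continuous_const.mul (Real.continuous_exp.comp φ.2.1.continuous)).mul
        (BGR_rho m))) hX.meas fun z _ => ?_
    refine mul_le_mul_of_nonneg_right ?_ (Real.sqrt_nonneg _)
    refine mul_le_mul_of_nonneg_left ?_ hq.le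
    exact Real.exp_le_exp.2 (abs_le.1 (hφ z)).1
  rw [h4, ← h3, h2] at h5
  have h6 := mul_le_mul_of_nonneg_right h5 (Real.exp_pos M).le
  rw [mul_assoc, ← Real.exp_add, neg_add_cancel, Real.exp_zero, mul_one, one_mul] at h6
  exact h6

theorem levels (hX : Surface Γ D) (m : Mt Γ D) (M : ℝ) :
    ∃ C₃ : ℝ, 0 < C₃ ∧ ∀ φ : TestS Γ, (∀ z, |φ.1 z| ≤ M) → ∀ (m' : Mt Γ D) (q : ℝ), 0 < q →
      (∀ z, m'.1.1 z = (q * Real.exp (φ.1 z)) • m.1.1 z) →
      (∀ j, C₃ ≤ x m' (j + 1) - x m' 0) ∧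
        ∀ n j, C₃ * (muE hX m φ n - muE hX m φ (n + j)) ≤ x m' (n + j + 1) - x m' (n + 1) := by
  obtain ⟨M₀, hM₀, hup⟩ := muE_upper hX m M
  obtain ⟨c₀, hc₀, hlo⟩ := muE_lower hX m M
  have hpi : 0 < 4 * Real.pi := mul_pos four_pos Real.pi_pos
  have he := Real.exp_pos M
  refine ⟨min (M₀ * Real.exp M * (4 * Real.pi))⁻¹ (M₀ ^ 2 * Real.exp M * (4 * Real.pi))⁻¹,
    lt_min (by positivity) (by positivity), fun φ hφ m' q hq h => ?_⟩
  have hqM := X1_area hX m hφ m' hq h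
  have hpos : ∀ k, 0 < muE hX m φ k := fun k =>
    lt_of_lt_of_le (div_pos hc₀ (by positivity)) (hlo φ hφ k)
  have hx : ∀ k, x m' (k + 1) = (muE hX m φ k)⁻¹ / q / (4 * Real.pi) := by
    intro k
    rw [GMU_x hX m m' φ hq h (k + 1)]
    unfold muE mu
    rw [ENNReal.toReal_inv, inv_inv]
  have hx0 : x m' 0 = 0 := by
    rw [GMU_x hX m m' φ hq h 0, GMU_lam0 (pair_surface hX m (expT φ) fun z => Real.exp_pos _)]
    simp
  refine ⟨fun j => ?_, fun n j => ?_⟩
  · rw [hx0, sub_zero, hx j]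
    refine (min_le_left _ _).trans ?_
    have h1 : (muE hX m φ j)⁻¹ / q / (4 * Real.pi) = (muE hX m φ j * q * (4 * Real.pi))⁻¹ := by
      rw [mul_inv, mul_inv, div_eq_mul_inv, div_eq_mul_inv]
    rw [h1]
    have h2 := hpos j
    apply inv_anti₀ (by positivity)
    refine mul_le_mul_of_nonneg_right ?_ hpi.le
    exact mul_le_mul (hup φ hφ j) hqM hq.le hM₀.le
  · have h1 := hpos n
    have h2 := hpos (n + j)
    have e : x m' (n + j + 1) - x m' (n + 1) =
        (muE hX m φ n - muE hX m φ (n + j)) / (muE hX m φ n * muE hX m φ (n + j) * q *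
          (4 * Real.pi)) := by
      rw [hx (n + j), hx n]
      field_simp
    have hn : 0 ≤ muE hX m φ n - muE hX m φ (n + j) :=
      sub_nonneg.2 (mu_anti (expT_lam1 hX m φ) (Nat.le_add_right n j))
    rw [e, div_eq_inv_mul]
    refine mul_le_mul_of_nonneg_right ((min_le_right _ _).trans ?_) hn
    apply inv_anti₀ (by positivity)
    have h5 : muE hX m φ n * muE hX m φ (n + j) ≤ M₀ ^ 2 := by
      rw [sq]
      exact mul_le_mul (hup φ hφ n) (hup φ hφ (n + j)) h2.le hM₀.le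
    refine mul_le_mul_of_nonneg_right ?_ hpi.le
    exact mul_le_mul h5 hqM hq.le (by positivity)

end LibQR35
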