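import Pool.Agent.LibQR35.U
import Pool.Agent.LibQR35.S1
import Pool.Agent.LibQR35.PM
import Pool.Agent.LibQR35.X1
import Pool.Agent.LibQR35.I2
import Pool.Agent.LibQR35.I3

/-! The probability of small gaps. -/

open MeasureTheory Set Filter Topology
open scoped ContDiff ENNReal NNReal unitInterval

namespace LibQR35

open BGS
open Pool.BGR (PM upI pj)

variable {Γ : Type} [Group Γ] [MulAction Γ Pl] {D : Set Pl}

theorem G_Fr_mono {E : Type} [AddCommGroup E] [Module ℝ E] {a b : LinearMap.BilinForm ℝ E} {e : E}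
    {δ δ' : ℝ} (h : δ ≤ δ') {N : ℕ} {w : Fin N → E} (hw : Fr a b e δ w) : Fr a b e δ' w :=
  ⟨hw.orth, hw.one, hw.diag, fun i => by linarith [hw.lo i], hw.up⟩

theorem gap_prob (hX : Surface Γ D) (m : Mt Γ D) {L : ℕ} (hL : D ⊆ bigSq L) {c : ℕ → ℝ}
    (hc : Cs c) (ψ : TestS Γ) (Φ : (Dir → I) → TestS Γ)
    (hΦ : ∀ ξ z, (Φ ξ).1 z = ψ.1 z + phi Γ L c ξ z)
    (k : ℕ) {n d : ℕ} (hn : 0 < n) (hI : Indep hX m n)
    (B : (Fin d → ℝ) →ₗ[ℝ] (Fin n → Fin n → ℝ)) (hB : Par B) :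
    ∃ C : ℝ, 0 < C ∧ ∀ δ : ℝ, 0 < δ →
      PM Dir {ξ | muE hX m (Φ ξ) k - muE hX m (Φ ξ) (k + n - 1) < δ} ≤
        ENNReal.ofReal (C * δ ^ d) := by
  obtain ⟨𝒥, K, δ₀, hK, hδ₀, h𝒥, hunif⟩ := unif hX m hL hc ψ Φ hΦ k hn hI B hB
  obtain ⟨L₁, c₀, r, M, hL₁, hc₀, hr, hM, hS⟩ := slice_surface hX m L hc ψ k n d hn hK
  obtain ⟨C', hC', hbad⟩ := bad_meas (κ := Dir) d hL₁ hc₀ hr hM
  have hcard : (0 : ℝ) ≤ 𝒥.card := Nat.cast_nonneg _
  refine ⟨𝒥.card * (C' * ((k : ℝ) + 2) ^ d) + 1 / δ₀ ^ d, by positivity, fun δ hδ => ?_⟩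
  rcases le_or_gt δ δ₀ with hle | hgt
  · have hsub : {ξ | muE hX m (Φ ξ) k - muE hX m (Φ ξ) (k + n - 1) < δ} ⊆
        ⋃ J ∈ 𝒥, BadJ (fun ξ => SE hX m k (Φ ξ)) J L₁ c₀ r M ((k + 2) * δ) := by
      intro ξ hξ
      have hξ' : muE hX m (Φ ξ) k - muE hX m (Φ ξ) (k + n - 1) < δ := hξ
      have P : IsPair (aF hX m) (bF hX m (expT (Φ ξ))) (oneT Γ) :=
        pair_surface hX m (expT (Φ ξ)) fun z => Real.exp_pos _
      obtain ⟨w, h1, h2, h3, h4⟩ := frame P (expT_lam1 hX m (Φ ξ)) (expT_top hX m (Φ ξ)) (k + n)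
        hδ
      have hFr : Fr (aF hX m) (bF hX m (expT (Φ ξ))) (oneT Γ) δ w :=
        ⟨h1, h2, h3, fun i => (h4 i).1, fun i => (h4 i).2⟩
      obtain ⟨J, hJ, hsur⟩ := hunif ξ w (G_Fr_mono hle hFr) (hξ'.le.trans hle)
      exact mem_iUnion₂.2 ⟨J, hJ, hS Φ hΦ J (h𝒥 J hJ).1 (h𝒥 J hJ).2 δ hδ ξ w hFr hξ'.le hsur⟩
    have hk : (0 : ℝ) < (k : ℝ) + 2 := by positivity
    calc PM Dir {ξ | muE hX m (Φ ξ) k - muE hX m (Φ ξ) (k + n - 1) < δ}
        ≤ PM Dir (⋃ J ∈ 𝒥, BadJ (fun ξ => SE hX m k (Φ ξ)) J L₁ c₀ r M ((k + 2) * δ)) :=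
          measure_mono hsub
      _ ≤ ∑ J ∈ 𝒥, PM Dir (BadJ (fun ξ => SE hX m k (Φ ξ)) J L₁ c₀ r M ((k + 2) * δ)) :=
          measure_biUnion_finset_le _ _
      _ ≤ ∑ _J ∈ 𝒥, ENNReal.ofReal (C' * ((k + 2) * δ) ^ d) :=
          Finset.sum_le_sum fun J hJ => hbad _ (SE_cont hX m L hc k Φ ψ hΦ) J (h𝒥 J hJ).1 _
            (by positivity)
      _ = ENNReal.ofReal (𝒥.card * (C' * ((k + 2) * δ) ^ d)) := by
          rw [Finset.sum_const, nsmul_eq_mul, ENNReal.ofReal_mul hcard,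
            ENNReal.ofReal_natCast]
      _ ≤ ENNReal.ofReal ((𝒥.card * (C' * ((k : ℝ) + 2) ^ d) + 1 / δ₀ ^ d) * δ ^ d) := by
          apply ENNReal.ofReal_le_ofReal
          rw [mul_pow]
          have h1 : 0 ≤ 1 / δ₀ ^ d * δ ^ d := by positivity
          linarith
  · have h1 : PM Dir {ξ | muE hX m (Φ ξ) k - muE hX m (Φ ξ) (k + n - 1) < δ} ≤ 1 := prob_le_one
    refine h1.trans ?_
    rw [← ENNReal.ofReal_one]
    apply ENNReal.ofReal_le_ofReal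
    have h2 : (1 : ℝ) ≤ 1 / δ₀ ^ d * δ ^ d := by
      rw [div_mul_eq_mul_div, one_mul, le_div_iff₀ (by positivity), one_mul]
      exact pow_le_pow_left₀ hδ₀.le hgt.le d
    have h3 : 0 ≤ 𝒥.card * (C' * ((k : ℝ) + 2) ^ d) * δ ^ d := by positivity
    linarith

/-- Traceless symmetric matrices of size two. -/
def G_B2 : (Fin 2 → ℝ) →ₗ[ℝ] (Fin 2 → Fin 2 → ℝ) where
  toFun t := ![![t 0, t 1], ![t 1, -t 0]]
  map_add' t t' := by
    ext i j
    fin_cases i <;> fin_cases j <;> simp <;> ring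
  map_smul' r t := by
    ext i j
    fin_cases i <;> fin_cases j <;> simp

theorem G_par2 : Par G_B2 where
  inj := by
    intro t t' h
    have h0 := congrFun (congrFun h 0) 0
    have h1 := congrFun (congrFun h 0) 1
    simp [G_B2] at h0 h1
    ext i
    fin_cases i
    · exact h0
    · exact h1
  sym := by
    intro t i j
    fin_cases i <;> fin_cases j <;> simp [G_B2]
  tr := by
    intro t
    simp [G_B2, Fin.sum_univ_two]

/-- Traceless symmetric matrices of size three. -/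
def G_B3 : (Fin 5 → ℝ) →ₗ[ℝ] (Fin 3 → Fin 3 → ℝ) where
  toFun t := ![![t 0, t 2, t 3], ![t 2, t 1, t 4], ![t 3, t 4, -t 0 - t 1]]
  map_add' t t' := by
    ext i j
    fin_cases i <;> fin_cases j <;> simp <;> ring
  map_smul' r t := by
    ext i j
    fin_cases i <;> fin_cases j <;> simp <;> ring

theorem G_par3 : Par G_B3 where
  inj := by
    intro t t' h
    have h0 := congrFun (congrFun h 0) 0
    have h1 := congrFun (congrFun h 1) 1
    have h2 := congrFun (congrFun h 0) 1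
    have h3 := congrFun (congrFun h 0) 2
    have h4 := congrFun (congrFun h 1) 2
    simp [G_B3] at h0 h1 h2 h3 h4
    ext i
    fin_cases i
    · exact h0
    · exact h1
    · exact h2
    · exact h3
    · exact h4
  sym := by
    intro t i j
    fin_cases i <;> fin_cases j <;> simp [G_B3]
  tr := by
    intro t
    simp [G_B3, Fin.sum_univ_three]

theorem G_indep2 (hX : Surface Γ D) (m : Mt Γ D) : Indep hX m 2 := by
  intro w hw la μ hμ U hU hor M hM hM0 h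
  exact indep2 hX m w hw hμ U (fun i => hU i) hor M hM hM0 h

theorem G_indep3 (hX : Surface Γ D) (m : Mt Γ D) : Indep hX m 3 := by
  intro w hw la μ hμ U hU hor M hM hM0 h
  exact indep3 hX m w hw hμ U (fun i => hU i) hor M hM hM0 h

/-- **Repulsion of the levels**, abstract index `n`. -/
theorem G_levels (hX : Surface Γ D) (m : Mt Γ D) {L : ℕ} {c : ℕ → ℝ}
    (hc : Cs c) (ψ : TestS Γ) (Φ : (Dir → I) → TestS Γ)
    (hΦ : ∀ ξ z, (Φ ξ).1 z = ψ.1 z + phi Γ L c ξ z) {n d : ℕ} (hn : 0 < n)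
    (hg : ∀ k, ∃ C : ℝ, 0 < C ∧ ∀ δ : ℝ, 0 < δ →
      PM Dir {ξ | muE hX m (Φ ξ) k - muE hX m (Φ ξ) (k + n) < δ} ≤
        ENNReal.ofReal (C * δ ^ d)) (k : ℕ) :
    ∃ C : ℝ, 0 < C ∧ ∀ δ : ℝ, 0 < δ →
      PM Dir {ξ | ∃ m' : Mt Γ D, (∃ q : ℝ, 0 < q ∧
        ∀ z, m'.1.1 z = (q * Real.exp ((Φ ξ).1 z)) • m.1.1 z) ∧
        x m' (k + n) - x m' k < δ} ≤ ENNReal.ofReal (C * δ ^ d) := by
  obtain ⟨M1, hM1, hψ⟩ := test_bdd hX ψ
  obtain ⟨M2, hM2, hφb⟩ := phi_bound hX L hc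
  have hΦb : ∀ ξ z, |(Φ ξ).1 z| ≤ M1 + M2 := by
    intro ξ z
    rw [hΦ]
    exact (abs_add_le _ _).trans (add_le_add (hψ z) (hφb ξ z))
  obtain ⟨C₃, hC₃, hlev⟩ := levels hX m (M1 + M2)
  rcases k with _ | k
  · -- the first gap is bounded below
    refine ⟨1 / C₃ ^ d, by positivity, fun δ hδ => ?_⟩
    rcases le_or_gt δ C₃ with hle | hgt
    · have hempty : {ξ | ∃ m' : Mt Γ D, (∃ q : ℝ, 0 < q ∧
          ∀ z, m'.1.1 z = (q * Real.exp ((Φ ξ).1 z)) • m.1.1 z) ∧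
          x m' (0 + n) - x m' 0 < δ} = ∅ := by
        rw [eq_empty_iff_forall_notMem]
        rintro ξ ⟨m', ⟨q, hq, hm'⟩, hlt⟩
        obtain ⟨j, rfl⟩ : ∃ j, n = j + 1 := ⟨n - 1, by omega⟩
        have h1 := (hlev (Φ ξ) (hΦb ξ) m' q hq hm').1 j
        rw [zero_add] at hlt
        linarith
      rw [hempty, measure_empty]
      exact zero_le
    · refine prob_le_one.trans ?_
      rw [← ENNReal.ofReal_one]
      apply ENNReal.ofReal_le_ofReal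
      rw [div_mul_eq_mul_div, one_mul, le_div_iff₀ (by positivity), one_mul]
      exact pow_le_pow_left₀ hC₃.le hgt.le d
  · obtain ⟨C, hC, h⟩ := hg k
    refine ⟨C / C₃ ^ d, by positivity, fun δ hδ => ?_⟩
    have h1 := h (δ / C₃) (by positivity)
    refine (measure_mono ?_).trans (h1.trans (le_of_eq ?_))
    · rintro ξ ⟨m', ⟨q, hq, hm'⟩, hlt⟩
      have h2 := (hlev (Φ ξ) (hΦb ξ) m' q hq hm').2 k n
      have h3 : x m' (k + n + 1) = x m' (k + 1 + n) := by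
        congr 1
        omega
      rw [h3] at h2
      have h4 : C₃ * (muE hX m (Φ ξ) k - muE hX m (Φ ξ) (k + n)) < δ := lt_of_le_of_lt h2 hlt
      change muE hX m (Φ ξ) k - muE hX m (Φ ξ) (k + n) < δ / C₃
      rw [lt_div_iff₀ hC₃]
      linarith
    · congr 1
      rw [div_pow]
      field_simp

end LibQR35
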