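import Pool.Agent.LibQR35.GD
import Pool.Agent.LibQR35.PJ

/-! ROW GC : the bad set is closed.

PLAN. Variant of the proved row PC (LibQR35/PC.lean): now the compact set is the set of the pairs `(a, A)`
with `‖a‖ <= L`, `|A i j| <= L`, `Θ <= |det A|` (closed and bounded in the finite dimensional space
`(Fin d → ℝ) × (Fin d → Fin d → ℝ)`; `Continuous.matrix_det`). -/

open MeasureTheory Set Filter Topology
open scoped ContDiff ENNReal NNReal unitInterval

namespace LibQR35

open BGS
open Pool.BGR (PM upI pj)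

private theorem GC_dsp {κ : Type} {d : ℕ} (J : Fin d → κ) (y : Fin d → I) :
    Continuous fun ξ : κ → I => dsp J ξ y :=
  continuous_pi fun l =>
    continuous_const.sub (continuous_subtype_val.comp (continuous_apply (J l)))

/-- The compact set of the pairs `(a, A)`. -/
private def GC_K (d : ℕ) (L Θ : ℝ) : Set ((Fin d → ℝ) × Matrix (Fin d) (Fin d) ℝ) :=
  {p | ‖p.1‖ ≤ L ∧ (∀ i j, |p.2 i j| ≤ L) ∧ Θ ≤ |p.2.det|}

private theorem GC_compact (d : ℕ) (L Θ : ℝ) : IsCompact (GC_K d L Θ) := by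
  have h1 : IsCompact (Metric.closedBall (0 : Fin d → ℝ) L) := isCompact_closedBall 0 L
  have h2 : IsCompact (Set.pi univ (fun _ : Fin d => Set.pi univ fun _ : Fin d => Icc (-L) L) :
      Set (Matrix (Fin d) (Fin d) ℝ)) :=
    isCompact_univ_pi fun _ => isCompact_univ_pi fun _ => isCompact_Icc
  have h3 : IsClosed {p : (Fin d → ℝ) × Matrix (Fin d) (Fin d) ℝ | Θ ≤ |p.2.det|} :=
    isClosed_le continuous_const (continuous_abs.comp (continuous_snd.matrix_det))
  have h4 : GC_K d L Θ = (Metric.closedBall (0 : Fin d → ℝ) L ×ˢ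
      (Set.pi univ (fun _ : Fin d => Set.pi univ fun _ : Fin d => Icc (-L) L) :
        Set (Matrix (Fin d) (Fin d) ℝ))) ∩
      {p : (Fin d → ℝ) × Matrix (Fin d) (Fin d) ℝ | Θ ≤ |p.2.det|} := by
    ext p
    constructor
    · rintro ⟨h5, h6, h7⟩
      exact ⟨⟨mem_closedBall_zero_iff.2 h5, fun i _ j _ => abs_le.1 (h6 i j)⟩, h7⟩
    · rintro ⟨⟨h5, h6⟩, h7⟩
      exact ⟨mem_closedBall_zero_iff.1 h5,
        fun i j => abs_le.2 (h6 i (Set.mem_univ i) j (Set.mem_univ j)), h7⟩
  rw [h4]
  exact (h1.prod h2).inter_right h3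

theorem BadG_closed {κ : Type} [DecidableEq κ] {d : ℕ} {S : (κ → I) → ℝ} (hS : Continuous S)
    (J : Fin d → κ) (L r M ε Θ : ℝ) : IsClosed (BadG S J L r M ε Θ) := by
  have : CompactSpace (GC_K d L Θ) := isCompact_iff_compactSpace.1 (GC_compact d L Θ)
  set T : Set ((κ → I) × GC_K d L Θ) :=
    ⋂ (τ : Fin d → ℝ), ⋂ (_ : ‖τ‖ ≤ 1), ⋂ (y : Fin d → I),
      {p | r ≤ ‖dsp J p.1 y‖} ∪
      {p | S p.1 + ∑ l, (p.2.1.1 l + ∑ j, p.2.1.2 l j * τ j) * dsp J p.1 y l - ε -
        M * ∑ l, dsp J p.1 y l ^ 2 ≤ S (upJ J p.1 y)} with hT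
  have hTc : IsClosed T := by
    refine isClosed_iInter fun τ => isClosed_iInter fun _ => isClosed_iInter fun y => ?_
    have hd : Continuous fun p : (κ → I) × GC_K d L Θ => dsp J p.1 y :=
      (GC_dsp J y).comp continuous_fst
    have hdl : ∀ l, Continuous fun p : (κ → I) × GC_K d L Θ => dsp J p.1 y l := fun l =>
      (continuous_apply l).comp hd
    have hp : Continuous fun p : (κ → I) × GC_K d L Θ =>
        (p.2 : (Fin d → ℝ) × Matrix (Fin d) (Fin d) ℝ) :=
      continuous_subtype_val.comp continuous_snd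
    have ha : ∀ l, Continuous fun p : (κ → I) × GC_K d L Θ => p.2.1.1 l := fun l =>
      (continuous_apply l).comp (continuous_fst.comp hp)
    have hA : ∀ l j, Continuous fun p : (κ → I) × GC_K d L Θ => p.2.1.2 l j := fun l j =>
      (continuous_snd.comp hp).matrix_elem l j
    have hu : Continuous fun p : (κ → I) × GC_K d L Θ => upJ J p.1 y :=
      (continuous_upJ J).comp (continuous_fst.prodMk continuous_const)
    refine (isClosed_le continuous_const hd.norm).union (isClosed_le ?_ (hS.comp hu))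
    refine (((hS.comp continuous_fst).add ?_).sub continuous_const).sub
      (continuous_const.mul (continuous_finsetSum _ fun l _ => (hdl l).pow 2))
    exact continuous_finsetSum _ fun l _ =>
      ((ha l).add (continuous_finsetSum _ fun j _ => (hA l j).mul continuous_const)).mul (hdl l)
  have hB : BadG S J L r M ε Θ = Prod.fst '' T := by
    ext ξ
    constructor
    · rintro ⟨a, A, ha, hA, hdet, h⟩
      refine ⟨(ξ, ⟨(a, A), ⟨ha, hA, hdet⟩⟩), ?_, rfl⟩
      rw [hT]
      simp only [Set.mem_iInter]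
      intro τ hτ y
      by_cases hr : r ≤ ‖dsp J ξ y‖
      · exact Or.inl hr
      · exact Or.inr (h τ hτ y (not_le.1 hr))
    · rintro ⟨⟨ξ', ⟨⟨a, A⟩, ha, hA, hdet⟩⟩, hp, rfl⟩
      rw [hT] at hp
      simp only [Set.mem_iInter] at hp
      refine ⟨a, A, ha, hA, hdet, fun τ hτ y hy => ?_⟩
      rcases hp τ hτ y with h | h
      · exact absurd hy (not_lt.2 h)
      · exact h
  rw [hB]
  exact isClosedMap_fst_of_compactSpace T hTc

end LibQR35
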