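import Pool.Agent.LibQR35.BN
import Pool.Agent.LibQR35.C9

/-! Pairs of levels: definitions. -/

open MeasureTheory Set Filter Topology
open scoped ContDiff ENNReal NNReal unitInterval

namespace LibQR35

open BGS
open Pool.BGR (PM upI pj)

/-- The parameters at which `S`, as a function of the coordinates `J`, has up to the error `ε` a
parallelepiped of slopes from below, of volume at least `2 ^ d * Θ`. -/
def BadG {κ : Type} [DecidableEq κ] {d : ℕ} (S : (κ → I) → ℝ) (J : Fin d → κ)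
    (L r M ε Θ : ℝ) : Set (κ → I) :=
  {ξ | ∃ (a : Fin d → ℝ) (A : Matrix (Fin d) (Fin d) ℝ), ‖a‖ ≤ L ∧ (∀ i j, |A i j| ≤ L) ∧
    Θ ≤ |A.det| ∧ ∀ τ : Fin d → ℝ, ‖τ‖ ≤ 1 → ∀ y : Fin d → I, ‖dsp J ξ y‖ < r →
      S ξ + ∑ l, (a l + ∑ j, A l j * τ j) * dsp J ξ y l - ε - M * ∑ l, dsp J ξ y l ^ 2 ≤
        S (upJ J ξ y)}

variable {Γ : Type} [Group Γ] [MulAction Γ Pl] {D : Set Pl}

/-- The moments of the constant function one. -/
noncomputable def Xo (Γ : Type) [Group Γ] [MulAction Γ Pl] (D : Set Pl) (m : Pl → Co) (c : ℕ → ℝ)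
    (φ : Pl → ℝ) (j : Dir) : ℝ :=
  c j.1 * ∫ z in D, Real.exp (φ z) * per Γ (bmp (j.1 + 1) j.2) z * √(dt (m z))

/-- The moments of the products of the functions `u i`, centred with the numbers `ν i`. -/
noncomputable def Xv (Γ : Type) [Group Γ] [MulAction Γ Pl] (D : Set Pl) (m : Pl → Co) (c : ℕ → ℝ)
    (φ : Pl → ℝ) {n : ℕ} (ν : Fin n → ℝ) (u : Fin n → Pl → ℝ) (j : Dir) (i i' : Fin n) : ℝ :=
  Xm Γ D m c φ u j i i' - (if i = i' then ν i else 0) * Xo Γ D m c φ j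

/-- The value at the test operator `W` on the cluster, for the level `ν`. -/
noncomputable def vE (hX : Surface Γ D) (m : Mt Γ D) (ν : ℝ) (φ : TestS Γ) {k n : ℕ}
    (w : Fin (k + n) → TestS Γ) (W : Fin n → Fin n → ℝ) : ℝ :=
  ∑ i : Fin k, (bF hX m (expT φ) (w (Fin.castAdd n i)) (w (Fin.castAdd n i)) / arE hX m φ - ν) +
    ∑ i, ∑ j, W i j * (bF hX m (expT φ) (w (Fin.natAdd k i)) (w (Fin.natAdd k j)) / arE hX m φ -
      if i = j then ν else 0)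

/-- Symmetric matrices between `0` and the identity. -/
def Opr {n : ℕ} (W : Fin n → Fin n → ℝ) : Prop :=
  (∀ i j, W i j = W j i) ∧ (∀ x : Fin n → ℝ, 0 ≤ ∑ i, ∑ j, W i j * (x i * x j)) ∧
    ∀ x : Fin n → ℝ, ∑ i, ∑ j, W i j * (x i * x j) ≤ ∑ i, x i ^ 2

theorem Xo_tendsto (hX : Surface Γ D) (m : Mt Γ D) (c : ℕ → ℝ) (φj : ℕ → TestS Γ) (φ : TestS Γ)
    (hφ : ∀ ε : ℝ, 0 < ε → ∀ᶠ j in atTop, ∀ z, |(φj j).1 z - φ.1 z| ≤ ε) (j : Dir) :
    Tendsto (fun N => Xo Γ D m.1.1 c (φj N).1 j) atTop (𝓝 (Xo Γ D m.1.1 c φ.1 j)) := by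
  have h2 := Xm_tendsto hX m c φj φ hφ (fun _ _ => oneT Γ) (fun _ : Fin 1 => oneT Γ)
    (fun i => by
      simp only [sub_self, map_zero]
      exact tendsto_const_nhds) j 0 0
  have h3 : ∀ ψ : TestS Γ, Xm Γ D m.1.1 c ψ.1 (fun _ : Fin 1 => (oneT Γ).1) j 0 0 =
      Xo Γ D m.1.1 c ψ.1 j := by
    intro ψ
    unfold Xm Xo
    congr 1
    refine integral_congr_ae (Filter.Eventually.of_forall fun z => ?_)
    change Real.exp (ψ.1 z) * per Γ (bmp (j.1 + 1) j.2) z * (1 : ℝ) * (1 : ℝ) *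
        √(dt (m.1.1 z)) = Real.exp (ψ.1 z) * per Γ (bmp (j.1 + 1) j.2) z * √(dt (m.1.1 z))
    ring
  simp only [h3] at h2
  exact h2

theorem Xv_tendsto (hX : Surface Γ D) (m : Mt Γ D) (c : ℕ → ℝ) (φj : ℕ → TestS Γ) (φ : TestS Γ)
    (hφ : ∀ ε : ℝ, 0 < ε → ∀ᶠ j in atTop, ∀ z, |(φj j).1 z - φ.1 z| ≤ ε) {n : ℕ}
    (u : ℕ → Fin n → TestS Γ) (U : Fin n → TestS Γ)
    (hu : ∀ i, Tendsto (fun j => bF hX m (oneT Γ) (u j i - U i) (u j i - U i)) atTop (𝓝 0))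
    (νj : ℕ → Fin n → ℝ) {ν : Fin n → ℝ} (hν : ∀ i, Tendsto (fun N => νj N i) atTop (𝓝 (ν i)))
    (j : Dir) (i i' : Fin n) :
    Tendsto (fun N => Xv Γ D m.1.1 c (φj N).1 (νj N) (fun i => (u N i).1) j i i') atTop
      (𝓝 (Xv Γ D m.1.1 c φ.1 ν (fun i => (U i).1) j i i')) := by
  unfold Xv
  refine (Xm_tendsto hX m c φj φ hφ u U hu j i i').sub (Tendsto.mul ?_
    (Xo_tendsto hX m c φj φ hφ j))
  split_ifs
  · exact hν i
  · exact tendsto_const_nhds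

end LibQR35
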