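import Pool.Agent.LibQR35.GC
import Pool.Agent.LibQR35.CG
import Pool.Agent.LibQR35.PM

/-! ROW GM : the measure of the bad set.

PLAN. Variant of the proved row PM (LibQR35/PM.lean), with `count_gen` in place of `count_bad`: cubes `Q_k` of
side `1 / N <= r / 2` inside `[0,1]^d` (there `‖y‖ <= 1`). `C = N^d * (2 (L + 2 M + d L))^d * 8^d`. -/

open MeasureTheory Set Filter Topology
open scoped ContDiff ENNReal NNReal unitInterval

namespace LibQR35

open BGS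
open Pool.BGR (PM upI pj)

/-- The inclusion of the unit cube. -/
private def GM_io (d : ℕ) (y : Fin d → I) : Fin d → ℝ := fun l => (y l : ℝ)

private theorem GM_vol (d : ℕ) (A : Set (Fin d → I)) :
    (volume : Measure (Fin d → I)) A ≤ (volume : Measure (Fin d → ℝ)) (GM_io d '' A) := by
  have hmeas : Measurable (GM_io d) :=
    measurable_pi_lambda _ fun l => measurable_subtype_coe.comp (measurable_pi_apply l)
  have hmap : (volume : Measure I).map Subtype.val = (volume : Measure ℝ).restrict (Icc 0 1) :=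
    map_comap_subtype_coe measurableSet_Icc volume
  have h1 : (volume : Measure (Fin d → I)).map (GM_io d) =
      Measure.pi (fun _ : Fin d => (volume : Measure ℝ).restrict (Icc 0 1)) := by
    have h2 := Measure.pi_map_pi (μ := fun _ : Fin d => (volume : Measure I))
      (f := fun _ : Fin d => (Subtype.val : I → ℝ))
      (hμ := fun _ => by rw [hmap]; infer_instance) (fun _ => measurable_subtype_coe.aemeasurable)
    rw [hmap] at h2
    rw [← h2]
    rfl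
  calc (volume : Measure (Fin d → I)) A ≤ volume (GM_io d ⁻¹' (GM_io d '' A)) :=
        measure_mono (subset_preimage_image _ _)
    _ ≤ (volume : Measure (Fin d → I)).map (GM_io d) (GM_io d '' A) :=
        Measure.le_map_apply hmeas.aemeasurable _
    _ ≤ (volume : Measure (Fin d → ℝ)) (GM_io d '' A) := by
        rw [h1, ← Measure.restrict_pi_pi]
        exact Measure.restrict_apply_le _ _

/-- The small cubes. -/
private def GM_Q (d N : ℕ) (k : Fin d → Fin N) : Set (Fin d → ℝ) :=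
  {x | (∀ l, ((k l : ℕ) : ℝ) / N ≤ x l ∧ x l ≤ (((k l : ℕ) : ℝ) + 1) / N) ∧ x ∈ range (GM_io d)}

private theorem GM_cover (d N : ℕ) (hN : 1 ≤ N) (x : Fin d → ℝ) (hx : x ∈ range (GM_io d)) :
    ∃ k : Fin d → Fin N, x ∈ GM_Q d N k := by
  have hN0 : (0 : ℝ) < N := by exact_mod_cast hN
  have hl : ∀ l : Fin d, ∃ k : Fin N, ((k : ℕ) : ℝ) / N ≤ x l ∧ x l ≤ (((k : ℕ) : ℝ) + 1) / N := by
    intro l
    obtain ⟨y, rfl⟩ := hx
    have h0 : (0 : ℝ) ≤ GM_io d y l := (y l).2.1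
    have h1 : GM_io d y l ≤ 1 := (y l).2.2
    have h2 : (0 : ℝ) ≤ N * GM_io d y l := mul_nonneg hN0.le h0
    by_cases h : ⌊(N : ℝ) * GM_io d y l⌋₊ < N
    · refine ⟨⟨_, h⟩, ?_, ?_⟩
      · rw [div_le_iff₀ hN0]
        exact (Nat.floor_le h2).trans_eq (mul_comm _ _)
      · rw [le_div_iff₀ hN0]
        exact (mul_comm _ _).trans_le (Nat.lt_floor_add_one _).le
    · have h3 : (N : ℝ) ≤ N * GM_io d y l := by
        have := (Nat.le_floor_iff h2).1 (not_lt.1 h)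
        exact this
      have h4 : 1 ≤ GM_io d y l := by
        by_contra h5
        have := mul_lt_mul_of_pos_left (not_le.1 h5) hN0
        linarith
      refine ⟨⟨N - 1, by omega⟩, ?_, ?_⟩
      · rw [div_le_iff₀ hN0]
        have h5 : ((N - 1 : ℕ) : ℝ) ≤ N := by exact_mod_cast Nat.sub_le _ _
        nlinarith
      · have h5 : ((N - 1 : ℕ) : ℝ) + 1 = N := by
          have : N - 1 + 1 = N := by omega
          exact_mod_cast this
        show GM_io d y l ≤ (((N - 1 : ℕ) : ℝ) + 1) / N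
        rw [h5, div_self hN0.ne']
        exact h1
  choose k hk using hl
  exact ⟨k, hk, hx⟩

private theorem GM_diam (d N : ℕ) (hN : 1 ≤ N) (k : Fin d → Fin N) :
    ∀ x ∈ GM_Q d N k, ∀ y ∈ GM_Q d N k, ‖x - y‖ ≤ 1 / N := by
  intro x hx y hy
  have hN0 : (0 : ℝ) < N := by exact_mod_cast hN
  rw [pi_norm_le_iff_of_nonneg (by positivity)]
  intro l
  have h1 := hx.1 l
  have h2 := hy.1 l
  have h3 : (((k l : ℕ) : ℝ) + 1) / N = ((k l : ℕ) : ℝ) / N + 1 / N := by ring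
  rw [h3] at h1 h2
  rw [Pi.sub_apply, Real.norm_eq_abs, abs_le]
  constructor <;> linarith [h1.1, h1.2, h2.1, h2.2]

private theorem GM_norm (d N : ℕ) (k : Fin d → Fin N) : ∀ y ∈ GM_Q d N k, ‖y‖ ≤ 1 := by
  rintro y ⟨-, z, rfl⟩
  rw [pi_norm_le_iff_of_nonneg zero_le_one]
  intro l
  show ‖(z l : ℝ)‖ ≤ 1
  rw [Real.norm_eq_abs, abs_le]
  have h0 := (z l).2.1
  have h1 := (z l).2.2
  constructor <;> linarith

private theorem GM_slice {κ : Type} [DecidableEq κ] (d N : ℕ) (hN : 1 ≤ N) {L r M : ℝ}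
    (hL : 0 < L) (hM : 0 < M) (hNr : 1 / (N : ℝ) < r)
    (S : (κ → I) → ℝ) {J : Fin d → κ} (hJ : Function.Injective J) {ε Θ : ℝ} (hε : 0 < ε)
    (hΘ : 0 < Θ) (ξ : κ → I) (k : Fin d → Fin N) :
    (volume : Measure (Fin d → ℝ))
      (GM_io d '' {y | upJ J ξ y ∈ BadG S J L r M ε Θ} ∩ GM_Q d N k) ≤
      ENNReal.ofReal ((2 * (L + 2 * M + d * L)) ^ d / Θ * ((8 * ε) ^ d / Θ)) := by
  refine count_gen (fun x => S (upJ J ξ (fun l => pj (x l)))) hε hL hM hΘ (GM_Q d N k) _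
    inter_subset_right (GM_norm d N k) ?_
  rintro s ⟨⟨y0, hy0, rfl⟩, hs⟩
  obtain ⟨a, A, haL, hAL, hdet, ha⟩ := hy0
  refine ⟨a, A, haL, hAL, hdet, fun τ hτ y hy => ?_⟩
  obtain ⟨y1, rfl⟩ := hy.2
  have hd : dsp J (upJ J ξ y0) y1 = GM_io d y1 - GM_io d y0 := by
    funext l
    show (y1 l : ℝ) - (upJ J ξ y0 (J l) : ℝ) = (y1 l : ℝ) - (y0 l : ℝ)
    rw [upJ_apply hJ]
  have hn : ‖dsp J (upJ J ξ y0) y1‖ < r := by
    rw [hd]
    exact lt_of_le_of_lt (GM_diam d N hN k _ hy _ hs) hNr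
  have h := ha τ hτ y1 hn
  rw [hd, upJ_upJ] at h
  have hpj : ∀ z : Fin d → I, (fun l => pj (GM_io d z l)) = z := by
    intro z
    funext l
    exact Pool.BGR.pj_coe (z l)
  show S (upJ J ξ (fun l => pj (GM_io d y0 l))) +
    ∑ i, (a i + ∑ j, A i j * τ j) * (GM_io d y1 i - GM_io d y0 i) - ε -
    M * ∑ i, (GM_io d y1 i - GM_io d y0 i) ^ 2 ≤ S (upJ J ξ (fun l => pj (GM_io d y1 l)))
  rw [hpj, hpj]
  exact h

theorem badG_meas {κ : Type} [DecidableEq κ] [Countable κ] (d : ℕ) {L r M : ℝ} (hL : 0 < L)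
    (hr : 0 < r) (hM : 0 < M) :
    ∃ C : ℝ, 0 < C ∧ ∀ S : (κ → I) → ℝ, Continuous S → ∀ J : Fin d → κ, Function.Injective J →
      ∀ ε Θ : ℝ, 0 < ε → 0 < Θ →
        PM κ (BadG S J L r M ε Θ) ≤ ENNReal.ofReal (C * ε ^ d / Θ ^ 2) := by
  have hρ : 0 < r / 2 := by positivity
  obtain ⟨n, hn⟩ := exists_nat_one_div_lt hρ
  obtain ⟨N, hNn⟩ : ∃ N : ℕ, N = n + 1 := ⟨_, rfl⟩
  have hN : 1 ≤ N := by omega
  have hN0 : (0 : ℝ) < N := by exact_mod_cast hN
  have hn' : 1 / (N : ℝ) < r / 2 := by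
    rw [hNn]
    push_cast
    exact hn
  have hNr : 1 / (N : ℝ) < r := by linarith
  refine ⟨(N : ℝ) ^ d * ((2 * (L + 2 * M + d * L)) ^ d * 8 ^ d), by positivity, ?_⟩
  intro S hS J hJ ε Θ hε hΘ
  refine slice_leJ hJ (BadG_closed hS J L r M ε Θ).measurableSet _ fun ξ => ?_
  refine (GM_vol d _).trans ?_
  have hcov : GM_io d '' {y | upJ J ξ y ∈ BadG S J L r M ε Θ} ⊆
      ⋃ k : Fin d → Fin N, (GM_io d '' {y | upJ J ξ y ∈ BadG S J L r M ε Θ} ∩ GM_Q d N k) := by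
    intro x hx
    obtain ⟨k, hk⟩ := GM_cover d N hN x (image_subset_range _ _ hx)
    exact mem_iUnion.2 ⟨k, hx, hk⟩
  refine (measure_mono hcov).trans ((measure_iUnion_fintype_le _ _).trans ?_)
  refine (Finset.sum_le_sum fun k _ => GM_slice d N hN hL hM hNr S hJ hε hΘ ξ k).trans ?_
  rw [Finset.sum_const, Finset.card_univ, Fintype.card_fun, Fintype.card_fin, Fintype.card_fin,
    nsmul_eq_mul]
  have h1 : (N : ℝ) ^ d * ((2 * (L + 2 * M + d * L)) ^ d * 8 ^ d) * ε ^ d / Θ ^ 2 =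
      (N : ℝ) ^ d * ((2 * (L + 2 * M + d * L)) ^ d / Θ * ((8 * ε) ^ d / Θ)) := by
    rw [mul_pow 8 ε]
    field_simp
  rw [h1, ENNReal.ofReal_mul (p := (N : ℝ) ^ d) (by positivity)]
  refine le_of_eq ?_
  congr 1
  rw [ENNReal.ofReal_pow hN0.le, ENNReal.ofReal_natCast]
  push_cast
  rfl

end LibQR35
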