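import Pool.Agent.LibQR35.Defs
import Pool.Agent.LibQR40.Api

/-! ROW I0 : rotation of eigenfunctions to a diagonal relation.

PLAN. `KYF_diag M` (LibBGR/Kyf.lean) gives eigenvalues `t l` and orthonormal vectors `v l` with
`∑ l', M l l' * v i l' = t i * v i l`, `∑ M i i = ∑ t i`. Put `W l = ∑ i, v l i • U i`
(`KYF_U U (v l)`). `IsEig` is linear (unfold; `map_sum`). `bF (W l) (W l') = ∑ v v' b = μ * ∑ v l i * v l' i`
(`KYF_form`). `M i j = ∑ l, t l * v l i * v l j` (the square matrix `V = (v l i)` satisfies
`V * Vᵀ = 1`, hence `Vᵀ * V = 1`, `Matrix.mul_eq_one_comm`; see A3), so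
`∑ t l * (W l z)^2 = ∑ i j, M i j * U i z * U j z`; if all `t l = 0` then `M = 0`. -/

open MeasureTheory Set Filter Topology
open scoped ContDiff ENNReal NNReal unitInterval

namespace LibQR35

open BGS
open Pool.BGR (PM upI pj)

open QR

variable {Γ : Type} [Group Γ] [MulAction Γ Pl] {D : Set Pl}

theorem I0_lin (hX : Surface Γ D) (m : Mt Γ D) (w : TestS Γ) {la : ℝ} {n : ℕ}
    (U : Fin n → TestS Γ) (hU : ∀ i, IsEig hX m w la (U i)) (x : Fin n → ℝ) :
    IsEig hX m w la (KYF_U U x) := by
  intro h
  unfold KYF_U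
  simp only [map_sum, LinearMap.sum_apply, map_smul, LinearMap.smul_apply, smul_eq_mul]
  rw [Finset.mul_sum]
  refine Finset.sum_congr rfl fun l _ => ?_
  rw [hU l h]
  ring

theorem I0_col {n : ℕ} (v : Fin n → Fin n → ℝ)
    (hv : ∀ i j, ∑ l, v i l * v j l = if i = j then 1 else 0) (i j : Fin n) :
    ∑ l, v l i * v l j = if i = j then 1 else 0 := by
  have h1 : (Matrix.of v) * (Matrix.of v).transpose = 1 := by
    ext i j
    rw [Matrix.mul_apply, Matrix.one_apply]
    simpa using hv i j
  have h2 : (Matrix.of v).transpose * (Matrix.of v) = 1 := mul_eq_one_comm.1 h1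
  have h3 := congrFun (congrFun h2 i) j
  rw [Matrix.mul_apply, Matrix.one_apply] at h3
  simpa using h3

theorem rotate (hX : Surface Γ D) (m : Mt Γ D) (w : TestS Γ) {la μ : ℝ} {n : ℕ}
    (U : Fin n → TestS Γ) (hU : ∀ i, IsEig hX m w la (U i))
    (hor : ∀ i j, bF hX m w (U i) (U j) = if i = j then μ else 0) (M : Fin n → Fin n → ℝ)
    (hM : ∀ i j, M i j = M j i) :
    ∃ (t : Fin n → ℝ) (W : Fin n → TestS Γ), (∀ i, IsEig hX m w la (W i)) ∧
      (∀ i j, bF hX m w (W i) (W j) = if i = j then μ else 0) ∧
      ∑ i, t i = ∑ i, M i i ∧ ((∀ i, t i = 0) → M = 0) ∧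
      ∀ z, ∑ i, t i * (W i).1 z ^ 2 = ∑ i, ∑ j, M i j * ((U i).1 z * (U j).1 z) := by
  obtain ⟨t, v, -, hv, hGv, htr⟩ := KYF_diag M hM
  have hc := I0_col v hv
  have hMt : ∀ i j, M i j = ∑ l, t l * (v l i * v l j) := by
    intro i j
    have h1 : ∑ k, (∑ l', M i l' * v k l') * v k j = M i j := by
      calc ∑ k, (∑ l', M i l' * v k l') * v k j
          = ∑ k, ∑ l', M i l' * (v k l' * v k j) := by
            refine Finset.sum_congr rfl fun k _ => ?_
            rw [Finset.sum_mul]
            refine Finset.sum_congr rfl fun l' _ => ?_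
            ring
        _ = ∑ l', M i l' * ∑ k, v k l' * v k j := by
            rw [Finset.sum_comm]
            refine Finset.sum_congr rfl fun l' _ => ?_
            rw [Finset.mul_sum]
        _ = M i j := by
            simp only [hc, mul_ite, mul_one, mul_zero]
            rw [Finset.sum_ite_eq']
            simp
    rw [← h1]
    refine Finset.sum_congr rfl fun k _ => ?_
    have h2 : ∑ l', M i l' * v k l' = t k * v k i := hGv k i
    rw [h2]
    ring
  refine ⟨t, fun l => KYF_U U (v l), fun l => I0_lin hX m w U hU (v l), ?_, htr.symm, ?_, ?_⟩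
  · intro i j
    show bF hX m w (KYF_U U (v i)) (KYF_U U (v j)) = _
    rw [KYF_form]
    have h1 : ∀ l, ∑ l', v i l * v j l' * bF hX m w (U l) (U l') = μ * (v i l * v j l) := by
      intro l
      simp only [hor, mul_ite, mul_zero]
      rw [Finset.sum_ite_eq]
      simp only [Finset.mem_univ, if_true]
      ring
    rw [Finset.sum_congr rfl fun l _ => h1 l, ← Finset.mul_sum, hv i j]
    by_cases hij : i = j
    · simp [hij]
    · simp [hij]
  · intro h0
    funext i j
    rw [hMt i j]
    simp [h0]
  · intro z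
    have h1 : ∀ l, (KYF_U U (v l)).1 z = ∑ i, v l i * (U i).1 z := by
      intro l
      unfold KYF_U
      have : ∀ s : Finset (Fin n), ((∑ i ∈ s, v l i • U i : TestS Γ)).1 z
          = ∑ i ∈ s, v l i * (U i).1 z := by
        classical
        intro s
        induction s using Finset.induction_on with
        | empty => simp
        | insert a s ha ih =>
          rw [Finset.sum_insert ha, Finset.sum_insert ha, ← ih]
          rfl
      exact this _
    show ∑ l, t l * (KYF_U U (v l)).1 z ^ 2 = _
    calc ∑ l, t l * (KYF_U U (v l)).1 z ^ 2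
        = ∑ l, ∑ i, ∑ j, t l * (v l i * v l j) * ((U i).1 z * (U j).1 z) := by
          refine Finset.sum_congr rfl fun l _ => ?_
          rw [h1 l, sq, Finset.sum_mul_sum, Finset.mul_sum]
          refine Finset.sum_congr rfl fun i _ => ?_
          rw [Finset.mul_sum]
          refine Finset.sum_congr rfl fun j _ => ?_
          ring
      _ = ∑ i, ∑ j, ∑ l, t l * (v l i * v l j) * ((U i).1 z * (U j).1 z) := by
          rw [Finset.sum_comm]
          refine Finset.sum_congr rfl fun i _ => ?_
          rw [Finset.sum_comm]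
      _ = ∑ i, ∑ j, M i j * ((U i).1 z * (U j).1 z) := by
          refine Finset.sum_congr rfl fun i _ => ?_
          refine Finset.sum_congr rfl fun j _ => ?_
          rw [hMt i j, Finset.sum_mul]

end LibQR35
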