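import Pool.Agent.LibQR35.U
import Pool.Agent.LibQR35.BN
import Pool.Agent.LibQR35.BM
import Pool.Agent.LibQR40.E3

/-! Uniformity over all parameters (compactness), levels near `ν`. -/

open MeasureTheory Set Filter Topology
open scoped ContDiff ENNReal NNReal unitInterval

namespace LibQR35

open BGS
open Pool.BGR (PM upI pj)

variable {Γ : Type} [Group Γ] [MulAction Γ Pl] {D : Set Pl}

/-- No nonzero quadratic form in `n` orthogonal eigenfunctions for the same positive eigenvalue is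
constant (any conformal weight). -/
def IndepN (hX : Surface Γ D) (m : Mt Γ D) (n : ℕ) : Prop :=
  ∀ (w : TestS Γ), (∀ z, 0 < w.1 z) → ∀ (la μ : ℝ), 0 < la → 0 < μ → ∀ U : Fin n → TestS Γ,
    (∀ i (h : TestS Γ), aF hX m (U i) h = la * bF hX m w (U i) h) →
    (∀ i j, bF hX m w (U i) (U j) = if i = j then μ else 0) → ∀ M : Fin n → Fin n → ℝ,
    (∀ i j, M i j = M j i) → ∀ C : ℝ,
    (∀ z, ∑ i, ∑ j, M i j * ((U i).1 z * (U j).1 z) = C) → M = 0

theorem UB_ne (hX : Surface Γ D) (m : Mt Γ D) (w : TestS Γ) {n : ℕ} {μ : ℝ} (hμ : 0 < μ)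
    (U : Fin n → TestS Γ) (hb : ∀ i j, bF hX m w (U i) (U j) = if i = j then μ else 0)
    (a : Fin n → ℝ) (h : ∑ i, a i • U i = 0) (j : Fin n) : a j = 0 := by
  have h1 : bF hX m w (∑ i, a i • U i) (U j) = a j * μ := by
    rw [map_sum, LinearMap.sum_apply, Finset.sum_eq_single j]
    · rw [map_smul, LinearMap.smul_apply, hb, if_pos rfl, smul_eq_mul]
    · intro i _ hij
      rw [map_smul, LinearMap.smul_apply, hb, if_neg hij, smul_zero]
    · intro h2
      exact absurd (Finset.mem_univ j) h2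
  rw [h, map_zero, LinearMap.zero_apply] at h1
  exact (mul_eq_zero.1 h1.symm).resolve_right hμ.ne'

theorem indepN1 (hX : Surface Γ D) (m : Mt Γ D) : IndepN hX m 1 := by
  intro w hw la μ hla hμ U hU hb M _ C hC
  have hC' : ∀ z, M 0 0 * ((U 0).1 z * (U 0).1 z) = C := by
    intro z
    have h := hC z
    simpa only [Fin.sum_univ_one] using h
  obtain ⟨z0, hz0⟩ := QR.has_zero hX m w hw hla (U 0) (hU 0)
  have hC0 : C = 0 := by
    have h := hC' z0
    rw [hz0, mul_zero, mul_zero] at h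
    exact h.symm
  have hM : M 0 0 = 0 := by
    by_contra hne
    have h1 : ∑ i : Fin 1, (1 : ℝ) • U i = 0 := by
      rw [Fin.sum_univ_one, one_smul]
      refine Subtype.ext (funext fun z => ?_)
      have h2 := hC' z
      rw [hC0] at h2
      exact mul_self_eq_zero.1 ((mul_eq_zero.1 h2).resolve_left hne)
    exact one_ne_zero (UB_ne hX m w hμ U hb (fun _ => 1) h1 0)
  funext i j
  rw [Subsingleton.elim i 0, Subsingleton.elim j 0, hM]
  rfl

theorem indepN2 (hX : Surface Γ D) (m : Mt Γ D) : IndepN hX m 2 := by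
  intro w hw la μ hla hμ U hU hb M hsym C hC
  have hind : ∀ a b : ℝ, a • U 0 + b • U 1 = 0 → a = 0 ∧ b = 0 := by
    intro a b hab
    have h1 : ∑ i : Fin 2, (![a, b] i) • U i = 0 := by
      rw [Fin.sum_univ_two]
      exact hab
    exact ⟨UB_ne hX m w hμ U hb ![a, b] h1 0, UB_ne hX m w hμ U hb ![a, b] h1 1⟩
  obtain ⟨h1, h2, h3, -⟩ := QR.no_const2 hX m w hw hla (U 0) (U 1) (hU 0) (hU 1) hind
    (M 0 0) (2 * M 0 1) (M 1 1) C (fun z => by
      have h := hC z
      simp only [Fin.sum_univ_two, hsym 1 0] at h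
      rw [← h]
      ring)
  have h4 : M 0 1 = 0 := by linarith
  have h5 : M 1 0 = 0 := by rw [hsym, h4]
  funext i j
  fin_cases i <;> fin_cases j
  · exact h1
  · exact h4
  · exact h5
  · exact h3

theorem UB_Xc (hX : Surface Γ D) (m : Mt Γ D) (c : ℕ → ℝ) (φ : TestS Γ) (ν : ℝ) {n : ℕ}
    (U : Fin n → TestS Γ) (j : Dir) (i i' : Fin n) :
    Xc Γ D m.1.1 c φ.1 ν (fun i => (U i).1) j i i' =
      c j.1 * bF hX m (KEX_mul (expT φ) ⟨per Γ (bmp (j.1 + 1) j.2), PH1_per hX j.1 j.2⟩)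
        (KEX_mul (U i) (U i') - (if i = i' then ν else 0) • oneT Γ) (oneT Γ) := by
  unfold Xc
  rw [bF_apply]
  congr 1
  refine integral_congr_ae (Filter.Eventually.of_forall fun z => ?_)
  simp only [KEX_mul_apply, expT_apply]
  change _ = Real.exp (φ.1 z) * per Γ (bmp (j.1 + 1) j.2) z *
    ((U i).1 z * (U i').1 z - (if i = i' then ν else 0) * 1) * 1 * √(dt (m.1.1 z))
  ring

theorem unifC (hX : Surface Γ D) (m : Mt Γ D) {L : ℕ} (hL : D ⊆ bigSq L) {c : ℕ → ℝ} (hc : Cs c)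
    (ψ : TestS Γ) (Φ : (Dir → I) → TestS Γ) (hΦ : ∀ ξ z, (Φ ξ).1 z = ψ.1 z + phi Γ L c ξ z)
    (k : ℕ) {n d : ℕ} (hn : 0 < n) (hI : IndepN hX m n)
    (B : (Fin d → ℝ) →ₗ[ℝ] (Fin n → Fin n → ℝ)) (hB : ParC B) :
    ∃ (𝒥 : Finset (Fin d → Dir)) (K δ₀ : ℝ), 0 < K ∧ 0 < δ₀ ∧
      (∀ J ∈ 𝒥, Function.Injective J ∧ ∀ l, Valid L (J l)) ∧
      ∀ (ν : ℝ) (ξ : Dir → I) (w : Fin (k + n) → TestS Γ),
        Fr (aF hX m) (bF hX m (expT (Φ ξ))) (oneT Γ) δ₀ w →
        (∀ i : Fin n, |nuE hX m (Φ ξ) (k + i) - ν| ≤ δ₀) →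
        ∃ J ∈ 𝒥, SurC K (fun l =>
          Xc Γ D m.1.1 c (Φ ξ).1 ν (fun i => (w (Fin.natAdd k i)).1) (J l)) := by
  by_contra hcon
  push Not at hcon
  -- the bad sequence
  have hδpos : ∀ N : ℕ, (0 : ℝ) < 1 / ((N : ℝ) + 1) := fun N => by positivity
  have h0 : ∀ N : ℕ, ∃ (ν : ℝ) (ξ : Dir → I) (w : Fin (k + n) → TestS Γ),
      Fr (aF hX m) (bF hX m (expT (Φ ξ))) (oneT Γ) (1 / ((N : ℝ) + 1)) w ∧
      (∀ i : Fin n, |nuE hX m (Φ ξ) (k + i) - ν| ≤ 1 / ((N : ℝ) + 1)) ∧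
      ∀ J ∈ U_J L N d, ¬ SurC ((N : ℝ) + 1) (fun l =>
          Xc Γ D m.1.1 c (Φ ξ).1 ν (fun i => (w (Fin.natAdd k i)).1) (J l)) := by
    intro N
    exact hcon (U_J L N d) ((N : ℝ) + 1) (1 / ((N : ℝ) + 1)) (by positivity) (hδpos N)
      (fun J hJ => U_of_mem_J hJ)
  choose νs ξ w hFr hgap hbad using h0
  -- convergence of the parameters
  obtain ⟨ξ', s1, hs1, hξ⟩ := CompactSpace.tendsto_subseq ξ
  obtain ⟨M1, hM1, hψ⟩ := test_bdd hX ψ
  obtain ⟨M2, hM2, hφb⟩ := phi_bound hX L hc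
  have hΦb : ∀ ξ z, |(Φ ξ).1 z| ≤ M1 + M2 := by
    intro ξ z
    rw [hΦ]
    exact (abs_add_le _ _).trans (add_le_add (hψ z) (hφb ξ z))
  have hdiff : ∀ ξ ξ₂ z, |(Φ ξ).1 z - (Φ ξ₂).1 z| ≤ 2 * (M1 + M2) := by
    intro ξ ξ₂ z
    have h1 : |(Φ ξ).1 z - (Φ ξ₂).1 z| ≤ |(Φ ξ).1 z| + |(Φ ξ₂).1 z| := abs_sub _ _
    linarith [hΦb ξ z, hΦb ξ₂ z]
  obtain ⟨M₀, hM₀, hup⟩ := muE_upper hX m (M1 + M2)
  have hup' : ∀ ξ i, muE hX m (Φ ξ) i ≤ M₀ := fun ξ i => hup _ (hΦb ξ) i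
  have hmono : ∀ ξ, Antitone (muE hX m (Φ ξ)) := fun ξ => mu_anti (expT_lam1 hX m (Φ ξ))
  have hcont : ∀ i, Continuous fun ξ => muE hX m (Φ ξ) i := fun i => muE_cont hX m L hc i Φ ψ hΦ
  set φ' := Φ ξ' with hφ'
  have hpair : ∀ ξ, IsPair (aF hX m) (bF hX m (expT (Φ ξ))) (oneT Γ) := fun ξ =>
    pair_surface hX m (expT (Φ ξ)) fun z => Real.exp_pos _
  -- the common limit of the levels
  set μ := muE hX m φ' k with hμ
  have hμpos : 0 < μ := by
    obtain ⟨c₀, hc₀, hlo⟩ := muE_lower hX m (M1 + M2)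
    exact lt_of_lt_of_le (by positivity) (hlo φ' (hΦb ξ') k)
  have hs1t : Tendsto s1 atTop atTop := hs1.tendsto_atTop
  have hδlim : Tendsto (fun N : ℕ => 1 / ((s1 N : ℝ) + 1)) atTop (𝓝 0) :=
    (tendsto_one_div_add_atTop_nhds_zero_nat (𝕜 := ℝ)).comp hs1t
  have hmulim : ∀ i, Tendsto (fun N => muE hX m (Φ (ξ (s1 N))) i) atTop (𝓝 (muE hX m φ' i)) :=
    fun i => ((hcont i).tendsto ξ').comp hξ
  have hnulim : ∀ i, Tendsto (fun N => nuE hX m (Φ (ξ (s1 N))) i) atTop (𝓝 (nuE hX m φ' i)) :=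
    fun i => (((nuE_cont hX m L hc Φ ψ hΦ i).tendsto ξ').comp hξ)
  have hνs : ∀ i : Fin n, Tendsto (fun N => νs (s1 N)) atTop (𝓝 (nuE hX m φ' (k + i))) := by
    intro i
    have h1 : Tendsto (fun N => νs (s1 N) - nuE hX m (Φ (ξ (s1 N))) (k + i)) atTop (𝓝 0) := by
      refine squeeze_zero_norm (fun N => ?_) hδlim
      rw [Real.norm_eq_abs, abs_sub_comm]
      exact hgap (s1 N) i
    have h2 := h1.add (hnulim (k + i))
    rw [zero_add] at h2
    refine h2.congr fun N => ?_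
    ring
  have hall : ∀ i : Fin n, muE hX m φ' (k + i) = μ := by
    intro i
    have h1 := tendsto_nhds_unique (hνs i) (hνs ⟨0, hn⟩)
    have hA := (arE_pos hX m φ').ne'
    unfold nuE at h1
    rw [div_left_inj' hA] at h1
    rw [h1]
    simp [hμ]
  set ν' : ℝ := nuE hX m φ' k with hν'
  have hν'lim : Tendsto (fun N => νs (s1 N)) atTop (𝓝 ν') := by
    have h1 := hνs ⟨0, hn⟩
    simpa [hν'] using h1
  -- the cluster
  set u : ℕ → Fin n → TestS Γ := fun N i => w (s1 N) (Fin.natAdd k i) with hu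
  have huA : ∀ N i, aF hX m (u N i) (u N i) = 1 := by
    intro N i
    have := (hFr (s1 N)).orth (Fin.natAdd k i) (Fin.natAdd k i)
    simpa using this
  have huB0 : ∀ N i, bF hX m (expT (Φ (ξ (s1 N)))) (u N i) (u N i) ≤ M₀ := fun N i =>
    ((hFr (s1 N)).up (Fin.natAdd k i)).trans (hup' _ _)
  have huB : ∀ N i, bF hX m (expT φ') (u N i) (u N i) ≤ Real.exp (2 * (M1 + M2)) * M₀ := by
    intro N i
    refine (weight_le hX m (φ := Φ (ξ (s1 N))) (φ' := φ') (hdiff _ _) (u N i)).trans ?_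
    exact mul_le_mul_of_nonneg_left (huB0 N i) (Real.exp_pos _).le
  obtain ⟨s2, hs2, hcauchy⟩ := compact_seq (hpair ξ') (expT_lam1 hX m φ') (expT_top hX m φ')
    (mu_tendsto hX m φ') u (fun N i => (huA N i).le) huB
  have hs2t : Tendsto s2 atTop atTop := hs2.tendsto_atTop
  -- the distances of the exponents
  set ε : ℕ → ℝ := fun N => ⨆ z, |(Φ (ξ (s1 (s2 N)))).1 z - φ'.1 z| with hε
  have hεbdd : ∀ N, BddAbove (range fun z => |(Φ (ξ (s1 (s2 N)))).1 z - φ'.1 z|) := by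
    intro N
    refine ⟨2 * (M1 + M2), ?_⟩
    rintro _ ⟨z, rfl⟩
    exact hdiff _ _ z
  have hεle : ∀ N z, |(Φ (ξ (s1 (s2 N)))).1 z - φ'.1 z| ≤ ε N := fun N z => le_ciSup (hεbdd N) z
  have hφlim : ∀ η : ℝ, 0 < η → ∀ᶠ N in atTop, ∀ z, |(Φ (ξ (s1 (s2 N)))).1 z - φ'.1 z| ≤ η := by
    intro η hη
    have h1 := (hξ.comp hs2t).eventually (phi_cont hX L hc ξ' hη)
    filter_upwards [h1] with N hN z
    have h2 := hN z
    rw [hφ', hΦ, hΦ]
    simpa using h2
  have hε0 : ∀ N, 0 ≤ ε N := fun N => (abs_nonneg _).trans (hεle N 0)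
  have hεlim : Tendsto ε atTop (𝓝 0) := by
    rw [Metric.tendsto_atTop]
    intro η hη
    obtain ⟨N₀, hN₀⟩ := eventually_atTop.1 (hφlim (η / 2) (by positivity))
    refine ⟨N₀, fun N hN => ?_⟩
    rw [Real.dist_eq, sub_zero, abs_of_nonneg (hε0 N)]
    have : ε N ≤ η / 2 := ciSup_le (hN₀ N hN)
    linarith
  have hρlim : Tendsto (fun N => Real.exp (ε N) - 1) atTop (𝓝 0) := by
    have h1 := (Real.continuous_exp.tendsto 0).comp hεlim
    have h2 := h1.sub_const 1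
    simpa using h2
  have hρ' : ∀ N (f g : TestS Γ), |bF hX m (expT (Φ (ξ (s1 (s2 N))))) f g -
      bF hX m (expT φ') f g| ≤ (Real.exp (ε N) - 1) *
        (√(bF hX m (expT φ') f f) * √(bF hX m (expT φ') g g)) := fun N f g =>
    weight_close hX m (hεle N) f g
  have hδlim2 : Tendsto (fun N : ℕ => 1 / ((s1 (s2 N) : ℝ) + 1)) atTop (𝓝 0) := hδlim.comp hs2t
  -- the limit equation
  set δ : ℕ → ℝ := fun N => 1 / ((s1 (s2 N) : ℝ) + 1) with hδ
  set τ : ℕ → ℝ := fun N => 4 * (((k + n : ℕ) : ℝ) * δ N) *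
    (((k + n : ℕ) : ℝ) * δ N + muE hX m (Φ (ξ (s1 (s2 N)))) 0) with hτ
  have hτlim : Tendsto τ atTop (𝓝 0) := by
    have h1 : Tendsto (fun N => ((k + n : ℕ) : ℝ) * δ N) atTop (𝓝 0) := by
      have := hδlim2.const_mul ((k + n : ℕ) : ℝ)
      rwa [mul_zero] at this
    have h2 : Tendsto (fun N => muE hX m (Φ (ξ (s1 (s2 N)))) 0) atTop (𝓝 (muE hX m φ' 0)) :=
      (hmulim 0).comp hs2t
    have h3 := (h1.const_mul 4).mul (h1.add h2)
    rw [mul_zero, zero_mul] at h3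
    exact h3
  have hweak : ∀ i (f : TestS Γ), Tendsto (fun N => bF hX m (expT φ') (u (s2 N) i) f -
      μ * aF hX m (u (s2 N) i) f) atTop (𝓝 0) := by
    intro i f
    refine weak_limit (hpair ξ') (fun N => bF hX m (expT (Φ (ξ (s1 (s2 N))))))
      (fun N => Real.exp (ε N) - 1) hρlim hρ' (fun N => u (s2 N) i) (fun N => huA _ i)
      (fun N => huB _ i) (fun N => muE hX m (Φ (ξ (s1 (s2 N)))) (k + i)) ?_ τ hτlim ?_ f
    · rw [← hall i]
      exact (hmulim (k + i)).comp hs2t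
    · intro N g
      exact near_eigen (hpair _) (expT_lam1 hX m _) (hδpos _).le (hFr _) (Fin.natAdd k i) g
  -- the limits
  have hlim : ∀ i, ∃ U : TestS Γ, QR.IsEig hX m (expT φ') μ⁻¹ U ∧
      Tendsto (fun N => bF hX m (oneT Γ) (u (s2 N) i - U) (u (s2 N) i - U)) atTop (𝓝 0) := by
    intro i
    refine QR.limit_eig hX m (expT φ') (fun z => Real.exp_pos _) μ⁻¹ (fun N => u (s2 N) i) ?_ ?_ ?_
    · intro η hη
      obtain ⟨N, hN⟩ := hcauchy (Real.exp (-(M1 + M2)) * η) (by positivity)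
      refine ⟨N, fun p hp q hq => ?_⟩
      have h1 := hN p hp q hq i
      have h2 := bF_le hX m (w := oneT Γ) (w' := expT φ') (θ := Real.exp (M1 + M2)) (fun z => by
        rw [expT_apply]
        change (1 : ℝ) ≤ _
        rw [← Real.exp_add]
        apply Real.one_le_exp
        linarith [(abs_le.1 (hΦb ξ' z)).1]) (u (s2 p) i - u (s2 q) i)
      refine h2.trans ?_
      calc Real.exp (M1 + M2) * bF hX m (expT φ') (u (s2 p) i - u (s2 q) i)
            (u (s2 p) i - u (s2 q) i) ≤ Real.exp (M1 + M2) * (Real.exp (-(M1 + M2)) * η) :=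
            mul_le_mul_of_nonneg_left h1 (Real.exp_pos _).le
        _ = η := by rw [← mul_assoc, ← Real.exp_add, add_neg_cancel, Real.exp_zero, one_mul]
    · exact ⟨1, fun N => (huA _ i).le⟩
    · intro f
      have h1 := (hweak i f).const_mul (-μ⁻¹)
      rw [mul_zero] at h1
      refine h1.congr fun N => ?_
      field_simp
      ring
  choose U hUeig hUlim using hlim
  have horth : ∀ i j, bF hX m (expT φ') (U i) (U j) = if i = j then μ else 0 := by
    intro i j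
    have h1 := moment_D hX m (fun N => Φ (ξ (s1 (s2 N)))) φ' hφlim (fun N => u (s2 N) i)
      (fun N => u (s2 N) j) (U i) (U j) (hUlim i) (hUlim j)
    refine tendsto_nhds_unique h1 ?_
    by_cases hij : i = j
    · subst hij
      rw [if_pos rfl]
      have h2 : Tendsto (fun N => muE hX m (Φ (ξ (s1 (s2 N)))) (k + i)) atTop (𝓝 μ) := by
        rw [← hall i]
        exact (hmulim (k + i)).comp hs2t
      have h3 := h2.sub hδlim2
      rw [sub_zero] at h3
      refine tendsto_of_tendsto_of_tendsto_of_le_of_le h3 h2 (fun N => ?_) (fun N => ?_)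
      · exact (hFr (s1 (s2 N))).lo (Fin.natAdd k i)
      · exact (hFr (s1 (s2 N))).up (Fin.natAdd k i)
    · rw [if_neg hij]
      have h2 : ∀ N, bF hX m (expT (Φ (ξ (s1 (s2 N))))) (u (s2 N) i) (u (s2 N) j) = 0 := by
        intro N
        refine (hFr (s1 (s2 N))).diag _ _ fun h => hij ?_
        exact Fin.natAdd_injective _ _ h
      simp only [h2]
      exact tendsto_const_nhds
  -- the limit functional
  let T : (Fin d → ℝ) →ₗ[ℝ] (Dir → ℝ) :=
    { toFun := fun t j => ∑ i, ∑ i', B t i i' * Xc Γ D m.1.1 c φ'.1 ν' (fun i => (U i).1) j i i'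
      map_add' := by
        intro t t'
        funext j
        simp only [map_add, Pi.add_apply, add_mul, Finset.sum_add_distrib]
      map_smul' := by
        intro r t
        funext j
        simp only [map_smul, Pi.smul_apply, smul_eq_mul, mul_assoc, Finset.mul_sum, RingHom.id_apply] }
  have hT : ∀ t, (∀ j ∈ {j : Dir | Valid L j}, T t j = 0) → t = 0 := by
    intro t ht
    apply hB.inj
    rw [map_zero]
    set F : TestS Γ := ∑ i, ∑ i', B t i i' •
      (KEX_mul (U i) (U i') - (if i = i' then ν' else 0) • oneT Γ) with hF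
    have hF1 : ∀ z, F.1 z = ∑ i, ∑ i', B t i i' *
        ((U i).1 z * (U i').1 z - if i = i' then ν' else 0) := by
      intro z
      rw [hF]
      simp only [Submodule.coe_sum, Submodule.coe_smul, Finset.sum_apply, Pi.smul_apply,
        smul_eq_mul, Submodule.coe_sub, Pi.sub_apply, KEX_mul_apply]
      refine Finset.sum_congr rfl fun i _ => Finset.sum_congr rfl fun i' _ => ?_
      congr 2
      exact mul_one _
    have hF0 : ∀ z, F.1 z = 0 := by
      refine bumps_detect hX m hL φ' F fun j hj => ?_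
      have h1 := ht j hj
      have h2 : T t j = c j.1 * bF hX m (KEX_mul (expT φ')
          ⟨per Γ (bmp (j.1 + 1) j.2), PH1_per hX j.1 j.2⟩) F (oneT Γ) := by
        change ∑ i, ∑ i', B t i i' * Xc Γ D m.1.1 c φ'.1 ν' (fun i => (U i).1) j i i' = _
        rw [hF, map_sum, LinearMap.sum_apply, Finset.mul_sum]
        refine Finset.sum_congr rfl fun i _ => ?_
        rw [map_sum, LinearMap.sum_apply, Finset.mul_sum]
        refine Finset.sum_congr rfl fun i' _ => ?_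
        rw [UB_Xc hX m c φ' ν' U j, map_smul, LinearMap.smul_apply, smul_eq_mul]
        ring
      rw [h2] at h1
      have h3 := (mul_eq_zero.1 h1).resolve_left (hc.pos j.1).ne'
      rw [bF_apply] at h3
      rw [← h3]
      refine integral_congr_ae (Filter.Eventually.of_forall fun z => ?_)
      simp only [KEX_mul_apply, expT_apply]
      change _ = Real.exp (φ'.1 z) * per Γ (bmp (j.1 + 1) j.2) z * F.1 z * 1 * √(dt (m.1.1 z))
      ring
    refine hI (expT φ') (fun z => Real.exp_pos _) μ⁻¹ μ (inv_pos.2 hμpos) hμpos U hUeig horth (B t)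
      (hB.sym t) (∑ i, ∑ i', B t i i' * if i = i' then ν' else 0) fun z => ?_
    have h1 := hF1 z
    rw [hF0 z] at h1
    simp only [mul_sub, Finset.sum_sub_distrib] at h1
    linarith
  obtain ⟨J, hJinj, hJs, hJsur⟩ := select T {j : Dir | Valid L j} hT
  obtain ⟨K, hK, hKev⟩ := surC_open
    (fun N l => Xc Γ D m.1.1 c (Φ (ξ (s1 (s2 N)))).1 (νs (s1 (s2 N))) (fun i => (u (s2 N) i).1)
      (J l))
    (fun l => Xc Γ D m.1.1 c φ'.1 ν' (fun i => (U i).1) (J l))
    (fun l i i' => Xc_tendsto hX m c (fun N => Φ (ξ (s1 (s2 N)))) φ' hφlim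
      (fun N => u (s2 N)) U hUlim (fun N => νs (s1 (s2 N))) (hν'lim.comp hs2t) (J l) i i')
    (by
      intro q
      obtain ⟨t, ht⟩ := hJsur q
      exact ⟨B t, hB.sym t, fun l => ht l⟩)
  have hst : Tendsto (fun N => s1 (s2 N)) atTop atTop := hs1t.comp hs2t
  have hlarge : ∀ᶠ N in atTop, K ≤ (s1 (s2 N) : ℝ) + 1 := by
    have h1 := (tendsto_natCast_atTop_atTop (R := ℝ)).comp hst
    filter_upwards [h1.eventually_ge_atTop K] with N hN
    have : K ≤ (s1 (s2 N) : ℝ) := hN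
    linarith
  have hlarge2 : ∀ᶠ N in atTop, ∀ l, (J l).1 < s1 (s2 N) := by
    rw [Filter.eventually_all]
    intro l
    exact hst.eventually_gt_atTop _
  obtain ⟨N, h1, h2, h3⟩ := (hKev.and (hlarge.and hlarge2)).exists
  exact hbad (s1 (s2 N)) J (U_mem_J hJinj hJs h3) (h1.mono h2)

end LibQR35
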