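import Pool.Agent.LibQR35.Uni
import Pool.Agent.LibQR35.UB
import Pool.Agent.LibQR40.E4

/-! Independence of the products at the limit; uniform lower bounds of the determinants for one
level, a close pair, and a separated pair of levels. -/

open MeasureTheory Set Filter Topology
open scoped ContDiff ENNReal NNReal unitInterval

namespace LibQR35

open BGS
open Pool.BGR (PM upI pj)

variable {Γ : Type} [Group Γ] [MulAction Γ Pl] {D : Set Pl}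

theorem ind_one (hX : Surface Γ D) (m : Mt Γ D) (Φ : (Dir → I) → TestS Γ) (k : ℕ) (ξ' : Dir → I)
    (U : Fin 1 → TestS Γ)
    (hU : ∀ i : Fin 1, QR.IsEig hX m (expT (Φ ξ')) (muE hX m (Φ ξ') (k + i))⁻¹ (U i))
    (hor : ∀ i j : Fin 1, bF hX m (expT (Φ ξ')) (U i) (U j) =
      if i = j then muE hX m (Φ ξ') (k + i) else 0)
    (hpos : ∀ i, 0 < muE hX m (Φ ξ') i) (t : Fin 1 → ℝ) (C : ℝ)
    (h : ∀ z, ∑ j, t j * ((U 0).1 z * (U 0).1 z) = C) : t = 0 := by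
  have h1 := indepN1 hX m (expT (Φ ξ')) (fun z => Real.exp_pos _) (muE hX m (Φ ξ') k)⁻¹
    (muE hX m (Φ ξ') k) (inv_pos.2 (hpos k)) (hpos k) U (fun i => by
      have h2 := hU i
      rw [Subsingleton.elim i 0] at h2 ⊢
      exact h2) (fun i j => by
      have h2 := hor i j
      rw [Subsingleton.elim i 0, Subsingleton.elim j 0] at h2 ⊢
      exact h2) (fun _ _ => t 0) (fun _ _ => rfl) C (fun z => by
      rw [Fin.sum_univ_one, Fin.sum_univ_one, ← h z, Fin.sum_univ_one])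
  funext i
  rw [Subsingleton.elim i 0]
  exact congrFun (congrFun h1 0) 0

theorem ind_near (hX : Surface Γ D) (m : Mt Γ D) (Φ : (Dir → I) → TestS Γ) (k : ℕ) (ξ' : Dir → I)
    (U : Fin 2 → TestS Γ)
    (hU : ∀ i : Fin 2, QR.IsEig hX m (expT (Φ ξ')) (muE hX m (Φ ξ') (k + i))⁻¹ (U i))
    (hor : ∀ i j : Fin 2, bF hX m (expT (Φ ξ')) (U i) (U j) =
      if i = j then muE hX m (Φ ξ') (k + i) else 0)
    (hpos : ∀ i, 0 < muE hX m (Φ ξ') i) (heq : muE hX m (Φ ξ') (k + 1) = muE hX m (Φ ξ') k)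
    (t : Fin 3 → ℝ) (C : ℝ)
    (h : ∀ z, ∑ j : Fin 3, t j * ((U ((![0, 1, 0] : Fin 3 → Fin 2) j)).1 z *
      (U ((![0, 1, 1] : Fin 3 → Fin 2) j)).1 z) = C) : t = 0 := by
  have hU' : ∀ i : Fin 2, QR.IsEig hX m (expT (Φ ξ')) (muE hX m (Φ ξ') k)⁻¹ (U i) := by
    intro i
    have h1 := hU i
    fin_cases i
    · exact h1
    · rw [← heq]
      exact h1
  have hor' : ∀ i j : Fin 2, bF hX m (expT (Φ ξ')) (U i) (U j) =
      if i = j then muE hX m (Φ ξ') k else 0 := by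
    intro i j
    rw [hor i j]
    fin_cases i
    · rfl
    · show (if (1 : Fin 2) = j then muE hX m (Φ ξ') (k + 1) else 0) = _
      rw [heq]
      rfl
  have hind : ∀ a b : ℝ, a • U 0 + b • U 1 = 0 → a = 0 ∧ b = 0 := by
    intro a b hab
    have h1 : ∑ i : Fin 2, (![a, b] i) • U i = 0 := by
      rw [Fin.sum_univ_two]
      exact hab
    exact ⟨UB_ne hX m (expT (Φ ξ')) (hpos k) U hor' ![a, b] h1 0,
      UB_ne hX m (expT (Φ ξ')) (hpos k) U hor' ![a, b] h1 1⟩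
  obtain ⟨h1, h2, h3, -⟩ := QR.no_const2 hX m (expT (Φ ξ')) (fun z => Real.exp_pos _)
    (inv_pos.2 (hpos k)) (U 0) (U 1) (hU' 0) (hU' 1) hind (t 0) (t 2) (t 1) C (fun z => by
      have h4 := h z
      rw [Fin.sum_univ_three] at h4
      have h5 : t 0 * ((U 0).1 z * (U 0).1 z) + t 1 * ((U 1).1 z * (U 1).1 z) +
        t 2 * ((U 0).1 z * (U 1).1 z) = C := h4
      linarith)
  funext i
  fin_cases i
  · exact h1
  · exact h3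
  · exact h2

theorem ind_sep (hX : Surface Γ D) (m : Mt Γ D) (Φ : (Dir → I) → TestS Γ) (k : ℕ) (ξ' : Dir → I)
    (U : Fin 2 → TestS Γ)
    (hU : ∀ i : Fin 2, QR.IsEig hX m (expT (Φ ξ')) (muE hX m (Φ ξ') (k + i))⁻¹ (U i))
    (hor : ∀ i j : Fin 2, bF hX m (expT (Φ ξ')) (U i) (U j) =
      if i = j then muE hX m (Φ ξ') (k + i) else 0)
    (hpos : ∀ i, 0 < muE hX m (Φ ξ') i) (hlt : muE hX m (Φ ξ') (k + 1) < muE hX m (Φ ξ') k)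
    (t : Fin 2 → ℝ) (C : ℝ)
    (h : ∀ z, ∑ j : Fin 2, t j * ((U j).1 z * (U j).1 z) = C) : t = 0 := by
  have hne : ∀ i : Fin 2, U i ≠ 0 := by
    intro i h0
    have h1 := hor i i
    rw [if_pos rfl, h0, map_zero] at h1
    exact (hpos (k + i)).ne h1
  have hab : (muE hX m (Φ ξ') k)⁻¹ ≠ (muE hX m (Φ ξ') (k + 1))⁻¹ := by
    intro h1
    exact hlt.ne' (inv_injective h1)
  obtain ⟨h1, h2⟩ := QR.no_const_sep hX m (expT (Φ ξ')) (fun z => Real.exp_pos _)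
    (inv_pos.2 (hpos k)) (inv_pos.2 (hpos (k + 1))) hab (U 0) (U 1) (hU 0) (hU 1) (hne 0) (hne 1)
    (t 0) (t 1) C (fun z => by
      have h4 := h z
      rw [Fin.sum_univ_two] at h4
      linarith)
  funext i
  fin_cases i
  · exact h1
  · exact h2

theorem unif_one (hX : Surface Γ D) (m : Mt Γ D) {L : ℕ} (hL : D ⊆ bigSq L) {c : ℕ → ℝ}
    (hc : Cs c) (ψ : TestS Γ) (Φ : (Dir → I) → TestS Γ)
    (hΦ : ∀ ξ z, (Φ ξ).1 z = ψ.1 z + phi Γ L c ξ z) (k : ℕ) :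
    ∃ (𝒥 : Finset (Fin 1 → Dir)) (κ₀ δ₀ : ℝ), 0 < κ₀ ∧ 0 < δ₀ ∧
      (∀ J ∈ 𝒥, Function.Injective J ∧ ∀ l, Valid L (J l)) ∧
      ∀ (ξ : Dir → I) (w : Fin (k + 1) → TestS Γ) (α : ℝ),
        Fr (aF hX m) (bF hX m (expT (Φ ξ))) (oneT Γ) δ₀ w → |nuE hX m (Φ ξ) k - α| ≤ δ₀ →
        ∃ J ∈ 𝒥, κ₀ ≤ |Xv Γ D m.1.1 c (Φ ξ).1 (fun _ : Fin 1 => α)
          (fun i => (w (Fin.natAdd k i)).1) (J 0) 0 0| := by
  obtain ⟨𝒥, κ₀, δ₀, h1, h2, h3, h4⟩ := unif_gen hX m hL hc ψ Φ hΦ k (n := 1) (d := 1)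
    (fun _ => 0) (fun _ => 0) (fun _ _ => True)
    (fun ξ' U hU hor hpos _ _ _ _ _ _ t C h => ind_one hX m Φ k ξ' U hU hor hpos t C h)
  refine ⟨𝒥, κ₀, δ₀, h1, h2, h3, fun ξ w α hw hα => ?_⟩
  obtain ⟨J, hJ, h5⟩ := h4 ξ w (fun _ => α) hw (fun i => by
    rw [Subsingleton.elim i 0]
    exact hα) trivial
  refine ⟨J, hJ, ?_⟩
  rw [Matrix.det_fin_one] at h5
  exact h5

theorem unif_near (hX : Surface Γ D) (m : Mt Γ D) {L : ℕ} (hL : D ⊆ bigSq L) {c : ℕ → ℝ}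
    (hc : Cs c) (ψ : TestS Γ) (Φ : (Dir → I) → TestS Γ)
    (hΦ : ∀ ξ z, (Φ ξ).1 z = ψ.1 z + phi Γ L c ξ z) (k : ℕ) :
    ∃ (𝒥 : Finset (Fin 3 → Dir)) (κ₀ δ₀ : ℝ), 0 < κ₀ ∧ 0 < δ₀ ∧
      (∀ J ∈ 𝒥, Function.Injective J ∧ ∀ l, Valid L (J l)) ∧
      ∀ (ξ : Dir → I) (w : Fin (k + 2) → TestS Γ) (α β : ℝ),
        Fr (aF hX m) (bF hX m (expT (Φ ξ))) (oneT Γ) δ₀ w → |nuE hX m (Φ ξ) k - α| ≤ δ₀ →
        |nuE hX m (Φ ξ) (k + 1) - β| ≤ δ₀ → |α - β| ≤ δ₀ →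
        ∃ J ∈ 𝒥, κ₀ ≤ |(Matrix.of fun (l : Fin 3) (j : Fin 3) => Xv Γ D m.1.1 c (Φ ξ).1 ![α, β]
          (fun i => (w (Fin.natAdd k i)).1) (J l) (![0, 1, 0] j) (![0, 1, 1] j)).det| := by
  obtain ⟨𝒥, κ₀, δ₀, h1, h2, h3, h4⟩ := unif_gen hX m hL hc ψ Φ hΦ k (n := 2) (d := 3)
    ![0, 1, 0] ![0, 1, 1] (fun δ ν => |ν 0 - ν 1| ≤ δ) (by
      intro ξ' U hU hor hpos ν δ hδ hδ0 hν hCl t C h
      refine ind_near hX m Φ k ξ' U hU hor hpos ?_ t C h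
      have e1 : Tendsto (fun N => ν N 0 - ν N 1) atTop
          (𝓝 (nuE hX m (Φ ξ') (k + (0 : Fin 2)) - nuE hX m (Φ ξ') (k + (1 : Fin 2)))) :=
        (hν 0).sub (hν 1)
      have e2 : Tendsto (fun N => ν N 0 - ν N 1) atTop (𝓝 0) :=
        squeeze_zero_norm (fun N => by
          rw [Real.norm_eq_abs]
          exact hCl N) hδ0
      have e3 := tendsto_nhds_unique e1 e2
      have e4 : nuE hX m (Φ ξ') (k + 1) = nuE hX m (Φ ξ') k := by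
        have e5 : nuE hX m (Φ ξ') k - nuE hX m (Φ ξ') (k + 1) = 0 := e3
        linarith
      unfold nuE at e4
      rwa [div_left_inj' (arE_pos hX m (Φ ξ')).ne'] at e4)
  refine ⟨𝒥, κ₀, δ₀, h1, h2, h3, fun ξ w α β hw hα hβ hαβ => ?_⟩
  obtain ⟨J, hJ, h5⟩ := h4 ξ w ![α, β] hw (fun i => by
    fin_cases i
    · exact hα
    · exact hβ) hαβ
  exact ⟨J, hJ, h5⟩

theorem unif_sep (hX : Surface Γ D) (m : Mt Γ D) {L : ℕ} (hL : D ⊆ bigSq L) {c : ℕ → ℝ}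
    (hc : Cs c) (ψ : TestS Γ) (Φ : (Dir → I) → TestS Γ)
    (hΦ : ∀ ξ z, (Φ ξ).1 z = ψ.1 z + phi Γ L c ξ z) (k : ℕ) {t₀ : ℝ} (ht₀ : 0 < t₀) :
    ∃ (𝒥 : Finset (Fin 2 → Dir)) (κ₀ δ₀ : ℝ), 0 < κ₀ ∧ 0 < δ₀ ∧
      (∀ J ∈ 𝒥, Function.Injective J ∧ ∀ l, Valid L (J l)) ∧
      ∀ (ξ : Dir → I) (w : Fin (k + 2) → TestS Γ) (α β : ℝ),
        Fr (aF hX m) (bF hX m (expT (Φ ξ))) (oneT Γ) δ₀ w → |nuE hX m (Φ ξ) k - α| ≤ δ₀ →
        |nuE hX m (Φ ξ) (k + 1) - β| ≤ δ₀ → t₀ ≤ α - β →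
        ∃ J ∈ 𝒥, κ₀ ≤ |(Matrix.of fun (l : Fin 2) (j : Fin 2) => Xv Γ D m.1.1 c (Φ ξ).1 ![α, β]
          (fun i => (w (Fin.natAdd k i)).1) (J l) j j).det| := by
  obtain ⟨𝒥, κ₀, δ₀, h1, h2, h3, h4⟩ := unif_gen hX m hL hc ψ Φ hΦ k (n := 2) (d := 2)
    (fun j => j) (fun j => j) (fun _ ν => t₀ ≤ ν 0 - ν 1) (by
      intro ξ' U hU hor hpos ν δ hδ hδ0 hν hCl t C h
      refine ind_sep hX m Φ k ξ' U hU hor hpos ?_ t C h
      have e1 : Tendsto (fun N => ν N 0 - ν N 1) atTop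
          (𝓝 (nuE hX m (Φ ξ') (k + (0 : Fin 2)) - nuE hX m (Φ ξ') (k + (1 : Fin 2)))) :=
        (hν 0).sub (hν 1)
      have e3 := ge_of_tendsto' e1 hCl
      have e5 : t₀ ≤ nuE hX m (Φ ξ') k - nuE hX m (Φ ξ') (k + 1) := e3
      have e4 : nuE hX m (Φ ξ') (k + 1) < nuE hX m (Φ ξ') k := by linarith
      unfold nuE at e4
      exact (div_lt_div_iff_of_pos_right (arE_pos hX m (Φ ξ'))).1 e4)
  refine ⟨𝒥, κ₀, δ₀, h1, h2, h3, fun ξ w α β hw hα hβ hαβ => ?_⟩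
  obtain ⟨J, hJ, h5⟩ := h4 ξ w ![α, β] hw (fun i => by
    fin_cases i
    · exact hα
    · exact hβ) hαβ
  exact ⟨J, hJ, h5⟩

end LibQR35
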