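import Pool.Agent.LibQR35.Ind

/-! Uniform bounds for the moments of two levels `k` and `k + l`, `0 < l`. -/

open MeasureTheory Set Filter Topology
open scoped ContDiff ENNReal NNReal unitInterval

namespace LibQR35

open BGS
open Pool.BGR (PM upI pj)

variable {Γ : Type} [Group Γ] [MulAction Γ Pl] {D : Set Pl}

theorem Ind2_ne {l : ℕ} (hl : 0 < l) : (0 : Fin (l + 1)) ≠ Fin.last l := by
  intro h
  have h1 := congrArg Fin.val h
  simp only [Fin.val_zero, Fin.val_last] at h1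
  omega

theorem Ind2_anti (hX : Surface Γ D) (m : Mt Γ D) (φ : TestS Γ) {i j : ℕ} (hij : i ≤ j) :
    nuE hX m φ j ≤ nuE hX m φ i := by
  unfold nuE
  exact div_le_div_of_nonneg_right (mu_anti (expT_lam1 hX m φ) hij) (arE_pos hX m φ).le

theorem Ind2_ind_near (hX : Surface Γ D) (m : Mt Γ D) (Φ : (Dir → I) → TestS Γ) (k l : ℕ)
    (hl : 0 < l) (ξ' : Dir → I) (U : Fin (l + 1) → TestS Γ)
    (hU : ∀ i : Fin (l + 1), QR.IsEig hX m (expT (Φ ξ')) (muE hX m (Φ ξ') (k + i))⁻¹ (U i))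
    (hor : ∀ i j : Fin (l + 1), bF hX m (expT (Φ ξ')) (U i) (U j) =
      if i = j then muE hX m (Φ ξ') (k + i) else 0)
    (hpos : ∀ i, 0 < muE hX m (Φ ξ') i) (heq : muE hX m (Φ ξ') (k + l) = muE hX m (Φ ξ') k)
    (t : Fin 3 → ℝ) (C : ℝ)
    (h : ∀ z, ∑ j : Fin 3, t j * ((U ((![0, Fin.last l, 0] : Fin 3 → Fin (l + 1)) j)).1 z *
      (U ((![0, Fin.last l, Fin.last l] : Fin 3 → Fin (l + 1)) j)).1 z) = C) : t = 0 := by
  have hne := Ind2_ne hl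
  have e0 : muE hX m (Φ ξ') (k + ((0 : Fin (l + 1)) : ℕ)) = muE hX m (Φ ξ') k := by
    rw [Fin.val_zero, add_zero]
  have e1 : muE hX m (Φ ξ') (k + ((Fin.last l : Fin (l + 1)) : ℕ)) = muE hX m (Φ ξ') k := by
    rw [Fin.val_last, heq]
  have hU' : ∀ i : Fin 2, QR.IsEig hX m (expT (Φ ξ')) (muE hX m (Φ ξ') k)⁻¹
      ((![U 0, U (Fin.last l)] : Fin 2 → TestS Γ) i) := by
    intro i
    fin_cases i
    · have h1 := hU 0
      rw [e0] at h1
      exact h1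
    · have h1 := hU (Fin.last l)
      rw [e1] at h1
      exact h1
  have hor' : ∀ i j : Fin 2, bF hX m (expT (Φ ξ')) ((![U 0, U (Fin.last l)] : Fin 2 → TestS Γ) i)
      ((![U 0, U (Fin.last l)] : Fin 2 → TestS Γ) j) =
      if i = j then muE hX m (Φ ξ') k else 0 := by
    intro i j
    fin_cases i <;> fin_cases j
    · have h1 := hor 0 0
      rw [if_pos rfl, e0] at h1
      exact h1
    · have h1 := hor 0 (Fin.last l)
      rw [if_neg hne] at h1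
      exact h1
    · have h1 := hor (Fin.last l) 0
      rw [if_neg hne.symm] at h1
      exact h1
    · have h1 := hor (Fin.last l) (Fin.last l)
      rw [if_pos rfl, e1] at h1
      exact h1
  have hind : ∀ a b : ℝ, a • U 0 + b • U (Fin.last l) = 0 → a = 0 ∧ b = 0 := by
    intro a b hab
    have h1 : ∑ i : Fin 2, (![a, b] i) • (![U 0, U (Fin.last l)] : Fin 2 → TestS Γ) i = 0 := by
      rw [Fin.sum_univ_two]
      exact hab
    exact ⟨UB_ne hX m (expT (Φ ξ')) (hpos k) _ hor' ![a, b] h1 0,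
      UB_ne hX m (expT (Φ ξ')) (hpos k) _ hor' ![a, b] h1 1⟩
  obtain ⟨h1, h2, h3, -⟩ := QR.no_const2 hX m (expT (Φ ξ')) (fun z => Real.exp_pos _)
    (inv_pos.2 (hpos k)) (U 0) (U (Fin.last l)) (hU' 0) (hU' 1) hind (t 0) (t 2) (t 1) C
    (fun z => by
      have h4 := h z
      rw [Fin.sum_univ_three] at h4
      have h5 : t 0 * ((U 0).1 z * (U 0).1 z) + t 1 * ((U (Fin.last l)).1 z *
        (U (Fin.last l)).1 z) + t 2 * ((U 0).1 z * (U (Fin.last l)).1 z) = C := h4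
      linarith)
  funext i
  fin_cases i
  · exact h1
  · exact h3
  · exact h2

theorem Ind2_ind_sep (hX : Surface Γ D) (m : Mt Γ D) (Φ : (Dir → I) → TestS Γ) (k l : ℕ)
    (hl : 0 < l) (ξ' : Dir → I) (U : Fin (l + 1) → TestS Γ)
    (hU : ∀ i : Fin (l + 1), QR.IsEig hX m (expT (Φ ξ')) (muE hX m (Φ ξ') (k + i))⁻¹ (U i))
    (hor : ∀ i j : Fin (l + 1), bF hX m (expT (Φ ξ')) (U i) (U j) =
      if i = j then muE hX m (Φ ξ') (k + i) else 0)
    (hpos : ∀ i, 0 < muE hX m (Φ ξ') i) (hlt : muE hX m (Φ ξ') (k + l) < muE hX m (Φ ξ') k)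
    (t : Fin 2 → ℝ) (C : ℝ)
    (h : ∀ z, ∑ j : Fin 2, t j * ((U ((![0, Fin.last l] : Fin 2 → Fin (l + 1)) j)).1 z *
      (U ((![0, Fin.last l] : Fin 2 → Fin (l + 1)) j)).1 z) = C) : t = 0 := by
  have e0 : muE hX m (Φ ξ') (k + ((0 : Fin (l + 1)) : ℕ)) = muE hX m (Φ ξ') k := by
    rw [Fin.val_zero, add_zero]
  have e1 : muE hX m (Φ ξ') (k + ((Fin.last l : Fin (l + 1)) : ℕ)) =
      muE hX m (Φ ξ') (k + l) := by
    rw [Fin.val_last]
  have hne : ∀ i : Fin (l + 1), U i ≠ 0 := by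
    intro i h0
    have h1 := hor i i
    rw [if_pos rfl, h0, map_zero] at h1
    exact (hpos (k + i)).ne h1
  have hab : (muE hX m (Φ ξ') k)⁻¹ ≠ (muE hX m (Φ ξ') (k + l))⁻¹ := by
    intro h1
    exact hlt.ne' (inv_injective h1)
  have hU0 := hU 0
  rw [e0] at hU0
  have hU1 := hU (Fin.last l)
  rw [e1] at hU1
  obtain ⟨h1, h2⟩ := QR.no_const_sep hX m (expT (Φ ξ')) (fun z => Real.exp_pos _)
    (inv_pos.2 (hpos k)) (inv_pos.2 (hpos (k + l))) hab (U 0) (U (Fin.last l)) hU0 hU1 (hne 0)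
    (hne (Fin.last l)) (t 0) (t 1) C (fun z => by
      have h4 := h z
      rw [Fin.sum_univ_two] at h4
      have h5 : t 0 * ((U 0).1 z * (U 0).1 z) + t 1 * ((U (Fin.last l)).1 z *
        (U (Fin.last l)).1 z) = C := h4
      linarith)
  funext i
  fin_cases i
  · exact h1
  · exact h2

theorem unif_near2 (hX : Surface Γ D) (m : Mt Γ D) {L : ℕ} (hL : D ⊆ bigSq L) {c : ℕ → ℝ}
    (hc : Cs c) (ψ : TestS Γ) (Φ : (Dir → I) → TestS Γ)
    (hΦ : ∀ ξ z, (Φ ξ).1 z = ψ.1 z + phi Γ L c ξ z) (k l : ℕ) (hl : 0 < l) :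
    ∃ (𝒥 : Finset (Fin 3 → Dir)) (κ₀ δ₀ : ℝ), 0 < κ₀ ∧ 0 < δ₀ ∧
      (∀ J ∈ 𝒥, Function.Injective J ∧ ∀ r, Valid L (J r)) ∧
      ∀ (ξ : Dir → I) (w : Fin (k + (l + 1)) → TestS Γ) (α β : ℝ),
        Fr (aF hX m) (bF hX m (expT (Φ ξ))) (oneT Γ) δ₀ w → |nuE hX m (Φ ξ) k - α| ≤ δ₀ →
        |nuE hX m (Φ ξ) (k + l) - β| ≤ δ₀ → |α - β| ≤ δ₀ →
        ∃ J ∈ 𝒥, κ₀ ≤ |(Matrix.of fun (r : Fin 3) (j : Fin 3) => Xv Γ D m.1.1 c (Φ ξ).1
          (fun i : Fin (l + 1) => if i = 0 then α else β) (fun i => (w (Fin.natAdd k i)).1) (J r)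
          (![0, Fin.last l, 0] j) (![0, Fin.last l, Fin.last l] j)).det| := by
  have hne := Ind2_ne hl
  obtain ⟨𝒥, κ₀, δ₀, h1, h2, h3, h4⟩ := unif_gen hX m hL hc ψ Φ hΦ k (n := l + 1) (d := 3)
    ![0, Fin.last l, 0] ![0, Fin.last l, Fin.last l] (fun δ ν => |ν 0 - ν (Fin.last l)| ≤ δ) (by
      intro ξ' U hU hor hpos ν δ hδ hδ0 hν hCl t C h
      refine Ind2_ind_near hX m Φ k l hl ξ' U hU hor hpos ?_ t C h
      have e1 : Tendsto (fun N => ν N 0 - ν N (Fin.last l)) atTop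
          (𝓝 (nuE hX m (Φ ξ') (k + ((0 : Fin (l + 1)) : ℕ)) -
            nuE hX m (Φ ξ') (k + ((Fin.last l : Fin (l + 1)) : ℕ)))) :=
        (hν 0).sub (hν (Fin.last l))
      have e2 : Tendsto (fun N => ν N 0 - ν N (Fin.last l)) atTop (𝓝 0) :=
        squeeze_zero_norm (fun N => by
          rw [Real.norm_eq_abs]
          exact hCl N) hδ0
      have e3 := tendsto_nhds_unique e1 e2
      rw [Fin.val_zero, add_zero, Fin.val_last] at e3
      have e4 : nuE hX m (Φ ξ') (k + l) = nuE hX m (Φ ξ') k := by linarith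
      unfold nuE at e4
      rwa [div_left_inj' (arE_pos hX m (Φ ξ')).ne'] at e4)
  refine ⟨𝒥, κ₀, δ₀ / 2, h1, half_pos h2, h3, fun ξ w α β hw hα hβ hαβ => ?_⟩
  have hw' : Fr (aF hX m) (bF hX m (expT (Φ ξ))) (oneT Γ) δ₀ w :=
    ⟨hw.orth, hw.one, hw.diag, fun i => le_trans (by linarith) (hw.lo i), hw.up⟩
  rw [abs_le] at hα hβ hαβ
  exact h4 ξ w (fun i : Fin (l + 1) => if i = 0 then α else β) hw' (fun i => by
    have a1 : nuE hX m (Φ ξ) (k + l) ≤ nuE hX m (Φ ξ) (k + (i : ℕ)) :=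
      Ind2_anti hX m (Φ ξ) (by have := i.isLt; omega)
    have a2 : nuE hX m (Φ ξ) (k + (i : ℕ)) ≤ nuE hX m (Φ ξ) k :=
      Ind2_anti hX m (Φ ξ) (by omega)
    by_cases hi : i = 0
    · simp only [hi, if_true, Fin.val_zero, add_zero]
      rw [abs_le]
      constructor <;> linarith [hα.1, hα.2]
    · simp only [if_neg hi]
      rw [abs_le]
      constructor <;> linarith [hα.1, hα.2, hβ.1, hβ.2, hαβ.1, hαβ.2]) (by
    simp only [if_true, if_neg hne.symm]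
    rw [abs_le]
    constructor <;> linarith [hαβ.1, hαβ.2])

theorem unif_sep2 (hX : Surface Γ D) (m : Mt Γ D) {L : ℕ} (hL : D ⊆ bigSq L) {c : ℕ → ℝ}
    (hc : Cs c) (ψ : TestS Γ) (Φ : (Dir → I) → TestS Γ)
    (hΦ : ∀ ξ z, (Φ ξ).1 z = ψ.1 z + phi Γ L c ξ z) (k l : ℕ) (hl : 0 < l) {t₀ : ℝ}
    (ht₀ : 0 < t₀) :
    ∃ (𝒥 : Finset (Fin 2 → Dir)) (κ₀ δ₀ : ℝ), 0 < κ₀ ∧ 0 < δ₀ ∧
      (∀ J ∈ 𝒥, Function.Injective J ∧ ∀ r, Valid L (J r)) ∧
      ∀ (ξ : Dir → I) (w : Fin (k + (l + 1)) → TestS Γ) (α β : ℝ),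
        Fr (aF hX m) (bF hX m (expT (Φ ξ))) (oneT Γ) δ₀ w → |nuE hX m (Φ ξ) k - α| ≤ δ₀ →
        |nuE hX m (Φ ξ) (k + l) - β| ≤ δ₀ → t₀ ≤ α - β →
        ∃ J ∈ 𝒥, κ₀ ≤ |(Matrix.of fun (r : Fin 2) (j : Fin 2) => Xv Γ D m.1.1 c (Φ ξ).1
          (fun i : Fin (l + 1) => if i = 0 then α else β) (fun i => (w (Fin.natAdd k i)).1) (J r)
          (![0, Fin.last l] j) (![0, Fin.last l] j)).det| := by
  have hne := Ind2_ne hl
  obtain ⟨𝒥, κ₀, δ₀, h1, h2, h3, h4⟩ := unif_gen hX m hL hc ψ Φ hΦ k (n := l + 1) (d := 2)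
    ![0, Fin.last l] ![0, Fin.last l] (fun _ ν => t₀ ≤ ν 0 - ν (Fin.last l)) (by
      intro ξ' U hU hor hpos ν δ hδ hδ0 hν hCl t C h
      refine Ind2_ind_sep hX m Φ k l hl ξ' U hU hor hpos ?_ t C h
      have e1 : Tendsto (fun N => ν N 0 - ν N (Fin.last l)) atTop
          (𝓝 (nuE hX m (Φ ξ') (k + ((0 : Fin (l + 1)) : ℕ)) -
            nuE hX m (Φ ξ') (k + ((Fin.last l : Fin (l + 1)) : ℕ)))) :=
        (hν 0).sub (hν (Fin.last l))
      have e3 := ge_of_tendsto' e1 hCl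
      rw [Fin.val_zero, add_zero, Fin.val_last] at e3
      have e4 : nuE hX m (Φ ξ') (k + l) < nuE hX m (Φ ξ') k := by linarith
      unfold nuE at e4
      exact (div_lt_div_iff_of_pos_right (arE_pos hX m (Φ ξ'))).1 e4)
  refine ⟨𝒥, κ₀, δ₀, h1, h2, h3, fun ξ w α β hw hα hβ hαβ => ?_⟩
  obtain ⟨J, hJ, h5⟩ := h4 ξ w (fun i : Fin (l + 1) => if i = 0 then α else
    if i = Fin.last l then β else nuE hX m (Φ ξ) (k + i)) hw (fun i => by
    by_cases hi : i = 0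
    · simp only [hi, if_true, Fin.val_zero, add_zero]
      exact hα
    · by_cases hi' : i = Fin.last l
      · simp only [hi', if_neg hne.symm, if_true, Fin.val_last]
        exact hβ
      · simp only [if_neg hi, if_neg hi', sub_self, abs_zero]
        exact h2.le) (by
    simp only [if_true, if_neg hne.symm]
    exact hαβ)
  refine ⟨J, hJ, ?_⟩
  have hM : (Matrix.of fun (r : Fin 2) (j : Fin 2) => Xv Γ D m.1.1 c (Φ ξ).1
      (fun i : Fin (l + 1) => if i = 0 then α else if i = Fin.last l then β else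
        nuE hX m (Φ ξ) (k + i)) (fun i => (w (Fin.natAdd k i)).1) (J r)
      ((![0, Fin.last l] : Fin 2 → Fin (l + 1)) j) ((![0, Fin.last l] : Fin 2 → Fin (l + 1)) j)) =
      (Matrix.of fun (r : Fin 2) (j : Fin 2) => Xv Γ D m.1.1 c (Φ ξ).1
      (fun i : Fin (l + 1) => if i = 0 then α else β) (fun i => (w (Fin.natAdd k i)).1) (J r)
      ((![0, Fin.last l] : Fin 2 → Fin (l + 1)) j)
      ((![0, Fin.last l] : Fin 2 → Fin (l + 1)) j)) := by
    ext r j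
    simp only [Matrix.of_apply, Xv]
    fin_cases j
    · simp
    · simp [hne.symm]
  rw [hM] at h5
  exact h5

end LibQR35
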