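import Pool.Agent.LibQR35.X1

/-! ROW Q6 : the linear estimate for the gaps, uniform in the index.

PLAN. Same `c` as in `ae_gap` (LibBGR/AE_AEM.lean: `obtain ⟨c, hc, hac⟩ := exists_c (FIN2_shift ha)`, its proof gives the
first part; copy it). Second part, `k = n + 1`: `level_bad` (LibBGR/AE_LVB.lean) with `fun R => ε * c R` gives
`PM {muE n - muE (n + 1) < δ'} ≤ ofReal (C₂ (n+1)^B δ' / (ε c (A (n+2)^2)))` when `C₂ (n+1)^B δ' ≤ ε c (..)`, otherwise the right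
side is `≥ 1`; so always. `levels` (file X1.lean, `M` a bound of `|ψ + ε phi|`): `x m' (k + 1) - x m' k < δ` implies
`muE n - muE (n + 1) < δ / C₃`. By `hac A B`: `a (n + 1) (n + 1)^B ≤ c (A (n+2)^2)` for `n ≥ n₀`, so `a k * P ≤ C₂ δ / (C₃ ε)`;
for the finitely many `n < n₀` take the maximum (or the sum) of `a k (n+1)^B / c (..)`. `k = 0`: `C₃ ≤ x m' 1 - x m' 0`
(`levels`), so the event is empty for `δ ≤ C₃`, and `ofReal (a 0) ≤ ofReal (|a 0| / C₃ * δ)` for `δ > C₃`. -/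

open MeasureTheory Set Filter Topology
open scoped ContDiff ENNReal NNReal unitInterval

namespace LibQR35

open BGS
open Pool.BGR (PM upI pj)

variable {Γ : Type} [Group Γ] [MulAction Γ Pl] {D : Set Pl}

/-- The probability of a small gap of the levels, without condition. -/
private theorem LU_prob (hX : Surface Γ D) (m : Mt Γ D) {L : ℕ} (hL : D ⊆ bigSq L) {c : ℕ → ℝ}
    (hc : Cs c) (ψ : TestS Γ) :
    ∃ A B : ℕ, ∃ C₂ : ℝ, 0 < C₂ ∧ ∀ (Φ : (Dir → I) → TestS Γ),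
      (∀ ξ z, (Φ ξ).1 z = ψ.1 z + phi Γ L c ξ z) → ∀ (n : ℕ) (δ : ℝ), 0 < δ →
        PM Dir {ξ | muE hX m (Φ ξ) n - muE hX m (Φ ξ) (n + 1) < δ} ≤
          ENNReal.ofReal (C₂ * ((n : ℝ) + 1) ^ B * δ / c (A * (n + 2) ^ 2)) := by
  obtain ⟨A, B, C₂, hC₂, h⟩ := level_bad hX m hL hc ψ
  refine ⟨A, B, C₂, hC₂, fun Φ hΦ n δ hδ => ?_⟩
  by_cases h1 : C₂ * ((n : ℝ) + 1) ^ B * δ ≤ c (A * (n + 2) ^ 2)
  · exact h Φ hΦ n δ hδ h1
  · push Not at h1
    refine prob_le_one.trans ?_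
    rw [← ENNReal.ofReal_one]
    refine ENNReal.ofReal_le_ofReal ?_
    rw [le_div_iff₀ (hc.pos _), one_mul]
    exact h1.le

/-- A bound for all the ratios. -/
private theorem LU_ratio {r : ℕ → ℝ} (h : ∀ᶠ n in atTop, r n ≤ 1) :
    ∃ K : ℝ, 0 < K ∧ ∀ n, r n ≤ K := by
  obtain ⟨n₀, hn₀⟩ := eventually_atTop.1 h
  have h0 : 0 ≤ ∑ i ∈ Finset.range n₀, |r i| := Finset.sum_nonneg fun i _ => abs_nonneg _
  refine ⟨1 + ∑ i ∈ Finset.range n₀, |r i|, by linarith, fun n => ?_⟩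
  by_cases hn : n₀ ≤ n
  · have := hn₀ n hn
    linarith
  · push Not at hn
    have h1 : |r n| ≤ ∑ i ∈ Finset.range n₀, |r i| :=
      Finset.single_le_sum (f := fun i => |r i|) (fun i _ => abs_nonneg _) (Finset.mem_range.2 hn)
    have h2 := le_abs_self (r n)
    linarith

theorem ae_gap2 (hX : Surface Γ D) {L : ℕ} (hL : D ⊆ bigSq L) {a : ℕ → ℝ} (ha : Rapid a) :
    ∃ c : ℕ → ℝ, Cs c ∧ (∀ ξ : Dir → I, phi Γ L c ξ ∈ Test Γ) ∧
      ∀ (m : Mt Γ D) (ψ : Pl → ℝ), ψ ∈ Test Γ → ∀ ε : ℝ, 0 < ε → ε ≤ 1 →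
        (∀ᵐ ξ ∂(PM Dir), ∀ m' : Mt Γ D,
        (∃ q : ℝ, 0 < q ∧
          ∀ z, m'.1.1 z = (q * Real.exp (ψ z + ε * phi Γ L c ξ z)) • m.1.1 z) →
        (∀ k, 0 < x m' (k + 1) - x m' k) ∧
          ∀ᶠ k : ℕ in atTop, a k ≤ x m' (k + 1) - x m' k) ∧
        ∃ C : ℝ, 0 < C ∧ ∀ (k : ℕ) (δ : ℝ), 0 < δ → ENNReal.ofReal (a k) *
          PM Dir {ξ | ∃ m' : Mt Γ D, (∃ q : ℝ, 0 < q ∧
            ∀ z, m'.1.1 z = (q * Real.exp (ψ z + ε * phi Γ L c ξ z)) • m.1.1 z) ∧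
            x m' (k + 1) - x m' k < δ} ≤ ENNReal.ofReal (C * δ) := by
  obtain ⟨c, hc, hac⟩ := exists_c (FIN2_shift ha)
  have hphi : ∀ ξ : Dir → I, phi Γ L c ξ ∈ Test Γ := fun ξ => phi_mem hX L hc ξ
  refine ⟨c, hc, hphi, fun m ψ hψ ε hε0 hε1 => ?_⟩
  have hcε := FIN2_scale hc hε0 hε1
  have hphiε : ∀ ξ : Dir → I, phi Γ L (fun R => ε * c R) ξ ∈ Test Γ :=
    fun ξ => phi_mem hX L hcε ξ
  set Φ : (Dir → I) → TestS Γ := fun ξ => ⟨ψ, hψ⟩ + ⟨phi Γ L (fun R => ε * c R) ξ, hphiε ξ⟩ with hΦ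
  have hrw : ∀ (ξ : Dir → I) (m' : Mt Γ D) (q : ℝ),
      (∀ z, m'.1.1 z = (q * Real.exp (ψ z + ε * phi Γ L c ξ z)) • m.1.1 z) →
      ∀ z, m'.1.1 z = (q * Real.exp ((Φ ξ).1 z)) • m.1.1 z := by
    intro ξ m' q hm' z
    rw [hm' z]
    have h1 : (Φ ξ).1 z = ψ z + phi Γ L (fun R => ε * c R) ξ z := rfl
    rw [h1, FIN2_phi]
  constructor
  · obtain ⟨A, B, h⟩ := ae_mu hX m hL hcε (⟨ψ, hψ⟩ : TestS Γ)
    filter_upwards [h Φ fun ξ z => rfl] with ξ hξ m' hm'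
    obtain ⟨q, hq, hm'⟩ := hm'
    have hm'' := hrw ξ m' q hm'
    obtain ⟨C₃, hC₃, h0, h3⟩ := gap_of_mu hX m m' (Φ ξ) hq hm''
    have hpos : ∀ k, 0 < x m' (k + 1) - x m' k := by
      intro k
      rcases k with _ | k
      · exact h0
      · exact (mul_pos hC₃ (hξ.1 k)).trans_le (h3 k (hξ.1 k).le)
    refine ⟨hpos, ?_⟩
    obtain ⟨n₁, hn₁⟩ := exists_nat_gt (1 / (C₃ * ε))
    have hCε : 0 < C₃ * ε := mul_pos hC₃ hε0
    have h4 : ∀ᶠ n : ℕ in atTop, a (n + 1) ≤ x m' (n + 1 + 1) - x m' (n + 1) := by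
      filter_upwards [hξ.2, hac A (B + 1), eventually_ge_atTop n₁] with n h5 h6 h7
      by_cases ha0 : a (n + 1) ≤ 0
      · exact ha0.trans (hpos (n + 1)).le
      · push Not at ha0
        have hN : (0 : ℝ) < (n : ℝ) + 1 := by positivity
        have h8 : C₃ * (ε * c (A * (n + 2) ^ 2) / ((n : ℝ) + 1) ^ B) ≤
            x m' (n + 2) - x m' (n + 1) :=
          (mul_le_mul_of_nonneg_left h5 hC₃.le).trans (h3 n (hξ.1 n).le)
        have h9 : a (n + 1) * ((n : ℝ) + 1) ≤ c (A * (n + 2) ^ 2) / ((n : ℝ) + 1) ^ B := by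
          rw [le_div_iff₀ (by positivity)]
          refine le_trans (le_of_eq ?_) h6
          ring
        have h10 : 1 ≤ (C₃ * ε) * ((n : ℝ) + 1) := by
          have h11 : (n₁ : ℝ) ≤ n := by exact_mod_cast h7
          have h12 : 1 / (C₃ * ε) < (n : ℝ) + 1 := by linarith
          rw [div_lt_iff₀ hCε] at h12
          linarith
        calc a (n + 1) ≤ a (n + 1) * ((C₃ * ε) * ((n : ℝ) + 1)) := le_mul_of_one_le_right ha0.le h10
          _ = (C₃ * ε) * (a (n + 1) * ((n : ℝ) + 1)) := by ring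
          _ ≤ (C₃ * ε) * (c (A * (n + 2) ^ 2) / ((n : ℝ) + 1) ^ B) :=
              mul_le_mul_of_nonneg_left h9 hCε.le
          _ = C₃ * (ε * c (A * (n + 2) ^ 2) / ((n : ℝ) + 1) ^ B) := by ring
          _ ≤ x m' (n + 2) - x m' (n + 1) := h8
    rw [eventually_atTop] at h4 ⊢
    obtain ⟨j, hj⟩ := h4
    refine ⟨j + 1, fun k hk => ?_⟩
    obtain ⟨i, rfl⟩ : ∃ i, k = i + 1 := ⟨k - 1, by omega⟩
    exact hj i (by omega)
  · obtain ⟨A, B, C₂, hC₂, h⟩ := LU_prob hX m hL hcε (⟨ψ, hψ⟩ : TestS Γ)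
    obtain ⟨M1, hM1, hψb⟩ := test_bdd hX (⟨ψ, hψ⟩ : TestS Γ)
    obtain ⟨M2, hM2, hφb⟩ := phi_bound hX L hcε
    obtain ⟨C₃, hC₃, hlev⟩ := levels hX m (M1 + M2)
    have hΦb : ∀ ξ z, |(Φ ξ).1 z| ≤ M1 + M2 := by
      intro ξ z
      have h1 : (Φ ξ).1 z = ψ z + phi Γ L (fun R => ε * c R) ξ z := rfl
      rw [h1]
      exact (abs_add_le _ _).trans (add_le_add (hψb z) (hφb ξ z))
    obtain ⟨K, hK, hr⟩ := LU_ratio
      (r := fun n => a (n + 1) * ((n : ℝ) + 1) ^ B / c (A * (n + 2) ^ 2)) (by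
        filter_upwards [hac A B] with n hn
        rw [div_le_one (hc.pos _)]
        exact hn)
    have hCC : 0 < C₂ / (C₃ * ε) * K := by positivity
    have ha0 : 0 ≤ |a 0| / C₃ := by positivity
    refine ⟨C₂ / (C₃ * ε) * K + |a 0| / C₃, by linarith, fun k δ hδ => ?_⟩
    rcases k with _ | n
    · by_cases hδC : δ ≤ C₃
      · have h1 : {ξ | ∃ m' : Mt Γ D, (∃ q : ℝ, 0 < q ∧
            ∀ z, m'.1.1 z = (q * Real.exp (ψ z + ε * phi Γ L c ξ z)) • m.1.1 z) ∧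
            x m' (0 + 1) - x m' 0 < δ} = ∅ := by
          refine eq_empty_iff_forall_notMem.2 fun ξ hξ => ?_
          obtain ⟨m', ⟨q, hq, hm'⟩, hlt⟩ := hξ
          have h2 := (hlev (Φ ξ) (hΦb ξ) m' q hq (hrw ξ m' q hm')).1 0
          linarith
        rw [h1, measure_empty, mul_zero]
        exact zero_le
      · push Not at hδC
        calc ENNReal.ofReal (a 0) * _ ≤ ENNReal.ofReal (a 0) * 1 :=
              mul_le_mul_right prob_le_one _
          _ = ENNReal.ofReal (a 0) := mul_one _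
          _ ≤ _ := by
            refine ENNReal.ofReal_le_ofReal ?_
            have h1 : |a 0| ≤ |a 0| / C₃ * δ := by
              rw [div_mul_eq_mul_div, le_div_iff₀ hC₃]
              exact mul_le_mul_of_nonneg_left hδC.le (abs_nonneg _)
            have h2 := le_abs_self (a 0)
            have h3 : 0 ≤ C₂ / (C₃ * ε) * K * δ := by positivity
            have h4 : (C₂ / (C₃ * ε) * K + |a 0| / C₃) * δ =
              C₂ / (C₃ * ε) * K * δ + |a 0| / C₃ * δ := by ring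
            rw [h4]
            linarith
    · by_cases han : a (n + 1) ≤ 0
      · rw [ENNReal.ofReal_of_nonpos han, zero_mul]
        exact zero_le
      · push Not at han
        have hcn : 0 < c (A * (n + 2) ^ 2) := hc.pos _
        have h1 : PM Dir {ξ | ∃ m' : Mt Γ D, (∃ q : ℝ, 0 < q ∧
            ∀ z, m'.1.1 z = (q * Real.exp (ψ z + ε * phi Γ L c ξ z)) • m.1.1 z) ∧
            x m' (n + 1 + 1) - x m' (n + 1) < δ} ≤
            ENNReal.ofReal (C₂ * ((n : ℝ) + 1) ^ B * (δ / C₃) / (ε * c (A * (n + 2) ^ 2))) := by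
          refine (measure_mono ?_).trans (h Φ (fun ξ z => rfl) n (δ / C₃) (div_pos hδ hC₃))
          intro ξ hξ
          obtain ⟨m', ⟨q, hq, hm'⟩, hlt⟩ := hξ
          have h2 := (hlev (Φ ξ) (hΦb ξ) m' q hq (hrw ξ m' q hm')).2 n 1
          have h3 : C₃ * (muE hX m (Φ ξ) n - muE hX m (Φ ξ) (n + 1)) < δ := lt_of_le_of_lt h2 hlt
          change muE hX m (Φ ξ) n - muE hX m (Φ ξ) (n + 1) < δ / C₃
          rw [lt_div_iff₀ hC₃, mul_comm]
          exact h3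
        calc ENNReal.ofReal (a (n + 1)) * _
            ≤ ENNReal.ofReal (a (n + 1)) *
              ENNReal.ofReal (C₂ * ((n : ℝ) + 1) ^ B * (δ / C₃) / (ε * c (A * (n + 2) ^ 2))) :=
              mul_le_mul_right h1 _
          _ = ENNReal.ofReal (a (n + 1) *
              (C₂ * ((n : ℝ) + 1) ^ B * (δ / C₃) / (ε * c (A * (n + 2) ^ 2)))) :=
              (ENNReal.ofReal_mul han.le).symm
          _ ≤ _ := by
            refine ENNReal.ofReal_le_ofReal ?_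
            have h2 : a (n + 1) *
                (C₂ * ((n : ℝ) + 1) ^ B * (δ / C₃) / (ε * c (A * (n + 2) ^ 2))) =
                C₂ / (C₃ * ε) * (a (n + 1) * ((n : ℝ) + 1) ^ B / c (A * (n + 2) ^ 2)) * δ := by
              field_simp
            have h3 : C₂ / (C₃ * ε) * (a (n + 1) * ((n : ℝ) + 1) ^ B / c (A * (n + 2) ^ 2)) * δ ≤
                C₂ / (C₃ * ε) * K * δ :=
              mul_le_mul_of_nonneg_right
                (mul_le_mul_of_nonneg_left (hr n) (by positivity)) hδ.le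
            have h4 : (C₂ / (C₃ * ε) * K + |a 0| / C₃) * δ =
              C₂ / (C₃ * ε) * K * δ + |a 0| / C₃ * δ := by ring
            have h5 : 0 ≤ |a 0| / C₃ * δ := by positivity
            rw [h2, h4]
            linarith

end LibQR35
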