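import Pool.Agent.LibQR35.Defs
import Pool.Agent.LibQR35.PJ

/-! ROW PC : the bad set is closed.

PLAN. Write `g = a + q` with `‖q‖ <= c₀`. The set `T` of all pairs `(ξ, a)` in
`(κ → I) × Metric.closedBall (0 : Fin d → ℝ) L` such that for all `q` with `‖q‖ <= c₀` and all `y`:
`r <= ‖dsp J ξ y‖` or `S ξ + ∑ (a + q) l * dsp J ξ y l - ε - M ‖dsp J ξ y‖^2 <= S (upJ J ξ y)` is
closed (`isClosed_iInter`, union of two closed sets, `continuous_upJ`, `dsp` is continuous in
`ξ`). `BadJ` is its image under `Prod.fst`, a closed map since the closed ball is compact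
(`isClosedMap_fst_of_compactSpace`, `isCompact_iff_compactSpace`). -/

open MeasureTheory Set Filter Topology
open scoped ContDiff ENNReal NNReal unitInterval

namespace LibQR35

open BGS
open Pool.BGR (PM upI pj)

variable {κ : Type} [DecidableEq κ] {d : ℕ}

omit [DecidableEq κ] in
private theorem PC_dsp (J : Fin d → κ) (y : Fin d → I) :
    Continuous fun ξ : κ → I => dsp J ξ y :=
  continuous_pi fun l =>
    continuous_const.sub (continuous_subtype_val.comp (continuous_apply (J l)))

theorem BadJ_closed {S : (κ → I) → ℝ} (hS : Continuous S) (J : Fin d → κ) (L c₀ r M ε : ℝ) :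
    IsClosed (BadJ S J L c₀ r M ε) := by
  have : CompactSpace (Metric.closedBall (0 : Fin d → ℝ) L) :=
    isCompact_iff_compactSpace.1 (isCompact_closedBall 0 L)
  set T : Set ((κ → I) × Metric.closedBall (0 : Fin d → ℝ) L) :=
    ⋂ (q : Fin d → ℝ), ⋂ (_ : ‖q‖ ≤ c₀), ⋂ (y : Fin d → I),
      {p | r ≤ ‖dsp J p.1 y‖} ∪
      {p | S p.1 + ∑ l, ((p.2 : Fin d → ℝ) l + q l) * dsp J p.1 y l - ε -
        M * ‖dsp J p.1 y‖ ^ 2 ≤ S (upJ J p.1 y)} with hT
  have hTc : IsClosed T := by
    refine isClosed_iInter fun q => isClosed_iInter fun _ => isClosed_iInter fun y => ?_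
    have hd : Continuous fun p : (κ → I) × Metric.closedBall (0 : Fin d → ℝ) L =>
        dsp J p.1 y := (PC_dsp J y).comp continuous_fst
    have hdl : ∀ l, Continuous fun p : (κ → I) × Metric.closedBall (0 : Fin d → ℝ) L =>
        dsp J p.1 y l := fun l => (continuous_apply l).comp hd
    have hp : ∀ l, Continuous fun p : (κ → I) × Metric.closedBall (0 : Fin d → ℝ) L =>
        (p.2 : Fin d → ℝ) l := fun l =>
      (continuous_apply l).comp (continuous_subtype_val.comp continuous_snd)
    have hu : Continuous fun p : (κ → I) × Metric.closedBall (0 : Fin d → ℝ) L =>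
        upJ J p.1 y := (continuous_upJ J).comp (continuous_fst.prodMk continuous_const)
    refine (isClosed_le continuous_const hd.norm).union (isClosed_le ?_ (hS.comp hu))
    refine (((hS.comp continuous_fst).add ?_).sub continuous_const).sub
      (continuous_const.mul (hd.norm.pow 2))
    exact continuous_finsetSum _ fun l _ => ((hp l).add continuous_const).mul (hdl l)
  have hB : BadJ S J L c₀ r M ε = Prod.fst '' T := by
    ext ξ
    constructor
    · rintro ⟨a, ha, h⟩
      refine ⟨(ξ, ⟨a, by rwa [mem_closedBall_zero_iff]⟩), ?_, rfl⟩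
      rw [hT]
      simp only [Set.mem_iInter]
      intro q hq y
      by_cases hr : r ≤ ‖dsp J ξ y‖
      · exact Or.inl hr
      · refine Or.inr ?_
        exact h (a + q) (by rwa [add_sub_cancel_left]) y (not_le.1 hr)
    · rintro ⟨⟨ξ', a, ha⟩, hp, rfl⟩
      rw [hT] at hp
      simp only [Set.mem_iInter] at hp
      refine ⟨a, by rwa [mem_closedBall_zero_iff] at ha, fun g hg y hy => ?_⟩
      rcases hp (g - a) hg y with h | h
      · exact absurd hy (not_lt.2 h)
      · have h2 : ∀ l, a l + (g - a) l = g l := fun l => by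
          rw [Pi.sub_apply, add_sub_cancel]
        simp only [Set.mem_ofPred_eq, h2] at h
        exact h
  rw [hB]
  exact isClosedMap_fst_of_compactSpace T hTc

end LibQR35
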