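import Pool.Agent.LibQR35.GD
import Pool.Agent.LibQR35.BA2
import Pool.Agent.LibQR35.S1

/-! ROW SG : every test operator gives a slope of `FE`.

PLAN. Same set up and same lemmas as the proved row S1 (LibQR35/S1.lean: `per_bmp_le`, `B l u v`, `h`, `hκ`,
`hcmp`: `mu a (b + h) i <= muE (Φ (upJ J ξ y)) i`). Let `A = arE hX m (Φ ξ)`, `A_s = arE hX m (Φ (upJ J ξ y))`, both in
`[e^(-M'), e^M']` (`arE_bounds`), `κ = d C ‖s‖ <= 1/2`, `A' = h 1 1 = ∑ s l * Xo l`, `|A'| <= κ A`. Pointwise
`1 + σ <= e^σ <= 1 + σ + σ^2` (`|σ| <= κ <= 1/2`; `Real.abs_exp_sub_one_sub_id_le` or `Real.exp_bound`), so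
`A_s = A + A' + R`, `0 <= R <= κ^2 A`.
(1) `A_s * FE(ξ') = ∑_{i<k+n} max (muE(ξ') i - ν A_s) 0 >= ∑ max (mu a (b+h) i - ν A_s) 0` and `box_gen` (file BA2) with
`t = ν A_s`: `>= ∑_{i<k} (b_i + h_i - t) + ∑ W_ij (b_ij + h_ij - t δ_ij) - (k+n) 2 κ^2 mu0
= A * vE + lin - ν R (k + tr W) - (k+n) 2 κ^2 mu0`, `lin = ∑_{i<k} (h_i - ν A') + ∑ W_ij (h_ij - ν A' δ_ij)`,
`0 <= tr W <= n`.
(2) `|lin| <= C' κ`, `|vE| <= (k+n) (M₀ e^M' + V)` (`0 <= W <= 1`: `|W i j| <= 1`).
(3) divide by `A_s`: `(A vE + lin)/A_s = vE + lin/A - vE A'/A + O(κ^2)` (explicit: `1/A_s = 1/A - (A' + R)/(A A_s)`).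
(4) `vE <= FE(ξ)` (`box_gen` with `h = 0`, `κ = 0`), so `- vE A'/A >= - FE A'/A - (FE - vE)` and
`vE = FE - (FE - vE)`: total `FE - 2 (FE - vE) + (lin - FE A')/A - C κ^2`.
(5) `(lin - FE A')/A = ∑ l, s l * (a l + (1/A) ∑ W_ij Xv_l i j)`, with
`a l = (∑_{i<k} (B l (w i) (w i) - ν Xo l) - FE * Xo l) / A`, `|a l| <= L₁`. -/

open MeasureTheory Set Filter Topology
open scoped ContDiff ENNReal NNReal unitInterval

namespace LibQR35

open BGS
open Pool.BGR (PM upI pj)

variable {Γ : Type} [Group Γ] [MulAction Γ Pl] {D : Set Pl}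

private theorem SG_alg {A As A' R vE FE lin T κ E Kv Kl K1 : ℝ} (hA : 0 < A) (hAs : 0 < As)
    (hAE : A ≤ E) (hAsi : As⁻¹ ≤ E) (hsum : As = A + A' + R)
    (hR0 : 0 ≤ R) (hR : R ≤ κ ^ 2 * A) (hA' : |A'| ≤ κ * A) (hκ0 : 0 ≤ κ) (hκ1 : κ ≤ 1 / 2)
    (hv : |vE| ≤ Kv) (hl : |lin| ≤ Kl * κ) (hF : vE ≤ FE) (hK1 : 0 ≤ K1) (hKl : 0 ≤ Kl)
    (hT : A * vE + lin - K1 * κ ^ 2 ≤ As * T) :
    FE - 2 * (FE - vE) + (lin - FE * A') / A -
      (K1 * E + Kv + 4 * Kv * E ^ 2 + 2 * Kl * E) * κ ^ 2 ≤ T := by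
  set p := A' / A with hp
  set r := R / A with hr
  set i := As⁻¹ with hi
  have hi0 : 0 < i := inv_pos.2 hAs
  have hE0 : 0 < E := lt_of_lt_of_le hA hAE
  have hpA : A' = p * A := by rw [hp]; field_simp
  have hrA : R = r * A := by rw [hr]; field_simp
  have hAsi' : As * i = 1 := mul_inv_cancel₀ hAs.ne'
  have hq : A * i * (1 + p + r) = 1 := by
    calc A * i * (1 + p + r) = (A + p * A + r * A) * i := by ring
      _ = As * i := by rw [← hpA, ← hrA, ← hsum]
      _ = 1 := hAsi'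
  have hKv : 0 ≤ Kv := (abs_nonneg _).trans hv
  have hp1 : |p| ≤ κ := by
    rw [hp, abs_div, abs_of_pos hA, div_le_iff₀ hA]; exact hA'
  have hr0 : 0 ≤ r := div_nonneg hR0 hA.le
  have hr1 : r ≤ κ ^ 2 := by rw [hr, div_le_iff₀ hA]; exact hR
  have hpr : |p + r| ≤ 2 * κ := by
    refine (abs_add_le _ _).trans ?_
    rw [abs_of_nonneg hr0]
    nlinarith
  have hT' : (A * vE + lin - K1 * κ ^ 2) * i ≤ T := by
    have h1 := mul_le_mul_of_nonneg_right hT hi0.le
    have h2 : As * T * i = T := by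
      calc As * T * i = T * (As * i) := by ring
        _ = T := by rw [hAsi', mul_one]
    rw [h2] at h1
    exact h1
  -- the exact expansion
  set q := A * i with hqd
  have hq0 : 0 < q := mul_pos hA hi0
  have hqE : q ≤ E ^ 2 := by
    rw [sq]; exact mul_le_mul hAE hAsi hi0.le hE0.le
  have hq1 : q = 1 - (p + r) + q * (p + r) ^ 2 := by
    have h1 : q = 1 - q * (p + r) := by linarith
    nlinarith
  have hlA : lin * i = lin / A - lin * i * (p + r) := by
    have h1 : lin / A = lin / A * (q * (1 + p + r)) := by rw [hq, mul_one]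
    rw [h1, hqd]
    field_simp
    ring
  have e1 : (A * vE + lin - K1 * κ ^ 2) * i =
      vE - vE * p - vE * r + vE * (q * (p + r) ^ 2) + lin / A - lin * i * (p + r) - K1 * κ ^ 2 * i := by
    have h1 : (A * vE + lin - K1 * κ ^ 2) * i = vE * q + lin * i - K1 * κ ^ 2 * i := by
      rw [hqd]; ring
    rw [h1]
    linear_combination vE * hq1 + hlA
  have b1 : vE * r ≤ Kv * κ ^ 2 := by
    calc vE * r ≤ |vE| * r := mul_le_mul_of_nonneg_right (le_abs_self _) hr0
      _ ≤ Kv * κ ^ 2 := mul_le_mul hv hr1 hr0 hKv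
  have hsq : (p + r) ^ 2 ≤ 4 * κ ^ 2 := by
    have h1 := abs_le.1 hpr
    nlinarith
  have b2 : -(Kv * (E ^ 2 * (4 * κ ^ 2))) ≤ vE * (q * (p + r) ^ 2) := by
    have h1 : |vE * (q * (p + r) ^ 2)| ≤ Kv * (E ^ 2 * (4 * κ ^ 2)) := by
      rw [abs_mul, abs_of_nonneg (by positivity : (0 : ℝ) ≤ q * (p + r) ^ 2)]
      apply mul_le_mul hv _ (by positivity) hKv
      exact mul_le_mul hqE hsq (sq_nonneg _) (by positivity)
    exact (abs_le.1 h1).1
  have b3 : lin * i * (p + r) ≤ Kl * κ * E * (2 * κ) := by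
    have h1 : |lin * i * (p + r)| ≤ Kl * κ * E * (2 * κ) := by
      rw [abs_mul, abs_mul, abs_of_pos hi0]
      apply mul_le_mul _ hpr (abs_nonneg _) (by positivity)
      exact mul_le_mul hl hAsi hi0.le (by positivity)
    exact (le_abs_self _).trans h1
  have b4 : K1 * κ ^ 2 * i ≤ K1 * κ ^ 2 * E := mul_le_mul_of_nonneg_left hAsi (by positivity)
  have b5 : FE - FE * p - 2 * (FE - vE) ≤ vE - vE * p := by
    have h1 := abs_le.1 hp1
    have h2 : 0 ≤ FE - vE := by linarith
    have h3 : 0 ≤ (FE - vE) * (1 + p) := mul_nonneg h2 (by linarith)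
    nlinarith
  have e2 : (lin - FE * A') / A = lin / A - FE * p := by rw [hp]; ring
  rw [e2]
  rw [e1] at hT'
  nlinarith

private theorem SG_entry {n : ℕ} {W : Fin n → Fin n → ℝ} (hW : Opr W) (i j : Fin n) :
    |W i j| ≤ 1 := by
  obtain ⟨hs, h0, h1⟩ := hW
  have hx : ∀ (i j : Fin n) (c : ℝ), ∑ a, ∑ b, W a b *
      (((if a = i then 1 else 0) + if a = j then c else 0) *
        ((if b = i then 1 else 0) + if b = j then c else 0)) =
      W i i + c * W i j + c * W j i + c ^ 2 * W j j := by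
    intro i j c
    have e2 : ∀ (p q : Fin n) (c₁ c₂ : ℝ),
        ∑ a, ∑ b, W a b * ((if a = p then c₁ else 0) * (if b = q then c₂ else 0)) =
          W p q * (c₁ * c₂) := by
      intro p q c₁ c₂
      rw [Finset.sum_eq_single p]
      · rw [Finset.sum_eq_single q]
        · simp
        · intro b _ hb
          simp [hb]
        · intro h
          exact absurd (Finset.mem_univ _) h
      · intro a _ ha
        simp [ha]
      · intro h
        exact absurd (Finset.mem_univ _) h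
    have e1 : ∀ a b, W a b * (((if a = i then (1 : ℝ) else 0) + if a = j then c else 0) *
        ((if b = i then 1 else 0) + if b = j then c else 0)) =
        W a b * ((if a = i then (1 : ℝ) else 0) * (if b = i then (1 : ℝ) else 0)) +
        W a b * ((if a = i then (1 : ℝ) else 0) * (if b = j then c else 0)) +
        W a b * ((if a = j then c else 0) * (if b = i then (1 : ℝ) else 0)) +
        W a b * ((if a = j then c else 0) * (if b = j then c else 0)) := by
      intro a b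
      ring
    simp only [e1, Finset.sum_add_distrib]
    rw [e2, e2, e2, e2]
    ring
  have hii : ∀ i, 0 ≤ W i i ∧ W i i ≤ 1 := by
    intro i
    have g0 := h0 fun a => (if a = i then 1 else 0) + if a = i then 0 else 0
    have g1 := h1 fun a => (if a = i then 1 else 0) + if a = i then 0 else 0
    rw [hx i i 0] at g0 g1
    have e3 : ∑ a, ((if a = i then (1 : ℝ) else 0) + if a = i then 0 else 0) ^ 2 = 1 := by
      rw [Finset.sum_eq_single i]
      · simp
      · intro a _ ha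
        simp [ha]
      · intro h
        exact absurd (Finset.mem_univ _) h
    rw [e3] at g1
    constructor <;> linarith
  by_cases hij : i = j
  · subst hij
    rw [abs_of_nonneg (hii i).1]
    exact (hii i).2
  · have hc : ∀ c : ℝ, c ^ 2 = 1 → c * W i j ≤ 1 := by
      intro c hc
      have g1 := h1 fun a => (if a = i then 1 else 0) + if a = j then c else 0
      rw [hx i j c, hs j i, hc] at g1
      have e3 : ∑ a, ((if a = i then (1 : ℝ) else 0) + if a = j then c else 0) ^ 2 = 2 := by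
        have e4 : ∀ a, ((if a = i then (1 : ℝ) else 0) + if a = j then c else 0) ^ 2 =
            (if a = i then 1 else 0) + if a = j then 1 else 0 := by
          intro a
          by_cases h1 : a = i
          · have h2 : a ≠ j := fun h => hij (h1 ▸ h)
            simp [h1, hij]
          · by_cases h2 : a = j
            · simp [h2, hc, Ne.symm hij]
            · simp [h1, h2]
        simp only [e4, Finset.sum_add_distrib, Finset.sum_ite_eq', Finset.mem_univ, if_true]
        norm_num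
      rw [e3] at g1
      have := (hii i).1
      have := (hii j).1
      linarith
    have g1 := hc 1 (by norm_num)
    have g2 := hc (-1) (by norm_num)
    rw [abs_le]
    constructor <;> linarith

private theorem SG_sc (k : ℕ) (X : ℝ) : ∑ _i : Fin k, X = k * X := by
  rw [Finset.sum_const, Finset.card_univ, Fintype.card_fin, nsmul_eq_mul]

private theorem SG_dsum {n : ℕ} {W x : Fin n → Fin n → ℝ} {X : ℝ} (hW : ∀ i j, |W i j| ≤ 1)
    (hx : ∀ i j, |x i j| ≤ X) : |∑ i, ∑ j, W i j * x i j| ≤ (n : ℝ) ^ 2 * X := by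
  have h1 : ∀ i j, |W i j * x i j| ≤ X := by
    intro i j
    rw [abs_mul]
    have h2 := abs_nonneg (x i j)
    have h3 := hW i j
    have h4 := hx i j
    nlinarith
  have h5 : ∀ i, |∑ j, W i j * x i j| ≤ n * X := by
    intro i
    refine (Finset.abs_sum_le_sum_abs _ _).trans ((Finset.sum_le_sum fun j _ => h1 i j).trans ?_)
    simp
  refine (Finset.abs_sum_le_sum_abs _ _).trans ((Finset.sum_le_sum fun i _ => h5 i).trans ?_)
  simp
  apply le_of_eq
  ring

private theorem SG_polar {E : Type} [AddCommGroup E] [Module ℝ E]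
    {b h : LinearMap.BilinForm ℝ E} {κ : ℝ} (hs : ∀ u v, h u v = h v u)
    (hκ : ∀ u, |h u u| ≤ κ * b u u) (u v : E) : |h u v| ≤ κ * ((b u u + b v v) / 2) := by
  have h1 := hκ (u + v)
  have h2 := hκ (u - v)
  have e1 : h (u + v) (u + v) = h u u + 2 * h u v + h v v := by
    rw [map_add, map_add, LinearMap.add_apply, LinearMap.add_apply, hs v u]
    ring
  have e2 : h (u - v) (u - v) = h u u - 2 * h u v + h v v := by
    rw [map_sub, map_sub, LinearMap.sub_apply, LinearMap.sub_apply, hs v u]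
    ring
  have e3 : b (u + v) (u + v) + b (u - v) (u - v) = 2 * (b u u + b v v) := by
    rw [map_add, map_add, LinearMap.add_apply, LinearMap.add_apply, map_sub, map_sub,
      LinearMap.sub_apply, LinearMap.sub_apply]
    ring
  rw [e1] at h1
  rw [e2] at h2
  have h3 := abs_le.1 h1
  have h4 := abs_le.1 h2
  have e4 : κ * b (u + v) (u + v) + κ * b (u - v) (u - v) = κ * (2 * (b u u + b v v)) := by
    rw [← mul_add, e3]
  rw [abs_le]
  constructor <;> linarith [h3.1, h3.2, h4.1, h4.2]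

theorem slice_gen (hX : Surface Γ D) (m : Mt Γ D) (L : ℕ) {c : ℕ → ℝ} (hc : Cs c)
    (ψ : TestS Γ) (k n d : ℕ) {V : ℝ} (hV : 0 ≤ V) :
    ∃ L₁ r M : ℝ, 0 < L₁ ∧ 0 < r ∧ 0 < M ∧
      ∀ (Φ : (Dir → I) → TestS Γ), (∀ ξ z, (Φ ξ).1 z = ψ.1 z + phi Γ L c ξ z) →
      ∀ (J : Fin d → Dir), Function.Injective J → (∀ l, Valid L (J l)) →
      ∀ ν : ℝ, |ν| ≤ V → ∀ (ξ : Dir → I) (δ : ℝ) (w : Fin (k + n) → TestS Γ),
        Fr (aF hX m) (bF hX m (expT (Φ ξ))) (oneT Γ) δ w →
        ∃ a : Fin d → ℝ, ‖a‖ ≤ L₁ ∧ ∀ W : Fin n → Fin n → ℝ, Opr W → ∀ y : Fin d → I,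
          ‖dsp J ξ y‖ < r →
          FE hX m (k + n) ν (Φ ξ) - 2 * (FE hX m (k + n) ν (Φ ξ) - vE hX m ν (Φ ξ) w W) +
            ∑ l, (a l + (∑ i, ∑ j, W i j * Xv Γ D m.1.1 c (Φ ξ).1 (fun _ => ν)
              (fun i => (w (Fin.natAdd k i)).1) (J l) i j) / arE hX m (Φ ξ)) * dsp J ξ y l -
            M * ∑ l, dsp J ξ y l ^ 2 ≤ FE hX m (k + n) ν (Φ (upJ J ξ y)) := by
  obtain ⟨C, hC0, hC⟩ := per_bmp_le hX L
  obtain ⟨M₁, hM1, hM1'⟩ := test_bdd hX ψ
  obtain ⟨M₂, hM2, hM2'⟩ := phi_bound hX L hc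
  obtain ⟨M₀, hM0, hM0'⟩ := muE_upper hX m (M₁ + M₂)
  set E : ℝ := Real.exp (M₁ + M₂) with hE
  have hE0 : 0 < E := Real.exp_pos _
  have hE1 : 1 ≤ E := Real.one_le_exp (by linarith)
  set Kv : ℝ := ((k : ℝ) + (n : ℝ) ^ 2) * (M₀ * E + V) with hKv
  set Kl : ℝ := ((k : ℝ) + (n : ℝ) ^ 2) * (M₀ + V * E) with hKl
  set K1 : ℝ := V * E * ((k : ℝ) + (n : ℝ) ^ 2) + ((k : ℝ) + n) * (2 * M₀) with hK1
  have hKv0 : 0 ≤ Kv := by positivity
  have hKl0 : 0 ≤ Kl := by positivity
  have hK10 : 0 ≤ K1 := by positivity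
  set Kt : ℝ := K1 * E + Kv + 4 * Kv * E ^ 2 + 2 * Kl * E with hKt
  have hKt0 : 0 ≤ Kt := by positivity
  refine ⟨(k * (C * M₀ + V * (C * E)) + ((k : ℝ) + n) * (M₀ * E + V) * (C * E)) * E + 1,
    1 / (2 * (d * C) + 1), Kt * (d * C) ^ 2 + 1, by positivity, by positivity, by positivity, ?_⟩
  intro Φ hΦ J hJ hv ν hν ξ δ w hw
  set φ : TestS Γ := Φ ξ with hφ
  set b := bF hX m (expT φ) with hb
  have hbd : ∀ ξ' z, |(Φ ξ').1 z| ≤ M₁ + M₂ := by
    intro ξ' z
    rw [hΦ ξ' z]
    exact (abs_add_le _ _).trans (add_le_add (hM1' z) (hM2' ξ' z))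
  have hφM : ∀ z, |φ.1 z| ≤ M₁ + M₂ := hbd ξ
  have hmu : ∀ i, mu (aF hX m) b i ≤ M₀ := fun i => hM0' φ hφM i
  have hbnn : ∀ u, 0 ≤ b u u := fun u => KEX_nonneg hX m _ (fun z => (KEX_pos φ z).le) u
  have hR : ∀ l, 1 ≤ (J l).1 + 1 := fun l => Nat.le_add_left 1 _
  set A : ℝ := arE hX m φ with hA
  have hA0 : 0 < A := arE_pos hX m φ
  have hAE : A ≤ E := (arE_bounds hX m φ hφM).2
  have hAi : A⁻¹ ≤ E := by
    have h1 := (arE_bounds hX m φ hφM).1
    rw [hE, ← inv_inv (Real.exp (M₁ + M₂)), ← Real.exp_neg]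
    exact inv_anti₀ (Real.exp_pos _) h1
  have hA1 : b (oneT Γ) (oneT Γ) = A := rfl
  set η : Fin d → TestS Γ := fun l => KEX_eta hX (hR l) (J l).2 with hη
  set B : Fin d → TestS Γ → TestS Γ → ℝ := fun l u v =>
    c (J l).1 * bF hX m (KEX_mul (expT φ) (η l)) u v with hB
  have hBb : ∀ l u, |B l u u| ≤ C * b u u := by
    intro l u
    have h1 : 0 ≤ bF hX m (KEX_mul (expT φ) (η l)) u u := KEX_nonneg hX m _
      (fun z => mul_nonneg (KEX_pos φ z).le (per_bmp_nonneg _ _ z)) u
    have h2 : bF hX m (KEX_mul (expT φ) (η l)) u u ≤ C * b u u := bF_le hX m (fun z => by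
      rw [KEX_mul_apply, mul_comm]
      exact mul_le_mul_of_nonneg_right (hC _ (hR l) _ (hv l) z) (KEX_pos φ z).le) u
    have h3 := hc.pos (J l).1
    have h4 := hc.le_one (J l).1
    rw [hB]
    dsimp only
    rw [abs_of_nonneg (mul_nonneg h3.le h1)]
    nlinarith
  have hbw : ∀ i, b (w i) (w i) ≤ M₀ := fun i => (hw.up i).trans (hmu _)
  have hBw : ∀ l i, |B l (w i) (w i)| ≤ C * M₀ := fun l i =>
    (hBb l (w i)).trans (mul_le_mul_of_nonneg_left (hbw i) hC0.le)
  -- the moments of one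
  set Xo' : Fin d → ℝ := fun l => B l (oneT Γ) (oneT Γ) with hXo'
  have hXo : ∀ l, Xo Γ D m.1.1 c φ.1 (J l) = Xo' l := by
    intro l
    rw [hXo', hB]
    dsimp only
    unfold Xo
    rw [bF_apply]
    congr 1
    refine integral_congr_ae (Filter.Eventually.of_forall fun z => ?_)
    change Real.exp (φ.1 z) * per Γ (bmp ((J l).1 + 1) (J l).2) z * √(dt (m.1.1 z)) =
      Real.exp (φ.1 z) * per Γ (bmp ((J l).1 + 1) (J l).2) z * (1 : ℝ) * (1 : ℝ) * √(dt (m.1.1 z))
    ring
  have hXob : ∀ l, |Xo' l| ≤ C * E := fun l =>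
    (hBb l (oneT Γ)).trans (mul_le_mul_of_nonneg_left (by rw [hA1]; exact hAE) hC0.le)
  set F : ℝ := FE hX m (k + n) ν φ with hF
  have hF0 : |F| ≤ ((k : ℝ) + n) * (M₀ * E + V) := by
    have h1 : ∀ i ∈ Finset.range (k + n), |max (nuE hX m φ i - ν) 0| ≤ M₀ * E + V := by
      intro i _
      rw [abs_of_nonneg (le_max_right _ _)]
      have h2 : nuE hX m φ i ≤ M₀ * E := by
        unfold nuE
        rw [div_eq_mul_inv]
        exact mul_le_mul (hmu i) hAi (inv_pos.2 hA0).le hM0.le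
      have h3 := (abs_le.1 hν).1
      exact max_le (by linarith) (by positivity)
    rw [hF]
    unfold FE
    refine (Finset.abs_sum_le_sum_abs _ _).trans ((Finset.sum_le_sum h1).trans ?_)
    rw [Finset.sum_const, Finset.card_range, nsmul_eq_mul]
    push_cast
    exact le_rfl
  -- the slopes
  set a : Fin d → ℝ := fun l => (∑ i : Fin k,
    (B l (w (Fin.castAdd n i)) (w (Fin.castAdd n i)) - ν * Xo' l) - F * Xo' l) / A with ha
  refine ⟨a, ?_, ?_⟩
  · refine (pi_norm_le_iff_of_nonneg (by positivity)).2 fun l => ?_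
    rw [Real.norm_eq_abs, ha]
    dsimp only
    rw [abs_div, abs_of_pos hA0, div_eq_mul_inv]
    have h1 : |∑ i : Fin k, (B l (w (Fin.castAdd n i)) (w (Fin.castAdd n i)) - ν * Xo' l)| ≤
        k * (C * M₀ + V * (C * E)) := by
      have h2 : ∀ i ∈ (Finset.univ : Finset (Fin k)),
          |B l (w (Fin.castAdd n i)) (w (Fin.castAdd n i)) - ν * Xo' l| ≤
          C * M₀ + V * (C * E) := by
        intro i _
        refine (abs_sub _ _).trans (add_le_add (hBw l _) ?_)
        rw [abs_mul]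
        exact mul_le_mul hν (hXob l) (abs_nonneg _) hV
      exact (Finset.abs_sum_le_sum_abs _ _).trans ((Finset.sum_le_sum h2).trans (SG_sc _ _).le)
    have h3 : |F * Xo' l| ≤ ((k : ℝ) + n) * (M₀ * E + V) * (C * E) := by
      rw [abs_mul]
      exact mul_le_mul hF0 (hXob l) (abs_nonneg _) (by positivity)
    have h4 : |∑ i : Fin k, (B l (w (Fin.castAdd n i)) (w (Fin.castAdd n i)) - ν * Xo' l) -
        F * Xo' l| * A⁻¹ ≤ (k * (C * M₀ + V * (C * E)) +
          ((k : ℝ) + n) * (M₀ * E + V) * (C * E)) * E :=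
      mul_le_mul ((abs_sub _ _).trans (add_le_add h1 h3)) hAi (inv_pos.2 hA0).le (by positivity)
    linarith
  intro W hWo y hy
  have hWe := SG_entry hWo
  set s : Fin d → ℝ := dsp J ξ y with hs
  have hsl : ∀ l, |s l| ≤ ‖s‖ := fun l => norm_le_pi_norm s l
  -- the perturbation
  set W' : TestS Γ := ∑ l, (s l * c (J l).1) • KEX_mul (expT φ) (η l) with hW'
  set h : LinearMap.BilinForm ℝ (TestS Γ) := bF hX m W' with hh
  have hhB : ∀ u v, h u v = ∑ l, s l * B l u v := by
    intro u v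
    rw [hh, hW', S1_bF_sum]
    refine Finset.sum_congr rfl fun l _ => ?_
    rw [hB]
    ring
  have hdC : 0 ≤ (d : ℝ) * C := by positivity
  set κ : ℝ := d * C * ‖s‖ with hκd
  have hκ0 : 0 ≤ κ := by positivity
  have hκ : ∀ u, |h u u| ≤ κ * b u u := by
    intro u
    rw [hhB]
    refine (Finset.abs_sum_le_sum_abs _ _).trans ?_
    calc ∑ l, |s l * B l u u| ≤ ∑ _l : Fin d, ‖s‖ * (C * b u u) :=
          Finset.sum_le_sum fun l _ => by
            rw [abs_mul]
            exact mul_le_mul (hsl l) (hBb l u) (abs_nonneg _) (norm_nonneg _)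
      _ = κ * b u u := by
          simp
          ring
  have hκ1 : κ ≤ 1 / 2 := by
    have h1 : ‖s‖ ≤ 1 / (2 * (d * C) + 1) := hy.le
    rw [le_div_iff₀ (by positivity)] at h1
    nlinarith [norm_nonneg s]
  have hsym : ∀ u v, h u v = h v u := KEX_symm hX m W'
  have hbsym : ∀ u v, b u v = b v u := KEX_symm hX m (expT φ)
  -- the perturbed weight
  set φ' : TestS Γ := Φ (upJ J ξ y) with hφ'
  set b' := bF hX m (expT φ') with hb'
  set sg : Pl → ℝ := fun z => ∑ l, c (J l).1 * s l * per Γ (bmp ((J l).1 + 1) (J l).2) z with hsg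
  have hφsg : ∀ z, φ'.1 z = φ.1 z + sg z := by
    intro z
    rw [hφ', hΦ (upJ J ξ y) z, phi_upJ hX L hc hJ hv ξ y z, ← add_assoc, ← hΦ ξ z]
  have hsgκ : ∀ z, |sg z| ≤ κ := by
    intro z
    rw [hsg]
    dsimp only
    refine (Finset.abs_sum_le_sum_abs _ _).trans ?_
    calc ∑ l, |c (J l).1 * s l * per Γ (bmp ((J l).1 + 1) (J l).2) z| ≤
          ∑ _l : Fin d, ‖s‖ * C := Finset.sum_le_sum fun l _ => by
            have h1 := per_bmp_nonneg (Γ := Γ) ((J l).1 + 1) (J l).2 z
            rw [abs_mul, abs_mul, abs_of_pos (hc.pos _), abs_of_nonneg h1]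
            apply mul_le_mul _ (hC _ (hR l) _ (hv l) z) h1 (norm_nonneg _)
            have h2 := hc.le_one (J l).1
            have h3 := hc.pos (J l).1
            have h4 := hsl l
            have h5 := abs_nonneg (s l)
            nlinarith
      _ = κ := by
          simp
          ring
  have hWz : ∀ z, W'.1 z = Real.exp (φ.1 z) * sg z := by
    intro z
    rw [hW', Submodule.coe_sum, Finset.sum_apply, hsg]
    dsimp only
    rw [Finset.mul_sum]
    refine Finset.sum_congr rfl fun l _ => ?_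
    rw [Submodule.coe_smul, Pi.smul_apply, smul_eq_mul, KEX_mul_apply, expT_apply]
    change s l * c (J l).1 * (Real.exp (φ.1 z) * per Γ (bmp ((J l).1 + 1) (J l).2) z) = _
    ring
  have hbh : b + h = bF hX m (expT φ + (1 : ℝ) • W') := by
    rw [bF_add_smul, one_smul]
  have hlow : ∀ u, (b + h) u u ≤ b' u u := by
    intro u
    rw [hbh]
    have h1 := bF_le hX m (w := expT φ + (1 : ℝ) • W') (w' := expT φ') (θ := 1) (fun z => by
      rw [one_smul, Submodule.coe_add, Pi.add_apply, expT_apply, hWz, one_mul, expT_apply, hφsg z,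
        Real.exp_add]
      have h2 := mul_le_mul_of_nonneg_left (Real.add_one_le_exp (sg z)) (Real.exp_pos (φ.1 z)).le
      nlinarith) u
    rw [one_mul] at h1
    exact h1
  have hupp : ∀ u, b' u u ≤ (b + h) u u + κ ^ 2 * b u u := by
    intro u
    have h1 := bF_le hX m (w := expT φ') (w' := (expT φ + (1 : ℝ) • W') + (κ ^ 2) • expT φ)
      (θ := 1) (fun z => by
        rw [one_smul, Submodule.coe_add, Submodule.coe_add, Submodule.coe_smul, Pi.add_apply,
          Pi.add_apply, Pi.smul_apply, smul_eq_mul, expT_apply, hWz, one_mul, expT_apply, hφsg z,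
          Real.exp_add]
        have h2 := Real.abs_exp_sub_one_sub_id_le (x := sg z) ((hsgκ z).trans (by linarith))
        have h3 := (abs_le.1 h2).2
        have h4 : sg z ^ 2 ≤ κ ^ 2 := sq_le_sq' (abs_le.1 (hsgκ z)).1 (abs_le.1 (hsgκ z)).2
        have h5 := mul_le_mul_of_nonneg_left (by linarith : Real.exp (sg z) ≤ 1 + sg z + κ ^ 2)
          (Real.exp_pos (φ.1 z)).le
        nlinarith) u
    rw [one_mul, bF_add_smul, ← hbh] at h1
    exact h1
  have hcmp : ∀ i, mu (aF hX m) (b + h) i ≤ muE hX m φ' i := by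
    intro i
    have h1 := mu_le_of_le (a := aF hX m) (b := b + h) (b' := b') one_pos (expT_lam1 hX m _)
      (fun u => by rw [one_mul]; exact hlow u) i
    rw [one_mul] at h1
    exact h1
  -- the areas
  set As : ℝ := arE hX m φ' with hAs
  have hAs0 : 0 < As := arE_pos hX m φ'
  have hAsi : As⁻¹ ≤ E := by
    have h1 := (arE_bounds hX m φ' (hbd (upJ J ξ y))).1
    rw [hE, ← inv_inv (Real.exp (M₁ + M₂)), ← Real.exp_neg]
    exact inv_anti₀ (Real.exp_pos _) h1
  set A' : ℝ := h (oneT Γ) (oneT Γ) with hA'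
  set R : ℝ := As - A - A' with hRd
  have hR0 : 0 ≤ R := by
    have h1 := hlow (oneT Γ)
    rw [LinearMap.add_apply, LinearMap.add_apply, hA1] at h1
    change A + A' ≤ As at h1
    linarith
  have hR1 : R ≤ κ ^ 2 * A := by
    have h1 := hupp (oneT Γ)
    rw [LinearMap.add_apply, LinearMap.add_apply, hA1] at h1
    change As ≤ A + A' + κ ^ 2 * A at h1
    linarith
  have hA'κ : |A'| ≤ κ * A := by
    have h1 := hκ (oneT Γ)
    rw [hA1] at h1
    exact h1
  have hsum : As = A + A' + R := by rw [hRd]; ring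
  -- the values
  set U : Fin k → TestS Γ := fun i => w (Fin.castAdd n i) with hU
  set u : Fin n → TestS Γ := fun j => w (Fin.natAdd k j) with hu
  set v : ℝ := vE hX m ν φ w W with hvd
  set lin : ℝ := ∑ i : Fin k, (h (U i) (U i) - ν * A') +
    ∑ i, ∑ j, W i j * (h (u i) (u j) - if i = j then ν * A' else 0) with hlin
  have hAv : A * v = ∑ i : Fin k, (b (U i) (U i) - ν * A) +
      ∑ i, ∑ j, W i j * (b (u i) (u j) - if i = j then ν * A else 0) := by
    rw [hvd]
    unfold vE
    rw [mul_add, Finset.mul_sum, Finset.mul_sum]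
    congr 1
    · refine Finset.sum_congr rfl fun i _ => ?_
      change A * (b (U i) (U i) / A - ν) = b (U i) (U i) - ν * A
      field_simp
    · refine Finset.sum_congr rfl fun i _ => ?_
      rw [Finset.mul_sum]
      refine Finset.sum_congr rfl fun j _ => ?_
      change A * (W i j * (b (u i) (u j) / A - if i = j then ν else 0)) =
        W i j * (b (u i) (u j) - if i = j then ν * A else 0)
      split_ifs
      · field_simp
      · rw [sub_zero, sub_zero]
        field_simp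
  have hbuv : ∀ i j, |b (w i) (w j)| ≤ M₀ := by
    intro i j
    have h1 := SG_polar (b := b) (h := b) (κ := 1) hbsym
      (fun u => by rw [one_mul, abs_of_nonneg (hbnn u)]) (w i) (w j)
    have h2 := hbw i
    have h3 := hbw j
    linarith
  have hhuv : ∀ i j, |h (w i) (w j)| ≤ κ * M₀ := by
    intro i j
    refine (SG_polar hsym hκ (w i) (w j)).trans (mul_le_mul_of_nonneg_left ?_ hκ0)
    have h2 := hbw i
    have h3 := hbw j
    linarith
  have hνA' : |ν * A'| ≤ V * E * κ := by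
    rw [abs_mul]
    calc |ν| * |A'| ≤ V * (κ * E) := mul_le_mul hν
          (hA'κ.trans (mul_le_mul_of_nonneg_left hAE hκ0)) (abs_nonneg _) hV
      _ = V * E * κ := by ring
  have hvb : |v| ≤ Kv := by
    have hX0 : ∀ i j, |b (w i) (w j) / A| ≤ M₀ * E := by
      intro i j
      rw [abs_div, abs_of_pos hA0, div_eq_mul_inv]
      exact mul_le_mul (hbuv i j) hAi (inv_pos.2 hA0).le hM0.le
    rw [hvd]
    unfold vE
    refine (abs_add_le _ _).trans ?_
    rw [hKv, add_mul]
    apply add_le_add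
    · have h2 : ∀ i ∈ (Finset.univ : Finset (Fin k)),
          |bF hX m (expT φ) (w (Fin.castAdd n i)) (w (Fin.castAdd n i)) / arE hX m φ - ν| ≤
          M₀ * E + V := fun i _ => (abs_sub _ _).trans (add_le_add (hX0 _ _) hν)
      exact (Finset.abs_sum_le_sum_abs _ _).trans ((Finset.sum_le_sum h2).trans (SG_sc _ _).le)
    · refine SG_dsum hWe fun i j => ?_
      split_ifs
      · exact (abs_sub _ _).trans (add_le_add (hX0 _ _) hν)
      · rw [sub_zero]
        have := hX0 (Fin.natAdd k i) (Fin.natAdd k j)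
        linarith
  have hlb : |lin| ≤ Kl * κ := by
    rw [hlin]
    refine (abs_add_le _ _).trans ?_
    have e1 : Kl * κ = (k : ℝ) * (κ * M₀ + V * E * κ) + (n : ℝ) ^ 2 * (κ * M₀ + V * E * κ) := by
      rw [hKl]; ring
    rw [e1]
    apply add_le_add
    · have h2 : ∀ i ∈ (Finset.univ : Finset (Fin k)),
          |h (U i) (U i) - ν * A'| ≤ κ * M₀ + V * E * κ :=
        fun i _ => (abs_sub _ _).trans (add_le_add (hhuv _ _) hνA')
      exact (Finset.abs_sum_le_sum_abs _ _).trans ((Finset.sum_le_sum h2).trans (SG_sc _ _).le)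
    · refine SG_dsum hWe fun i j => ?_
      split_ifs
      · exact (abs_sub _ _).trans (add_le_add (hhuv _ _) hνA')
      · rw [sub_zero]
        have h3 := hhuv (Fin.natAdd k i) (Fin.natAdd k j)
        have h4 : 0 ≤ V * E * κ := by positivity
        change |h (w (Fin.natAdd k i)) (w (Fin.natAdd k j))| ≤ _
        linarith
  have P := pair_surface hX m (expT φ) (fun z => Real.exp_pos _)
  -- `vE ≤ FE`
  have hmax : ∀ (x t : ℝ) {A : ℝ}, 0 < A → A * max (x / A - t) 0 = max (x - t * A) 0 := by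
    intro x t A hA
    rw [mul_max_of_nonneg _ _ hA.le, mul_zero]
    congr 1
    field_simp
  have hvF : v ≤ F := by
    have h1 := box_gen P (expT_lam1 hX m φ) hw (0 : LinearMap.BilinForm ℝ (TestS Γ)) (κ := 0)
      (fun _ _ => rfl) (fun u => by simp) le_rfl (by norm_num) (ν * A) W hWo.1 hWo.2.1 hWo.2.2
    simp only [LinearMap.zero_apply, add_zero] at h1
    have h2 : A * F = ∑ i ∈ Finset.range (k + n), max (mu (aF hX m) b i - ν * A) 0 := by
      rw [hF]
      unfold FE
      rw [Finset.mul_sum]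
      exact Finset.sum_congr rfl fun i _ => hmax _ _ hA0
    have h3 : A * v ≤ A * F := by
      rw [hAv, h2]
      have h4 : ((k : ℝ) + n) * (2 * (0 : ℝ) ^ 2 * mu (aF hX m) b 0) = 0 := by ring
      rw [h4, sub_zero] at h1
      exact h1
    exact le_of_mul_le_mul_left h3 hA0
  -- the main inequality
  have hT : A * v + lin - K1 * κ ^ 2 ≤ As * FE hX m (k + n) ν φ' := by
    have h1 := box_gen P (expT_lam1 hX m φ) hw h hsym hκ hκ0 hκ1 (ν * As) W hWo.1 hWo.2.1 hWo.2.2
    have h2 : As * FE hX m (k + n) ν φ' =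
        ∑ i ∈ Finset.range (k + n), max (muE hX m φ' i - ν * As) 0 := by
      unfold FE
      rw [Finset.mul_sum]
      exact Finset.sum_congr rfl fun i _ => hmax _ _ hAs0
    have h3 : ∑ i ∈ Finset.range (k + n), max (mu (aF hX m) (b + h) i - ν * As) 0 ≤
        As * FE hX m (k + n) ν φ' := by
      rw [h2]
      exact Finset.sum_le_sum fun i _ => max_le_max (by linarith [hcmp i]) le_rfl
    refine le_trans ?_ (h1.trans h3)
    have e1 : ∑ i : Fin k, (b (w (Fin.castAdd n i)) (w (Fin.castAdd n i)) +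
          h (w (Fin.castAdd n i)) (w (Fin.castAdd n i)) - ν * As) =
        ∑ i : Fin k, (b (U i) (U i) - ν * A) + ∑ i : Fin k, (h (U i) (U i) - ν * A') -
          k * (ν * R) := by
      rw [← Finset.sum_add_distrib, eq_sub_iff_add_eq]
      have e2 : (k : ℝ) * (ν * R) = ∑ _i : Fin k, ν * R := by simp
      rw [e2, ← Finset.sum_add_distrib]
      refine Finset.sum_congr rfl fun i _ => ?_
      rw [hsum]
      simp only [hU]
      ring
    have e3 : ∑ i, ∑ j, W i j * (b (w (Fin.natAdd k i)) (w (Fin.natAdd k j)) +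
          h (w (Fin.natAdd k i)) (w (Fin.natAdd k j)) - if i = j then ν * As else 0) =
        ∑ i, ∑ j, W i j * (b (u i) (u j) - if i = j then ν * A else 0) +
          ∑ i, ∑ j, W i j * (h (u i) (u j) - if i = j then ν * A' else 0) -
          ∑ i, ∑ j, W i j * (if i = j then ν * R else 0) := by
      rw [← Finset.sum_add_distrib, ← Finset.sum_sub_distrib]
      refine Finset.sum_congr rfl fun i _ => ?_
      rw [← Finset.sum_add_distrib, ← Finset.sum_sub_distrib]
      refine Finset.sum_congr rfl fun j _ => ?_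
      simp only [hu]
      split_ifs
      · rw [hsum]; ring
      · ring
    have hνR : |ν * R| ≤ V * E * κ ^ 2 := by
      rw [abs_mul, abs_of_nonneg hR0]
      calc |ν| * R ≤ V * (κ ^ 2 * E) := mul_le_mul hν
            (hR1.trans (mul_le_mul_of_nonneg_left hAE (sq_nonneg _))) hR0 hV
        _ = V * E * κ ^ 2 := by ring
    have h4 : (k : ℝ) * (ν * R) ≤ k * (V * E * κ ^ 2) :=
      mul_le_mul_of_nonneg_left ((le_abs_self _).trans hνR) (Nat.cast_nonneg _)
    have h5 : ∑ i, ∑ j, W i j * (if i = j then ν * R else 0) ≤ (n : ℝ) ^ 2 * (V * E * κ ^ 2) := by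
      refine (le_abs_self _).trans (SG_dsum hWe fun i j => ?_)
      split_ifs
      · exact hνR
      · rw [abs_zero]
        positivity
    have h6 : ((k : ℝ) + n) * (2 * κ ^ 2 * mu (aF hX m) b 0) ≤ ((k : ℝ) + n) * (2 * M₀) * κ ^ 2 := by
      calc ((k : ℝ) + n) * (2 * κ ^ 2 * mu (aF hX m) b 0) ≤ ((k : ℝ) + n) * (2 * κ ^ 2 * M₀) := by
            apply mul_le_mul_of_nonneg_left _ (by positivity)
            exact mul_le_mul_of_nonneg_left (hmu 0) (by positivity)
        _ = _ := by ring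
    have e4 : K1 * κ ^ 2 = k * (V * E * κ ^ 2) + (n : ℝ) ^ 2 * (V * E * κ ^ 2) +
        ((k : ℝ) + n) * (2 * M₀) * κ ^ 2 := by
      rw [hK1]; ring
    rw [e1, e3, hAv, e4, hlin]
    linarith
  have hfin := SG_alg hA0 hAs0 hAE hAsi hsum hR0 hR1 hA'κ hκ0 hκ1 hvb hlb hvF hK10 hKl0 hT
  -- the slope term
  have hslope : (lin - F * A') / A = ∑ l, (a l + (∑ i, ∑ j, W i j * Xv Γ D m.1.1 c φ.1
      (fun _ => ν) (fun i => (w (Fin.natAdd k i)).1) (J l) i j) / A) * s l := by
    have hXm : ∀ l i j, Xv Γ D m.1.1 c φ.1 (fun _ => ν) (fun i => (w (Fin.natAdd k i)).1) (J l)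
        i j = B l (u i) (u j) - (if i = j then ν * Xo' l else 0) := by
      intro l i j
      unfold Xv
      rw [hXo l]
      have h1 : Xm Γ D m.1.1 c φ.1 (fun i => (w (Fin.natAdd k i)).1) (J l) i j =
          B l (u i) (u j) := rfl
      rw [h1]
      split_ifs <;> ring
    have hA's : A' = ∑ l, s l * Xo' l := hhB _ _
    have h1 : lin = ∑ l, s l * (∑ i : Fin k, (B l (U i) (U i) - ν * Xo' l) +
        ∑ i, ∑ j, W i j * (B l (u i) (u j) - if i = j then ν * Xo' l else 0)) := by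
      have h2 : ∀ i, h (U i) (U i) - ν * A' = ∑ l, s l * (B l (U i) (U i) - ν * Xo' l) := by
        intro i
        rw [hhB, hA's, Finset.mul_sum, ← Finset.sum_sub_distrib]
        refine Finset.sum_congr rfl fun l _ => ?_
        ring
      have h3 : ∀ i j, W i j * (h (u i) (u j) - if i = j then ν * A' else 0) =
          ∑ l, s l * (W i j * (B l (u i) (u j) - if i = j then ν * Xo' l else 0)) := by
        intro i j
        by_cases hij : i = j
        · simp only [hij, if_true]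
          rw [hhB, hA's, Finset.mul_sum, ← Finset.sum_sub_distrib, Finset.mul_sum]
          refine Finset.sum_congr rfl fun l _ => ?_
          ring
        · simp only [hij, if_false, sub_zero]
          rw [hhB, Finset.mul_sum]
          refine Finset.sum_congr rfl fun l _ => ?_
          ring
      rw [hlin]
      simp only [h2, h3]
      rw [Finset.sum_comm]
      have h4 : ∑ i, ∑ j, ∑ l, s l * (W i j * (B l (u i) (u j) -
          if i = j then ν * Xo' l else 0)) = ∑ l, ∑ i, ∑ j, s l * (W i j * (B l (u i) (u j) -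
          if i = j then ν * Xo' l else 0)) := by
        calc _ = ∑ i, ∑ l, ∑ j, s l * (W i j * (B l (u i) (u j) -
              if i = j then ν * Xo' l else 0)) := Finset.sum_congr rfl fun i _ => Finset.sum_comm
          _ = _ := Finset.sum_comm
      rw [h4, ← Finset.sum_add_distrib]
      refine Finset.sum_congr rfl fun l _ => ?_
      rw [mul_add, Finset.mul_sum, Finset.mul_sum]
      congr 1
      refine Finset.sum_congr rfl fun i _ => ?_
      rw [Finset.mul_sum]
    rw [h1, hA's, Finset.mul_sum, ← Finset.sum_sub_distrib, Finset.sum_div]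
    refine Finset.sum_congr rfl fun l _ => ?_
    simp only [hXm]
    rw [ha]
    dsimp only
    simp only [hU]
    field_simp
    ring
  rw [hslope] at hfin
  have hnorm : ‖s‖ ^ 2 ≤ ∑ l, s l ^ 2 := by
    have h1 : ‖s‖ ≤ √(∑ l, s l ^ 2) := by
      refine (pi_norm_le_iff_of_nonneg (Real.sqrt_nonneg _)).2 fun l => ?_
      rw [Real.norm_eq_abs]
      apply Real.abs_le_sqrt
      exact Finset.single_le_sum (f := fun l => s l ^ 2) (fun i _ => sq_nonneg _)
        (Finset.mem_univ l)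
    have h2 : 0 ≤ ∑ l, s l ^ 2 := Finset.sum_nonneg fun l _ => sq_nonneg _
    calc ‖s‖ ^ 2 ≤ √(∑ l, s l ^ 2) ^ 2 := pow_le_pow_left₀ (norm_nonneg _) h1 2
      _ = _ := Real.sq_sqrt h2
  have herr : Kt * κ ^ 2 ≤ (Kt * (d * C) ^ 2 + 1) * ∑ l, s l ^ 2 := by
    have h2 : 0 ≤ ∑ l, s l ^ 2 := Finset.sum_nonneg fun l _ => sq_nonneg _
    have h3 : Kt * κ ^ 2 = Kt * (d * C) ^ 2 * ‖s‖ ^ 2 := by rw [hκd]; ring
    have h4 : Kt * (d * C) ^ 2 * ‖s‖ ^ 2 ≤ Kt * (d * C) ^ 2 * ∑ l, s l ^ 2 :=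
      mul_le_mul_of_nonneg_left hnorm (by positivity)
    rw [h3]
    linarith
  linarith

end LibQR35
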