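import Pool.Agent.LibQR35.SG

/-! ROW SP1 : slopes for one level (SP1), a pair of levels (SP2), a separated pair (SP3).

PLAN. From `slice_gen` (row SG) with suitable test operators. Write `A = arE hX m (Φ ξ) ∈ [e^(-M'), e^M']`
(`arE_bounds`), `nu i = nuE hX m (Φ ξ) i` (antitone in `i`, `mu_anti`), `b_i / A ∈ [nu (k+i) - δ / A, nu (k+i)]`, `b`
diagonal on the frame. For `x >= - ε`: `max x 0 <= x + ε`.
`one_slope` (`n = 1`, `d = 1`, `W = 1/2 + x`, `|x| <= 1/4`): `FE <= ∑_{i<k} (nu i - α) + (k+1) ε`, `vE >=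
∑_{i<k} (nu i - α) - (k+1) δ/A - ε`, so `FE - vE <= C ε`. Slope `a + (1/2 + x) Xv/A`: matrix `A₀₀ = Xv / (4 A)`.
`pair_slope` (`n = 2`, `d = 3`): `t = α - β >= 0`, `p = ε / (4 (t + ε))`, `θ = √p / 2`. For `S = FE α + FE β` use at `α`:
`W = [[1/2 + x, y], [y, p]]` and at `β`: `W = [[1, 0], [0, 1/2 + z]]`, `|x|, |z| <= 1/4`, `|y| <= θ` (`Opr`: 2x2 determinants:
`y^2 <= p/4 <= (1/2+x) p`, `y^2 <= 1/16·… <= (1/2 - x)(1 - p)`). Losses: at `α`: `FE <= ∑_{i<k}(nu i - α) + (k+2) ε`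
(`nu (k+1) - α <= ε`), `vE >= ∑_{i<k} (nu i - α) - (k+2) δ/A - ε - p (t + ε)`; at `β`: `FE <= ∑_{i<k+1} (nu i - β) + (k+2) ε`,
`vE >= ∑_{i<k+1} (nu i - β) - (k+2) δ/A - ε`. Slope: `a + (x Xv 0 0 + z Xv 1 1 + 2 y Xv 0 1)/A` with the centred moments of
`ν = (α, β)` (`Xv` with `ν = fun _ => α` at the entry `0 0` etc.; the entry `0 1` is not centred). The matrix with the
columns `Xv 0 0 / (4A)`, `Xv 1 1 / (4A)`, `2 θ Xv 0 1 / A` has determinant `(1/(4A))^2 (2θ/A) det X`, and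
`θ^2 = ε / (16 (t + ε))`. Entries are bounded (`S1`: `|B l u v| <= C M₀`, Cauchy-Schwarz for `u ≠ v`; `|Xo| <= C A`).
`sep_slope` (`n = 2`, `d = 2`): at `α`: `W = diag (1/2 + x, 0)`, at `β`: `W = diag (1, 1/2 + z)`. -/

open MeasureTheory Set Filter Topology
open scoped ContDiff ENNReal NNReal unitInterval

namespace LibQR35

open BGS
open Pool.BGR (PM upI pj)

variable {Γ : Type} [Group Γ] [MulAction Γ Pl] {D : Set Pl}

theorem SP1_Xbound (hX : Surface Γ D) (m : Mt Γ D) {L : ℕ} {c : ℕ → ℝ} (hc : Cs c) {C : ℝ}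
    (hC : ∀ R : ℕ, 1 ≤ R → ∀ p ∈ grid L R, ∀ z, per Γ (bmp R p) z ≤ C) (hC0 : 0 < C)
    (φ : TestS Γ) {M₀ V : ℝ} (hV : 0 ≤ V) (u : Fin 1 → TestS Γ)
    (hu : bF hX m (expT φ) (u 0) (u 0) ≤ M₀) {j : Dir} (hj : Valid L j) {α : ℝ} (hα : |α| ≤ V) :
    |Xv Γ D m.1.1 c φ.1 (fun _ : Fin 1 => α) (fun i => (u i).1) j 0 0| ≤
      C * M₀ + V * (C * arE hX m φ) := by
  have hR : 1 ≤ j.1 + 1 := Nat.le_add_left 1 _
  have hBb : ∀ v : TestS Γ,
      |c j.1 * bF hX m (KEX_mul (expT φ) (KEX_eta hX hR j.2)) v v| ≤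
        C * bF hX m (expT φ) v v := by
    intro v
    have h1 : 0 ≤ bF hX m (KEX_mul (expT φ) (KEX_eta hX hR j.2)) v v := KEX_nonneg hX m _
      (fun z => mul_nonneg (KEX_pos φ z).le (per_bmp_nonneg _ _ z)) v
    have h2 : bF hX m (KEX_mul (expT φ) (KEX_eta hX hR j.2)) v v ≤
        C * bF hX m (expT φ) v v := bF_le hX m (fun z => by
      rw [KEX_mul_apply, mul_comm]
      exact mul_le_mul_of_nonneg_right (hC _ hR _ hj z) (KEX_pos φ z).le) v
    have h3 := hc.pos j.1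
    have h4 := hc.le_one j.1
    rw [abs_of_nonneg (mul_nonneg h3.le h1)]
    nlinarith
  have e1 : Xm Γ D m.1.1 c φ.1 (fun i => (u i).1) j 0 0 =
      c j.1 * bF hX m (KEX_mul (expT φ) (KEX_eta hX hR j.2)) (u 0) (u 0) := rfl
  have e2 : Xo Γ D m.1.1 c φ.1 j =
      c j.1 * bF hX m (KEX_mul (expT φ) (KEX_eta hX hR j.2)) (oneT Γ) (oneT Γ) := by
    unfold Xo
    rw [bF_apply]
    congr 1
    refine integral_congr_ae (ae_of_all _ fun z => ?_)
    change Real.exp (φ.1 z) * per Γ (bmp (j.1 + 1) j.2) z * √(dt (m.1.1 z)) =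
      Real.exp (φ.1 z) * per Γ (bmp (j.1 + 1) j.2) z * (1 : ℝ) * (1 : ℝ) * √(dt (m.1.1 z))
    ring
  have b1 : |Xm Γ D m.1.1 c φ.1 (fun i => (u i).1) j 0 0| ≤ C * M₀ := by
    rw [e1]
    exact (hBb _).trans (mul_le_mul_of_nonneg_left hu hC0.le)
  have b2 : |Xo Γ D m.1.1 c φ.1 j| ≤ C * arE hX m φ := by
    rw [e2]
    exact hBb _
  unfold Xv
  rw [if_pos rfl]
  refine (abs_sub _ _).trans ?_
  rw [abs_mul]
  exact add_le_add b1 (mul_le_mul hα b2 (abs_nonneg _) hV)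

theorem one_slope (hX : Surface Γ D) (m : Mt Γ D) (L : ℕ) {c : ℕ → ℝ} (hc : Cs c)
    (ψ : TestS Γ) (k : ℕ) {V : ℝ} (hV : 0 ≤ V) {κ₀ : ℝ} (hκ₀ : 0 < κ₀) :
    ∃ L₁ r M C₁ Θ : ℝ, 0 < L₁ ∧ 0 < r ∧ 0 < M ∧ 0 < C₁ ∧ 0 < Θ ∧
      ∀ (Φ : (Dir → I) → TestS Γ), (∀ ξ z, (Φ ξ).1 z = ψ.1 z + phi Γ L c ξ z) →
      ∀ (J : Fin 1 → Dir), (∀ l, Valid L (J l)) →
      ∀ α : ℝ, |α| ≤ V → ∀ ε : ℝ, 0 < ε → ∀ (ξ : Dir → I) (w : Fin (k + 1) → TestS Γ),
        Fr (aF hX m) (bF hX m (expT (Φ ξ))) (oneT Γ) ε w → |nuE hX m (Φ ξ) k - α| ≤ ε →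
        κ₀ ≤ |Xv Γ D m.1.1 c (Φ ξ).1 (fun _ : Fin 1 => α)
          (fun i => (w (Fin.natAdd k i)).1) (J 0) 0 0| →
        ξ ∈ BadG (fun ξ => FE hX m (k + 1) α (Φ ξ)) J L₁ r M (C₁ * ε) Θ := by
  obtain ⟨C, hC0, hC⟩ := per_bmp_le hX L
  obtain ⟨M₁, hM1, hM1'⟩ := test_bdd hX ψ
  obtain ⟨M₂, hM2, hM2'⟩ := phi_bound hX L hc
  obtain ⟨M₀, hM0, hM0'⟩ := muE_upper hX m (M₁ + M₂)
  obtain ⟨L', r, M, hL', hr, hM, hS⟩ := slice_gen hX m L hc ψ k 1 1 hV
  set E := Real.exp (M₁ + M₂) with hE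
  have hE0 : 0 < E := Real.exp_pos _
  set X₀ := C * M₀ + V * (C * E) with hX₀
  have hX0 : 0 ≤ X₀ := by positivity
  refine ⟨L' + X₀ * E, r, M, 2 * ((k + 2) + (k + 1) * E), κ₀ / (4 * E), by positivity, hr, hM,
    by positivity, by positivity, ?_⟩
  intro Φ hΦ J hJ α hα ε hε ξ w hw hnu hκ
  have hφM : ∀ z, |(Φ ξ).1 z| ≤ M₁ + M₂ := by
    intro z
    rw [hΦ ξ z]
    exact (abs_add_le _ _).trans (add_le_add (hM1' z) (hM2' ξ z))
  obtain ⟨a', ha', hsl⟩ := hS Φ hΦ J (Function.injective_of_subsingleton J) hJ α hα ξ ε w hw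
  obtain ⟨hAlo, hAup⟩ := arE_bounds hX m (Φ ξ) hφM
  set A := arE hX m (Φ ξ) with hA
  have hA0 : 0 < A := (Real.exp_pos _).trans_le hAlo
  have hAinv : A⁻¹ ≤ E := by
    rw [Real.exp_neg] at hAlo
    rw [inv_le_comm₀ hA0 hE0]
    exact hAlo
  set X := Xv Γ D m.1.1 c (Φ ξ).1 (fun _ : Fin 1 => α)
    (fun i => (w (Fin.natAdd k i)).1) (J 0) 0 0 with hXd
  have hmu : ∀ i, muE hX m (Φ ξ) i ≤ M₀ := fun i => hM0' _ hφM i
  have hXb : |X| ≤ X₀ := by
    refine (SP1_Xbound hX m hc hC hC0 (Φ ξ) hV (fun i => w (Fin.natAdd k i)) (M₀ := M₀)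
      ((hw.up _).trans (hmu _)) (hJ 0) hα).trans ?_
    rw [hX₀]
    have : V * (C * A) ≤ V * (C * E) :=
      mul_le_mul_of_nonneg_left (mul_le_mul_of_nonneg_left hAup hC0.le) hV
    linarith
  have hXA : |X / A| ≤ X₀ * E := by
    rw [abs_div, abs_of_pos hA0, div_eq_mul_inv]
    exact mul_le_mul hXb hAinv (inv_pos.2 hA0).le hX0
  refine ⟨fun l => a' l + X / A / 2, Matrix.of fun _ _ => X / A / 4, ?_, ?_, ?_, ?_⟩
  · refine (pi_norm_le_iff_of_nonneg (by positivity)).2 fun l => ?_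
    have h1 : |a' l| ≤ L' := (norm_le_pi_norm a' l).trans ha'
    rw [Real.norm_eq_abs]
    refine (abs_add_le _ _).trans ?_
    rw [abs_div (X / A) 2]
    have h2 : |(2 : ℝ)| = 2 := by norm_num
    rw [h2]
    linarith [abs_nonneg (X / A)]
  · intro i j
    show |X / A / 4| ≤ _
    rw [abs_div (X / A) 4]
    have h2 : |(4 : ℝ)| = 4 := by norm_num
    rw [h2]
    linarith [abs_nonneg (X / A)]
  · rw [Matrix.det_fin_one]
    show _ ≤ |X / A / 4|
    rw [abs_div (X / A) 4, abs_div, abs_of_pos hA0]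
    have h2 : |(4 : ℝ)| = 4 := by norm_num
    rw [h2, div_div]
    exact div_le_div₀ (abs_nonneg X) hκ (by positivity) (by linarith)
  · intro τ hτ y hy
    have hτ0 : |τ 0| ≤ 1 := (norm_le_pi_norm τ 0).trans hτ
    obtain ⟨hτ1, hτ2⟩ := abs_le.1 hτ0
    set t : ℝ := 1 / 2 + τ 0 / 4 with ht
    have ht0 : 0 ≤ t := by linarith
    have ht1 : t ≤ 1 := by linarith
    have hO : Opr (fun _ _ : Fin 1 => t) := by
      refine ⟨fun _ _ => rfl, fun x => ?_, fun x => ?_⟩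
      · simp only [Fin.sum_univ_one]
        exact mul_nonneg ht0 (mul_self_nonneg _)
      · simp only [Fin.sum_univ_one]
        nlinarith [mul_self_nonneg (x 0)]
    have h := hsl (fun _ _ => t) hO y hy
    have hsum : ∑ l, (a' l + (∑ i, ∑ j, (fun _ _ : Fin 1 => t) i j * Xv Γ D m.1.1 c (Φ ξ).1
        (fun _ => α) (fun i => (w (Fin.natAdd k i)).1) (J l) i j) / A) * dsp J ξ y l =
        ∑ l, ((fun l => a' l + X / A / 2) l +
          ∑ j, (Matrix.of fun _ _ : Fin 1 => X / A / 4) l j * τ j) * dsp J ξ y l := by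
      simp only [Fin.sum_univ_one, Matrix.of_apply]
      rw [← hXd, ht]
      ring
    rw [hsum] at h
    have hloss : FE hX m (k + 1) α (Φ ξ) -
        vE hX m α (Φ ξ) w (fun _ _ : Fin 1 => t) ≤ ((k + 2) + (k + 1) * E) * ε := by
      have hanti : ∀ i : ℕ, i ≤ k → nuE hX m (Φ ξ) k ≤ nuE hX m (Φ ξ) i := by
        intro i hi
        exact div_le_div_of_nonneg_right (mu_anti (expT_lam1 hX m (Φ ξ)) hi) hA0.le
      obtain ⟨hn1, hn2⟩ := abs_le.1 hnu
      have hmax : ∀ x : ℝ, -ε ≤ x → max x 0 ≤ x + ε := fun x hx =>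
        max_le (by linarith) (by linarith)
      have hFE : FE hX m (k + 1) α (Φ ξ) ≤
          ∑ i : Fin k, (nuE hX m (Φ ξ) i - α) + (k + 1) * ε := by
        unfold FE
        rw [Finset.sum_range_succ, Finset.sum_range]
        have h1 : ∑ i : Fin k, max (nuE hX m (Φ ξ) i - α) 0 ≤
            ∑ i : Fin k, ((nuE hX m (Φ ξ) i - α) + ε) :=
          Finset.sum_le_sum fun i _ => hmax _ (by
            have := hanti i i.2.le
            linarith)
        have h2 : max (nuE hX m (Φ ξ) k - α) 0 ≤ ε := max_le hn2 hε.le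
        rw [Finset.sum_add_distrib, Finset.sum_const, Finset.card_univ, Fintype.card_fin,
          nsmul_eq_mul] at h1
        linarith
      have hbw : ∀ i : Fin (k + 1), nuE hX m (Φ ξ) i - ε * E ≤
          bF hX m (expT (Φ ξ)) (w i) (w i) / A := by
        intro i
        have h1 := hw.lo i
        have h2 : (mu (aF hX m) (bF hX m (expT (Φ ξ))) i - ε) / A ≤
            bF hX m (expT (Φ ξ)) (w i) (w i) / A := div_le_div_of_nonneg_right h1 hA0.le
        have h3 : (mu (aF hX m) (bF hX m (expT (Φ ξ))) i - ε) / A =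
            nuE hX m (Φ ξ) i - ε * A⁻¹ := by
          unfold nuE muE
          rw [sub_div, div_eq_mul_inv ε A]
        have h4 : ε * A⁻¹ ≤ ε * E := mul_le_mul_of_nonneg_left hAinv hε.le
        linarith
      have hvE : ∑ i : Fin k, (nuE hX m (Φ ξ) i - α) - k * (ε * E) - (ε + ε * E) ≤
          vE hX m α (Φ ξ) w (fun _ _ : Fin 1 => t) := by
        unfold vE
        have h1 : ∑ i : Fin k, ((nuE hX m (Φ ξ) i - α) - ε * E) ≤
            ∑ i : Fin k, (bF hX m (expT (Φ ξ)) (w (Fin.castAdd 1 i)) (w (Fin.castAdd 1 i)) /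
              arE hX m (Φ ξ) - α) :=
          Finset.sum_le_sum fun i _ => by
            have := hbw (Fin.castAdd 1 i)
            rw [Fin.val_castAdd] at this
            rw [← hA]
            linarith
        rw [Finset.sum_sub_distrib, Finset.sum_const, Finset.card_univ, Fintype.card_fin,
          nsmul_eq_mul] at h1
        have h2 : -(ε + ε * E) ≤ ∑ i : Fin 1, ∑ j : Fin 1, t *
            (bF hX m (expT (Φ ξ)) (w (Fin.natAdd k i)) (w (Fin.natAdd k j)) /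
              arE hX m (Φ ξ) - if i = j then α else 0) := by
          simp only [Fin.sum_univ_one, if_true]
          have h3 := hbw (Fin.natAdd k 0)
          rw [Fin.val_natAdd] at h3
          rw [← hA]
          have h4 : -(ε + ε * E) ≤ bF hX m (expT (Φ ξ)) (w (Fin.natAdd k 0))
              (w (Fin.natAdd k 0)) / A - α := by
            have h5 : nuE hX m (Φ ξ) (k + ((0 : Fin 1) : ℕ)) = nuE hX m (Φ ξ) k := by simp
            rw [h5] at h3
            linarith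
          have h6 : 0 ≤ ε + ε * E := by positivity
          nlinarith
        linarith
      have : ((k : ℝ) + 2 + (k + 1) * E) * ε =
          (k + 1) * ε + (k * (ε * E) + (ε + ε * E)) := by ring
      linarith
    show FE hX m (k + 1) α (Φ ξ) + _ - 2 * ((k + 2) + (k + 1) * E) * ε - _ ≤
      FE hX m (k + 1) α (Φ (upJ J ξ y))
    linarith

end LibQR35
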