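import Pool.Agent.LibQR35.SG

/-! ROW SP2 : slopes for one level (SP1), a pair of levels (SP2), a separated pair (SP3).

PLAN. From `slice_gen` (row SG) with suitable test operators. Write `A = arE hX m (Φ ξ) ∈ [e^(-M'), e^M']`
(`arE_bounds`), `nu i = nuE hX m (Φ ξ) i` (antitone in `i`, `mu_anti`), `b_i / A ∈ [nu (k+i) - δ / A, nu (k+i)]`, `b`
diagonal on the frame. For `x >= - ε`: `max x 0 <= x + ε`.
`one_slope` (`n = 1`, `d = 1`, `W = 1/2 + x`, `|x| <= 1/4`): `FE <= ∑_{i<k} (nu i - α) + (k+1) ε`, `vE >=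
∑_{i<k} (nu i - α) - (k+1) δ/A - ε`, so `FE - vE <= C ε`. Slope `a + (1/2 + x) Xv/A`: matrix `A₀₀ = Xv / (4 A)`.
`pair_slope` (`n = 2`, `d = 3`): `t = α - β >= 0`, `p = ε / (4 (t + ε))`, `θ = √p / 2`. For `S = FE α + FE β` use at `α`:
`W = [[1/2 + x, y], [y, p]]` and at `β`: `W = [[1, 0], [0, 1/2 + z]]`, `|x|, |z| <= 1/4`, `|y| <= θ` (`Opr`: 2x2 determinants:
`y^2 <= p/4 <= (1/2+x) p`, `y^2 <= 1/16·… <= (1/2 - x)(1 - p)`). Losses: at `α`: `FE <= ∑_{i<k}(nu i - α) + (k+2) ε`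
(`nu (k+1) - α <= ε`), `vE >= ∑_{i<k} (nu i - α) - (k+2) δ/A - ε - p (t + ε)`; at `β`: `FE <= ∑_{i<k+1} (nu i - β) + (k+2) ε`,
`vE >= ∑_{i<k+1} (nu i - β) - (k+2) δ/A - ε`. Slope: `a + (x Xv 0 0 + z Xv 1 1 + 2 y Xv 0 1)/A` with the centred moments of
`ν = (α, β)` (`Xv` with `ν = fun _ => α` at the entry `0 0` etc.; the entry `0 1` is not centred). The matrix with the
columns `Xv 0 0 / (4A)`, `Xv 1 1 / (4A)`, `2 θ Xv 0 1 / A` has determinant `(1/(4A))^2 (2θ/A) det X`, and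
`θ^2 = ε / (16 (t + ε))`. Entries are bounded (`S1`: `|B l u v| <= C M₀`, Cauchy-Schwarz for `u ≠ v`; `|Xo| <= C A`).
`sep_slope` (`n = 2`, `d = 2`): at `α`: `W = diag (1/2 + x, 0)`, at `β`: `W = diag (1, 1/2 + z)`. -/

open MeasureTheory Set Filter Topology
open scoped ContDiff ENNReal NNReal unitInterval

namespace LibQR35

open BGS
open Pool.BGR (PM upI pj)

variable {Γ : Type} [Group Γ] [MulAction Γ Pl] {D : Set Pl}
theorem SP2_B (hX : Surface Γ D) (m : Mt Γ D) (L : ℕ) {c : ℕ → ℝ} (hc : Cs c) :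
    ∃ C : ℝ, 0 < C ∧ ∀ (φ : TestS Γ) (j : Dir), Valid L j →
      |Xo Γ D m.1.1 c φ.1 j| ≤ C * arE hX m φ ∧
      ∀ {n : ℕ} (u : Fin n → TestS Γ) (M₀ : ℝ),
        (∀ i, bF hX m (expT φ) (u i) (u i) ≤ M₀) → ∀ i i',
          |Xm Γ D m.1.1 c φ.1 (fun i => (u i).1) j i i'| ≤ C * M₀ := by
  obtain ⟨C, hC0, hC⟩ := per_bmp_le hX L
  refine ⟨C, hC0, fun φ j hv => ?_⟩
  have hR : 1 ≤ j.1 + 1 := Nat.le_add_left 1 _
  set η : TestS Γ := KEX_eta hX hR j.2 with hη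
  have h3 := hc.pos j.1
  have h4 := hc.le_one j.1
  have hnn : ∀ u, 0 ≤ bF hX m (KEX_mul (expT φ) η) u u := fun u => KEX_nonneg hX m _
    (fun z => mul_nonneg (KEX_pos φ z).le (per_bmp_nonneg _ _ z)) u
  have hup : ∀ u, bF hX m (KEX_mul (expT φ) η) u u ≤ C * bF hX m (expT φ) u u := fun u =>
    bF_le hX m (fun z => by
      rw [KEX_mul_apply, mul_comm]
      exact mul_le_mul_of_nonneg_right (hC _ hR _ hv z) (KEX_pos φ z).le) u
  have hcb : ∀ u, c j.1 * bF hX m (KEX_mul (expT φ) η) u u ≤ C * bF hX m (expT φ) u u := by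
    intro u
    have := hnn u
    have := hup u
    nlinarith
  have hcn : ∀ u, 0 ≤ c j.1 * bF hX m (KEX_mul (expT φ) η) u u := fun u =>
    mul_nonneg h3.le (hnn u)
  refine ⟨?_, ?_⟩
  · have e1 : Xo Γ D m.1.1 c φ.1 j = c j.1 * bF hX m (KEX_mul (expT φ) η) (oneT Γ) (oneT Γ) := by
      unfold Xo
      rw [bF_apply]
      congr 1
      refine integral_congr_ae (Filter.Eventually.of_forall fun z => ?_)
      change _ = Real.exp (φ.1 z) * per Γ (bmp (j.1 + 1) j.2) z * (1 : ℝ) * (1 : ℝ) *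
        √(dt (m.1.1 z))
      dsimp only
      ring
    rw [e1, abs_of_nonneg (hcn _)]
    exact hcb _
  · intro n u M₀ hM i i'
    have e1 : Xm Γ D m.1.1 c φ.1 (fun i => (u i).1) j i i' =
        c j.1 * bF hX m (KEX_mul (expT φ) η) (u i) (u i') := rfl
    rw [e1]
    have p1 := hnn (u i + u i')
    have p2 := hnn (u i - u i')
    simp only [map_add, map_sub, LinearMap.add_apply, LinearMap.sub_apply] at p1 p2
    rw [KEX_symm hX m _ (u i') (u i)] at p1 p2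
    have q1 := hcb (u i)
    have q2 := hcb (u i')
    have r1 := mul_le_mul_of_nonneg_left (hM i) hC0.le
    have r2 := mul_le_mul_of_nonneg_left (hM i') hC0.le
    have s1 := mul_nonneg h3.le p1
    have s2 := mul_nonneg h3.le p2
    rw [abs_le]
    constructor <;> nlinarith

theorem SP2_loss (hX : Surface Γ D) (m : Mt Γ D) (φ : TestS Γ) {T : ℝ}
    (hφ : ∀ z, |φ.1 z| ≤ T) (k : ℕ) {α β ε : ℝ} (hβα : β ≤ α) (hε : 0 < ε)
    (w : Fin (k + 2) → TestS Γ)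
    (hw : Fr (aF hX m) (bF hX m (expT φ)) (oneT Γ) ε w) (h1 : |nuE hX m φ k - α| ≤ ε)
    (h2 : |nuE hX m φ (k + 1) - β| ≤ ε) (Wa Wb : Fin 2 → Fin 2 → ℝ) (ha0 : 0 ≤ Wa 0 0)
    (ha1 : Wa 0 0 ≤ 1) (hp0 : 0 ≤ Wa 1 1) (hp1 : Wa 1 1 ≤ 1)
    (hp : Wa 1 1 * (α - β + ε) ≤ ε) (hb0 : Wb 0 0 = 1) (hb1 : 0 ≤ Wb 1 1)
    (hb2 : Wb 1 1 ≤ 1) :
    2 * (FE hX m (k + 2) α φ - vE hX m α φ w Wa) +
      2 * (FE hX m (k + 2) β φ - vE hX m β φ w Wb) ≤ 4 * (k + 4) * (1 + Real.exp T) * ε := by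
  set A := arE hX m φ with hA
  have hApos : 0 < A := arE_pos hX m φ
  have hAinv : ε / A ≤ Real.exp T * ε := by
    rw [div_le_iff₀ hApos]
    have h3 := (arE_bounds hX m φ hφ).1
    have h4 : Real.exp T * Real.exp (-T) = 1 := by rw [← Real.exp_add]; simp
    have h5 : 1 ≤ Real.exp T * A := by
      rw [← h4]
      exact mul_le_mul_of_nonneg_left h3 (Real.exp_pos _).le
    nlinarith
  have hεA : 0 < ε / A := div_pos hε hApos
  have hanti : ∀ {i j : ℕ}, i ≤ j → nuE hX m φ j ≤ nuE hX m φ i := by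
    intro i j hij
    exact div_le_div_of_nonneg_right (mu_anti (expT_lam1 hX m φ) hij) hApos.le
  have hlo : ∀ i : Fin (k + 2), nuE hX m φ i - ε / A ≤ bF hX m (expT φ) (w i) (w i) / A := by
    intro i
    have := hw.lo i
    unfold nuE muE
    rw [← sub_div]
    exact div_le_div_of_nonneg_right this hApos.le
  rw [abs_le] at h1 h2
  have c1 : ∀ i : Fin k, ((Fin.castAdd 2 i : Fin (k + 2)) : ℕ) = i := fun i => Fin.val_castAdd 2 i
  have c2 : ((Fin.natAdd k (0 : Fin 2) : Fin (k + 2)) : ℕ) = k := by simp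
  have c3 : ((Fin.natAdd k (1 : Fin 2) : Fin (k + 2)) : ℕ) = k + 1 := by simp
  have l0 := hlo (Fin.natAdd k 0)
  have l1 := hlo (Fin.natAdd k 1)
  rw [c2] at l0
  rw [c3] at l1
  have d01 : bF hX m (expT φ) (w (Fin.natAdd k 0)) (w (Fin.natAdd k 1)) = 0 := by
    apply hw.diag
    intro h
    have := congrArg Fin.val h
    rw [c2, c3] at this
    omega
  have d10 : bF hX m (expT φ) (w (Fin.natAdd k 1)) (w (Fin.natAdd k 0)) = 0 := by
    apply hw.diag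
    intro h
    have := congrArg Fin.val h
    rw [c2, c3] at this
    omega
  have hFE : ∀ ν, FE hX m (k + 2) ν φ = ∑ i : Fin k, max (nuE hX m φ i - ν) 0 +
      max (nuE hX m φ k - ν) 0 + max (nuE hX m φ (k + 1) - ν) 0 := by
    intro ν
    unfold FE
    rw [Finset.sum_range_succ, Finset.sum_range_succ, Finset.sum_range]
  have hvE : ∀ ν (W : Fin 2 → Fin 2 → ℝ), vE hX m ν φ w W =
      ∑ i : Fin k, (bF hX m (expT φ) (w (Fin.castAdd 2 i)) (w (Fin.castAdd 2 i)) / A - ν) +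
      (W 0 0 * (bF hX m (expT φ) (w (Fin.natAdd k 0)) (w (Fin.natAdd k 0)) / A - ν) +
       W 1 1 * (bF hX m (expT φ) (w (Fin.natAdd k 1)) (w (Fin.natAdd k 1)) / A - ν)) := by
    intro ν W
    unfold vE
    rw [Fin.sum_univ_two, Fin.sum_univ_two, Fin.sum_univ_two, d01, d10]
    simp only [zero_div, if_true, Fin.zero_eq_one_iff, Fin.one_eq_zero_iff,
      if_false, OfNat.ofNat_ne_one, sub_zero, mul_zero, add_zero, zero_add, ← hA]
  have hsum : ∀ ν, ν ≤ α → ∑ i : Fin k, max (nuE hX m φ i - ν) 0 -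
      ∑ i : Fin k, (bF hX m (expT φ) (w (Fin.castAdd 2 i)) (w (Fin.castAdd 2 i)) / A - ν) ≤
        k * (ε + ε / A) := by
    intro ν hν
    rw [← Finset.sum_sub_distrib]
    calc _ ≤ ∑ _i : Fin k, (ε + ε / A) := by
          refine Finset.sum_le_sum fun i _ => ?_
          have e1 := hlo (Fin.castAdd 2 i)
          rw [c1] at e1
          have e2 := hanti (i := (i : ℕ)) (j := k) i.2.le
          have e3 : max (nuE hX m φ i - ν) 0 ≤ nuE hX m φ i - ν + ε :=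
            max_le (by linarith) (by linarith [h1.1])
          linarith
      _ = k * (ε + ε / A) := by
          rw [Finset.sum_const, Finset.card_univ, Fintype.card_fin, nsmul_eq_mul]
  have hk : (0 : ℝ) ≤ k := Nat.cast_nonneg k
  -- level α
  have f1 := hsum α le_rfl
  have f2 := hsum β hβα
  have hkk := hanti (i := k) (j := k + 1) (Nat.le_succ k)
  have m1 : max (nuE hX m φ k - α) 0 ≤ ε := max_le h1.2 hε.le
  have m2 : max (nuE hX m φ (k + 1) - α) 0 ≤ ε := max_le (by linarith [h1.2]) hε.le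
  have m3 : max (nuE hX m φ k - β) 0 ≤ nuE hX m φ k - β + ε :=
    max_le (by linarith) (by linarith [h2.1])
  have m4 : max (nuE hX m φ (k + 1) - β) 0 ≤ ε := max_le h2.2 hε.le
  set b0 := bF hX m (expT φ) (w (Fin.natAdd k 0)) (w (Fin.natAdd k 0)) / A with hb0'
  set b1 := bF hX m (expT φ) (w (Fin.natAdd k 1)) (w (Fin.natAdd k 1)) / A with hb1'
  have g1 : -(ε + ε / A) ≤ Wa 0 0 * (b0 - α) := by
    have : -(ε + ε / A) ≤ b0 - α := by linarith [h1.1]
    nlinarith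
  have g2 : -(ε + ε / A) ≤ Wa 1 1 * (b1 - α) := by
    have : -((α - β + ε) + ε / A) ≤ b1 - α := by linarith [h2.1]
    nlinarith
  have g3 : -(ε + ε / A) ≤ Wb 1 1 * (b1 - β) := by
    have : -(ε + ε / A) ≤ b1 - β := by linarith [h2.1]
    nlinarith
  rw [hFE α, hFE β, hvE α Wa, hvE β Wb, hb0, one_mul]
  have hT : 0 < Real.exp T := Real.exp_pos T
  have key : 4 * ((k : ℝ) + 4) * (1 + Real.exp T) * ε =
      4 * ((k : ℝ) + 4) * (ε + Real.exp T * ε) := by ring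
  rw [key]
  have key2 : 4 * ((k : ℝ) + 4) * (ε + ε / A) ≤ 4 * ((k : ℝ) + 4) * (ε + Real.exp T * ε) := by
    apply mul_le_mul_of_nonneg_left _ (by positivity)
    linarith
  refine le_trans ?_ key2
  nlinarith

theorem SP2_diag {x y : ℝ} (hx0 : 0 ≤ x) (hx1 : x ≤ 1) (hy0 : 0 ≤ y) (hy1 : y ≤ 1) :
    Opr (![![x, 0], ![0, y]] : Fin 2 → Fin 2 → ℝ) := by
  refine ⟨?_, ?_, ?_⟩
  · intro i j
    fin_cases i <;> fin_cases j <;> rfl
  · intro v
    simp only [Fin.sum_univ_two, Matrix.cons_val_zero, Matrix.cons_val_one, Matrix.cons_val_fin_one]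
    nlinarith [mul_nonneg hx0 (mul_self_nonneg (v 0)), mul_nonneg hy0 (mul_self_nonneg (v 1))]
  · intro v
    simp only [Fin.sum_univ_two, Matrix.cons_val_zero, Matrix.cons_val_one, Matrix.cons_val_fin_one]
    nlinarith [mul_nonneg (sub_nonneg.2 hx1) (mul_self_nonneg (v 0)),
      mul_nonneg (sub_nonneg.2 hy1) (mul_self_nonneg (v 1))]

theorem SP2_opr {x y p : ℝ} (hx : |x| ≤ 1 / 4) (hp1 : p ≤ 1 / 4)
    (hy : y ^ 2 ≤ p / 4) : Opr (![![1 / 2 + x, y], ![y, p]] : Fin 2 → Fin 2 → ℝ) := by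
  rw [abs_le] at hx
  refine ⟨?_, ?_, ?_⟩
  · intro i j
    fin_cases i <;> fin_cases j <;> rfl
  · intro v
    simp only [Fin.sum_univ_two, Matrix.cons_val_zero, Matrix.cons_val_one, Matrix.cons_val_fin_one]
    -- `(1/4) a^2 + 2 y a b + p b^2 ≥ 0`
    have h1 : 0 ≤ (v 0 / 2 + 2 * y * v 1) ^ 2 := sq_nonneg _
    have h2 : 0 ≤ (p / 4 - y ^ 2) * (v 1) ^ 2 := mul_nonneg (by linarith) (sq_nonneg _)
    have h3 : 0 ≤ (1 / 4 + x) * (v 0) ^ 2 := mul_nonneg (by linarith [hx.1]) (sq_nonneg _)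
    nlinarith
  · intro v
    simp only [Fin.sum_univ_two, Matrix.cons_val_zero, Matrix.cons_val_one, Matrix.cons_val_fin_one]
    have h1 : 0 ≤ (v 0 / 2 - 2 * y * v 1) ^ 2 := sq_nonneg _
    have h2 : 0 ≤ (p / 4 - y ^ 2) * (v 1) ^ 2 := mul_nonneg (by linarith) (sq_nonneg _)
    have h3 : 0 ≤ (1 / 4 - x) * (v 0) ^ 2 := mul_nonneg (by linarith [hx.2]) (sq_nonneg _)
    have h4 : 0 ≤ (1 - 2 * p) * (v 1) ^ 2 := mul_nonneg (by linarith) (sq_nonneg _)
    nlinarith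

theorem SP2_div (x A T : ℝ) {b : ℝ} (hA : 0 < A) (h : Real.exp (-T) ≤ A) (hx : |x| ≤ b) :
    |x / A| ≤ b * Real.exp T := by
  rw [abs_div, abs_of_pos hA, div_le_iff₀ hA]
  have h4 : Real.exp T * Real.exp (-T) = 1 := by rw [← Real.exp_add]; simp
  have h5 : 1 ≤ Real.exp T * A := by
    rw [← h4]
    exact mul_le_mul_of_nonneg_left h (Real.exp_pos _).le
  have hb : 0 ≤ b := (abs_nonneg x).trans hx
  nlinarith

theorem pair_slope (hX : Surface Γ D) (m : Mt Γ D) (L : ℕ) {c : ℕ → ℝ} (hc : Cs c)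
    (ψ : TestS Γ) (k : ℕ) {V : ℝ} (hV : 0 ≤ V) {κ₀ : ℝ} (hκ₀ : 0 < κ₀) :
    ∃ L₁ r M C₁ Θ : ℝ, 0 < L₁ ∧ 0 < r ∧ 0 < M ∧ 0 < C₁ ∧ 0 < Θ ∧
      ∀ (Φ : (Dir → I) → TestS Γ), (∀ ξ z, (Φ ξ).1 z = ψ.1 z + phi Γ L c ξ z) →
      ∀ (J : Fin 3 → Dir), Function.Injective J → (∀ l, Valid L (J l)) →
      ∀ α β : ℝ, |α| ≤ V → |β| ≤ V → β ≤ α → ∀ ε : ℝ, 0 < ε →
      ∀ (ξ : Dir → I) (w : Fin (k + 2) → TestS Γ),
        Fr (aF hX m) (bF hX m (expT (Φ ξ))) (oneT Γ) ε w → |nuE hX m (Φ ξ) k - α| ≤ ε →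
        |nuE hX m (Φ ξ) (k + 1) - β| ≤ ε →
        κ₀ ≤ |(Matrix.of fun (l : Fin 3) (j : Fin 3) => Xv Γ D m.1.1 c (Φ ξ).1 ![α, β]
          (fun i => (w (Fin.natAdd k i)).1) (J l) (![0, 1, 0] j) (![0, 1, 1] j)).det| →
        ξ ∈ BadG (fun ξ => FE hX m (k + 2) α (Φ ξ) + FE hX m (k + 2) β (Φ ξ)) J L₁ r M (C₁ * ε)
          (Θ * √(ε / (α - β + ε))) := by
  obtain ⟨L₁, r, M, hL₁, hr, hM, hsl⟩ := slice_gen hX m L hc ψ k 2 3 hV
  obtain ⟨C, hC, hB⟩ := SP2_B (Γ := Γ) (D := D) hX m L hc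
  obtain ⟨M₁, hM1, hM1'⟩ := test_bdd hX ψ
  obtain ⟨M₂, hM2, hM2'⟩ := phi_bound hX L hc
  obtain ⟨M₀, hM0, hM0'⟩ := muE_upper hX m (M₁ + M₂)
  set T : ℝ := M₁ + M₂ with hT
  set Xb : ℝ := C * M₀ + V * (C * Real.exp T) with hXb
  have hXb0 : 0 ≤ Xb := by positivity
  have hE : 0 < Real.exp T := Real.exp_pos T
  refine ⟨2 * L₁ + 4 * (Xb * Real.exp T) + 1, r, 2 * M, 4 * (k + 4) * (1 + Real.exp T),
    κ₀ / (32 * Real.exp T ^ 3), by positivity, hr, by positivity, by positivity, by positivity, ?_⟩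
  intro Φ hΦ J hJ hv α β hα hβ hβα ε hε ξ w hw h1 h2 hdet
  set φ : TestS Γ := Φ ξ with hφ
  have hφM : ∀ z, |φ.1 z| ≤ T := by
    intro z
    rw [hφ, hΦ ξ z]
    exact (abs_add_le _ _).trans (add_le_add (hM1' z) (hM2' ξ z))
  set A := arE hX m φ with hA
  have hApos : 0 < A := arE_pos hX m φ
  have hAlo := (arE_bounds hX m φ hφM).1
  have hAup := (arE_bounds hX m φ hφM).2
  rw [← hA] at hAlo hAup
  obtain ⟨a₁, ha₁, hs₁⟩ := hsl Φ hΦ J hJ hv α hα ξ ε w hw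
  obtain ⟨a₂, ha₂, hs₂⟩ := hsl Φ hΦ J hJ hv β hβ ξ ε w hw
  rw [← hφ] at hs₁ hs₂
  -- bounds for the moments
  have hbM : ∀ i : Fin 2, bF hX m (expT φ) (w (Fin.natAdd k i)) (w (Fin.natAdd k i)) ≤ M₀ :=
    fun i => (hw.up _).trans (hM0' φ hφM _)
  have hXmb : ∀ l i i', |Xm Γ D m.1.1 c φ.1 (fun i => (w (Fin.natAdd k i)).1) (J l) i i'| ≤
      C * M₀ := fun l i i' => (hB φ (J l) (hv l)).2 (fun i => w (Fin.natAdd k i)) M₀ hbM i i'
  have hXob : ∀ l, |Xo Γ D m.1.1 c φ.1 (J l)| ≤ C * Real.exp T := fun l =>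
    ((hB φ (J l) (hv l)).1).trans (mul_le_mul_of_nonneg_left hAup hC.le)
  have hXvb : ∀ (ν : Fin 2 → ℝ), (∀ i, |ν i| ≤ V) → ∀ l i i',
      |Xv Γ D m.1.1 c φ.1 ν (fun i => (w (Fin.natAdd k i)).1) (J l) i i'| ≤ Xb := by
    intro ν hν l i i'
    unfold Xv
    refine (abs_sub _ _).trans (add_le_add (hXmb l i i') ?_)
    rw [abs_mul]
    refine mul_le_mul ?_ (hXob l) (abs_nonneg _) hV
    split_ifs
    · exact hν i
    · simpa using hV
  -- parameters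
  set t : ℝ := α - β with ht
  have ht0 : 0 ≤ t := by linarith
  have htε : 0 < t + ε := by linarith
  set p : ℝ := ε / (4 * (t + ε)) with hp
  have hp0 : 0 ≤ p := by positivity
  have hp1 : p ≤ 1 / 4 := by
    rw [hp, div_le_iff₀ (by positivity)]
    linarith
  have hpt : p * (t + ε) ≤ ε := by
    have : p * (t + ε) = ε / 4 := by
      rw [hp]
      field_simp
    linarith
  set θ : ℝ := √p / 2 with hθ
  have hθ0 : 0 ≤ θ := by positivity
  have hθ2 : θ ^ 2 = p / 4 := by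
    rw [hθ, div_pow, Real.sq_sqrt hp0]
    norm_num
  have hθ1 : θ ≤ 1 / 4 := by
    nlinarith
  have hθs : θ = √(ε / (t + ε)) / 4 := by
    have e1 : p = (ε / (t + ε)) / 4 := by
      rw [hp]
      field_simp
    have e2 : √p = √(ε / (t + ε)) / 2 := by
      rw [e1, Real.sqrt_div' _ (by norm_num), show (4 : ℝ) = 2 ^ 2 by norm_num,
        Real.sqrt_sq (by norm_num)]
    rw [hθ, e2]
    ring
  -- the centred moments
  set Pa : Fin 3 → Fin 2 → Fin 2 → ℝ := fun l i i' =>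
    Xv Γ D m.1.1 c φ.1 (fun _ => α) (fun i => (w (Fin.natAdd k i)).1) (J l) i i' with hPa
  set Pb : Fin 3 → Fin 2 → Fin 2 → ℝ := fun l i i' =>
    Xv Γ D m.1.1 c φ.1 (fun _ => β) (fun i => (w (Fin.natAdd k i)).1) (J l) i i' with hPb
  have hPab : ∀ l i i', |Pa l i i'| ≤ Xb := fun l i i' => hXvb (fun _ => α) (fun _ => hα) l i i'
  have hPbb : ∀ l i i', |Pb l i i'| ≤ Xb := fun l i i' => hXvb (fun _ => β) (fun _ => hβ) l i i'
  have hPsym : ∀ l, Pa l 1 0 = Pa l 0 1 := by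
    intro l
    have e : Xm Γ D m.1.1 c φ.1 (fun i : Fin 2 => (w (Fin.natAdd k i)).1) (J l) 1 0 =
        Xm Γ D m.1.1 c φ.1 (fun i : Fin 2 => (w (Fin.natAdd k i)).1) (J l) 0 1 := by
      unfold Xm
      congr 1
      refine integral_congr_ae (Filter.Eventually.of_forall fun z => ?_)
      dsimp only
      ring
    simp only [hPa, Xv]
    rw [e]
    simp
  refine ⟨fun l => a₁ l + a₂ l + (1 / 2 * Pa l 0 0 + p * Pa l 1 1 + Pb l 0 0 +
      1 / 2 * Pb l 1 1) / A,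
    Matrix.of fun l j => (![Pa l 0 0 / 4, Pb l 1 1 / 4, 2 * θ * Pa l 0 1] : Fin 3 → ℝ) j / A,
    ?_, ?_, ?_, ?_⟩
  · refine (pi_norm_le_iff_of_nonneg (by positivity)).2 fun l => ?_
    rw [Real.norm_eq_abs]
    have b1 : |a₁ l| ≤ L₁ := (norm_le_pi_norm a₁ l).trans ha₁
    have b2 : |a₂ l| ≤ L₁ := (norm_le_pi_norm a₂ l).trans ha₂
    have b3 : |(1 / 2 * Pa l 0 0 + p * Pa l 1 1 + Pb l 0 0 + 1 / 2 * Pb l 1 1)| ≤ 4 * Xb := by
      have q1 := abs_le.1 (hPab l 0 0)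
      have q2 := abs_le.1 (hPab l 1 1)
      have q3 := abs_le.1 (hPbb l 0 0)
      have q4 := abs_le.1 (hPbb l 1 1)
      rw [abs_le]
      constructor <;> nlinarith [q1.1, q1.2, q2.1, q2.2, q3.1, q3.2, q4.1, q4.2]
    have b4 := SP2_div _ A T hApos hAlo b3
    calc _ ≤ |a₁ l| + |a₂ l| + |(1 / 2 * Pa l 0 0 + p * Pa l 1 1 + Pb l 0 0 +
          1 / 2 * Pb l 1 1) / A| := abs_add_three _ _ _
      _ ≤ L₁ + L₁ + 4 * Xb * Real.exp T := add_le_add (add_le_add b1 b2) b4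
      _ ≤ 2 * L₁ + 4 * (Xb * Real.exp T) + 1 := by linarith
  · intro l j
    rw [Matrix.of_apply]
    have b3 : |(![Pa l 0 0 / 4, Pb l 1 1 / 4, 2 * θ * Pa l 0 1] : Fin 3 → ℝ) j| ≤ Xb := by
      have q1 := abs_le.1 (hPab l 0 0)
      have q2 := abs_le.1 (hPab l 0 1)
      have q3 := abs_le.1 (hPbb l 1 1)
      rw [abs_le]
      fin_cases j
      · simp only [Fin.zero_eta, Matrix.cons_val_zero]
        constructor <;> linarith [q1.1, q1.2]
      · simp only [Fin.mk_one, Matrix.cons_val_one, Matrix.cons_val_zero]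
        constructor <;> linarith [q3.1, q3.2]
      · simp only [Fin.reduceFinMk, Matrix.cons_val]
        constructor <;> nlinarith [q2.1, q2.2]
    refine (SP2_div _ A T hApos hAlo b3).trans ?_
    nlinarith [mul_nonneg hXb0 hE.le]
  · -- the determinant
    set X := Matrix.of fun (l : Fin 3) (j : Fin 3) => Xv Γ D m.1.1 c φ.1 ![α, β]
          (fun i => (w (Fin.natAdd k i)).1) (J l) (![0, 1, 0] j) (![0, 1, 1] j) with hXdef
    have e1 : (Matrix.of fun l j => (![Pa l 0 0 / 4, Pb l 1 1 / 4, 2 * θ * Pa l 0 1] :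
        Fin 3 → ℝ) j / A) = X * Matrix.diagonal ![1 / (4 * A), 1 / (4 * A), 2 * θ / A] := by
      ext l j
      rw [Matrix.mul_diagonal, Matrix.of_apply, hXdef, Matrix.of_apply]
      fin_cases j
      · simp only [hPa, Xv, Fin.zero_eta, Matrix.cons_val_zero, if_true]
        field_simp
      · simp only [hPb, Xv, Fin.mk_one, Matrix.cons_val_one, Matrix.cons_val_zero, if_true]
        field_simp
      · have h01 : ((0 : Fin 2) = 1) = False := by simp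
        simp only [hPa, Xv, Fin.reduceFinMk, Matrix.cons_val, h01, if_false]
        field_simp
    rw [e1, Matrix.det_mul, Matrix.det_diagonal, Fin.prod_univ_three, abs_mul]
    simp only [Matrix.cons_val_zero, Matrix.cons_val_one, Matrix.cons_val]
    have e2 : |1 / (4 * A) * (1 / (4 * A)) * (2 * θ / A)| = θ / (8 * A ^ 3) := by
      rw [abs_of_nonneg (by positivity)]
      field_simp
      ring
    rw [e2]
    have e3 : A ^ 3 ≤ Real.exp T ^ 3 := pow_le_pow_left₀ hApos.le hAup 3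
    have e4 : κ₀ / (32 * Real.exp T ^ 3) * √(ε / (t + ε)) = κ₀ * (θ / (8 * Real.exp T ^ 3)) := by
      rw [hθs]
      field_simp
      norm_num
    rw [e4]
    refine mul_le_mul hdet ?_ (by positivity) (abs_nonneg _)
    exact div_le_div_of_nonneg_left hθ0 (by positivity) (by linarith)
  · intro τ hτ y hy
    have hτl : ∀ j, |τ j| ≤ 1 := fun j => (norm_le_pi_norm τ j).trans hτ
    have t0 := abs_le.1 (hτl 0)
    have t1 := abs_le.1 (hτl 1)
    have t2 := abs_le.1 (hτl 2)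
    set Wa : Fin 2 → Fin 2 → ℝ := ![![1 / 2 + τ 0 / 4, θ * τ 2], ![θ * τ 2, p]] with hWa
    set Wb : Fin 2 → Fin 2 → ℝ := ![![1, 0], ![0, 1 / 2 + τ 1 / 4]] with hWb
    have oa : Opr Wa := by
      apply SP2_opr _ hp1
      · have : (θ * τ 2) ^ 2 = p / 4 * (τ 2) ^ 2 := by rw [mul_pow, hθ2]
        rw [this]
        have : (τ 2) ^ 2 ≤ 1 := by nlinarith [t2.1, t2.2]
        nlinarith
      · rw [abs_le]
        constructor <;> linarith [t0.1, t0.2]
    have ob : Opr Wb := SP2_diag (by norm_num) le_rfl (by linarith [t1.1]) (by linarith [t1.2])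
    have i1 := hs₁ Wa oa y hy
    have i2 := hs₂ Wb ob y hy
    have hl := SP2_loss hX m φ hφM k hβα hε w hw h1 h2 Wa Wb
      (by simp only [hWa, Matrix.cons_val_zero]; linarith [t0.1])
      (by simp only [hWa, Matrix.cons_val_zero]; linarith [t0.2])
      (by simp only [hWa, Matrix.cons_val_one, Matrix.cons_val_fin_one]; exact hp0)
      (by simp only [hWa, Matrix.cons_val_one, Matrix.cons_val_fin_one]; linarith)
      (by simp only [hWa, Matrix.cons_val_one, Matrix.cons_val_fin_one]; exact hpt)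
      (by simp only [hWb, Matrix.cons_val_zero])
      (by simp only [hWb, Matrix.cons_val_one, Matrix.cons_val_fin_one]; linarith [t1.1])
      (by simp only [hWb, Matrix.cons_val_one, Matrix.cons_val_fin_one]; linarith [t1.2])
    have key : ∑ l, ((a₁ l + a₂ l + (1 / 2 * Pa l 0 0 + p * Pa l 1 1 + Pb l 0 0 +
          1 / 2 * Pb l 1 1) / A) + ∑ j, (Matrix.of fun l j => (![Pa l 0 0 / 4, Pb l 1 1 / 4,
          2 * θ * Pa l 0 1] : Fin 3 → ℝ) j / A) l j * τ j) * dsp J ξ y l =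
        ∑ l, (a₁ l + (∑ i, ∑ j, Wa i j * Pa l i j) / A) * dsp J ξ y l +
          ∑ l, (a₂ l + (∑ i, ∑ j, Wb i j * Pb l i j) / A) * dsp J ξ y l := by
      rw [← Finset.sum_add_distrib]
      refine Finset.sum_congr rfl fun l _ => ?_
      rw [← add_mul]
      congr 1
      simp only [Fin.sum_univ_two, Fin.sum_univ_three, hWa, hWb, Matrix.cons_val_zero,
        Matrix.cons_val_one, Matrix.cons_val_fin_one, Matrix.of_apply, Matrix.cons_val, hPsym l]
      field_simp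
      ring
    have k1 := i1
    have k2 := i2
    simp only [← hA] at k1 k2
    change FE hX m (k + 2) α φ + FE hX m (k + 2) β φ + ∑ l, ((a₁ l + a₂ l +
      (1 / 2 * Pa l 0 0 + p * Pa l 1 1 + Pb l 0 0 + 1 / 2 * Pb l 1 1) / A) + ∑ j, (Matrix.of
        fun l j => (![Pa l 0 0 / 4, Pb l 1 1 / 4, 2 * θ * Pa l 0 1] : Fin 3 → ℝ) j / A) l j *
          τ j) * dsp J ξ y l - 4 * (k + 4) * (1 + Real.exp T) * ε -
      2 * M * ∑ l, dsp J ξ y l ^ 2 ≤
      FE hX m (k + 2) α (Φ (upJ J ξ y)) + FE hX m (k + 2) β (Φ (upJ J ξ y))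
    rw [key]
    linarith

end LibQR35
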