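import Pool.Agent.LibQR35.SG
import Pool.Agent.LibQR35.SP2

/-! ROW Q2 : slopes for the two levels `k` and `k + l`, `0 < l`, near each other.

PLAN. Copy of `pair_slope` (file SP2.lean, proved), with intermediate levels. `n = l + 1`, `last = Fin.last l ≠ 0`.
Test operators: at `α`: `W 0 0 = 1/2 + x`, `W 0 last = W last 0 = y`, `W last last = p`, all other entries `0`; at `β`: diagonal,
`W i i = 1` for `i ≠ last`, `W last last = 1/2 + z`. `∑ i, ∑ j, W i j (x i x j)` has only the four terms of the indices `0`, `last`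
(`Opr` reduces to the two by two case since `x 0 ^ 2 + x last ^ 2 ≤ ∑ i, x i ^ 2`). Losses: for the intermediate levels
`i = k + 1, …, k + l - 1`: `β - ε ≤ nuE i ≤ α + ε`, so `max (nuE i - α) 0 ≤ ε` (weight `0` at `α`) and
`max (nuE i - β) 0 ≤ nuE i - β + ε` (weight `1` at `β`). -/

open MeasureTheory Set Filter Topology
open scoped ContDiff ENNReal NNReal unitInterval

namespace LibQR35

open BGS
open Pool.BGR (PM upI pj)

variable {Γ : Type} [Group Γ] [MulAction Γ Pl] {D : Set Pl}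

/-- the test operator at the level `α`: entries only at the indices `0`, `last` -/
def SQ_a (l : ℕ) (a b d : ℝ) : Fin (l + 1) → Fin (l + 1) → ℝ := fun i j =>
  if i = 0 then (if j = 0 then a else if j = Fin.last l then b else 0)
  else if i = Fin.last l then (if j = 0 then b else if j = Fin.last l then d else 0) else 0

/-- the test operator at the level `β`: diagonal -/
def SQ_b (l : ℕ) (z : ℝ) : Fin (l + 1) → Fin (l + 1) → ℝ := fun i j =>
  if i = j then (if i = Fin.last l then z else 1) else 0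

theorem SQ_ne {l : ℕ} (hl : 0 < l) : (0 : Fin (l + 1)) ≠ Fin.last l := by
  intro h
  have := congrArg Fin.val h
  simp at this
  omega

theorem SQ_sum_a {l : ℕ} (hl : 0 < l) (a b d : ℝ) (f : Fin (l + 1) → Fin (l + 1) → ℝ) :
    ∑ i, ∑ j, SQ_a l a b d i j * f i j =
      a * f 0 0 + b * f 0 (Fin.last l) + (b * f (Fin.last l) 0 + d * f (Fin.last l) (Fin.last l)) := by
  have hne := SQ_ne hl
  have hin : ∀ i, ∑ j, SQ_a l a b d i j * f i j =
      SQ_a l a b d i 0 * f i 0 + SQ_a l a b d i (Fin.last l) * f i (Fin.last l) := by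
    intro i
    apply Fintype.sum_eq_add _ _ hne
    intro j hj
    unfold SQ_a
    simp only [if_neg hj.1, if_neg hj.2]
    split_ifs <;> simp
  rw [Finset.sum_congr rfl (fun i _ => hin i)]
  rw [Fintype.sum_eq_add _ _ hne]
  · unfold SQ_a
    simp only [if_true, if_neg hne.symm]
  · intro i hi
    unfold SQ_a
    rw [if_neg hi.1, if_neg hi.2, if_neg hi.1, if_neg hi.2]
    simp

theorem SQ_sum_b (l : ℕ) (z : ℝ) (f : Fin (l + 1) → Fin (l + 1) → ℝ) :
    ∑ i, ∑ j, SQ_b l z i j * f i j =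
      ∑ i : Fin l, f i.castSucc i.castSucc + z * f (Fin.last l) (Fin.last l) := by
  have hin : ∀ i, ∑ j, SQ_b l z i j * f i j = (if i = Fin.last l then z else 1) * f i i := by
    intro i
    rw [Finset.sum_eq_single i]
    · unfold SQ_b; simp
    · intro j _ hj
      unfold SQ_b
      rw [if_neg (Ne.symm hj)]; simp
    · intro h; exact absurd (Finset.mem_univ i) h
  rw [Finset.sum_congr rfl (fun i _ => hin i), Fin.sum_univ_castSucc]
  congr 1
  · refine Finset.sum_congr rfl fun i _ => ?_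
    rw [if_neg (Fin.castSucc_lt_last i).ne, one_mul]
  · rw [if_pos rfl]

theorem SQ_opr_a {l : ℕ} (hl : 0 < l) {a b d : ℝ} (h : Opr (![![a, b], ![b, d]] : Fin 2 → Fin 2 → ℝ)) :
    Opr (SQ_a l a b d) := by
  have hne := SQ_ne hl
  refine ⟨?_, ?_, ?_⟩
  · intro i j
    unfold SQ_a
    by_cases hi : i = 0
    · by_cases hj : j = 0
      · rw [hi, hj]
      · by_cases hj' : j = Fin.last l
        · simp [hi, hj', hne.symm]
        · simp [hi, hj, hj']
    · by_cases hi' : i = Fin.last l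
      · by_cases hj : j = 0
        · simp [hi', hj, hne.symm]
        · by_cases hj' : j = Fin.last l
          · rw [hi', hj']
          · simp [hi', hj, hj', hne.symm]
      · by_cases hj : j = 0
        · simp [hi, hi', hj]
        · by_cases hj' : j = Fin.last l
          · simp [hi, hi', hj', hne.symm]
          · simp [hi, hi', hj, hj']
  · intro x
    rw [SQ_sum_a hl a b d (fun i j => x i * x j)]
    have := h.2.1 ![x 0, x (Fin.last l)]
    simp only [Fin.sum_univ_two, Matrix.cons_val_zero, Matrix.cons_val_one, Matrix.cons_val_fin_one] at this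
    exact this
  · intro x
    rw [SQ_sum_a hl a b d (fun i j => x i * x j)]
    have h1 := h.2.2 ![x 0, x (Fin.last l)]
    simp only [Fin.sum_univ_two, Matrix.cons_val_zero, Matrix.cons_val_one, Matrix.cons_val_fin_one] at h1
    refine h1.trans ?_
    rw [← Finset.sum_pair (f := fun i => x i ^ 2) hne]
    exact Finset.sum_le_sum_of_subset_of_nonneg (Finset.subset_univ _) (fun i _ _ => sq_nonneg _)

theorem SQ_opr_b (l : ℕ) {z : ℝ} (h0 : 0 ≤ z) (h1 : z ≤ 1) : Opr (SQ_b l z) := by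
  refine ⟨?_, ?_, ?_⟩
  · intro i j
    unfold SQ_b
    by_cases hij : i = j
    · rw [hij]
    · rw [if_neg hij, if_neg (Ne.symm hij)]
  · intro x
    rw [SQ_sum_b l z (fun i j => x i * x j)]
    exact add_nonneg (Finset.sum_nonneg fun i _ => mul_self_nonneg _)
      (mul_nonneg h0 (mul_self_nonneg _))
  · intro x
    rw [SQ_sum_b l z (fun i j => x i * x j), Fin.sum_univ_castSucc]
    refine add_le_add (Finset.sum_le_sum fun i _ => by rw [sq]) ?_
    have := mul_self_nonneg (x (Fin.last l))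
    rw [sq]
    nlinarith

theorem SQ_loss (hX : Surface Γ D) (m : Mt Γ D) (φ : TestS Γ) {T : ℝ}
    (hφ : ∀ z, |φ.1 z| ≤ T) (k l : ℕ) (hl : 0 < l) {α β ε : ℝ} (hβα : β ≤ α) (hε : 0 < ε)
    (w : Fin (k + (l + 1)) → TestS Γ)
    (hw : Fr (aF hX m) (bF hX m (expT φ)) (oneT Γ) ε w) (h1 : |nuE hX m φ k - α| ≤ ε)
    (h2 : |nuE hX m φ (k + l) - β| ≤ ε) {a b p z : ℝ} (ha0 : 0 ≤ a)
    (ha1 : a ≤ 1) (hp0 : 0 ≤ p) (hp1 : p ≤ 1)
    (hp : p * (α - β + ε) ≤ ε) (hz0 : 0 ≤ z) (hz1 : z ≤ 1) :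
    2 * (FE hX m (k + (l + 1)) α φ - vE hX m α φ w (SQ_a l a b p)) +
      2 * (FE hX m (k + (l + 1)) β φ - vE hX m β φ w (SQ_b l z)) ≤
        4 * (k + l + 4) * (1 + Real.exp T) * ε := by
  set A := arE hX m φ with hA
  have hApos : 0 < A := arE_pos hX m φ
  have hAinv : ε / A ≤ Real.exp T * ε := by
    rw [div_le_iff₀ hApos]
    have h3 := (arE_bounds hX m φ hφ).1
    have h4 : Real.exp T * Real.exp (-T) = 1 := by rw [← Real.exp_add]; simp
    have h5 : 1 ≤ Real.exp T * A := by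
      rw [← h4]
      exact mul_le_mul_of_nonneg_left h3 (Real.exp_pos _).le
    nlinarith
  have hεA : 0 < ε / A := div_pos hε hApos
  have hanti : ∀ {i j : ℕ}, i ≤ j → nuE hX m φ j ≤ nuE hX m φ i := by
    intro i j hij
    exact div_le_div_of_nonneg_right (mu_anti (expT_lam1 hX m φ) hij) hApos.le
  have hlo : ∀ i : Fin (k + (l + 1)), nuE hX m φ i - ε / A ≤ bF hX m (expT φ) (w i) (w i) / A := by
    intro i
    have := hw.lo i
    unfold nuE muE
    rw [← sub_div]
    exact div_le_div_of_nonneg_right this hApos.le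
  rw [abs_le] at h1 h2
  have c1 : ∀ i : Fin k, ((Fin.castAdd (l + 1) i : Fin (k + (l + 1))) : ℕ) = i :=
    fun i => Fin.val_castAdd (l + 1) i
  have c0 : ∀ i : Fin (l + 1), ((Fin.natAdd k i : Fin (k + (l + 1))) : ℕ) = k + i :=
    fun i => Fin.val_natAdd k i
  have hne := SQ_ne hl
  have d01 : bF hX m (expT φ) (w (Fin.natAdd k 0)) (w (Fin.natAdd k (Fin.last l))) = 0 := by
    apply hw.diag
    intro h
    have := congrArg Fin.val h
    rw [c0, c0] at this
    simp at this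
    omega
  have d10 : bF hX m (expT φ) (w (Fin.natAdd k (Fin.last l))) (w (Fin.natAdd k 0)) = 0 := by
    apply hw.diag
    intro h
    have := congrArg Fin.val h
    rw [c0, c0] at this
    simp at this
    omega
  set bb : Fin (l + 1) → ℝ := fun i =>
    bF hX m (expT φ) (w (Fin.natAdd k i)) (w (Fin.natAdd k i)) / A with hbb
  have lb : ∀ i : Fin (l + 1), nuE hX m φ (k + i) - ε / A ≤ bb i := by
    intro i
    have := hlo (Fin.natAdd k i)
    rw [c0] at this
    exact this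
  have hFE : ∀ ν, FE hX m (k + (l + 1)) ν φ = ∑ i : Fin k, max (nuE hX m φ i - ν) 0 +
      (∑ i : Fin l, max (nuE hX m φ (k + i) - ν) 0 + max (nuE hX m φ (k + l) - ν) 0) := by
    intro ν
    unfold FE
    rw [Finset.sum_range_add, Finset.sum_range_succ, Finset.sum_range, Finset.sum_range]
  have hva : vE hX m α φ w (SQ_a l a b p) =
      ∑ i : Fin k, (bF hX m (expT φ) (w (Fin.castAdd (l + 1) i)) (w (Fin.castAdd (l + 1) i)) / A - α) +
      (a * (bb 0 - α) + p * (bb (Fin.last l) - α)) := by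
    unfold vE
    rw [SQ_sum_a hl a b p (fun i j => bF hX m (expT φ) (w (Fin.natAdd k i)) (w (Fin.natAdd k j)) /
      arE hX m φ - if i = j then α else 0), d01, d10]
    simp only [zero_div, if_true, if_neg hne, if_neg hne.symm, sub_zero, mul_zero, add_zero,
      zero_add, ← hA, hbb]
  have hvb : vE hX m β φ w (SQ_b l z) =
      ∑ i : Fin k, (bF hX m (expT φ) (w (Fin.castAdd (l + 1) i)) (w (Fin.castAdd (l + 1) i)) / A - β) +
      (∑ i : Fin l, (bb i.castSucc - β) + z * (bb (Fin.last l) - β)) := by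
    unfold vE
    rw [SQ_sum_b l z (fun i j => bF hX m (expT φ) (w (Fin.natAdd k i)) (w (Fin.natAdd k j)) /
      arE hX m φ - if i = j then β else 0)]
    simp only [if_true, ← hA, hbb]
  have hsum : ∀ ν, ν ≤ α → ∑ i : Fin k, max (nuE hX m φ i - ν) 0 -
      ∑ i : Fin k, (bF hX m (expT φ) (w (Fin.castAdd (l + 1) i)) (w (Fin.castAdd (l + 1) i)) / A - ν) ≤
        k * (ε + ε / A) := by
    intro ν hν
    rw [← Finset.sum_sub_distrib]
    calc _ ≤ ∑ _i : Fin k, (ε + ε / A) := by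
          refine Finset.sum_le_sum fun i _ => ?_
          have e1 := hlo (Fin.castAdd (l + 1) i)
          rw [c1] at e1
          have e2 := hanti (i := (i : ℕ)) (j := k) i.2.le
          have e3 : max (nuE hX m φ i - ν) 0 ≤ nuE hX m φ i - ν + ε :=
            max_le (by linarith) (by linarith [h1.1])
          linarith
      _ = k * (ε + ε / A) := by
          rw [Finset.sum_const, Finset.card_univ, Fintype.card_fin, nsmul_eq_mul]
  have hsa : ∑ i : Fin l, max (nuE hX m φ (k + i) - α) 0 ≤ l * (ε + ε / A) := by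
    calc _ ≤ ∑ _i : Fin l, (ε + ε / A) := by
          refine Finset.sum_le_sum fun i _ => ?_
          have e2 := hanti (i := k) (j := k + (i : ℕ)) (Nat.le_add_right _ _)
          exact max_le (by linarith [h1.2]) (by linarith)
      _ = l * (ε + ε / A) := by
          rw [Finset.sum_const, Finset.card_univ, Fintype.card_fin, nsmul_eq_mul]
  have hsb : ∑ i : Fin l, max (nuE hX m φ (k + i) - β) 0 - ∑ i : Fin l, (bb i.castSucc - β) ≤
      l * (ε + ε / A) := by
    rw [← Finset.sum_sub_distrib]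
    calc _ ≤ ∑ _i : Fin l, (ε + ε / A) := by
          refine Finset.sum_le_sum fun i _ => ?_
          have e1 := lb i.castSucc
          rw [Fin.val_castSucc] at e1
          have e2 := hanti (i := k + (i : ℕ)) (j := k + l) (by have := i.2; omega)
          have e3 : max (nuE hX m φ (k + i) - β) 0 ≤ nuE hX m φ (k + i) - β + ε :=
            max_le (by linarith) (by linarith [h2.1])
          linarith
      _ = l * (ε + ε / A) := by
          rw [Finset.sum_const, Finset.card_univ, Fintype.card_fin, nsmul_eq_mul]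
  have hk : (0 : ℝ) ≤ k := Nat.cast_nonneg k
  have hl' : (0 : ℝ) ≤ l := Nat.cast_nonneg l
  have f1 := hsum α le_rfl
  have f2 := hsum β hβα
  have hkk := hanti (i := k) (j := k + l) (Nat.le_add_right _ _)
  have m2 : max (nuE hX m φ (k + l) - α) 0 ≤ ε := max_le (by linarith [h1.2]) hε.le
  have m4 : max (nuE hX m φ (k + l) - β) 0 ≤ ε := max_le h2.2 hε.le
  have l0 := lb 0
  have l1 := lb (Fin.last l)
  rw [Fin.val_last] at l1
  have hz : ((0 : Fin (l + 1)) : ℕ) = 0 := rfl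
  rw [hz, add_zero] at l0
  set b0 := bb 0 with hb0'
  set b1 := bb (Fin.last l) with hb1'
  have g1 : -(ε + ε / A) ≤ a * (b0 - α) := by
    have : -(ε + ε / A) ≤ b0 - α := by linarith [h1.1]
    nlinarith
  have g2 : -(ε + ε / A) ≤ p * (b1 - α) := by
    have : -((α - β + ε) + ε / A) ≤ b1 - α := by linarith [h2.1]
    nlinarith
  have g3 : -(ε + ε / A) ≤ z * (b1 - β) := by
    have : -(ε + ε / A) ≤ b1 - β := by linarith [h2.1]
    nlinarith
  rw [hFE α, hFE β, hva, hvb]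
  have hT : 0 < Real.exp T := Real.exp_pos T
  have key : 4 * ((k : ℝ) + l + 4) * (1 + Real.exp T) * ε =
      4 * ((k : ℝ) + l + 4) * (ε + Real.exp T * ε) := by ring
  rw [key]
  have key2 : 4 * ((k : ℝ) + l + 4) * (ε + ε / A) ≤ 4 * ((k : ℝ) + l + 4) * (ε + Real.exp T * ε) := by
    apply mul_le_mul_of_nonneg_left _ (by positivity)
    linarith
  refine le_trans ?_ key2
  nlinarith

theorem pair_slope2 (hX : Surface Γ D) (m : Mt Γ D) (L : ℕ) {c : ℕ → ℝ} (hc : Cs c)
    (ψ : TestS Γ) (k l : ℕ) (hl : 0 < l) {V : ℝ} (hV : 0 ≤ V) {κ₀ : ℝ} (hκ₀ : 0 < κ₀) :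
    ∃ L₁ r M C₁ Θ : ℝ, 0 < L₁ ∧ 0 < r ∧ 0 < M ∧ 0 < C₁ ∧ 0 < Θ ∧
      ∀ (Φ : (Dir → I) → TestS Γ), (∀ ξ z, (Φ ξ).1 z = ψ.1 z + phi Γ L c ξ z) →
      ∀ (J : Fin 3 → Dir), Function.Injective J → (∀ r, Valid L (J r)) →
      ∀ α β : ℝ, |α| ≤ V → |β| ≤ V → β ≤ α → ∀ ε : ℝ, 0 < ε →
      ∀ (ξ : Dir → I) (w : Fin (k + (l + 1)) → TestS Γ),
        Fr (aF hX m) (bF hX m (expT (Φ ξ))) (oneT Γ) ε w → |nuE hX m (Φ ξ) k - α| ≤ ε →
        |nuE hX m (Φ ξ) (k + l) - β| ≤ ε →
        κ₀ ≤ |(Matrix.of fun (r : Fin 3) (j : Fin 3) => Xv Γ D m.1.1 c (Φ ξ).1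
          (fun i : Fin (l + 1) => if i = 0 then α else β) (fun i => (w (Fin.natAdd k i)).1) (J r)
          (![0, Fin.last l, 0] j) (![0, Fin.last l, Fin.last l] j)).det| →
        ξ ∈ BadG (fun ξ => FE hX m (k + (l + 1)) α (Φ ξ) + FE hX m (k + (l + 1)) β (Φ ξ)) J L₁ r M
          (C₁ * ε) (Θ * √(ε / (α - β + ε))) := by
  have hne := SQ_ne hl
  obtain ⟨L₁, r, M, hL₁, hr, hM, hsl⟩ := slice_gen hX m L hc ψ k (l + 1) 3 hV
  obtain ⟨C, hC, hB⟩ := SP2_B (Γ := Γ) (D := D) hX m L hc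
  obtain ⟨M₁, hM1, hM1'⟩ := test_bdd hX ψ
  obtain ⟨M₂, hM2, hM2'⟩ := phi_bound hX L hc
  obtain ⟨M₀, hM0, hM0'⟩ := muE_upper hX m (M₁ + M₂)
  set T : ℝ := M₁ + M₂ with hT
  set Xb : ℝ := C * M₀ + V * (C * Real.exp T) with hXb
  have hXb0 : 0 ≤ Xb := by positivity
  have hE : 0 < Real.exp T := Real.exp_pos T
  have hl0 : (0 : ℝ) ≤ l := Nat.cast_nonneg l
  refine ⟨2 * L₁ + (l + 4) * (Xb * Real.exp T) + 1, r, 2 * M, 4 * (k + l + 4) * (1 + Real.exp T),
    κ₀ / (32 * Real.exp T ^ 3), by positivity, hr, by positivity, by positivity, by positivity, ?_⟩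
  intro Φ hΦ J hJ hv α β hα hβ hβα ε hε ξ w hw h1 h2 hdet
  set φ : TestS Γ := Φ ξ with hφ
  have hφM : ∀ z, |φ.1 z| ≤ T := by
    intro z
    rw [hφ, hΦ ξ z]
    exact (abs_add_le _ _).trans (add_le_add (hM1' z) (hM2' ξ z))
  set A := arE hX m φ with hA
  have hApos : 0 < A := arE_pos hX m φ
  have hAlo := (arE_bounds hX m φ hφM).1
  have hAup := (arE_bounds hX m φ hφM).2
  rw [← hA] at hAlo hAup
  obtain ⟨a₁, ha₁, hs₁⟩ := hsl Φ hΦ J hJ hv α hα ξ ε w hw
  obtain ⟨a₂, ha₂, hs₂⟩ := hsl Φ hΦ J hJ hv β hβ ξ ε w hw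
  rw [← hφ] at hs₁ hs₂
  -- bounds for the moments
  have hbM : ∀ i : Fin (l + 1), bF hX m (expT φ) (w (Fin.natAdd k i)) (w (Fin.natAdd k i)) ≤ M₀ :=
    fun i => (hw.up _).trans (hM0' φ hφM _)
  have hXmb : ∀ s i i', |Xm Γ D m.1.1 c φ.1 (fun i => (w (Fin.natAdd k i)).1) (J s) i i'| ≤
      C * M₀ := fun s i i' => (hB φ (J s) (hv s)).2 (fun i => w (Fin.natAdd k i)) M₀ hbM i i'
  have hXob : ∀ s, |Xo Γ D m.1.1 c φ.1 (J s)| ≤ C * Real.exp T := fun s =>
    ((hB φ (J s) (hv s)).1).trans (mul_le_mul_of_nonneg_left hAup hC.le)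
  have hXvb : ∀ (ν : Fin (l + 1) → ℝ), (∀ i, |ν i| ≤ V) → ∀ s i i',
      |Xv Γ D m.1.1 c φ.1 ν (fun i => (w (Fin.natAdd k i)).1) (J s) i i'| ≤ Xb := by
    intro ν hν s i i'
    unfold Xv
    refine (abs_sub _ _).trans (add_le_add (hXmb s i i') ?_)
    rw [abs_mul]
    refine mul_le_mul ?_ (hXob s) (abs_nonneg _) hV
    split_ifs
    · exact hν i
    · simpa using hV
  -- parameters
  set t : ℝ := α - β with ht
  have ht0 : 0 ≤ t := by linarith
  have htε : 0 < t + ε := by linarith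
  set p : ℝ := ε / (4 * (t + ε)) with hp
  have hp0 : 0 ≤ p := by positivity
  have hp1 : p ≤ 1 / 4 := by
    rw [hp, div_le_iff₀ (by positivity)]
    linarith
  have hpt : p * (t + ε) ≤ ε := by
    have : p * (t + ε) = ε / 4 := by
      rw [hp]
      field_simp
    linarith
  set θ : ℝ := √p / 2 with hθ
  have hθ0 : 0 ≤ θ := by positivity
  have hθ2 : θ ^ 2 = p / 4 := by
    rw [hθ, div_pow, Real.sq_sqrt hp0]
    norm_num
  have hθ1 : θ ≤ 1 / 4 := by
    nlinarith
  have hθs : θ = √(ε / (t + ε)) / 4 := by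
    have e1 : p = (ε / (t + ε)) / 4 := by
      rw [hp]
      field_simp
    have e2 : √p = √(ε / (t + ε)) / 2 := by
      rw [e1, Real.sqrt_div' _ (by norm_num), show (4 : ℝ) = 2 ^ 2 by norm_num,
        Real.sqrt_sq (by norm_num)]
    rw [hθ, e2]
    ring
  -- the centred moments
  set Pa : Fin 3 → Fin (l + 1) → Fin (l + 1) → ℝ := fun s i i' =>
    Xv Γ D m.1.1 c φ.1 (fun _ => α) (fun i => (w (Fin.natAdd k i)).1) (J s) i i' with hPa
  set Pb : Fin 3 → Fin (l + 1) → Fin (l + 1) → ℝ := fun s i i' =>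
    Xv Γ D m.1.1 c φ.1 (fun _ => β) (fun i => (w (Fin.natAdd k i)).1) (J s) i i' with hPb
  have hPab : ∀ s i i', |Pa s i i'| ≤ Xb := fun s i i' => hXvb (fun _ => α) (fun _ => hα) s i i'
  have hPbb : ∀ s i i', |Pb s i i'| ≤ Xb := fun s i i' => hXvb (fun _ => β) (fun _ => hβ) s i i'
  have hPsym : ∀ s, Pa s (Fin.last l) 0 = Pa s 0 (Fin.last l) := by
    intro s
    have e : Xm Γ D m.1.1 c φ.1 (fun i : Fin (l + 1) => (w (Fin.natAdd k i)).1) (J s) (Fin.last l) 0 =
        Xm Γ D m.1.1 c φ.1 (fun i : Fin (l + 1) => (w (Fin.natAdd k i)).1) (J s) 0 (Fin.last l) := by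
      unfold Xm
      congr 1
      refine integral_congr_ae (Filter.Eventually.of_forall fun z => ?_)
      dsimp only
      ring
    simp only [hPa, Xv]
    rw [e, if_neg hne, if_neg hne.symm]
  set Pc : Fin 3 → ℝ := fun s => ∑ i : Fin l, Pb s i.castSucc i.castSucc with hPc
  have hPcb : ∀ s, |Pc s| ≤ l * Xb := by
    intro s
    calc |Pc s| ≤ ∑ i : Fin l, |Pb s i.castSucc i.castSucc| := Finset.abs_sum_le_sum_abs _ _
      _ ≤ ∑ _i : Fin l, Xb := Finset.sum_le_sum fun i _ => hPbb s _ _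
      _ = l * Xb := by rw [Finset.sum_const, Finset.card_univ, Fintype.card_fin, nsmul_eq_mul]
  refine ⟨fun s => a₁ s + a₂ s + (1 / 2 * Pa s 0 0 + p * Pa s (Fin.last l) (Fin.last l) + Pc s +
      1 / 2 * Pb s (Fin.last l) (Fin.last l)) / A,
    Matrix.of fun s j => (![Pa s 0 0 / 4, Pb s (Fin.last l) (Fin.last l) / 4,
      2 * θ * Pa s 0 (Fin.last l)] : Fin 3 → ℝ) j / A,
    ?_, ?_, ?_, ?_⟩
  · refine (pi_norm_le_iff_of_nonneg (by positivity)).2 fun s => ?_
    rw [Real.norm_eq_abs]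
    have b1 : |a₁ s| ≤ L₁ := (norm_le_pi_norm a₁ s).trans ha₁
    have b2 : |a₂ s| ≤ L₁ := (norm_le_pi_norm a₂ s).trans ha₂
    have b3 : |(1 / 2 * Pa s 0 0 + p * Pa s (Fin.last l) (Fin.last l) + Pc s +
        1 / 2 * Pb s (Fin.last l) (Fin.last l))| ≤ (l + 4) * Xb := by
      have q1 := abs_le.1 (hPab s 0 0)
      have q2 := abs_le.1 (hPab s (Fin.last l) (Fin.last l))
      have q3 := abs_le.1 (hPcb s)
      have q4 := abs_le.1 (hPbb s (Fin.last l) (Fin.last l))
      rw [abs_le]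
      constructor <;> nlinarith [q1.1, q1.2, q2.1, q2.2, q3.1, q3.2, q4.1, q4.2]
    have b4 := SP2_div _ A T hApos hAlo b3
    calc _ ≤ |a₁ s| + |a₂ s| + |(1 / 2 * Pa s 0 0 + p * Pa s (Fin.last l) (Fin.last l) + Pc s +
          1 / 2 * Pb s (Fin.last l) (Fin.last l)) / A| := abs_add_three _ _ _
      _ ≤ L₁ + L₁ + (l + 4) * Xb * Real.exp T := add_le_add (add_le_add b1 b2) b4
      _ ≤ 2 * L₁ + (l + 4) * (Xb * Real.exp T) + 1 := by linarith
  · intro s j
    rw [Matrix.of_apply]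
    have b3 : |(![Pa s 0 0 / 4, Pb s (Fin.last l) (Fin.last l) / 4,
        2 * θ * Pa s 0 (Fin.last l)] : Fin 3 → ℝ) j| ≤ Xb := by
      have q1 := abs_le.1 (hPab s 0 0)
      have q2 := abs_le.1 (hPab s 0 (Fin.last l))
      have q3 := abs_le.1 (hPbb s (Fin.last l) (Fin.last l))
      rw [abs_le]
      fin_cases j
      · simp only [Fin.zero_eta, Matrix.cons_val_zero]
        constructor <;> linarith [q1.1, q1.2]
      · simp only [Fin.mk_one, Matrix.cons_val_one, Matrix.cons_val_zero]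
        constructor <;> linarith [q3.1, q3.2]
      · simp only [Fin.reduceFinMk, Matrix.cons_val]
        constructor <;> nlinarith [q2.1, q2.2]
    refine (SP2_div _ A T hApos hAlo b3).trans ?_
    nlinarith [mul_nonneg hXb0 hE.le, mul_nonneg hl0 (mul_nonneg hXb0 hE.le)]
  · -- the determinant
    set X := Matrix.of fun (s : Fin 3) (j : Fin 3) => Xv Γ D m.1.1 c φ.1
          (fun i : Fin (l + 1) => if i = 0 then α else β)
          (fun i => (w (Fin.natAdd k i)).1) (J s) (![0, Fin.last l, 0] j)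
          (![0, Fin.last l, Fin.last l] j) with hXdef
    have e1 : (Matrix.of fun s j => (![Pa s 0 0 / 4, Pb s (Fin.last l) (Fin.last l) / 4,
        2 * θ * Pa s 0 (Fin.last l)] :
        Fin 3 → ℝ) j / A) = X * Matrix.diagonal ![1 / (4 * A), 1 / (4 * A), 2 * θ / A] := by
      ext s j
      rw [Matrix.mul_diagonal, Matrix.of_apply, hXdef, Matrix.of_apply]
      fin_cases j
      · simp only [hPa, Xv, Fin.zero_eta, Matrix.cons_val_zero, if_true]
        field_simp
      · simp only [hPb, Xv, Fin.mk_one, Matrix.cons_val_one, Matrix.cons_val_zero, if_true,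
          if_neg hne.symm]
        field_simp
      · simp only [hPa, Xv, Fin.reduceFinMk, Matrix.cons_val, if_neg hne]
        field_simp
    rw [e1, Matrix.det_mul, Matrix.det_diagonal, Fin.prod_univ_three, abs_mul]
    simp only [Matrix.cons_val_zero, Matrix.cons_val_one, Matrix.cons_val]
    have e2 : |1 / (4 * A) * (1 / (4 * A)) * (2 * θ / A)| = θ / (8 * A ^ 3) := by
      rw [abs_of_nonneg (by positivity)]
      field_simp
      ring
    rw [e2]
    have e3 : A ^ 3 ≤ Real.exp T ^ 3 := pow_le_pow_left₀ hApos.le hAup 3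
    have e4 : κ₀ / (32 * Real.exp T ^ 3) * √(ε / (t + ε)) = κ₀ * (θ / (8 * Real.exp T ^ 3)) := by
      rw [hθs]
      field_simp
      norm_num
    rw [e4]
    refine mul_le_mul hdet ?_ (by positivity) (abs_nonneg _)
    exact div_le_div_of_nonneg_left hθ0 (by positivity) (by linarith)
  · intro τ hτ y hy
    have hτl : ∀ j, |τ j| ≤ 1 := fun j => (norm_le_pi_norm τ j).trans hτ
    have t0 := abs_le.1 (hτl 0)
    have t1 := abs_le.1 (hτl 1)
    have t2 := abs_le.1 (hτl 2)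
    have oa : Opr (SQ_a l (1 / 2 + τ 0 / 4) (θ * τ 2) p) := by
      apply SQ_opr_a hl
      apply SP2_opr _ hp1
      · have : (θ * τ 2) ^ 2 = p / 4 * (τ 2) ^ 2 := by rw [mul_pow, hθ2]
        rw [this]
        have : (τ 2) ^ 2 ≤ 1 := by nlinarith [t2.1, t2.2]
        nlinarith
      · rw [abs_le]
        constructor <;> linarith [t0.1, t0.2]
    have ob : Opr (SQ_b l (1 / 2 + τ 1 / 4)) := SQ_opr_b l (by linarith [t1.1]) (by linarith [t1.2])
    have i1 := hs₁ _ oa y hy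
    have i2 := hs₂ _ ob y hy
    have hl3 := SQ_loss hX m φ hφM k l hl hβα hε w hw h1 h2 (a := 1 / 2 + τ 0 / 4) (b := θ * τ 2)
      (p := p) (z := 1 / 2 + τ 1 / 4) (by linarith [t0.1]) (by linarith [t0.2]) hp0 (by linarith)
      hpt (by linarith [t1.1]) (by linarith [t1.2])
    have sa : ∀ s, ∑ i, ∑ j, SQ_a l (1 / 2 + τ 0 / 4) (θ * τ 2) p i j * Pa s i j =
        (1 / 2 + τ 0 / 4) * Pa s 0 0 + θ * τ 2 * Pa s 0 (Fin.last l) +
          (θ * τ 2 * Pa s 0 (Fin.last l) + p * Pa s (Fin.last l) (Fin.last l)) := by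
      intro s
      rw [SQ_sum_a hl _ _ _ (fun i j => Pa s i j), hPsym s]
    have sb : ∀ s, ∑ i, ∑ j, SQ_b l (1 / 2 + τ 1 / 4) i j * Pb s i j =
        Pc s + (1 / 2 + τ 1 / 4) * Pb s (Fin.last l) (Fin.last l) := by
      intro s
      rw [SQ_sum_b l _ (fun i j => Pb s i j)]
    have key : ∑ s, ((a₁ s + a₂ s + (1 / 2 * Pa s 0 0 + p * Pa s (Fin.last l) (Fin.last l) + Pc s +
          1 / 2 * Pb s (Fin.last l) (Fin.last l)) / A) + ∑ j, (Matrix.of fun s j =>
          (![Pa s 0 0 / 4, Pb s (Fin.last l) (Fin.last l) / 4,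
          2 * θ * Pa s 0 (Fin.last l)] : Fin 3 → ℝ) j / A) s j * τ j) * dsp J ξ y s =
        ∑ s, (a₁ s + (∑ i, ∑ j, SQ_a l (1 / 2 + τ 0 / 4) (θ * τ 2) p i j * Pa s i j) / A) *
            dsp J ξ y s +
          ∑ s, (a₂ s + (∑ i, ∑ j, SQ_b l (1 / 2 + τ 1 / 4) i j * Pb s i j) / A) * dsp J ξ y s := by
      rw [← Finset.sum_add_distrib]
      refine Finset.sum_congr rfl fun s _ => ?_
      rw [← add_mul, sa s, sb s]
      congr 1
      simp only [Fin.sum_univ_three, Matrix.cons_val_zero,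
        Matrix.cons_val_one, Matrix.of_apply, Matrix.cons_val]
      field_simp
      ring
    have k1 := i1
    have k2 := i2
    simp only [← hA] at k1 k2
    change FE hX m (k + (l + 1)) α φ + FE hX m (k + (l + 1)) β φ + ∑ s, ((a₁ s + a₂ s +
      (1 / 2 * Pa s 0 0 + p * Pa s (Fin.last l) (Fin.last l) + Pc s +
        1 / 2 * Pb s (Fin.last l) (Fin.last l)) / A) + ∑ j, (Matrix.of
        fun s j => (![Pa s 0 0 / 4, Pb s (Fin.last l) (Fin.last l) / 4,
          2 * θ * Pa s 0 (Fin.last l)] : Fin 3 → ℝ) j / A) s j *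
          τ j) * dsp J ξ y s - 4 * (k + l + 4) * (1 + Real.exp T) * ε -
      2 * M * ∑ s, dsp J ξ y s ^ 2 ≤
      FE hX m (k + (l + 1)) α (Φ (upJ J ξ y)) + FE hX m (k + (l + 1)) β (Φ (upJ J ξ y))
    rw [key]
    linarith

end LibQR35
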