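import Pool.Agent.LibQR35.SG
import Pool.Agent.LibQR35.SQ2

/-! ROW Q3 : slopes for the two levels `k` and `k + l`, `0 < l`, separated.

PLAN. Copy of `sep_slope` (file SP3.lean, proved), with intermediate levels. `n = l + 1`, `last = Fin.last l ≠ 0`.
Test operators: at `α`: `W 0 0 = 1/2 + x`, all other entries `0`; at `β`: diagonal, `W i i = 1` for `i ≠ last`,
`W last last = 1/2 + z`. Losses of the intermediate levels `i = k + 1, …, k + l - 1`: `max (nuE i - α) 0 ≤ ε`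
(`nuE i ≤ nuE k ≤ α + ε`, weight `0` at `α`) and `max (nuE i - β) 0 ≤ nuE i - β + ε` (weight `1` at `β`). -/

open MeasureTheory Set Filter Topology
open scoped ContDiff ENNReal NNReal unitInterval

namespace LibQR35

open BGS
open Pool.BGR (PM upI pj)

variable {Γ : Type} [Group Γ] [MulAction Γ Pl] {D : Set Pl}

theorem sep_slope2 (hX : Surface Γ D) (m : Mt Γ D) (L : ℕ) {c : ℕ → ℝ} (hc : Cs c)
    (ψ : TestS Γ) (k l : ℕ) (hl : 0 < l) {V : ℝ} (hV : 0 ≤ V) {κ₀ : ℝ} (hκ₀ : 0 < κ₀) :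
    ∃ L₁ r M C₁ Θ : ℝ, 0 < L₁ ∧ 0 < r ∧ 0 < M ∧ 0 < C₁ ∧ 0 < Θ ∧
      ∀ (Φ : (Dir → I) → TestS Γ), (∀ ξ z, (Φ ξ).1 z = ψ.1 z + phi Γ L c ξ z) →
      ∀ (J : Fin 2 → Dir), Function.Injective J → (∀ r, Valid L (J r)) →
      ∀ α β : ℝ, |α| ≤ V → |β| ≤ V → β ≤ α → ∀ ε : ℝ, 0 < ε →
      ∀ (ξ : Dir → I) (w : Fin (k + (l + 1)) → TestS Γ),
        Fr (aF hX m) (bF hX m (expT (Φ ξ))) (oneT Γ) ε w → |nuE hX m (Φ ξ) k - α| ≤ ε →
        |nuE hX m (Φ ξ) (k + l) - β| ≤ ε →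
        κ₀ ≤ |(Matrix.of fun (r : Fin 2) (j : Fin 2) => Xv Γ D m.1.1 c (Φ ξ).1
          (fun i : Fin (l + 1) => if i = 0 then α else β) (fun i => (w (Fin.natAdd k i)).1) (J r)
          (![0, Fin.last l] j) (![0, Fin.last l] j)).det| →
        ξ ∈ BadG (fun ξ => FE hX m (k + (l + 1)) α (Φ ξ) + FE hX m (k + (l + 1)) β (Φ ξ)) J L₁ r M
          (C₁ * ε) Θ := by
  have hne := SQ_ne hl
  obtain ⟨L₁, r, M, hL₁, hr, hM, hsl⟩ := slice_gen hX m L hc ψ k (l + 1) 2 hV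
  obtain ⟨C, hC, hB⟩ := SP2_B (Γ := Γ) (D := D) hX m L hc
  obtain ⟨M₁, hM1, hM1'⟩ := test_bdd hX ψ
  obtain ⟨M₂, hM2, hM2'⟩ := phi_bound hX L hc
  obtain ⟨M₀, hM0, hM0'⟩ := muE_upper hX m (M₁ + M₂)
  set T : ℝ := M₁ + M₂ with hT
  set Xb : ℝ := C * M₀ + V * (C * Real.exp T) with hXb
  have hXb0 : 0 ≤ Xb := by positivity
  have hE : 0 < Real.exp T := Real.exp_pos T
  have hl0 : (0 : ℝ) ≤ l := Nat.cast_nonneg l
  refine ⟨2 * L₁ + (l + 4) * (Xb * Real.exp T) + 1, r, 2 * M, 4 * (k + l + 4) * (1 + Real.exp T),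
    κ₀ / (16 * Real.exp T ^ 2), by positivity, hr, by positivity, by positivity, by positivity, ?_⟩
  intro Φ hΦ J hJ hv α β hα hβ hβα ε hε ξ w hw h1 h2 hdet
  set φ : TestS Γ := Φ ξ with hφ
  have hφM : ∀ z, |φ.1 z| ≤ T := by
    intro z
    rw [hφ, hΦ ξ z]
    exact (abs_add_le _ _).trans (add_le_add (hM1' z) (hM2' ξ z))
  set A := arE hX m φ with hA
  have hApos : 0 < A := arE_pos hX m φ
  have hAlo := (arE_bounds hX m φ hφM).1
  have hAup := (arE_bounds hX m φ hφM).2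
  rw [← hA] at hAlo hAup
  obtain ⟨a₁, ha₁, hs₁⟩ := hsl Φ hΦ J hJ hv α hα ξ ε w hw
  obtain ⟨a₂, ha₂, hs₂⟩ := hsl Φ hΦ J hJ hv β hβ ξ ε w hw
  rw [← hφ] at hs₁ hs₂
  -- bounds for the moments
  have hbM : ∀ i : Fin (l + 1), bF hX m (expT φ) (w (Fin.natAdd k i)) (w (Fin.natAdd k i)) ≤ M₀ :=
    fun i => (hw.up _).trans (hM0' φ hφM _)
  have hXmb : ∀ s i i', |Xm Γ D m.1.1 c φ.1 (fun i => (w (Fin.natAdd k i)).1) (J s) i i'| ≤
      C * M₀ := fun s i i' => (hB φ (J s) (hv s)).2 (fun i => w (Fin.natAdd k i)) M₀ hbM i i'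
  have hXob : ∀ s, |Xo Γ D m.1.1 c φ.1 (J s)| ≤ C * Real.exp T := fun s =>
    ((hB φ (J s) (hv s)).1).trans (mul_le_mul_of_nonneg_left hAup hC.le)
  have hXvb : ∀ (ν : Fin (l + 1) → ℝ), (∀ i, |ν i| ≤ V) → ∀ s i i',
      |Xv Γ D m.1.1 c φ.1 ν (fun i => (w (Fin.natAdd k i)).1) (J s) i i'| ≤ Xb := by
    intro ν hν s i i'
    unfold Xv
    refine (abs_sub _ _).trans (add_le_add (hXmb s i i') ?_)
    rw [abs_mul]
    refine mul_le_mul ?_ (hXob s) (abs_nonneg _) hV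
    split_ifs
    · exact hν i
    · simpa using hV
  -- the centred moments
  set Pa : Fin 2 → Fin (l + 1) → Fin (l + 1) → ℝ := fun s i i' =>
    Xv Γ D m.1.1 c φ.1 (fun _ => α) (fun i => (w (Fin.natAdd k i)).1) (J s) i i' with hPa
  set Pb : Fin 2 → Fin (l + 1) → Fin (l + 1) → ℝ := fun s i i' =>
    Xv Γ D m.1.1 c φ.1 (fun _ => β) (fun i => (w (Fin.natAdd k i)).1) (J s) i i' with hPb
  have hPab : ∀ s i i', |Pa s i i'| ≤ Xb := fun s i i' => hXvb (fun _ => α) (fun _ => hα) s i i'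
  have hPbb : ∀ s i i', |Pb s i i'| ≤ Xb := fun s i i' => hXvb (fun _ => β) (fun _ => hβ) s i i'
  set Pc : Fin 2 → ℝ := fun s => ∑ i : Fin l, Pb s i.castSucc i.castSucc with hPc
  have hPcb : ∀ s, |Pc s| ≤ l * Xb := by
    intro s
    calc |Pc s| ≤ ∑ i : Fin l, |Pb s i.castSucc i.castSucc| := Finset.abs_sum_le_sum_abs _ _
      _ ≤ ∑ _i : Fin l, Xb := Finset.sum_le_sum fun i _ => hPbb s _ _
      _ = l * Xb := by rw [Finset.sum_const, Finset.card_univ, Fintype.card_fin, nsmul_eq_mul]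
  refine ⟨fun s => a₁ s + a₂ s + (1 / 2 * Pa s 0 0 + Pc s +
      1 / 2 * Pb s (Fin.last l) (Fin.last l)) / A,
    Matrix.of fun s j => (![Pa s 0 0 / 4, Pb s (Fin.last l) (Fin.last l) / 4] : Fin 2 → ℝ) j / A,
    ?_, ?_, ?_, ?_⟩
  · refine (pi_norm_le_iff_of_nonneg (by positivity)).2 fun s => ?_
    rw [Real.norm_eq_abs]
    have b1 : |a₁ s| ≤ L₁ := (norm_le_pi_norm a₁ s).trans ha₁
    have b2 : |a₂ s| ≤ L₁ := (norm_le_pi_norm a₂ s).trans ha₂
    have b3 : |(1 / 2 * Pa s 0 0 + Pc s +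
        1 / 2 * Pb s (Fin.last l) (Fin.last l))| ≤ (l + 4) * Xb := by
      have q1 := abs_le.1 (hPab s 0 0)
      have q3 := abs_le.1 (hPcb s)
      have q4 := abs_le.1 (hPbb s (Fin.last l) (Fin.last l))
      rw [abs_le]
      constructor <;> nlinarith [q1.1, q1.2, q3.1, q3.2, q4.1, q4.2]
    have b4 := SP2_div _ A T hApos hAlo b3
    calc _ ≤ |a₁ s| + |a₂ s| + |(1 / 2 * Pa s 0 0 + Pc s +
          1 / 2 * Pb s (Fin.last l) (Fin.last l)) / A| := abs_add_three _ _ _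
      _ ≤ L₁ + L₁ + (l + 4) * Xb * Real.exp T := add_le_add (add_le_add b1 b2) b4
      _ ≤ 2 * L₁ + (l + 4) * (Xb * Real.exp T) + 1 := by linarith
  · intro s j
    rw [Matrix.of_apply]
    have b3 : |(![Pa s 0 0 / 4, Pb s (Fin.last l) (Fin.last l) / 4] : Fin 2 → ℝ) j| ≤ Xb := by
      have q1 := abs_le.1 (hPab s 0 0)
      have q3 := abs_le.1 (hPbb s (Fin.last l) (Fin.last l))
      rw [abs_le]
      fin_cases j
      · simp only [Fin.zero_eta, Matrix.cons_val_zero]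
        constructor <;> linarith [q1.1, q1.2]
      · simp only [Fin.mk_one, Matrix.cons_val_one, Matrix.cons_val_fin_one]
        constructor <;> linarith [q3.1, q3.2]
    refine (SP2_div _ A T hApos hAlo b3).trans ?_
    nlinarith [mul_nonneg hXb0 hE.le, mul_nonneg hl0 (mul_nonneg hXb0 hE.le)]
  · -- the determinant
    set X := Matrix.of fun (s : Fin 2) (j : Fin 2) => Xv Γ D m.1.1 c φ.1
          (fun i : Fin (l + 1) => if i = 0 then α else β)
          (fun i => (w (Fin.natAdd k i)).1) (J s) (![0, Fin.last l] j)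
          (![0, Fin.last l] j) with hXdef
    have e1 : (Matrix.of fun s j => (![Pa s 0 0 / 4, Pb s (Fin.last l) (Fin.last l) / 4] :
        Fin 2 → ℝ) j / A) = X * Matrix.diagonal ![1 / (4 * A), 1 / (4 * A)] := by
      ext s j
      rw [Matrix.mul_diagonal, Matrix.of_apply, hXdef, Matrix.of_apply]
      fin_cases j
      · simp only [hPa, Xv, Fin.zero_eta, Matrix.cons_val_zero, if_true]
        field_simp
      · simp only [hPb, Xv, Fin.mk_one, Matrix.cons_val_one, Matrix.cons_val_fin_one, if_true,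
          if_neg hne.symm]
        field_simp
    rw [e1, Matrix.det_mul, Matrix.det_diagonal, Fin.prod_univ_two, abs_mul]
    simp only [Matrix.cons_val_zero, Matrix.cons_val_one, Matrix.cons_val_fin_one]
    have e2 : |1 / (4 * A) * (1 / (4 * A))| = 1 / (16 * A ^ 2) := by
      rw [abs_of_nonneg (by positivity)]
      field_simp
      norm_num
    rw [e2]
    have e3 : A ^ 2 ≤ Real.exp T ^ 2 := pow_le_pow_left₀ hApos.le hAup 2
    have e4 : κ₀ / (16 * Real.exp T ^ 2) = κ₀ * (1 / (16 * Real.exp T ^ 2)) := by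
      field_simp
    rw [e4]
    refine mul_le_mul hdet ?_ (by positivity) (abs_nonneg _)
    exact div_le_div_of_nonneg_left zero_le_one (by positivity) (by linarith)
  · intro τ hτ y hy
    have hτl : ∀ j, |τ j| ≤ 1 := fun j => (norm_le_pi_norm τ j).trans hτ
    have t0 := abs_le.1 (hτl 0)
    have t1 := abs_le.1 (hτl 1)
    have oa : Opr (SQ_a l (1 / 2 + τ 0 / 4) 0 0) := by
      apply SQ_opr_a hl
      exact SP2_diag (by linarith [t0.1]) (by linarith [t0.2]) le_rfl (by norm_num)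
    have ob : Opr (SQ_b l (1 / 2 + τ 1 / 4)) := SQ_opr_b l (by linarith [t1.1]) (by linarith [t1.2])
    have i1 := hs₁ _ oa y hy
    have i2 := hs₂ _ ob y hy
    have hl3 := SQ_loss hX m φ hφM k l hl hβα hε w hw h1 h2 (a := 1 / 2 + τ 0 / 4) (b := 0)
      (p := 0) (z := 1 / 2 + τ 1 / 4) (by linarith [t0.1]) (by linarith [t0.2]) le_rfl zero_le_one
      (by rw [zero_mul]; exact hε.le) (by linarith [t1.1]) (by linarith [t1.2])
    have sa : ∀ s, ∑ i, ∑ j, SQ_a l (1 / 2 + τ 0 / 4) 0 0 i j * Pa s i j =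
        (1 / 2 + τ 0 / 4) * Pa s 0 0 := by
      intro s
      rw [SQ_sum_a hl _ _ _ (fun i j => Pa s i j)]
      ring
    have sb : ∀ s, ∑ i, ∑ j, SQ_b l (1 / 2 + τ 1 / 4) i j * Pb s i j =
        Pc s + (1 / 2 + τ 1 / 4) * Pb s (Fin.last l) (Fin.last l) := by
      intro s
      rw [SQ_sum_b l _ (fun i j => Pb s i j)]
    have key : ∑ s, ((a₁ s + a₂ s + (1 / 2 * Pa s 0 0 + Pc s +
          1 / 2 * Pb s (Fin.last l) (Fin.last l)) / A) + ∑ j, (Matrix.of fun s j =>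
          (![Pa s 0 0 / 4, Pb s (Fin.last l) (Fin.last l) / 4] : Fin 2 → ℝ) j / A) s j * τ j) *
            dsp J ξ y s =
        ∑ s, (a₁ s + (∑ i, ∑ j, SQ_a l (1 / 2 + τ 0 / 4) 0 0 i j * Pa s i j) / A) *
            dsp J ξ y s +
          ∑ s, (a₂ s + (∑ i, ∑ j, SQ_b l (1 / 2 + τ 1 / 4) i j * Pb s i j) / A) * dsp J ξ y s := by
      rw [← Finset.sum_add_distrib]
      refine Finset.sum_congr rfl fun s _ => ?_
      rw [← add_mul, sa s, sb s]
      congr 1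
      simp only [Fin.sum_univ_two, Matrix.cons_val_zero,
        Matrix.cons_val_one, Matrix.cons_val_fin_one, Matrix.of_apply]
      field_simp
      ring
    have k1 := i1
    have k2 := i2
    simp only [← hA] at k1 k2
    change FE hX m (k + (l + 1)) α φ + FE hX m (k + (l + 1)) β φ + ∑ s, ((a₁ s + a₂ s +
      (1 / 2 * Pa s 0 0 + Pc s +
        1 / 2 * Pb s (Fin.last l) (Fin.last l)) / A) + ∑ j, (Matrix.of
        fun s j => (![Pa s 0 0 / 4, Pb s (Fin.last l) (Fin.last l) / 4] : Fin 2 → ℝ) j / A) s j *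
          τ j) * dsp J ξ y s - 4 * (k + l + 4) * (1 + Real.exp T) * ε -
      2 * M * ∑ s, dsp J ξ y s ^ 2 ≤
      FE hX m (k + (l + 1)) α (Φ (upJ J ξ y)) + FE hX m (k + (l + 1)) β (Φ (upJ J ξ y))
    rw [key]
    linarith

end LibQR35
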