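import Pool.Agent.LibQR35.XL

/-! ROW Q4 : the joint law of the levels `k` and `k + l`, `0 < l`.

PLAN. Copy of `XL_two` (file XL.lean, proved) with `k + 1` replaced by `k + l` (`XL_mono` iterated). -/

open MeasureTheory Set Filter Topology
open scoped ContDiff ENNReal NNReal unitInterval

namespace LibQR35

open BGS
open Pool.BGR (PM upI pj)

variable {Γ : Type} [Group Γ] [MulAction Γ Pl] {D : Set Pl}

theorem XL2_mono (hX : Surface Γ D) (m : Mt Γ D) (φ : TestS Γ) (k l : ℕ) :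
    lvX hX m φ k ≤ lvX hX m φ (k + l) := by
  induction l with
  | zero => exact le_rfl
  | succ l ih => exact ih.trans (XL_mono hX m φ (k + l))

theorem XL_two2 (hX : Surface Γ D) (m : Mt Γ D) (L : ℕ) {c : ℕ → ℝ} (hc : Cs c)
    (Φ : (Dir → I) → TestS Γ) (ψ : TestS Γ)
    (hΦ : ∀ ξ z, (Φ ξ).1 z = ψ.1 z + phi Γ L c ξ z) (k l : ℕ)
    (h2 : ∃ C : ℝ, 0 < C ∧ ∀ α β ε : ℝ, 0 < ε → β ≤ α →
      PM Dir {ξ | |nuE hX m (Φ ξ) k - α| ≤ ε ∧ |nuE hX m (Φ ξ) (k + l) - β| ≤ ε} ≤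
        ENNReal.ofReal (C * ε ^ 2 * (α - β + ε))) :
    ∃ C : ℝ, 0 < C ∧ ∀ A : Set (ℝ × ℝ), MeasurableSet A →
      PM Dir {ξ | (lvX hX m (Φ ξ) k, lvX hX m (Φ ξ) (k + l)) ∈ A} ≤
        ∫⁻ z in A, ENNReal.ofReal (C * |z.2 - z.1|) := by
  obtain ⟨M, hM⟩ := XL_bound hX L hc Φ ψ hΦ
  obtain ⟨c₁, hc₁, hb⟩ := XL_bounds hX m M
  obtain ⟨c₂, hc₂, hb1⟩ := hb k
  obtain ⟨c₃, hc₃, hb2⟩ := hb (k + l)
  obtain ⟨C, hC, h⟩ := h2
  have hpi : 0 < 4 * Real.pi := mul_pos four_pos Real.pi_pos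
  set K : ℝ := (4 * Real.pi * c₁ ^ 2)⁻¹ with hK
  have hK0 : 0 < K := by positivity
  have hmeas : Measurable fun ξ => (lvX hX m (Φ ξ) k, lvX hX m (Φ ξ) (k + l)) :=
    ((XL_cont hX m L hc Φ ψ hΦ k).measurable).prodMk (XL_cont hX m L hc Φ ψ hΦ (k + l)).measurable
  refine ⟨C * K ^ 3, by positivity, fun A hA => ?_⟩
  have emap : PM Dir {ξ | (lvX hX m (Φ ξ) k, lvX hX m (Φ ξ) (k + l)) ∈ A} =
      (PM Dir).map (fun ξ => (lvX hX m (Φ ξ) k, lvX hX m (Φ ξ) (k + l))) A := by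
    rw [Measure.map_apply hmeas hA]
    rfl
  rw [emap]
  have : IsFiniteMeasure ((PM Dir).map (fun ξ => (lvX hX m (Φ ξ) k, lvX hX m (Φ ξ) (k + l)))) :=
    Measure.isFiniteMeasure_map _ _
  refine dens2 _ (fun a b ε hε => ?_) hA
  rw [Measure.map_apply hmeas (measurableSet_Icc.prod measurableSet_Icc)]
  set a' : ℝ := max a c₁ with ha'
  set b' : ℝ := max b a' with hb'
  have ha0 : 0 < a' := lt_of_lt_of_le hc₁ (le_max_right a c₁)
  have hb0 : 0 < b' := lt_of_lt_of_le ha0 (le_max_right b a')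
  have hab : a' ≤ b' := le_max_right b a'
  have hle : (4 * Real.pi * b')⁻¹ ≤ (4 * Real.pi * a')⁻¹ :=
    inv_anti₀ (by positivity) (mul_le_mul_of_nonneg_left hab hpi.le)
  have hdiff : (4 * Real.pi * a')⁻¹ - (4 * Real.pi * b')⁻¹ ≤ K * |b - a| := by
    have e1 : (4 * Real.pi * a')⁻¹ - (4 * Real.pi * b')⁻¹ =
        (4 * Real.pi * (a' * b'))⁻¹ * (b' - a') := by
      field_simp
    rw [e1]
    have e2 : c₁ ^ 2 ≤ a' * b' := by
      rw [sq]
      exact mul_le_mul (le_max_right a c₁) ((le_max_right a c₁).trans hab) hc₁.le ha0.le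
    have e3 : b' - a' ≤ |b - a| := by
      rcases le_total b a' with h5 | h5
      · rw [hb', max_eq_right h5, sub_self]
        exact abs_nonneg _
      · rw [hb', max_eq_left h5]
        exact (sub_le_sub_left (le_max_left a c₁) b).trans (le_abs_self _)
    exact mul_le_mul (inv_anti₀ (by positivity) (mul_le_mul_of_nonneg_left e2 hpi.le)) e3
      (sub_nonneg.2 hab) hK0.le
  refine (measure_mono ?_).trans ((h (4 * Real.pi * a')⁻¹ (4 * Real.pi * b')⁻¹ (K * ε)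
    (by positivity) hle).trans ?_)
  · intro ξ hξ
    obtain ⟨h3, h4⟩ : lvX hX m (Φ ξ) k ∈ Icc a (a + ε) ∧
      lvX hX m (Φ ξ) (k + l) ∈ Icc b (b + ε) := hξ
    obtain ⟨h5, h6, -⟩ := hb1 (Φ ξ) (hM ξ)
    obtain ⟨h7, h8, -⟩ := hb2 (Φ ξ) (hM ξ)
    have h9 : a' ≤ lvX hX m (Φ ξ) k := max_le h3.1 h6
    refine ⟨XL_inv hc₁ (le_max_right a c₁) h5 rfl h9
      (h3.2.trans (by linarith [le_max_left a c₁])), ?_⟩
    exact XL_inv hc₁ ((le_max_right a c₁).trans hab) h7 rfl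
      (max_le h4.1 (h9.trans (XL2_mono hX m (Φ ξ) k l))) (h4.2.trans (by linarith [le_max_left b a']))
  · apply ENNReal.ofReal_le_ofReal
    have h5 : (4 * Real.pi * a')⁻¹ - (4 * Real.pi * b')⁻¹ + K * ε ≤ K * (|b - a| + ε) := by
      rw [mul_add]
      linarith
    calc C * (K * ε) ^ 2 * ((4 * Real.pi * a')⁻¹ - (4 * Real.pi * b')⁻¹ + K * ε)
        ≤ C * (K * ε) ^ 2 * (K * (|b - a| + ε)) := mul_le_mul_of_nonneg_left h5 (by positivity)
      _ = C * K ^ 3 * ε ^ 2 * (|b - a| + ε) := by ring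

end LibQR35
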