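import Pool.Agent.LibQR35.XL
import Pool.Agent.LibQR35.C11

/-! ROW Q5 : the one- and two-point functions of the levels in `[0, Lam]`.

PLAN. `lv_large`: `muE hX m (Φ ξ) k ≤ Real.exp M * muE hX m 0 k` (`muE_le`, `|Φ ξ z| ≤ M` by `XL_bound`), which tends to
`0` (`mu_tendsto` for `φ = 0`, file C11), `arE ≥ exp (-M)` (`arE_bounds`), `lvX = (4 π muE / arE)⁻¹`.
`two_point`: for `A ⊆ Icc 0 Lam ×ˢ Icc 0 Lam` and `K` from `lv_large` the terms with `K ≤ j + l + 1` vanish (the event is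
contained in `lvX (j + l + 1) ≤ Lam`, empty), so both sums are finite (`tsum_eq_sum`), and
`∑ ∫⁻ ofReal (C j l * |z.2 - z.1|) = ∫⁻ ofReal ((∑ C j l) * |z.2 - z.1|)` (`lintegral_const_mul` / `lintegral_finset_sum`;
or `≤` with the maximum of the `C j l` times the number of terms). Likewise `one_point`. -/

open MeasureTheory Set Filter Topology
open scoped ContDiff ENNReal NNReal unitInterval

namespace LibQR35

open BGS
open Pool.BGR (PM upI pj)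

variable {Γ : Type} [Group Γ] [MulAction Γ Pl] {D : Set Pl}

theorem lv_large (hX : Surface Γ D) (m : Mt Γ D) (L : ℕ) {c : ℕ → ℝ} (hc : Cs c)
    (Φ : (Dir → I) → TestS Γ) (ψ : TestS Γ)
    (hΦ : ∀ ξ z, (Φ ξ).1 z = ψ.1 z + phi Γ L c ξ z) (Lam : ℝ) :
    ∃ K : ℕ, ∀ k, K ≤ k → ∀ ξ, Lam < lvX hX m (Φ ξ) k := by
  obtain ⟨M, hM⟩ := XL_bound hX L hc Φ ψ hΦ
  obtain ⟨c₁, hc₁, hb⟩ := XL_bounds hX m M
  have hpi : 0 < 4 * Real.pi := mul_pos four_pos Real.pi_pos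
  have hP : 0 < max Lam 0 + 1 := by
    have := le_max_right Lam 0
    linarith
  have ht : Tendsto (fun k => 4 * Real.pi * (Real.exp M * Real.exp M * muE hX m 0 k)) atTop
      (𝓝 0) := by
    have h1 : Tendsto (muE hX m 0) atTop (𝓝 0) := mu_tendsto hX m 0
    have h2 := (h1.const_mul (Real.exp M * Real.exp M)).const_mul (4 * Real.pi)
    simpa using h2
  obtain ⟨K, hK⟩ := eventually_atTop.1 (ht.eventually (gt_mem_nhds (inv_pos.2 hP)))
  refine ⟨K, fun k hk ξ => ?_⟩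
  obtain ⟨c₂, hc₂, hb1⟩ := hb k
  obtain ⟨h3, -, -⟩ := hb1 (Φ ξ) (hM ξ)
  have h4 : muE hX m (Φ ξ) k ≤ Real.exp M * muE hX m 0 k := by
    refine muE_le hX m (fun z => ?_) k
    change (Φ ξ).1 z ≤ 0 + M
    linarith [(abs_le.1 (hM ξ z)).2]
  have hA := (arE_bounds hX m (Φ ξ) (hM ξ)).1
  have hA0 := arE_pos hX m (Φ ξ)
  have h0 : 0 ≤ muE hX m 0 k := mu_nonneg _ _ _
  have h5 : nuE hX m (Φ ξ) k ≤ Real.exp M * Real.exp M * muE hX m 0 k := by
    unfold nuE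
    rw [div_le_iff₀ hA0]
    calc muE hX m (Φ ξ) k ≤ Real.exp M * muE hX m 0 k := h4
      _ = Real.exp M * Real.exp M * muE hX m 0 k * Real.exp (-M) := by
          rw [Real.exp_neg]
          field_simp
      _ ≤ Real.exp M * Real.exp M * muE hX m 0 k * arE hX m (Φ ξ) :=
          mul_le_mul_of_nonneg_left hA (by positivity)
  have h6 : 4 * Real.pi * nuE hX m (Φ ξ) k < (max Lam 0 + 1)⁻¹ :=
    (mul_le_mul_of_nonneg_left h5 hpi.le).trans_lt (hK k hk)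
  have h7 : max Lam 0 + 1 < lvX hX m (Φ ξ) k := by
    unfold lvX
    exact (lt_inv_comm₀ (mul_pos hpi h3) hP).1 h6
  have := le_max_left Lam 0
  linarith

theorem one_point (hX : Surface Γ D) (m : Mt Γ D) (L : ℕ) {c : ℕ → ℝ} (hc : Cs c)
    (Φ : (Dir → I) → TestS Γ) (ψ : TestS Γ)
    (hΦ : ∀ ξ z, (Φ ξ).1 z = ψ.1 z + phi Γ L c ξ z)
    (h1 : ∀ k, ∃ C : ℝ, 0 < C ∧ ∀ A : Set ℝ, MeasurableSet A →
      PM Dir {ξ | lvX hX m (Φ ξ) k ∈ A} ≤ ENNReal.ofReal C * volume A) (Lam : ℝ) :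
    ∃ C : ℝ, 0 < C ∧ ∀ A : Set ℝ, MeasurableSet A → A ⊆ Icc 0 Lam →
      ∑' k, PM Dir {ξ | lvX hX m (Φ ξ) k ∈ A} ≤ ENNReal.ofReal C * volume A := by
  obtain ⟨K, hK⟩ := lv_large hX m L hc Φ ψ hΦ Lam
  choose C hC h using h1
  have hsum : 0 ≤ ∑ k ∈ Finset.range K, C k := Finset.sum_nonneg fun k _ => (hC k).le
  refine ⟨∑ k ∈ Finset.range K, C k + 1, by linarith, fun A hA hsub => ?_⟩
  rw [tsum_eq_sum (s := Finset.range K) (fun k hk => ?_)]
  · calc ∑ k ∈ Finset.range K, PM Dir {ξ | lvX hX m (Φ ξ) k ∈ A}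
        ≤ ∑ k ∈ Finset.range K, ENNReal.ofReal (C k) * volume A :=
          Finset.sum_le_sum fun k _ => h k A hA
      _ = ENNReal.ofReal (∑ k ∈ Finset.range K, C k) * volume A := by
          rw [ENNReal.ofReal_sum_of_nonneg fun k _ => (hC k).le, Finset.sum_mul]
      _ ≤ ENNReal.ofReal (∑ k ∈ Finset.range K, C k + 1) * volume A := by
          gcongr
          linarith
  · have e : {ξ | lvX hX m (Φ ξ) k ∈ A} = ∅ := by
      rw [eq_empty_iff_forall_notMem]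
      intro ξ hξ
      have h2 := hK k (not_lt.1 fun h3 => hk (Finset.mem_range.2 h3)) ξ
      exact absurd (hsub hξ).2 (not_le.2 h2)
    rw [e, measure_empty]

theorem two_point (hX : Surface Γ D) (m : Mt Γ D) (L : ℕ) {c : ℕ → ℝ} (hc : Cs c)
    (Φ : (Dir → I) → TestS Γ) (ψ : TestS Γ)
    (hΦ : ∀ ξ z, (Φ ξ).1 z = ψ.1 z + phi Γ L c ξ z)
    (h2 : ∀ j l : ℕ, ∃ C : ℝ, 0 < C ∧ ∀ A : Set (ℝ × ℝ), MeasurableSet A →
      PM Dir {ξ | (lvX hX m (Φ ξ) j, lvX hX m (Φ ξ) (j + l + 1)) ∈ A} ≤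
        ∫⁻ z in A, ENNReal.ofReal (C * |z.2 - z.1|)) (Lam : ℝ) :
    ∃ C : ℝ, 0 < C ∧ ∀ A : Set (ℝ × ℝ), MeasurableSet A → A ⊆ Icc 0 Lam ×ˢ Icc 0 Lam →
      ∑' (j : ℕ) (l : ℕ), PM Dir {ξ | (lvX hX m (Φ ξ) j, lvX hX m (Φ ξ) (j + l + 1)) ∈ A} ≤
        ∫⁻ z in A, ENNReal.ofReal (C * |z.2 - z.1|) := by
  obtain ⟨K, hK⟩ := lv_large hX m L hc Φ ψ hΦ Lam
  choose C hC h using h2
  have hsum : 0 ≤ ∑ j ∈ Finset.range K, ∑ l ∈ Finset.range K, C j l :=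
    Finset.sum_nonneg fun j _ => Finset.sum_nonneg fun l _ => (hC j l).le
  refine ⟨∑ j ∈ Finset.range K, ∑ l ∈ Finset.range K, C j l + 1, by linarith,
    fun A hA hsub => ?_⟩
  have hmul : ∀ q : ℝ, 0 ≤ q → ∫⁻ z in A, ENNReal.ofReal (q * |z.2 - z.1|) =
      ENNReal.ofReal q * ∫⁻ z in A, ENNReal.ofReal |z.2 - z.1| := by
    intro q hq
    rw [← lintegral_const_mul' _ _ ENNReal.ofReal_ne_top]
    exact lintegral_congr fun z => ENNReal.ofReal_mul hq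
  have hzero : ∀ j l : ℕ, K ≤ j + l + 1 →
      PM Dir {ξ | (lvX hX m (Φ ξ) j, lvX hX m (Φ ξ) (j + l + 1)) ∈ A} = 0 := by
    intro j l hjl
    have e : {ξ | (lvX hX m (Φ ξ) j, lvX hX m (Φ ξ) (j + l + 1)) ∈ A} = ∅ := by
      rw [eq_empty_iff_forall_notMem]
      intro ξ hξ
      have h3 := hK (j + l + 1) hjl ξ
      exact absurd (hsub hξ).2.2 (not_le.2 h3)
    rw [e, measure_empty]
  have hinner : ∀ j : ℕ,
      ∑' l : ℕ, PM Dir {ξ | (lvX hX m (Φ ξ) j, lvX hX m (Φ ξ) (j + l + 1)) ∈ A} =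
      ∑ l ∈ Finset.range K,
        PM Dir {ξ | (lvX hX m (Φ ξ) j, lvX hX m (Φ ξ) (j + l + 1)) ∈ A} := by
    intro j
    refine tsum_eq_sum fun l hl => hzero j l ?_
    have := not_lt.1 fun h3 => hl (Finset.mem_range.2 h3)
    omega
  rw [tsum_congr hinner, tsum_eq_sum (s := Finset.range K) (fun j hj => ?_)]
  · calc ∑ j ∈ Finset.range K, ∑ l ∈ Finset.range K,
          PM Dir {ξ | (lvX hX m (Φ ξ) j, lvX hX m (Φ ξ) (j + l + 1)) ∈ A}
        ≤ ∑ j ∈ Finset.range K, ∑ l ∈ Finset.range K,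
          ENNReal.ofReal (C j l) * ∫⁻ z in A, ENNReal.ofReal |z.2 - z.1| :=
          Finset.sum_le_sum fun j _ => Finset.sum_le_sum fun l _ =>
            (h j l A hA).trans_eq (hmul _ (hC j l).le)
      _ = ENNReal.ofReal (∑ j ∈ Finset.range K, ∑ l ∈ Finset.range K, C j l) *
          ∫⁻ z in A, ENNReal.ofReal |z.2 - z.1| := by
          rw [ENNReal.ofReal_sum_of_nonneg fun j _ => Finset.sum_nonneg fun l _ => (hC j l).le,
            Finset.sum_mul]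
          refine Finset.sum_congr rfl fun j _ => ?_
          rw [ENNReal.ofReal_sum_of_nonneg fun l _ => (hC j l).le, Finset.sum_mul]
      _ ≤ ENNReal.ofReal (∑ j ∈ Finset.range K, ∑ l ∈ Finset.range K, C j l + 1) *
          ∫⁻ z in A, ENNReal.ofReal |z.2 - z.1| := by
          gcongr
          linarith
      _ = _ := (hmul _ (by linarith)).symm
  · have := not_lt.1 fun h3 => hj (Finset.mem_range.2 h3)
    exact Finset.sum_eq_zero fun l _ => hzero j l (by omega)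

end LibQR35
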