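import Pool.Agent.LibQR35.C0
import Pool.Agent.LibQR35.C1
import Pool.Agent.LibQR35.C2
import Pool.Agent.LibQR35.C3
import Pool.Agent.LibQR35.C6
import Pool.Agent.LibQR35.C7
import Pool.Agent.LibQR35.C9
import Pool.Agent.LibQR35.C11
import Pool.Agent.LibQR40.Api

/-! Uniformity over all parameters (compactness). -/

open MeasureTheory Set Filter Topology
open scoped ContDiff ENNReal NNReal unitInterval

namespace LibQR35

open BGS
open Pool.BGR (PM upI pj)

variable {Γ : Type} [Group Γ] [MulAction Γ Pl] {D : Set Pl}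

/-- The finite set of directions of scale below `N`. -/
noncomputable def U_V (L N : ℕ) : Finset Dir :=
  (Finset.range N).biUnion fun R => (grid L (R + 1)).image fun p => (R, p)

theorem U_mem_V {L N : ℕ} {j : Dir} (h1 : j.1 < N) (h2 : Valid L j) : j ∈ U_V L N := by
  unfold U_V
  rw [Finset.mem_biUnion]
  exact ⟨j.1, Finset.mem_range.2 h1, Finset.mem_image.2 ⟨j.2, h2, rfl⟩⟩

open Classical in
/-- The finite set of injective tuples of valid directions of scale below `N`. -/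
noncomputable def U_J (L N d : ℕ) : Finset (Fin d → Dir) :=
  (Fintype.piFinset fun _ => U_V L N).filter fun J => Function.Injective J ∧ ∀ l, Valid L (J l)

theorem U_mem_J {L N d : ℕ} {J : Fin d → Dir} (h1 : Function.Injective J) (h2 : ∀ l, Valid L (J l))
    (h3 : ∀ l, (J l).1 < N) : J ∈ U_J L N d := by
  classical
  unfold U_J
  rw [Finset.mem_filter, Fintype.mem_piFinset]
  exact ⟨fun l => U_mem_V (h3 l) (h2 l), h1, h2⟩

theorem U_of_mem_J {L N d : ℕ} {J : Fin d → Dir} (h : J ∈ U_J L N d) :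
    Function.Injective J ∧ ∀ l, Valid L (J l) := by
  classical
  unfold U_J at h
  rw [Finset.mem_filter] at h
  exact h.2

theorem U_Xm (hX : Surface Γ D) (m : Mt Γ D) (c : ℕ → ℝ) (φ : TestS Γ) {n : ℕ}
    (U : Fin n → TestS Γ) (j : Dir) (i i' : Fin n) :
    Xm Γ D m.1.1 c φ.1 (fun i => (U i).1) j i i' =
      c j.1 * bF hX m (KEX_mul (expT φ) ⟨per Γ (bmp (j.1 + 1) j.2), PH1_per hX j.1 j.2⟩)
        (KEX_mul (U i) (U i')) (oneT Γ) := by
  unfold Xm
  rw [bF_apply]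
  congr 1
  refine integral_congr_ae (Filter.Eventually.of_forall fun z => ?_)
  simp only [KEX_mul_apply, expT_apply]
  change _ = Real.exp (φ.1 z) * per Γ (bmp (j.1 + 1) j.2) z * ((U i).1 z * (U i').1 z) * 1 *
    √(dt (m.1.1 z))
  ring

theorem unif (hX : Surface Γ D) (m : Mt Γ D) {L : ℕ} (hL : D ⊆ bigSq L) {c : ℕ → ℝ} (hc : Cs c)
    (ψ : TestS Γ) (Φ : (Dir → I) → TestS Γ) (hΦ : ∀ ξ z, (Φ ξ).1 z = ψ.1 z + phi Γ L c ξ z)
    (k : ℕ) {n d : ℕ} (hn : 0 < n) (hI : Indep hX m n)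
    (B : (Fin d → ℝ) →ₗ[ℝ] (Fin n → Fin n → ℝ)) (hB : Par B) :
    ∃ (𝒥 : Finset (Fin d → Dir)) (K δ₀ : ℝ), 0 < K ∧ 0 < δ₀ ∧
      (∀ J ∈ 𝒥, Function.Injective J ∧ ∀ l, Valid L (J l)) ∧
      ∀ (ξ : Dir → I) (w : Fin (k + n) → TestS Γ),
        Fr (aF hX m) (bF hX m (expT (Φ ξ))) (oneT Γ) δ₀ w →
        muE hX m (Φ ξ) k - muE hX m (Φ ξ) (k + n - 1) ≤ δ₀ →
        ∃ J ∈ 𝒥, Sur K (fun l =>
          Xm Γ D m.1.1 c (Φ ξ).1 (fun i => (w (Fin.natAdd k i)).1) (J l)) := by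
  by_contra hcon
  push Not at hcon
  -- the bad sequence
  have hδpos : ∀ N : ℕ, (0 : ℝ) < 1 / ((N : ℝ) + 1) := fun N => by positivity
  have h0 : ∀ N : ℕ, ∃ (ξ : Dir → I) (w : Fin (k + n) → TestS Γ),
      Fr (aF hX m) (bF hX m (expT (Φ ξ))) (oneT Γ) (1 / ((N : ℝ) + 1)) w ∧
      muE hX m (Φ ξ) k - muE hX m (Φ ξ) (k + n - 1) ≤ 1 / ((N : ℝ) + 1) ∧
      ∀ J ∈ U_J L N d, ¬ Sur ((N : ℝ) + 1) (fun l =>
          Xm Γ D m.1.1 c (Φ ξ).1 (fun i => (w (Fin.natAdd k i)).1) (J l)) := by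
    intro N
    exact hcon (U_J L N d) ((N : ℝ) + 1) (1 / ((N : ℝ) + 1)) (by positivity) (hδpos N)
      (fun J hJ => U_of_mem_J hJ)
  choose ξ w hFr hgap hbad using h0
  -- convergence of the parameters
  obtain ⟨ξ', s1, hs1, hξ⟩ := CompactSpace.tendsto_subseq ξ
  obtain ⟨M1, hM1, hψ⟩ := test_bdd hX ψ
  obtain ⟨M2, hM2, hφb⟩ := phi_bound hX L hc
  have hΦb : ∀ ξ z, |(Φ ξ).1 z| ≤ M1 + M2 := by
    intro ξ z
    rw [hΦ]
    exact (abs_add_le _ _).trans (add_le_add (hψ z) (hφb ξ z))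
  have hdiff : ∀ ξ ξ₂ z, |(Φ ξ).1 z - (Φ ξ₂).1 z| ≤ 2 * (M1 + M2) := by
    intro ξ ξ₂ z
    have h1 : |(Φ ξ).1 z - (Φ ξ₂).1 z| ≤ |(Φ ξ).1 z| + |(Φ ξ₂).1 z| := abs_sub _ _
    linarith [hΦb ξ z, hΦb ξ₂ z]
  obtain ⟨M₀, hM₀, hup⟩ := muE_upper hX m (M1 + M2)
  have hup' : ∀ ξ i, muE hX m (Φ ξ) i ≤ M₀ := fun ξ i => hup _ (hΦb ξ) i
  have hmono : ∀ ξ, Antitone (muE hX m (Φ ξ)) := fun ξ => mu_anti (expT_lam1 hX m (Φ ξ))
  have hcont : ∀ i, Continuous fun ξ => muE hX m (Φ ξ) i := fun i => muE_cont hX m L hc i Φ ψ hΦ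
  set φ' := Φ ξ' with hφ'
  have hpair : ∀ ξ, IsPair (aF hX m) (bF hX m (expT (Φ ξ))) (oneT Γ) := fun ξ =>
    pair_surface hX m (expT (Φ ξ)) fun z => Real.exp_pos _
  -- the common limit of the levels
  set μ := muE hX m φ' k with hμ
  have hμpos : 0 < μ := by
    obtain ⟨c₀, hc₀, hlo⟩ := muE_lower hX m (M1 + M2)
    exact lt_of_lt_of_le (by positivity) (hlo φ' (hΦb ξ') k)
  have hs1t : Tendsto s1 atTop atTop := hs1.tendsto_atTop
  have hδlim : Tendsto (fun N : ℕ => 1 / ((s1 N : ℝ) + 1)) atTop (𝓝 0) :=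
    (tendsto_one_div_add_atTop_nhds_zero_nat (𝕜 := ℝ)).comp hs1t
  have hmulim : ∀ i, Tendsto (fun N => muE hX m (Φ (ξ (s1 N))) i) atTop (𝓝 (muE hX m φ' i)) :=
    fun i => ((hcont i).tendsto ξ').comp hξ
  have hlast : muE hX m φ' k - muE hX m φ' (k + n - 1) ≤ 0 := by
    refine le_of_tendsto_of_tendsto ((hmulim k).sub (hmulim (k + n - 1))) hδlim ?_
    exact Filter.Eventually.of_forall fun N => hgap (s1 N)
  have hall : ∀ i : Fin n, muE hX m φ' (k + i) = μ := by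
    intro i
    apply le_antisymm
    · exact hmono ξ' (Nat.le_add_right _ _)
    · have h1 : muE hX m φ' (k + n - 1) ≤ muE hX m φ' (k + i) := hmono ξ' (by omega)
      linarith
  -- the cluster
  set u : ℕ → Fin n → TestS Γ := fun N i => w (s1 N) (Fin.natAdd k i) with hu
  have huA : ∀ N i, aF hX m (u N i) (u N i) = 1 := by
    intro N i
    have := (hFr (s1 N)).orth (Fin.natAdd k i) (Fin.natAdd k i)
    simpa using this
  have huB0 : ∀ N i, bF hX m (expT (Φ (ξ (s1 N)))) (u N i) (u N i) ≤ M₀ := fun N i =>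
    ((hFr (s1 N)).up (Fin.natAdd k i)).trans (hup' _ _)
  have huB : ∀ N i, bF hX m (expT φ') (u N i) (u N i) ≤ Real.exp (2 * (M1 + M2)) * M₀ := by
    intro N i
    refine (weight_le hX m (φ := Φ (ξ (s1 N))) (φ' := φ') (hdiff _ _) (u N i)).trans ?_
    exact mul_le_mul_of_nonneg_left (huB0 N i) (Real.exp_pos _).le
  obtain ⟨s2, hs2, hcauchy⟩ := compact_seq (hpair ξ') (expT_lam1 hX m φ') (expT_top hX m φ')
    (mu_tendsto hX m φ') u (fun N i => (huA N i).le) huB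
  have hs2t : Tendsto s2 atTop atTop := hs2.tendsto_atTop
  -- the distances of the exponents
  set ε : ℕ → ℝ := fun N => ⨆ z, |(Φ (ξ (s1 (s2 N)))).1 z - φ'.1 z| with hε
  have hεbdd : ∀ N, BddAbove (range fun z => |(Φ (ξ (s1 (s2 N)))).1 z - φ'.1 z|) := by
    intro N
    refine ⟨2 * (M1 + M2), ?_⟩
    rintro _ ⟨z, rfl⟩
    exact hdiff _ _ z
  have hεle : ∀ N z, |(Φ (ξ (s1 (s2 N)))).1 z - φ'.1 z| ≤ ε N := fun N z => le_ciSup (hεbdd N) z
  have hφlim : ∀ η : ℝ, 0 < η → ∀ᶠ N in atTop, ∀ z, |(Φ (ξ (s1 (s2 N)))).1 z - φ'.1 z| ≤ η := by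
    intro η hη
    have h1 := (hξ.comp hs2t).eventually (phi_cont hX L hc ξ' hη)
    filter_upwards [h1] with N hN z
    have h2 := hN z
    rw [hφ', hΦ, hΦ]
    simpa using h2
  have hε0 : ∀ N, 0 ≤ ε N := fun N => (abs_nonneg _).trans (hεle N 0)
  have hεlim : Tendsto ε atTop (𝓝 0) := by
    rw [Metric.tendsto_atTop]
    intro η hη
    obtain ⟨N₀, hN₀⟩ := eventually_atTop.1 (hφlim (η / 2) (by positivity))
    refine ⟨N₀, fun N hN => ?_⟩
    rw [Real.dist_eq, sub_zero, abs_of_nonneg (hε0 N)]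
    have : ε N ≤ η / 2 := ciSup_le (hN₀ N hN)
    linarith
  have hρlim : Tendsto (fun N => Real.exp (ε N) - 1) atTop (𝓝 0) := by
    have h1 := (Real.continuous_exp.tendsto 0).comp hεlim
    have h2 := h1.sub_const 1
    simpa using h2
  have hρ' : ∀ N (f g : TestS Γ), |bF hX m (expT (Φ (ξ (s1 (s2 N))))) f g -
      bF hX m (expT φ') f g| ≤ (Real.exp (ε N) - 1) *
        (√(bF hX m (expT φ') f f) * √(bF hX m (expT φ') g g)) := fun N f g =>
    weight_close hX m (hεle N) f g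
  have hδlim2 : Tendsto (fun N : ℕ => 1 / ((s1 (s2 N) : ℝ) + 1)) atTop (𝓝 0) := hδlim.comp hs2t
  -- the limit equation
  set δ : ℕ → ℝ := fun N => 1 / ((s1 (s2 N) : ℝ) + 1) with hδ
  set τ : ℕ → ℝ := fun N => 4 * (((k + n : ℕ) : ℝ) * δ N) *
    (((k + n : ℕ) : ℝ) * δ N + muE hX m (Φ (ξ (s1 (s2 N)))) 0) with hτ
  have hτlim : Tendsto τ atTop (𝓝 0) := by
    have h1 : Tendsto (fun N => ((k + n : ℕ) : ℝ) * δ N) atTop (𝓝 0) := by
      have := hδlim2.const_mul ((k + n : ℕ) : ℝ)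
      rwa [mul_zero] at this
    have h2 : Tendsto (fun N => muE hX m (Φ (ξ (s1 (s2 N)))) 0) atTop (𝓝 (muE hX m φ' 0)) :=
      (hmulim 0).comp hs2t
    have h3 := (h1.const_mul 4).mul (h1.add h2)
    rw [mul_zero, zero_mul] at h3
    exact h3
  have hweak : ∀ i (f : TestS Γ), Tendsto (fun N => bF hX m (expT φ') (u (s2 N) i) f -
      μ * aF hX m (u (s2 N) i) f) atTop (𝓝 0) := by
    intro i f
    refine weak_limit (hpair ξ') (fun N => bF hX m (expT (Φ (ξ (s1 (s2 N))))))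
      (fun N => Real.exp (ε N) - 1) hρlim hρ' (fun N => u (s2 N) i) (fun N => huA _ i)
      (fun N => huB _ i) (fun N => muE hX m (Φ (ξ (s1 (s2 N)))) (k + i)) ?_ τ hτlim ?_ f
    · rw [← hall i]
      exact (hmulim (k + i)).comp hs2t
    · intro N g
      exact near_eigen (hpair _) (expT_lam1 hX m _) (hδpos _).le (hFr _) (Fin.natAdd k i) g
  -- the limits
  have hlim : ∀ i, ∃ U : TestS Γ, QR.IsEig hX m (expT φ') μ⁻¹ U ∧
      Tendsto (fun N => bF hX m (oneT Γ) (u (s2 N) i - U) (u (s2 N) i - U)) atTop (𝓝 0) := by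
    intro i
    refine QR.limit_eig hX m (expT φ') (fun z => Real.exp_pos _) μ⁻¹ (fun N => u (s2 N) i) ?_ ?_ ?_
    · intro η hη
      obtain ⟨N, hN⟩ := hcauchy (Real.exp (-(M1 + M2)) * η) (by positivity)
      refine ⟨N, fun p hp q hq => ?_⟩
      have h1 := hN p hp q hq i
      have h2 := bF_le hX m (w := oneT Γ) (w' := expT φ') (θ := Real.exp (M1 + M2)) (fun z => by
        rw [expT_apply]
        change (1 : ℝ) ≤ _
        rw [← Real.exp_add]
        apply Real.one_le_exp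
        linarith [(abs_le.1 (hΦb ξ' z)).1]) (u (s2 p) i - u (s2 q) i)
      refine h2.trans ?_
      calc Real.exp (M1 + M2) * bF hX m (expT φ') (u (s2 p) i - u (s2 q) i)
            (u (s2 p) i - u (s2 q) i) ≤ Real.exp (M1 + M2) * (Real.exp (-(M1 + M2)) * η) :=
            mul_le_mul_of_nonneg_left h1 (Real.exp_pos _).le
        _ = η := by rw [← mul_assoc, ← Real.exp_add, add_neg_cancel, Real.exp_zero, one_mul]
    · exact ⟨1, fun N => (huA _ i).le⟩
    · intro f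
      have h1 := (hweak i f).const_mul (-μ⁻¹)
      rw [mul_zero] at h1
      refine h1.congr fun N => ?_
      field_simp
      ring
  choose U hUeig hUlim using hlim
  have horth : ∀ i j, bF hX m (expT φ') (U i) (U j) = if i = j then μ else 0 := by
    intro i j
    have h1 := moment_D hX m (fun N => Φ (ξ (s1 (s2 N)))) φ' hφlim (fun N => u (s2 N) i)
      (fun N => u (s2 N) j) (U i) (U j) (hUlim i) (hUlim j)
    refine tendsto_nhds_unique h1 ?_
    by_cases hij : i = j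
    · subst hij
      rw [if_pos rfl]
      have h2 : Tendsto (fun N => muE hX m (Φ (ξ (s1 (s2 N)))) (k + i)) atTop (𝓝 μ) := by
        rw [← hall i]
        exact (hmulim (k + i)).comp hs2t
      have h3 := h2.sub hδlim2
      rw [sub_zero] at h3
      refine tendsto_of_tendsto_of_tendsto_of_le_of_le h3 h2 (fun N => ?_) (fun N => ?_)
      · exact (hFr (s1 (s2 N))).lo (Fin.natAdd k i)
      · exact (hFr (s1 (s2 N))).up (Fin.natAdd k i)
    · rw [if_neg hij]
      have h2 : ∀ N, bF hX m (expT (Φ (ξ (s1 (s2 N))))) (u (s2 N) i) (u (s2 N) j) = 0 := by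
        intro N
        refine (hFr (s1 (s2 N))).diag _ _ fun h => hij ?_
        exact Fin.natAdd_injective _ _ h
      simp only [h2]
      exact tendsto_const_nhds
  -- the limit functional
  let T : (Fin d → ℝ) →ₗ[ℝ] (Dir → ℝ) :=
    { toFun := fun t j => ∑ i, ∑ i', B t i i' * Xm Γ D m.1.1 c φ'.1 (fun i => (U i).1) j i i'
      map_add' := by
        intro t t'
        funext j
        simp only [map_add, Pi.add_apply, add_mul, Finset.sum_add_distrib]
      map_smul' := by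
        intro r t
        funext j
        simp only [map_smul, Pi.smul_apply, smul_eq_mul, mul_assoc, Finset.mul_sum, RingHom.id_apply] }
  have hT : ∀ t, (∀ j ∈ {j : Dir | Valid L j}, T t j = 0) → t = 0 := by
    intro t ht
    apply hB.inj
    rw [map_zero]
    set F : TestS Γ := ∑ i, ∑ i', B t i i' • KEX_mul (U i) (U i') with hF
    have hF1 : ∀ z, F.1 z = ∑ i, ∑ i', B t i i' * ((U i).1 z * (U i').1 z) := by
      intro z
      rw [hF]
      simp only [Submodule.coe_sum, Submodule.coe_smul, Finset.sum_apply, Pi.smul_apply,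
        smul_eq_mul, KEX_mul_apply]
    have hF0 : ∀ z, F.1 z = 0 := by
      refine bumps_detect hX m hL φ' F fun j hj => ?_
      have h1 := ht j hj
      have h2 : T t j = c j.1 * bF hX m (KEX_mul (expT φ')
          ⟨per Γ (bmp (j.1 + 1) j.2), PH1_per hX j.1 j.2⟩) F (oneT Γ) := by
        change ∑ i, ∑ i', B t i i' * Xm Γ D m.1.1 c φ'.1 (fun i => (U i).1) j i i' = _
        simp only [U_Xm hX m c φ' U j, hF, map_sum, LinearMap.sum_apply, map_smul,
          LinearMap.smul_apply, smul_eq_mul, Finset.mul_sum]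
        refine Finset.sum_congr rfl fun i _ => Finset.sum_congr rfl fun i' _ => ?_
        ring
      rw [h2] at h1
      have h3 := (mul_eq_zero.1 h1).resolve_left (hc.pos j.1).ne'
      rw [bF_apply] at h3
      rw [← h3]
      refine integral_congr_ae (Filter.Eventually.of_forall fun z => ?_)
      simp only [KEX_mul_apply, expT_apply]
      change _ = Real.exp (φ'.1 z) * per Γ (bmp (j.1 + 1) j.2) z * F.1 z * 1 * √(dt (m.1.1 z))
      ring
    exact hI (expT φ') (fun z => Real.exp_pos _) μ⁻¹ μ hμpos U hUeig horth (B t) (hB.sym t)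
      (hB.tr t) fun z => by rw [← hF1 z, hF0 z]
  obtain ⟨J, hJinj, hJs, hJsur⟩ := select T {j : Dir | Valid L j} hT
  obtain ⟨K, hK, hKev⟩ := sur_open
    (fun N l => Xm Γ D m.1.1 c (Φ (ξ (s1 (s2 N)))).1 (fun i => (u (s2 N) i).1) (J l))
    (fun l => Xm Γ D m.1.1 c φ'.1 (fun i => (U i).1) (J l))
    (fun l i i' => Xm_tendsto hX m c (fun N => Φ (ξ (s1 (s2 N)))) φ' hφlim
      (fun N => u (s2 N)) U hUlim (J l) i i')
    (by
      intro q
      obtain ⟨t, ht⟩ := hJsur q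
      exact ⟨B t, hB.sym t, hB.tr t, fun l => ht l⟩)
  have hst : Tendsto (fun N => s1 (s2 N)) atTop atTop := hs1t.comp hs2t
  have hlarge : ∀ᶠ N in atTop, K ≤ (s1 (s2 N) : ℝ) + 1 := by
    have h1 := (tendsto_natCast_atTop_atTop (R := ℝ)).comp hst
    filter_upwards [h1.eventually_ge_atTop K] with N hN
    have : K ≤ (s1 (s2 N) : ℝ) := hN
    linarith
  have hlarge2 : ∀ᶠ N in atTop, ∀ l, (J l).1 < s1 (s2 N) := by
    rw [Filter.eventually_all]
    intro l
    exact hst.eventually_gt_atTop _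
  obtain ⟨N, h1, h2, h3⟩ := (hKev.and (hlarge.and hlarge2)).exists
  exact hbad (s1 (s2 N)) J (U_mem_J hJinj hJs h3) (h1.mono h2)

end LibQR35
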