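import Pool.Agent.LibQR35.U
import Pool.Agent.LibQR35.Core
import Pool.Agent.LibQR35.BI

/-! Uniform lower bounds for determinants of moments. -/

open MeasureTheory Set Filter Topology
open scoped ContDiff ENNReal NNReal unitInterval

namespace LibQR35

open BGS
open Pool.BGR (PM upI pj)

variable {Γ : Type} [Group Γ] [MulAction Γ Pl] {D : Set Pl}

theorem Uni_Xo (hX : Surface Γ D) (m : Mt Γ D) (c : ℕ → ℝ) (φ : TestS Γ) (j : Dir) :
    Xo Γ D m.1.1 c φ.1 j =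
      c j.1 * bF hX m (KEX_mul (expT φ) ⟨per Γ (bmp (j.1 + 1) j.2), PH1_per hX j.1 j.2⟩)
        (oneT Γ) (oneT Γ) := by
  unfold Xo
  rw [bF_apply]
  congr 1
  refine integral_congr_ae (Filter.Eventually.of_forall fun z => ?_)
  simp only [KEX_mul_apply, expT_apply]
  change _ = Real.exp (φ.1 z) * per Γ (bmp (j.1 + 1) j.2) z * (1 : ℝ) * 1 * √(dt (m.1.1 z))
  ring

theorem det_core (hX : Surface Γ D) (m : Mt Γ D) {L : ℕ} (hL : D ⊆ bigSq L) {c : ℕ → ℝ}
    (hc : Cs c) (φ' : TestS Γ) {n d : ℕ} (U : Fin n → TestS Γ) (ν : Fin n → ℝ)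
    (p q : Fin d → Fin n)
    (hind : ∀ (t : Fin d → ℝ) (C : ℝ),
      (∀ z, ∑ j, t j * ((U (p j)).1 z * (U (q j)).1 z) = C) → t = 0) :
    ∃ J : Fin d → Dir, Function.Injective J ∧ (∀ l, Valid L (J l)) ∧
      (Matrix.of fun (l j : Fin d) => Xv Γ D m.1.1 c φ'.1 ν (fun i => (U i).1) (J l)
        (p j) (q j)).det ≠ 0 := by
  let T : (Fin d → ℝ) →ₗ[ℝ] (Dir → ℝ) :=
    { toFun := fun t j => ∑ i, t i * Xv Γ D m.1.1 c φ'.1 ν (fun i => (U i).1) j (p i) (q i)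
      map_add' := by
        intro t t'
        funext j
        simp only [Pi.add_apply, add_mul, Finset.sum_add_distrib]
      map_smul' := by
        intro r t
        funext j
        simp only [Pi.smul_apply, smul_eq_mul, mul_assoc, Finset.mul_sum, RingHom.id_apply] }
  have hT : ∀ t, (∀ j ∈ {j : Dir | Valid L j}, T t j = 0) → t = 0 := by
    intro t ht
    set C : ℝ := ∑ i, t i * (if p i = q i then ν (p i) else 0) with hC
    set F : TestS Γ := ∑ i, t i • KEX_mul (U (p i)) (U (q i)) - C • oneT Γ with hF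
    have hF1 : ∀ z, F.1 z = ∑ i, t i * ((U (p i)).1 z * (U (q i)).1 z) - C := by
      intro z
      rw [hF]
      simp only [Submodule.coe_sub, Submodule.coe_sum, Submodule.coe_smul, Pi.sub_apply,
        Finset.sum_apply, Pi.smul_apply, smul_eq_mul, KEX_mul_apply]
      change _ - C * 1 = _
      rw [mul_one]
    have hF0 : ∀ z, F.1 z = 0 := by
      refine bumps_detect hX m hL φ' F fun j hj => ?_
      have h1 := ht j hj
      have h2 : T t j = c j.1 * bF hX m (KEX_mul (expT φ')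
          ⟨per Γ (bmp (j.1 + 1) j.2), PH1_per hX j.1 j.2⟩) F (oneT Γ) := by
        change ∑ i, t i * Xv Γ D m.1.1 c φ'.1 ν (fun i => (U i).1) j (p i) (q i) = _
        simp only [Xv, U_Xm hX m c φ' U j, Uni_Xo hX m c φ' j, hF, map_sub, map_sum,
          LinearMap.sub_apply, LinearMap.sum_apply, map_smul,
          LinearMap.smul_apply, smul_eq_mul, mul_sub, Finset.mul_sum, Finset.sum_sub_distrib]
        congr 1
        · refine Finset.sum_congr rfl fun i _ => ?_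
          ring
        · rw [hC, Finset.sum_mul, Finset.mul_sum]
          refine Finset.sum_congr rfl fun i _ => ?_
          ring
      rw [h2] at h1
      have h3 := (mul_eq_zero.1 h1).resolve_left (hc.pos j.1).ne'
      rw [bF_apply] at h3
      rw [← h3]
      refine integral_congr_ae (Filter.Eventually.of_forall fun z => ?_)
      simp only [KEX_mul_apply, expT_apply]
      change _ = Real.exp (φ'.1 z) * per Γ (bmp (j.1 + 1) j.2) z * F.1 z * 1 * √(dt (m.1.1 z))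
      ring
    exact hind t C fun z => by
      have := hF0 z
      rw [hF1 z] at this
      linarith
  obtain ⟨J, hJinj, hJs, hJsur⟩ := select T {j : Dir | Valid L j} hT
  refine ⟨J, hJinj, hJs, ?_⟩
  set A : Matrix (Fin d) (Fin d) ℝ := Matrix.of fun (l j : Fin d) =>
    Xv Γ D m.1.1 c φ'.1 ν (fun i => (U i).1) (J l) (p j) (q j) with hA
  have h1 : Function.Surjective A.mulVec := by
    intro r
    obtain ⟨t, ht⟩ := hJsur r
    refine ⟨t, ?_⟩
    funext l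
    rw [← ht l]
    change ∑ j, A l j * t j = ∑ i, t i * _
    refine Finset.sum_congr rfl fun i _ => ?_
    rw [hA, Matrix.of_apply]
    ring
  have h2 := Matrix.mulVec_surjective_iff_isUnit.1 h1
  exact (Matrix.isUnit_iff_isUnit_det A).1 h2 |>.ne_zero

theorem unif_gen (hX : Surface Γ D) (m : Mt Γ D) {L : ℕ} (hL : D ⊆ bigSq L) {c : ℕ → ℝ}
    (hc : Cs c) (ψ : TestS Γ) (Φ : (Dir → I) → TestS Γ)
    (hΦ : ∀ ξ z, (Φ ξ).1 z = ψ.1 z + phi Γ L c ξ z) (k : ℕ) {n d : ℕ} (p q : Fin d → Fin n)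
    (Cl : ℝ → (Fin n → ℝ) → Prop)
    (hind : ∀ (ξ' : Dir → I) (U : Fin n → TestS Γ),
      (∀ i : Fin n, QR.IsEig hX m (expT (Φ ξ')) (muE hX m (Φ ξ') (k + i))⁻¹ (U i)) →
      (∀ i j : Fin n, bF hX m (expT (Φ ξ')) (U i) (U j) =
        if i = j then muE hX m (Φ ξ') (k + i) else 0) →
      (∀ i, 0 < muE hX m (Φ ξ') i) →
      ∀ (ν : ℕ → Fin n → ℝ) (δ : ℕ → ℝ), (∀ N, 0 < δ N) → Tendsto δ atTop (𝓝 0) →
        (∀ i : Fin n, Tendsto (fun N => ν N i) atTop (𝓝 (nuE hX m (Φ ξ') (k + i)))) →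
        (∀ N, Cl (δ N) (ν N)) → ∀ (t : Fin d → ℝ) (C : ℝ),
        (∀ z, ∑ j, t j * ((U (p j)).1 z * (U (q j)).1 z) = C) → t = 0) :
    ∃ (𝒥 : Finset (Fin d → Dir)) (κ₀ δ₀ : ℝ), 0 < κ₀ ∧ 0 < δ₀ ∧
      (∀ J ∈ 𝒥, Function.Injective J ∧ ∀ l, Valid L (J l)) ∧
      ∀ (ξ : Dir → I) (w : Fin (k + n) → TestS Γ) (ν : Fin n → ℝ),
        Fr (aF hX m) (bF hX m (expT (Φ ξ))) (oneT Γ) δ₀ w →
        (∀ i : Fin n, |nuE hX m (Φ ξ) (k + i) - ν i| ≤ δ₀) → Cl δ₀ ν →
        ∃ J ∈ 𝒥, κ₀ ≤ |(Matrix.of fun (l j : Fin d) => Xv Γ D m.1.1 c (Φ ξ).1 ν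
          (fun i => (w (Fin.natAdd k i)).1) (J l) (p j) (q j)).det| := by
  by_contra hcon
  push Not at hcon
  have hδpos : ∀ N : ℕ, (0 : ℝ) < 1 / ((N : ℝ) + 1) := fun N => by positivity
  have h0 : ∀ N : ℕ, ∃ (ξ : Dir → I) (w : Fin (k + n) → TestS Γ) (ν : Fin n → ℝ),
      Fr (aF hX m) (bF hX m (expT (Φ ξ))) (oneT Γ) (1 / ((N : ℝ) + 1)) w ∧
      (∀ i : Fin n, |nuE hX m (Φ ξ) (k + i) - ν i| ≤ 1 / ((N : ℝ) + 1)) ∧
      Cl (1 / ((N : ℝ) + 1)) ν ∧
      ∀ J ∈ U_J L N d, |(Matrix.of fun (l j : Fin d) => Xv Γ D m.1.1 c (Φ ξ).1 ν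
          (fun i => (w (Fin.natAdd k i)).1) (J l) (p j) (q j)).det| < 1 / ((N : ℝ) + 1) := by
    intro N
    obtain ⟨ξ, w, ν, h1, h2, h3, h4⟩ := hcon (U_J L N d) (1 / ((N : ℝ) + 1)) (1 / ((N : ℝ) + 1))
      (hδpos N) (hδpos N) (fun J hJ => U_of_mem_J hJ)
    exact ⟨ξ, w, ν, h1, h2, h3, h4⟩
  choose ξ w ν hFr hν hCl hbad using h0
  obtain ⟨s, ξ', U, hs, hφlim, -, hnulim, hmupos, hUeig, horth, hUlim⟩ := compact_core hX m L hc ψ Φ
    hΦ k n ξ w (fun N => 1 / ((N : ℝ) + 1)) (fun N => (hδpos N).le)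
    (tendsto_one_div_add_atTop_nhds_zero_nat (𝕜 := ℝ)) hFr
  have hst : Tendsto s atTop atTop := hs.tendsto_atTop
  have hδlim : Tendsto (fun N : ℕ => 1 / ((s N : ℝ) + 1)) atTop (𝓝 0) :=
    (tendsto_one_div_add_atTop_nhds_zero_nat (𝕜 := ℝ)).comp hst
  have hνlim : ∀ i : Fin n, Tendsto (fun N => ν (s N) i) atTop
      (𝓝 (nuE hX m (Φ ξ') (k + i))) := by
    intro i
    have h1 : Tendsto (fun N => nuE hX m (Φ (ξ (s N))) (k + i) - ν (s N) i) atTop (𝓝 0) :=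
      squeeze_zero_norm (fun N => by
        rw [Real.norm_eq_abs]
        exact hν (s N) i) hδlim
    have h2 := (hnulim (k + i)).sub h1
    rw [sub_zero] at h2
    refine h2.congr fun N => ?_
    ring
  obtain ⟨J, hJinj, hJs, hJdet⟩ := det_core hX m hL hc (Φ ξ') U
    (fun i => nuE hX m (Φ ξ') (k + i)) p q
    (hind ξ' U hUeig horth hmupos (fun N => ν (s N)) (fun N => 1 / ((s N : ℝ) + 1))
      (fun N => hδpos (s N)) hδlim hνlim (fun N => hCl (s N)))
  have hdetlim : Tendsto (fun N => (Matrix.of fun (l j : Fin d) =>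
      Xv Γ D m.1.1 c (Φ (ξ (s N))).1 (ν (s N))
        (fun i => (w (s N) (Fin.natAdd k i)).1) (J l) (p j) (q j)).det) atTop
      (𝓝 ((Matrix.of fun (l j : Fin d) => Xv Γ D m.1.1 c (Φ ξ').1
        (fun i => nuE hX m (Φ ξ') (k + i)) (fun i => (U i).1) (J l) (p j) (q j)).det)) := by
    have h1 : Tendsto (fun N => (Matrix.of fun (l j : Fin d) =>
        Xv Γ D m.1.1 c (Φ (ξ (s N))).1 (ν (s N))
        (fun i => (w (s N) (Fin.natAdd k i)).1) (J l) (p j) (q j))) atTop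
        (𝓝 (Matrix.of fun (l j : Fin d) => Xv Γ D m.1.1 c (Φ ξ').1
        (fun i => nuE hX m (Φ ξ') (k + i)) (fun i => (U i).1) (J l) (p j) (q j))) := by
      refine tendsto_pi_nhds.2 fun l => tendsto_pi_nhds.2 fun j => ?_
      exact Xv_tendsto hX m c (fun N => Φ (ξ (s N))) (Φ ξ') hφlim
        (fun N i => w (s N) (Fin.natAdd k i)) U hUlim (fun N => ν (s N)) hνlim (J l) (p j) (q j)
    exact ((continuous_id (X := Matrix (Fin d) (Fin d) ℝ)).matrix_det.tendsto _).comp h1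
  set Δ := (Matrix.of fun (l j : Fin d) => Xv Γ D m.1.1 c (Φ ξ').1
        (fun i => nuE hX m (Φ ξ') (k + i)) (fun i => (U i).1) (J l) (p j) (q j)).det with hΔ
  have hΔ0 : 0 < |Δ| := abs_pos.2 hJdet
  have hev1 := hdetlim.abs.eventually (lt_mem_nhds (half_lt_self hΔ0))
  have hev2 := hδlim.eventually (gt_mem_nhds (half_pos hΔ0))
  have hev3 : ∀ᶠ N in atTop, ∀ l, (J l).1 < s N := by
    rw [Filter.eventually_all]
    intro l
    exact hst.eventually_gt_atTop _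
  obtain ⟨N, h1, h2, h3⟩ := (hev1.and (hev2.and hev3)).exists
  have h4 := hbad (s N) J (U_mem_J hJinj hJs h3)
  linarith

end LibQR35
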