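import Pool.Agent.LibQR35.G
import Pool.Agent.LibQR35.GM
import Pool.Agent.LibQR35.Ind
import Pool.Agent.LibQR35.SP1
import Pool.Agent.LibQR35.SP2
import Pool.Agent.LibQR35.SP3

/-! The probability that one or two levels lie in short intervals. -/

open MeasureTheory Set Filter Topology
open scoped ContDiff ENNReal NNReal unitInterval

namespace LibQR35

open BGS
open Pool.BGR (PM upI pj)

variable {Γ : Type} [Group Γ] [MulAction Γ Pl] {D : Set Pl}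

theorem nuE_bound (hX : Surface Γ D) (m : Mt Γ D) {L : ℕ} {c : ℕ → ℝ} (hc : Cs c)
    (ψ : TestS Γ) (Φ : (Dir → I) → TestS Γ) (hΦ : ∀ ξ z, (Φ ξ).1 z = ψ.1 z + phi Γ L c ξ z) :
    ∃ V : ℝ, 0 < V ∧ ∀ ξ k, |nuE hX m (Φ ξ) k| ≤ V := by
  obtain ⟨M1, hM1, hψ⟩ := test_bdd hX ψ
  obtain ⟨M2, hM2, hφb⟩ := phi_bound hX L hc
  have hΦb : ∀ ξ z, |(Φ ξ).1 z| ≤ M1 + M2 := by
    intro ξ z
    rw [hΦ]
    exact (abs_add_le _ _).trans (add_le_add (hψ z) (hφb ξ z))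
  obtain ⟨M₀, hM₀, hup⟩ := muE_upper hX m (M1 + M2)
  refine ⟨M₀ * Real.exp (M1 + M2), by positivity, fun ξ k => ?_⟩
  have h1 := arE_bounds hX m (Φ ξ) (hΦb ξ)
  have h2 := arE_pos hX m (Φ ξ)
  have h3 : 0 ≤ muE hX m (Φ ξ) k := mu_nonneg _ _ _
  unfold nuE
  rw [abs_of_nonneg (div_nonneg h3 h2.le), div_le_iff₀ h2]
  refine (hup _ (hΦb ξ) k).trans ?_
  have h4 : 1 ≤ Real.exp (M1 + M2) * arE hX m (Φ ξ) := by
    calc (1 : ℝ) = Real.exp (M1 + M2) * Real.exp (-(M1 + M2)) := by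
          rw [← Real.exp_add, add_neg_cancel, Real.exp_zero]
      _ ≤ _ := mul_le_mul_of_nonneg_left h1.1 (Real.exp_pos _).le
  nlinarith

theorem nuE_anti (hX : Surface Γ D) (m : Mt Γ D) (φ : TestS Γ) : Antitone (nuE hX m φ) := by
  intro i j hij
  unfold nuE
  exact div_le_div_of_nonneg_right (mu_anti (expT_lam1 hX m φ) hij) (arE_pos hX m φ).le

theorem V_cover {ι : Type} (𝒥 : Finset ι) (E : Set (Dir → I)) (B : ι → Set (Dir → I)) {b t : ℝ}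
    (h : ∀ ξ ∈ E, ∃ J ∈ 𝒥, ξ ∈ B J) (hB : ∀ J ∈ 𝒥, PM Dir (B J) ≤ ENNReal.ofReal b)
    (hb : (𝒥.card : ℝ) * b ≤ t) : PM Dir E ≤ ENNReal.ofReal t := by
  calc PM Dir E ≤ PM Dir (⋃ J ∈ 𝒥, B J) := by
        refine measure_mono fun ξ hξ => ?_
        obtain ⟨J, hJ, h1⟩ := h ξ hξ
        exact mem_iUnion₂.2 ⟨J, hJ, h1⟩
    _ ≤ ∑ J ∈ 𝒥, PM Dir (B J) := measure_biUnion_finset_le _ _
    _ ≤ ∑ _J ∈ 𝒥, ENNReal.ofReal b := Finset.sum_le_sum hB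
    _ = ENNReal.ofReal (𝒥.card * b) := by
        rw [Finset.sum_const, nsmul_eq_mul, ENNReal.ofReal_mul (Nat.cast_nonneg _),
          ENNReal.ofReal_natCast]
    _ ≤ ENNReal.ofReal t := ENNReal.ofReal_le_ofReal hb

/-- The frame at a parameter. -/
theorem V_frame (hX : Surface Γ D) (m : Mt Γ D) (φ : TestS Γ) (N : ℕ) {ε : ℝ} (hε : 0 < ε) :
    ∃ w : Fin N → TestS Γ, Fr (aF hX m) (bF hX m (expT φ)) (oneT Γ) ε w := by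
  have P : IsPair (aF hX m) (bF hX m (expT φ)) (oneT Γ) :=
    pair_surface hX m (expT φ) fun z => Real.exp_pos _
  obtain ⟨w, h1, h2, h3, h4⟩ := frame P (expT_lam1 hX m φ) (expT_top hX m φ) N hε
  exact ⟨w, h1, h2, h3, fun i => (h4 i).1, fun i => (h4 i).2⟩

/-- **One level in a short interval.** -/
theorem one_prob (hX : Surface Γ D) (m : Mt Γ D) {L : ℕ} (hL : D ⊆ bigSq L) {c : ℕ → ℝ}
    (hc : Cs c) (ψ : TestS Γ) (Φ : (Dir → I) → TestS Γ)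
    (hΦ : ∀ ξ z, (Φ ξ).1 z = ψ.1 z + phi Γ L c ξ z) (k : ℕ) :
    ∃ C : ℝ, 0 < C ∧ ∀ α ε : ℝ, 0 < ε →
      PM Dir {ξ | |nuE hX m (Φ ξ) k - α| ≤ ε} ≤ ENNReal.ofReal (C * ε) := by
  obtain ⟨V₀, hV₀, hV⟩ := nuE_bound hX m hc ψ Φ hΦ
  obtain ⟨𝒥, κ₀, δ₀, hκ₀, hδ₀, h𝒥, hunif⟩ := unif_one hX m hL hc ψ Φ hΦ k
  obtain ⟨L₁, r, M, C₁, Θ, hL₁, hr, hM, hC₁, hΘ, hS⟩ := one_slope hX m L hc ψ k
    (V := V₀ + 1) (by positivity) hκ₀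
  obtain ⟨C', hC', hbad⟩ := badG_meas (κ := Dir) 1 hL₁ hr hM
  set ε₀ := min δ₀ 1 with hε₀
  have hε₀pos : 0 < ε₀ := lt_min hδ₀ one_pos
  have hcard : (0 : ℝ) ≤ 𝒥.card := Nat.cast_nonneg _
  refine ⟨𝒥.card * (C' * C₁ / Θ ^ 2) + 1 / ε₀, by positivity, fun α ε hε => ?_⟩
  rcases le_or_gt ε₀ ε with hle | hgt
  · refine prob_le_one.trans ?_
    rw [← ENNReal.ofReal_one]
    apply ENNReal.ofReal_le_ofReal
    have h1 : 1 ≤ 1 / ε₀ * ε := by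
      rw [div_mul_eq_mul_div, one_mul, le_div_iff₀ hε₀pos, one_mul]
      exact hle
    have h2 : 0 ≤ 𝒥.card * (C' * C₁ / Θ ^ 2) * ε := by positivity
    linarith
  · have hεδ : ε ≤ δ₀ := hgt.le.trans (min_le_left _ _)
    have hε1 : ε ≤ 1 := hgt.le.trans (min_le_right _ _)
    refine V_cover 𝒥 _ (fun J => BadG (fun ξ => FE hX m (k + 1) α (Φ ξ)) J L₁ r M (C₁ * ε) Θ)
      (b := C' * (C₁ * ε) ^ 1 / Θ ^ 2) ?_ ?_ ?_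
    · intro ξ hξ
      have hξ' : |nuE hX m (Φ ξ) k - α| ≤ ε := hξ
      have hα : |α| ≤ V₀ + 1 := by
        have h1 := hV ξ k
        rw [abs_le] at h1 hξ' ⊢
        constructor <;> linarith [h1.1, h1.2, hξ'.1, hξ'.2]
      obtain ⟨w, hw⟩ := V_frame hX m (Φ ξ) (k + 1) hε
      obtain ⟨J, hJ, hsur⟩ := hunif ξ w α (G_Fr_mono hεδ hw) (hξ'.trans hεδ)
      exact ⟨J, hJ, hS Φ hΦ J (h𝒥 J hJ).2 α hα ε hε ξ w hw hξ' hsur⟩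
    · intro J hJ
      exact hbad _ (FE_cont hX m L hc Φ ψ hΦ (k + 1) α) J (h𝒥 J hJ).1 (C₁ * ε) Θ (by positivity) hΘ
    · have h1 : 0 ≤ 1 / ε₀ * ε := by positivity
      calc (𝒥.card : ℝ) * (C' * (C₁ * ε) ^ 1 / Θ ^ 2) = 𝒥.card * (C' * C₁ / Θ ^ 2) * ε := by ring
        _ ≤ (𝒥.card * (C' * C₁ / Θ ^ 2) + 1 / ε₀) * ε := by linarith

/-- **Two consecutive levels in short intervals.** -/
theorem pair_prob (hX : Surface Γ D) (m : Mt Γ D) {L : ℕ} (hL : D ⊆ bigSq L) {c : ℕ → ℝ}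
    (hc : Cs c) (ψ : TestS Γ) (Φ : (Dir → I) → TestS Γ)
    (hΦ : ∀ ξ z, (Φ ξ).1 z = ψ.1 z + phi Γ L c ξ z) (k : ℕ) :
    ∃ C : ℝ, 0 < C ∧ ∀ α β ε : ℝ, 0 < ε → β ≤ α →
      PM Dir {ξ | |nuE hX m (Φ ξ) k - α| ≤ ε ∧ |nuE hX m (Φ ξ) (k + 1) - β| ≤ ε} ≤
        ENNReal.ofReal (C * ε ^ 2 * (α - β + ε)) := by
  obtain ⟨V₀, hV₀, hV⟩ := nuE_bound hX m hc ψ Φ hΦ
  obtain ⟨𝒥, κ₀, δ₀, hκ₀, hδ₀, h𝒥, hunif⟩ := unif_near hX m hL hc ψ Φ hΦ k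
  obtain ⟨L₁, r, M, C₁, Θ, hL₁, hr, hM, hC₁, hΘ, hS⟩ := pair_slope hX m L hc ψ k
    (V := V₀ + 1) (by positivity) hκ₀
  obtain ⟨C', hC', hbad⟩ := badG_meas (κ := Dir) 3 hL₁ hr hM
  obtain ⟨𝒥', κ₀', δ₀', hκ₀', hδ₀', h𝒥', hunif'⟩ := unif_sep hX m hL hc ψ Φ hΦ k hδ₀
  obtain ⟨L₁', r', M', C₁', Θ', hL₁', hr', hM', hC₁', hΘ', hS'⟩ := sep_slope hX m L hc ψ k
    (V := V₀ + 1) (by positivity) hκ₀'
  obtain ⟨C'', hC'', hbad'⟩ := badG_meas (κ := Dir) 2 hL₁' hr' hM'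
  set ε₀ := min (min δ₀ δ₀') 1 with hε₀
  have hε₀pos : 0 < ε₀ := lt_min (lt_min hδ₀ hδ₀') one_pos
  have hcard : (0 : ℝ) ≤ 𝒥.card := Nat.cast_nonneg _
  have hcard' : (0 : ℝ) ≤ 𝒥'.card := Nat.cast_nonneg _
  set K₁ := 𝒥.card * (C' * C₁ ^ 3 / Θ ^ 2) with hK₁
  set K₂ := 𝒥'.card * (C'' * C₁' ^ 2 / Θ' ^ 2) / δ₀ with hK₂
  have hK₁0 : 0 ≤ K₁ := by positivity
  have hK₂0 : 0 ≤ K₂ := by positivity
  refine ⟨K₁ + K₂ + 1 / ε₀ ^ 3, by positivity, fun α β ε hε hαβ => ?_⟩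
  have ht : 0 ≤ α - β := sub_nonneg.2 hαβ
  have hte : 0 < α - β + ε := by linarith
  rcases le_or_gt ε₀ ε with hle | hgt
  · refine prob_le_one.trans ?_
    rw [← ENNReal.ofReal_one]
    apply ENNReal.ofReal_le_ofReal
    have h1 : 1 ≤ 1 / ε₀ ^ 3 * ε ^ 3 := by
      rw [div_mul_eq_mul_div, one_mul, le_div_iff₀ (by positivity), one_mul]
      exact pow_le_pow_left₀ hε₀pos.le hle 3
    have h2 : 1 / ε₀ ^ 3 * ε ^ 3 ≤ 1 / ε₀ ^ 3 * (ε ^ 2 * (α - β + ε)) := by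
      refine mul_le_mul_of_nonneg_left ?_ (by positivity)
      rw [pow_succ ε 2]
      exact mul_le_mul_of_nonneg_left (by linarith) (by positivity)
    have h3 : 0 ≤ (K₁ + K₂) * (ε ^ 2 * (α - β + ε)) := by positivity
    calc (1 : ℝ) ≤ (K₁ + K₂) * (ε ^ 2 * (α - β + ε)) + 1 / ε₀ ^ 3 * (ε ^ 2 * (α - β + ε)) := by
          linarith
      _ = (K₁ + K₂ + 1 / ε₀ ^ 3) * ε ^ 2 * (α - β + ε) := by ring
  · have hεδ : ε ≤ δ₀ := hgt.le.trans ((min_le_left _ _).trans (min_le_left _ _))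
    have hεδ' : ε ≤ δ₀' := hgt.le.trans ((min_le_left _ _).trans (min_le_right _ _))
    have hε1 : ε ≤ 1 := hgt.le.trans (min_le_right _ _)
    have hbound : ∀ ξ, |nuE hX m (Φ ξ) k - α| ≤ ε ∧ |nuE hX m (Φ ξ) (k + 1) - β| ≤ ε →
        |α| ≤ V₀ + 1 ∧ |β| ≤ V₀ + 1 := by
      rintro ξ ⟨h1, h2⟩
      have h3 := hV ξ k
      have h4 := hV ξ (k + 1)
      rw [abs_le] at h1 h2 h3 h4
      constructor
      · rw [abs_le]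
        constructor <;> linarith [h1.1, h1.2, h3.1, h3.2]
      · rw [abs_le]
        constructor <;> linarith [h2.1, h2.2, h4.1, h4.2]
    rcases le_or_gt (α - β) δ₀ with hnear | hsep
    · have hp : 0 < ε / (α - β + ε) := div_pos hε hte
      have hΘp : 0 < Θ * √(ε / (α - β + ε)) := mul_pos hΘ (Real.sqrt_pos.2 hp)
      refine V_cover 𝒥 _ (fun J => BadG (fun ξ => FE hX m (k + 2) α (Φ ξ) +
        FE hX m (k + 2) β (Φ ξ)) J L₁ r M (C₁ * ε) (Θ * √(ε / (α - β + ε))))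
        (b := C' * (C₁ * ε) ^ 3 / (Θ * √(ε / (α - β + ε))) ^ 2) ?_ ?_ ?_
      · intro ξ hξ
        obtain ⟨h1, h2⟩ := hbound ξ hξ
        obtain ⟨w, hw⟩ := V_frame hX m (Φ ξ) (k + 2) hε
        obtain ⟨J, hJ, hsur⟩ := hunif ξ w α β (G_Fr_mono hεδ hw) (hξ.1.trans hεδ)
          (hξ.2.trans hεδ) (by rwa [abs_of_nonneg ht])
        exact ⟨J, hJ, hS Φ hΦ J (h𝒥 J hJ).1 (h𝒥 J hJ).2 α β h1 h2 hαβ ε hε ξ w hw hξ.1 hξ.2 hsur⟩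
      · intro J hJ
        exact hbad _ ((FE_cont hX m L hc Φ ψ hΦ (k + 2) α).add
          (FE_cont hX m L hc Φ ψ hΦ (k + 2) β)) J (h𝒥 J hJ).1 (C₁ * ε) _ (by positivity) hΘp
      · have e1 : (Θ * √(ε / (α - β + ε))) ^ 2 = Θ ^ 2 * (ε / (α - β + ε)) := by
          rw [mul_pow, Real.sq_sqrt hp.le]
        have e2 : (𝒥.card : ℝ) * (C' * (C₁ * ε) ^ 3 / (Θ * √(ε / (α - β + ε))) ^ 2) =
            K₁ * (ε ^ 2 * (α - β + ε)) := by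
          rw [e1, hK₁]
          field_simp
        rw [e2]
        have h3 : 0 ≤ (K₂ + 1 / ε₀ ^ 3) * (ε ^ 2 * (α - β + ε)) := by positivity
        calc K₁ * (ε ^ 2 * (α - β + ε)) ≤ K₁ * (ε ^ 2 * (α - β + ε)) +
              (K₂ + 1 / ε₀ ^ 3) * (ε ^ 2 * (α - β + ε)) := by linarith
          _ = (K₁ + K₂ + 1 / ε₀ ^ 3) * ε ^ 2 * (α - β + ε) := by ring
    · refine V_cover 𝒥' _ (fun J => BadG (fun ξ => FE hX m (k + 2) α (Φ ξ) +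
        FE hX m (k + 2) β (Φ ξ)) J L₁' r' M' (C₁' * ε) Θ')
        (b := C'' * (C₁' * ε) ^ 2 / Θ' ^ 2) ?_ ?_ ?_
      · intro ξ hξ
        obtain ⟨h1, h2⟩ := hbound ξ hξ
        obtain ⟨w, hw⟩ := V_frame hX m (Φ ξ) (k + 2) hε
        obtain ⟨J, hJ, hsur⟩ := hunif' ξ w α β (G_Fr_mono hεδ' hw) (hξ.1.trans hεδ')
          (hξ.2.trans hεδ') hsep.le
        exact ⟨J, hJ, hS' Φ hΦ J (h𝒥' J hJ).1 (h𝒥' J hJ).2 α β h1 h2 hαβ ε hε ξ w hw hξ.1 hξ.2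
          hsur⟩
      · intro J hJ
        exact hbad' _ ((FE_cont hX m L hc Φ ψ hΦ (k + 2) α).add
          (FE_cont hX m L hc Φ ψ hΦ (k + 2) β)) J (h𝒥' J hJ).1 (C₁' * ε) _ (by positivity) hΘ'
      · have e2 : (𝒥'.card : ℝ) * (C'' * (C₁' * ε) ^ 2 / Θ' ^ 2) = K₂ * (ε ^ 2 * δ₀) := by
          rw [hK₂]
          field_simp
        rw [e2]
        have h3 : 0 ≤ (K₁ + 1 / ε₀ ^ 3) * (ε ^ 2 * (α - β + ε)) := by positivity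
        have h4 : K₂ * (ε ^ 2 * δ₀) ≤ K₂ * (ε ^ 2 * (α - β + ε)) := by
          refine mul_le_mul_of_nonneg_left ?_ hK₂0
          exact mul_le_mul_of_nonneg_left (by linarith) (by positivity)
        calc K₂ * (ε ^ 2 * δ₀) ≤ K₂ * (ε ^ 2 * (α - β + ε)) +
              (K₁ + 1 / ε₀ ^ 3) * (ε ^ 2 * (α - β + ε)) := by linarith
          _ = (K₁ + K₂ + 1 / ε₀ ^ 3) * ε ^ 2 * (α - β + ε) := by ring

end LibQR35
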