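import Pool.Agent.LibQR35.V
import Pool.Agent.LibQR35.Ind2
import Pool.Agent.LibQR35.SQ2
import Pool.Agent.LibQR35.SQ3

/-! The probability that two levels lie in short intervals. -/

open MeasureTheory Set Filter Topology
open scoped ContDiff ENNReal NNReal unitInterval

namespace LibQR35

open BGS
open Pool.BGR (PM upI pj)

variable {Γ : Type} [Group Γ] [MulAction Γ Pl] {D : Set Pl}

/-- **Two levels in short intervals.** -/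
theorem pair_prob2 (hX : Surface Γ D) (m : Mt Γ D) {L : ℕ} (hL : D ⊆ bigSq L) {c : ℕ → ℝ}
    (hc : Cs c) (ψ : TestS Γ) (Φ : (Dir → I) → TestS Γ)
    (hΦ : ∀ ξ z, (Φ ξ).1 z = ψ.1 z + phi Γ L c ξ z) (k l : ℕ) (hl : 0 < l) :
    ∃ C : ℝ, 0 < C ∧ ∀ α β ε : ℝ, 0 < ε → β ≤ α →
      PM Dir {ξ | |nuE hX m (Φ ξ) k - α| ≤ ε ∧ |nuE hX m (Φ ξ) (k + l) - β| ≤ ε} ≤
        ENNReal.ofReal (C * ε ^ 2 * (α - β + ε)) := by
  obtain ⟨V₀, hV₀, hV⟩ := nuE_bound hX m hc ψ Φ hΦ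
  obtain ⟨𝒥, κ₀, δ₀, hκ₀, hδ₀, h𝒥, hunif⟩ := unif_near2 hX m hL hc ψ Φ hΦ k l hl
  obtain ⟨L₁, r, M, C₁, Θ, hL₁, hr, hM, hC₁, hΘ, hS⟩ := pair_slope2 hX m L hc ψ k l hl
    (V := V₀ + 1) (by positivity) hκ₀
  obtain ⟨C', hC', hbad⟩ := badG_meas (κ := Dir) 3 hL₁ hr hM
  obtain ⟨𝒥', κ₀', δ₀', hκ₀', hδ₀', h𝒥', hunif'⟩ := unif_sep2 hX m hL hc ψ Φ hΦ k l hl hδ₀
  obtain ⟨L₁', r', M', C₁', Θ', hL₁', hr', hM', hC₁', hΘ', hS'⟩ := sep_slope2 hX m L hc ψ k l hl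
    (V := V₀ + 1) (by positivity) hκ₀'
  obtain ⟨C'', hC'', hbad'⟩ := badG_meas (κ := Dir) 2 hL₁' hr' hM'
  set ε₀ := min (min δ₀ δ₀') 1 with hε₀
  have hε₀pos : 0 < ε₀ := lt_min (lt_min hδ₀ hδ₀') one_pos
  have hcard : (0 : ℝ) ≤ 𝒥.card := Nat.cast_nonneg _
  have hcard' : (0 : ℝ) ≤ 𝒥'.card := Nat.cast_nonneg _
  set K₁ := 𝒥.card * (C' * C₁ ^ 3 / Θ ^ 2) with hK₁
  set K₂ := 𝒥'.card * (C'' * C₁' ^ 2 / Θ' ^ 2) / δ₀ with hK₂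
  have hK₁0 : 0 ≤ K₁ := by positivity
  have hK₂0 : 0 ≤ K₂ := by positivity
  refine ⟨K₁ + K₂ + 1 / ε₀ ^ 3, by positivity, fun α β ε hε hαβ => ?_⟩
  have ht : 0 ≤ α - β := sub_nonneg.2 hαβ
  have hte : 0 < α - β + ε := by linarith
  rcases le_or_gt ε₀ ε with hle | hgt
  · refine prob_le_one.trans ?_
    rw [← ENNReal.ofReal_one]
    apply ENNReal.ofReal_le_ofReal
    have h1 : 1 ≤ 1 / ε₀ ^ 3 * ε ^ 3 := by
      rw [div_mul_eq_mul_div, one_mul, le_div_iff₀ (by positivity), one_mul]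
      exact pow_le_pow_left₀ hε₀pos.le hle 3
    have h2 : 1 / ε₀ ^ 3 * ε ^ 3 ≤ 1 / ε₀ ^ 3 * (ε ^ 2 * (α - β + ε)) := by
      refine mul_le_mul_of_nonneg_left ?_ (by positivity)
      rw [pow_succ ε 2]
      exact mul_le_mul_of_nonneg_left (by linarith) (by positivity)
    have h3 : 0 ≤ (K₁ + K₂) * (ε ^ 2 * (α - β + ε)) := by positivity
    calc (1 : ℝ) ≤ (K₁ + K₂) * (ε ^ 2 * (α - β + ε)) + 1 / ε₀ ^ 3 * (ε ^ 2 * (α - β + ε)) := by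
          linarith
      _ = (K₁ + K₂ + 1 / ε₀ ^ 3) * ε ^ 2 * (α - β + ε) := by ring
  · have hεδ : ε ≤ δ₀ := hgt.le.trans ((min_le_left _ _).trans (min_le_left _ _))
    have hεδ' : ε ≤ δ₀' := hgt.le.trans ((min_le_left _ _).trans (min_le_right _ _))
    have hε1 : ε ≤ 1 := hgt.le.trans (min_le_right _ _)
    have hbound : ∀ ξ, |nuE hX m (Φ ξ) k - α| ≤ ε ∧ |nuE hX m (Φ ξ) (k + l) - β| ≤ ε →
        |α| ≤ V₀ + 1 ∧ |β| ≤ V₀ + 1 := by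
      rintro ξ ⟨h1, h2⟩
      have h3 := hV ξ k
      have h4 := hV ξ (k + l)
      rw [abs_le] at h1 h2 h3 h4
      constructor
      · rw [abs_le]
        constructor <;> linarith [h1.1, h1.2, h3.1, h3.2]
      · rw [abs_le]
        constructor <;> linarith [h2.1, h2.2, h4.1, h4.2]
    rcases le_or_gt (α - β) δ₀ with hnear | hsep
    · have hp : 0 < ε / (α - β + ε) := div_pos hε hte
      have hΘp : 0 < Θ * √(ε / (α - β + ε)) := mul_pos hΘ (Real.sqrt_pos.2 hp)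
      refine V_cover 𝒥 _ (fun J => BadG (fun ξ => FE hX m (k + (l + 1)) α (Φ ξ) +
        FE hX m (k + (l + 1)) β (Φ ξ)) J L₁ r M (C₁ * ε) (Θ * √(ε / (α - β + ε))))
        (b := C' * (C₁ * ε) ^ 3 / (Θ * √(ε / (α - β + ε))) ^ 2) ?_ ?_ ?_
      · intro ξ hξ
        obtain ⟨h1, h2⟩ := hbound ξ hξ
        obtain ⟨w, hw⟩ := V_frame hX m (Φ ξ) (k + (l + 1)) hε
        obtain ⟨J, hJ, hsur⟩ := hunif ξ w α β (G_Fr_mono hεδ hw) (hξ.1.trans hεδ)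
          (hξ.2.trans hεδ) (by rwa [abs_of_nonneg ht])
        exact ⟨J, hJ, hS Φ hΦ J (h𝒥 J hJ).1 (h𝒥 J hJ).2 α β h1 h2 hαβ ε hε ξ w hw hξ.1 hξ.2 hsur⟩
      · intro J hJ
        exact hbad _ ((FE_cont hX m L hc Φ ψ hΦ (k + (l + 1)) α).add
          (FE_cont hX m L hc Φ ψ hΦ (k + (l + 1)) β)) J (h𝒥 J hJ).1 (C₁ * ε) _ (by positivity) hΘp
      · have e1 : (Θ * √(ε / (α - β + ε))) ^ 2 = Θ ^ 2 * (ε / (α - β + ε)) := by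
          rw [mul_pow, Real.sq_sqrt hp.le]
        have e2 : (𝒥.card : ℝ) * (C' * (C₁ * ε) ^ 3 / (Θ * √(ε / (α - β + ε))) ^ 2) =
            K₁ * (ε ^ 2 * (α - β + ε)) := by
          rw [e1, hK₁]
          field_simp
        rw [e2]
        have h3 : 0 ≤ (K₂ + 1 / ε₀ ^ 3) * (ε ^ 2 * (α - β + ε)) := by positivity
        calc K₁ * (ε ^ 2 * (α - β + ε)) ≤ K₁ * (ε ^ 2 * (α - β + ε)) +
              (K₂ + 1 / ε₀ ^ 3) * (ε ^ 2 * (α - β + ε)) := by linarith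
          _ = (K₁ + K₂ + 1 / ε₀ ^ 3) * ε ^ 2 * (α - β + ε) := by ring
    · refine V_cover 𝒥' _ (fun J => BadG (fun ξ => FE hX m (k + (l + 1)) α (Φ ξ) +
        FE hX m (k + (l + 1)) β (Φ ξ)) J L₁' r' M' (C₁' * ε) Θ')
        (b := C'' * (C₁' * ε) ^ 2 / Θ' ^ 2) ?_ ?_ ?_
      · intro ξ hξ
        obtain ⟨h1, h2⟩ := hbound ξ hξ
        obtain ⟨w, hw⟩ := V_frame hX m (Φ ξ) (k + (l + 1)) hε
        obtain ⟨J, hJ, hsur⟩ := hunif' ξ w α β (G_Fr_mono hεδ' hw) (hξ.1.trans hεδ')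
          (hξ.2.trans hεδ') hsep.le
        exact ⟨J, hJ, hS' Φ hΦ J (h𝒥' J hJ).1 (h𝒥' J hJ).2 α β h1 h2 hαβ ε hε ξ w hw hξ.1 hξ.2
          hsur⟩
      · intro J hJ
        exact hbad' _ ((FE_cont hX m L hc Φ ψ hΦ (k + (l + 1)) α).add
          (FE_cont hX m L hc Φ ψ hΦ (k + (l + 1)) β)) J (h𝒥' J hJ).1 (C₁' * ε) _ (by positivity) hΘ'
      · have e2 : (𝒥'.card : ℝ) * (C'' * (C₁' * ε) ^ 2 / Θ' ^ 2) = K₂ * (ε ^ 2 * δ₀) := by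
          rw [hK₂]
          field_simp
        rw [e2]
        have h3 : 0 ≤ (K₁ + 1 / ε₀ ^ 3) * (ε ^ 2 * (α - β + ε)) := by positivity
        have h4 : K₂ * (ε ^ 2 * δ₀) ≤ K₂ * (ε ^ 2 * (α - β + ε)) := by
          refine mul_le_mul_of_nonneg_left ?_ hK₂0
          exact mul_le_mul_of_nonneg_left (by linarith) (by positivity)
        calc K₂ * (ε ^ 2 * δ₀) ≤ K₂ * (ε ^ 2 * (α - β + ε)) +
              (K₁ + 1 / ε₀ ^ 3) * (ε ^ 2 * (α - β + ε)) := by linarith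
          _ = (K₁ + K₂ + 1 / ε₀ ^ 3) * ε ^ 2 * (α - β + ε) := by ring

end LibQR35
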