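import Pool.Agent.LibQR35.DN
import Pool.Agent.LibQR35.DL
import Pool.Agent.LibQR35.BN
import Pool.Agent.LibQR35.X1

/-! From the reciprocals of the levels to the levels: the laws of one level, of a pair of
consecutive levels and of a spacing. -/

open MeasureTheory Set Filter Topology
open scoped ContDiff ENNReal NNReal unitInterval

namespace LibQR35

open BGS
open Pool.BGR (PM upI pj)

variable {Γ : Type} [Group Γ] [MulAction Γ Pl] {D : Set Pl}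

/-- The level `k + 1` of the metric `e^φ m` scaled to area one. -/
noncomputable def lvX (hX : Surface Γ D) (m : Mt Γ D) (φ : TestS Γ) (k : ℕ) : ℝ :=
  (4 * Real.pi * nuE hX m φ k)⁻¹

theorem XL_bounds (hX : Surface Γ D) (m : Mt Γ D) (M : ℝ) : ∃ c₁ : ℝ, 0 < c₁ ∧
    ∀ k : ℕ, ∃ c₂ : ℝ, 0 < c₂ ∧ ∀ φ : TestS Γ, (∀ z, |φ.1 z| ≤ M) →
      0 < nuE hX m φ k ∧ c₁ ≤ lvX hX m φ k ∧ lvX hX m φ k ≤ c₂ := by
  obtain ⟨M₀, hM₀, hup⟩ := muE_upper hX m M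
  obtain ⟨c₀, hc₀, hlo⟩ := muE_lower hX m M
  have hpi : 0 < 4 * Real.pi := mul_pos four_pos Real.pi_pos
  have he := Real.exp_pos M
  refine ⟨(4 * Real.pi * (M₀ * Real.exp M))⁻¹, by positivity, fun k => ?_⟩
  refine ⟨(4 * Real.pi * (c₀ / ((k : ℝ) + 2) ^ 4 / Real.exp M))⁻¹, by positivity, fun φ hφ => ?_⟩
  have hA := arE_bounds hX m φ hφ
  have hA0 := arE_pos hX m φ
  have h1 : nuE hX m φ k ≤ M₀ * Real.exp M := by
    unfold nuE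
    rw [div_le_iff₀ hA0]
    calc muE hX m φ k ≤ M₀ := hup φ hφ k
      _ = M₀ * Real.exp M * Real.exp (-M) := by
          rw [mul_assoc, ← Real.exp_add, add_neg_cancel, Real.exp_zero, mul_one]
      _ ≤ M₀ * Real.exp M * arE hX m φ := mul_le_mul_of_nonneg_left hA.1 (by positivity)
  have h2 : c₀ / ((k : ℝ) + 2) ^ 4 / Real.exp M ≤ nuE hX m φ k := by
    unfold nuE
    rw [div_le_div_iff₀ he hA0]
    exact mul_le_mul (hlo φ hφ k) hA.2 hA0.le ((by positivity : (0 : ℝ) ≤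
      c₀ / ((k : ℝ) + 2) ^ 4).trans (hlo φ hφ k))
  have h3 : 0 < nuE hX m φ k := lt_of_lt_of_le (by positivity) h2
  refine ⟨h3, ?_, ?_⟩
  · exact inv_anti₀ (by positivity) (mul_le_mul_of_nonneg_left h1 hpi.le)
  · exact inv_anti₀ (by positivity) (mul_le_mul_of_nonneg_left h2 hpi.le)

theorem XL_mono (hX : Surface Γ D) (m : Mt Γ D) (φ : TestS Γ) (k : ℕ) :
    lvX hX m φ k ≤ lvX hX m φ (k + 1) := by
  obtain ⟨M, hM, hφ⟩ := test_bdd hX φ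
  obtain ⟨c₁, hc₁, h⟩ := XL_bounds hX m M
  obtain ⟨c₂, hc₂, h1⟩ := h (k + 1)
  have h2 := (h1 φ hφ).1
  have hpi : 0 < 4 * Real.pi := mul_pos four_pos Real.pi_pos
  apply inv_anti₀ (by positivity)
  refine mul_le_mul_of_nonneg_left ?_ hpi.le
  unfold nuE
  exact div_le_div_of_nonneg_right (mu_anti (expT_lam1 hX m φ) (Nat.le_succ k))
    (arE_pos hX m φ).le

theorem XL_cont (hX : Surface Γ D) (m : Mt Γ D) (L : ℕ) {c : ℕ → ℝ} (hc : Cs c)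
    (Φ : (Dir → I) → TestS Γ) (ψ : TestS Γ)
    (hΦ : ∀ ξ z, (Φ ξ).1 z = ψ.1 z + phi Γ L c ξ z) (k : ℕ) :
    Continuous fun ξ => lvX hX m (Φ ξ) k := by
  refine Continuous.inv₀ (continuous_const.mul (nuE_cont hX m L hc Φ ψ hΦ k)) fun ξ => ?_
  obtain ⟨M, hM, hφ⟩ := test_bdd hX (Φ ξ)
  obtain ⟨c₁, hc₁, h⟩ := XL_bounds hX m M
  obtain ⟨c₂, hc₂, h1⟩ := h k
  have h2 := (h1 (Φ ξ) hφ).1
  have hpi : 0 < 4 * Real.pi := mul_pos four_pos Real.pi_pos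
  exact (mul_pos hpi h2).ne'

theorem XL_bound (hX : Surface Γ D) (L : ℕ) {c : ℕ → ℝ} (hc : Cs c)
    (Φ : (Dir → I) → TestS Γ) (ψ : TestS Γ)
    (hΦ : ∀ ξ z, (Φ ξ).1 z = ψ.1 z + phi Γ L c ξ z) : ∃ M : ℝ, ∀ ξ z, |(Φ ξ).1 z| ≤ M := by
  obtain ⟨M1, hM1, hψ⟩ := test_bdd hX ψ
  obtain ⟨M2, hM2, hφb⟩ := phi_bound hX L hc
  refine ⟨M1 + M2, fun ξ z => ?_⟩
  rw [hΦ]
  exact (abs_add_le _ _).trans (add_le_add (hψ z) (hφb ξ z))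

/-- The reciprocals of close numbers are close. -/
theorem XL_inv {c₁ a u ν : ℝ} (hc₁ : 0 < c₁) (ha : c₁ ≤ a) (hν : 0 < ν)
    (hu : u = (4 * Real.pi * ν)⁻¹) (hu1 : a ≤ u) {ε : ℝ} (hu2 : u ≤ a + ε) :
    |ν - (4 * Real.pi * a)⁻¹| ≤ (4 * Real.pi * c₁ ^ 2)⁻¹ * ε := by
  have hpi : 0 < 4 * Real.pi := mul_pos four_pos Real.pi_pos
  have ha0 : 0 < a := lt_of_lt_of_le hc₁ ha
  have hu0 : 0 < u := lt_of_lt_of_le ha0 hu1
  have hν' : ν = (4 * Real.pi * u)⁻¹ := by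
    rw [hu]
    field_simp
  have e : ν - (4 * Real.pi * a)⁻¹ = -((u - a) / (4 * Real.pi * (u * a))) := by
    rw [hν']
    field_simp
    ring
  rw [e, abs_neg, abs_of_nonneg (div_nonneg (by linarith) (by positivity)), div_eq_inv_mul]
  have h1 : c₁ ^ 2 ≤ u * a := by
    rw [sq]
    exact mul_le_mul (ha.trans hu1) ha hc₁.le hu0.le
  refine mul_le_mul (inv_anti₀ (by positivity) (mul_le_mul_of_nonneg_left h1 hpi.le))
    (by linarith) (by linarith) (by positivity)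

theorem XL_one (hX : Surface Γ D) (m : Mt Γ D) (L : ℕ) {c : ℕ → ℝ} (hc : Cs c)
    (Φ : (Dir → I) → TestS Γ) (ψ : TestS Γ)
    (hΦ : ∀ ξ z, (Φ ξ).1 z = ψ.1 z + phi Γ L c ξ z) (k : ℕ)
    (h1 : ∃ C : ℝ, 0 < C ∧ ∀ α ε : ℝ, 0 < ε →
      PM Dir {ξ | |nuE hX m (Φ ξ) k - α| ≤ ε} ≤ ENNReal.ofReal (C * ε)) :
    ∃ C : ℝ, 0 < C ∧ ∀ A : Set ℝ, MeasurableSet A →
      PM Dir {ξ | lvX hX m (Φ ξ) k ∈ A} ≤ ENNReal.ofReal C * volume A := by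
  obtain ⟨M, hM⟩ := XL_bound hX L hc Φ ψ hΦ
  obtain ⟨c₁, hc₁, hb⟩ := XL_bounds hX m M
  obtain ⟨c₂, hc₂, hb⟩ := hb k
  obtain ⟨C, hC, h⟩ := h1
  have hpi : 0 < 4 * Real.pi := mul_pos four_pos Real.pi_pos
  set K : ℝ := (4 * Real.pi * c₁ ^ 2)⁻¹ with hK
  have hK0 : 0 < K := by positivity
  have hmeas : Measurable fun ξ => lvX hX m (Φ ξ) k := (XL_cont hX m L hc Φ ψ hΦ k).measurable
  refine ⟨C * K, by positivity, fun A hA => ?_⟩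
  have e : PM Dir {ξ | lvX hX m (Φ ξ) k ∈ A} = (PM Dir).map (fun ξ => lvX hX m (Φ ξ) k) A := by
    rw [Measure.map_apply hmeas hA]
    rfl
  rw [e]
  have : IsFiniteMeasure ((PM Dir).map (fun ξ => lvX hX m (Φ ξ) k)) :=
    Measure.isFiniteMeasure_map _ _
  refine dens1 _ (fun a ε hε => ?_) hA
  rw [Measure.map_apply hmeas measurableSet_Icc]
  refine (measure_mono ?_).trans ((h (4 * Real.pi * max a c₁)⁻¹ (K * ε) (by positivity)).trans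
    (le_of_eq (by rw [mul_assoc])))
  intro ξ hξ
  have h3 : a ≤ lvX hX m (Φ ξ) k ∧ lvX hX m (Φ ξ) k ≤ a + ε := hξ
  obtain ⟨h4, h5, -⟩ := hb (Φ ξ) (hM ξ)
  exact XL_inv hc₁ (le_max_right a c₁) h4 rfl (max_le h3.1 h5)
    (h3.2.trans (by linarith [le_max_left a c₁]))

theorem XL_two (hX : Surface Γ D) (m : Mt Γ D) (L : ℕ) {c : ℕ → ℝ} (hc : Cs c)
    (Φ : (Dir → I) → TestS Γ) (ψ : TestS Γ)
    (hΦ : ∀ ξ z, (Φ ξ).1 z = ψ.1 z + phi Γ L c ξ z) (k : ℕ)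
    (h2 : ∃ C : ℝ, 0 < C ∧ ∀ α β ε : ℝ, 0 < ε → β ≤ α →
      PM Dir {ξ | |nuE hX m (Φ ξ) k - α| ≤ ε ∧ |nuE hX m (Φ ξ) (k + 1) - β| ≤ ε} ≤
        ENNReal.ofReal (C * ε ^ 2 * (α - β + ε))) :
    ∃ C : ℝ, 0 < C ∧ ∀ A : Set (ℝ × ℝ), MeasurableSet A →
      (PM Dir).map (fun ξ => (lvX hX m (Φ ξ) k, lvX hX m (Φ ξ) (k + 1))) A ≤
        ∫⁻ z in A, ENNReal.ofReal (C * |z.2 - z.1|) := by
  obtain ⟨M, hM⟩ := XL_bound hX L hc Φ ψ hΦ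
  obtain ⟨c₁, hc₁, hb⟩ := XL_bounds hX m M
  obtain ⟨c₂, hc₂, hb1⟩ := hb k
  obtain ⟨c₃, hc₃, hb2⟩ := hb (k + 1)
  obtain ⟨C, hC, h⟩ := h2
  have hpi : 0 < 4 * Real.pi := mul_pos four_pos Real.pi_pos
  set K : ℝ := (4 * Real.pi * c₁ ^ 2)⁻¹ with hK
  have hK0 : 0 < K := by positivity
  have hmeas : Measurable fun ξ => (lvX hX m (Φ ξ) k, lvX hX m (Φ ξ) (k + 1)) :=
    ((XL_cont hX m L hc Φ ψ hΦ k).measurable).prodMk (XL_cont hX m L hc Φ ψ hΦ (k + 1)).measurable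
  refine ⟨C * K ^ 3, by positivity, fun A hA => ?_⟩
  have : IsFiniteMeasure ((PM Dir).map (fun ξ => (lvX hX m (Φ ξ) k, lvX hX m (Φ ξ) (k + 1)))) :=
    Measure.isFiniteMeasure_map _ _
  refine dens2 _ (fun a b ε hε => ?_) hA
  rw [Measure.map_apply hmeas (measurableSet_Icc.prod measurableSet_Icc)]
  set a' : ℝ := max a c₁ with ha'
  set b' : ℝ := max b a' with hb'
  have ha0 : 0 < a' := lt_of_lt_of_le hc₁ (le_max_right a c₁)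
  have hb0 : 0 < b' := lt_of_lt_of_le ha0 (le_max_right b a')
  have hab : a' ≤ b' := le_max_right b a'
  have hle : (4 * Real.pi * b')⁻¹ ≤ (4 * Real.pi * a')⁻¹ :=
    inv_anti₀ (by positivity) (mul_le_mul_of_nonneg_left hab hpi.le)
  have hdiff : (4 * Real.pi * a')⁻¹ - (4 * Real.pi * b')⁻¹ ≤ K * |b - a| := by
    have e1 : (4 * Real.pi * a')⁻¹ - (4 * Real.pi * b')⁻¹ =
        (4 * Real.pi * (a' * b'))⁻¹ * (b' - a') := by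
      field_simp
    rw [e1]
    have e2 : c₁ ^ 2 ≤ a' * b' := by
      rw [sq]
      exact mul_le_mul (le_max_right a c₁) ((le_max_right a c₁).trans hab) hc₁.le ha0.le
    have e3 : b' - a' ≤ |b - a| := by
      rcases le_total b a' with h5 | h5
      · rw [hb', max_eq_right h5, sub_self]
        exact abs_nonneg _
      · rw [hb', max_eq_left h5]
        exact (sub_le_sub_left (le_max_left a c₁) b).trans (le_abs_self _)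
    exact mul_le_mul (inv_anti₀ (by positivity) (mul_le_mul_of_nonneg_left e2 hpi.le)) e3
      (sub_nonneg.2 hab) hK0.le
  refine (measure_mono ?_).trans ((h (4 * Real.pi * a')⁻¹ (4 * Real.pi * b')⁻¹ (K * ε)
    (by positivity) hle).trans ?_)
  · intro ξ hξ
    obtain ⟨h3, h4⟩ : lvX hX m (Φ ξ) k ∈ Icc a (a + ε) ∧
      lvX hX m (Φ ξ) (k + 1) ∈ Icc b (b + ε) := hξ
    obtain ⟨h5, h6, -⟩ := hb1 (Φ ξ) (hM ξ)
    obtain ⟨h7, h8, -⟩ := hb2 (Φ ξ) (hM ξ)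
    have h9 : a' ≤ lvX hX m (Φ ξ) k := max_le h3.1 h6
    refine ⟨XL_inv hc₁ (le_max_right a c₁) h5 rfl h9
      (h3.2.trans (by linarith [le_max_left a c₁])), ?_⟩
    exact XL_inv hc₁ ((le_max_right a c₁).trans hab) h7 rfl
      (max_le h4.1 (h9.trans (XL_mono hX m (Φ ξ) k))) (h4.2.trans (by linarith [le_max_left b a']))
  · apply ENNReal.ofReal_le_ofReal
    have h5 : (4 * Real.pi * a')⁻¹ - (4 * Real.pi * b')⁻¹ + K * ε ≤ K * (|b - a| + ε) := by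
      rw [mul_add]
      linarith
    calc C * (K * ε) ^ 2 * ((4 * Real.pi * a')⁻¹ - (4 * Real.pi * b')⁻¹ + K * ε)
        ≤ C * (K * ε) ^ 2 * (K * (|b - a| + ε)) := mul_le_mul_of_nonneg_left h5 (by positivity)
      _ = C * K ^ 3 * ε ^ 2 * (|b - a| + ε) := by ring

/-- The law of one level. -/
theorem XL_W (hX : Surface Γ D) (m : Mt Γ D) (L : ℕ) {c : ℕ → ℝ} (hc : Cs c)
    (Φ : (Dir → I) → TestS Γ) (ψ : TestS Γ)
    (hΦ : ∀ ξ z, (Φ ξ).1 z = ψ.1 z + phi Γ L c ξ z)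
    (h1 : ∀ k, ∃ C : ℝ, 0 < C ∧ ∀ α ε : ℝ, 0 < ε →
      PM Dir {ξ | |nuE hX m (Φ ξ) k - α| ≤ ε} ≤ ENNReal.ofReal (C * ε)) (k : ℕ) :
    ∃ C : ℝ, 0 < C ∧ ∀ A : Set ℝ, MeasurableSet A →
      PM Dir {ξ | ∃ m' : Mt Γ D, (∃ q : ℝ, 0 < q ∧
        ∀ z, m'.1.1 z = (q * Real.exp ((Φ ξ).1 z)) • m.1.1 z) ∧ x m' (k + 1) ∈ A} ≤
          ENNReal.ofReal C * volume A := by
  obtain ⟨C, hC, h⟩ := XL_one hX m L hc Φ ψ hΦ k (h1 k)
  refine ⟨C, hC, fun A hA => (measure_mono ?_).trans (h A hA)⟩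
  rintro ξ ⟨m', ⟨q, hq, hm'⟩, hA'⟩
  show lvX hX m (Φ ξ) k ∈ A
  rw [(nu_x hX m m' (Φ ξ) hq hm' k).1] at hA'
  exact hA'

/-- The joint law of two consecutive levels. -/
theorem XL_D (hX : Surface Γ D) (m : Mt Γ D) (L : ℕ) {c : ℕ → ℝ} (hc : Cs c)
    (Φ : (Dir → I) → TestS Γ) (ψ : TestS Γ)
    (hΦ : ∀ ξ z, (Φ ξ).1 z = ψ.1 z + phi Γ L c ξ z)
    (h2 : ∀ k, ∃ C : ℝ, 0 < C ∧ ∀ α β ε : ℝ, 0 < ε → β ≤ α →
      PM Dir {ξ | |nuE hX m (Φ ξ) k - α| ≤ ε ∧ |nuE hX m (Φ ξ) (k + 1) - β| ≤ ε} ≤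
        ENNReal.ofReal (C * ε ^ 2 * (α - β + ε))) (k : ℕ) :
    ∃ C : ℝ, 0 < C ∧ ∀ A : Set (ℝ × ℝ), MeasurableSet A →
      PM Dir {ξ | ∃ m' : Mt Γ D, (∃ q : ℝ, 0 < q ∧
        ∀ z, m'.1.1 z = (q * Real.exp ((Φ ξ).1 z)) • m.1.1 z) ∧
          (x m' (k + 1), x m' (k + 2)) ∈ A} ≤ ∫⁻ z in A, ENNReal.ofReal (C * |z.2 - z.1|) := by
  obtain ⟨C, hC, h⟩ := XL_two hX m L hc Φ ψ hΦ k (h2 k)
  have hmeas : Measurable fun ξ => (lvX hX m (Φ ξ) k, lvX hX m (Φ ξ) (k + 1)) :=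
    ((XL_cont hX m L hc Φ ψ hΦ k).measurable).prodMk (XL_cont hX m L hc Φ ψ hΦ (k + 1)).measurable
  refine ⟨C, hC, fun A hA => le_trans ?_ (h A hA)⟩
  rw [Measure.map_apply hmeas hA]
  refine measure_mono ?_
  rintro ξ ⟨m', ⟨q, hq, hm'⟩, hA'⟩
  show (lvX hX m (Φ ξ) k, lvX hX m (Φ ξ) (k + 1)) ∈ A
  have e1 := (nu_x hX m m' (Φ ξ) hq hm' k).1
  have e2 := (nu_x hX m m' (Φ ξ) hq hm' (k + 1)).1
  rw [e1] at hA'
  have e3 : x m' (k + 2) = x m' (k + 1 + 1) := rfl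
  rw [e3, e2] at hA'
  exact hA'

/-- The law of a spacing. -/
theorem XL_S (hX : Surface Γ D) (m : Mt Γ D) (L : ℕ) {c : ℕ → ℝ} (hc : Cs c)
    (Φ : (Dir → I) → TestS Γ) (ψ : TestS Γ)
    (hΦ : ∀ ξ z, (Φ ξ).1 z = ψ.1 z + phi Γ L c ξ z)
    (h1 : ∀ k, ∃ C : ℝ, 0 < C ∧ ∀ α ε : ℝ, 0 < ε →
      PM Dir {ξ | |nuE hX m (Φ ξ) k - α| ≤ ε} ≤ ENNReal.ofReal (C * ε))
    (h2 : ∀ k, ∃ C : ℝ, 0 < C ∧ ∀ α β ε : ℝ, 0 < ε → β ≤ α →
      PM Dir {ξ | |nuE hX m (Φ ξ) k - α| ≤ ε ∧ |nuE hX m (Φ ξ) (k + 1) - β| ≤ ε} ≤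
        ENNReal.ofReal (C * ε ^ 2 * (α - β + ε))) (k : ℕ) :
    ∃ C : ℝ, 0 < C ∧ ∀ A : Set ℝ, MeasurableSet A →
      PM Dir {ξ | ∃ m' : Mt Γ D, (∃ q : ℝ, 0 < q ∧
        ∀ z, m'.1.1 z = (q * Real.exp ((Φ ξ).1 z)) • m.1.1 z) ∧
          x m' (k + 1) - x m' k ∈ A} ≤ ∫⁻ s in A, ENNReal.ofReal (C * |s|) := by
  obtain ⟨M, hM⟩ := XL_bound hX L hc Φ ψ hΦ
  obtain ⟨c₁, hc₁, hb⟩ := XL_bounds hX m M
  rcases k with _ | k
  · obtain ⟨C, hC, h⟩ := XL_one hX m L hc Φ ψ hΦ 0 (h1 0)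
    obtain ⟨c₂, hc₂, hb1⟩ := hb 0
    refine ⟨C / c₁, by positivity, fun A hA => ?_⟩
    have h3 : PM Dir {ξ | ∃ m' : Mt Γ D, (∃ q : ℝ, 0 < q ∧
        ∀ z, m'.1.1 z = (q * Real.exp ((Φ ξ).1 z)) • m.1.1 z) ∧
          x m' (0 + 1) - x m' 0 ∈ A} ≤ PM Dir {ξ | lvX hX m (Φ ξ) 0 ∈ A ∩ Ici c₁} := by
      refine measure_mono ?_
      rintro ξ ⟨m', ⟨q, hq, hm'⟩, hA'⟩
      have hx0 : x m' 0 = 0 := by
        rw [GMU_x hX m m' (Φ ξ) hq hm' 0,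
          GMU_lam0 (pair_surface hX m (expT (Φ ξ)) fun z => Real.exp_pos _)]
        simp
      rw [hx0, sub_zero, (nu_x hX m m' (Φ ξ) hq hm' 0).1] at hA'
      exact ⟨hA', (hb1 (Φ ξ) (hM ξ)).2.1⟩
    refine h3.trans ((h _ (hA.inter measurableSet_Ici)).trans ?_)
    have h4 : ENNReal.ofReal C * volume (A ∩ Ici c₁) =
        ∫⁻ _s in A ∩ Ici c₁, ENNReal.ofReal C := by
      rw [setLIntegral_const]
    rw [h4]
    calc ∫⁻ _s in A ∩ Ici c₁, ENNReal.ofReal C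
        ≤ ∫⁻ s in A ∩ Ici c₁, ENNReal.ofReal (C / c₁ * |s|) := by
          refine setLIntegral_mono' (hA.inter measurableSet_Ici) fun s hs => ?_
          apply ENNReal.ofReal_le_ofReal
          have h5 : c₁ ≤ |s| := le_trans hs.2 (le_abs_self s)
          rw [div_mul_eq_mul_div, le_div_iff₀ hc₁]
          exact mul_le_mul_of_nonneg_left h5 hC.le
      _ ≤ ∫⁻ s in A, ENNReal.ofReal (C / c₁ * |s|) :=
          lintegral_mono_set inter_subset_left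
  · obtain ⟨C, hC, h⟩ := XL_two hX m L hc Φ ψ hΦ k (h2 k)
    obtain ⟨c₂, hc₂, hb1⟩ := hb k
    have hmeas : Measurable fun ξ => (lvX hX m (Φ ξ) k, lvX hX m (Φ ξ) (k + 1)) :=
      ((XL_cont hX m L hc Φ ψ hΦ k).measurable).prodMk
        (XL_cont hX m L hc Φ ψ hΦ (k + 1)).measurable
    refine ⟨C * c₂, by positivity, fun A hA => ?_⟩
    have h0 : (PM Dir).map (fun ξ => (lvX hX m (Φ ξ) k, lvX hX m (Φ ξ) (k + 1)))
        {z | z.1 ∉ Icc 0 c₂} = 0 := by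
      rw [Measure.map_apply hmeas (show MeasurableSet {z : ℝ × ℝ | z.1 ∉ Icc 0 c₂} from
        (measurable_fst measurableSet_Icc).compl)]
      have e : (fun ξ => (lvX hX m (Φ ξ) k, lvX hX m (Φ ξ) (k + 1))) ⁻¹'
          {z | z.1 ∉ Icc 0 c₂} = ∅ := by
        rw [eq_empty_iff_forall_notMem]
        intro ξ hξ
        apply hξ
        obtain ⟨-, h6, h7⟩ := hb1 (Φ ξ) (hM ξ)
        exact ⟨hc₁.le.trans h6, h7⟩
      rw [e, measure_empty]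
    have h3 := law_diff _ hC.le hc₂.le h h0 hA
    refine le_trans ?_ h3
    rw [Measure.map_apply hmeas (show MeasurableSet {z : ℝ × ℝ | z.2 - z.1 ∈ A} from
      (measurable_snd.sub measurable_fst) hA)]
    refine measure_mono ?_
    rintro ξ ⟨m', ⟨q, hq, hm'⟩, hA'⟩
    show lvX hX m (Φ ξ) (k + 1) - lvX hX m (Φ ξ) k ∈ A
    rw [(nu_x hX m m' (Φ ξ) hq hm' k).1, (nu_x hX m m' (Φ ξ) hq hm' (k + 1)).1] at hA'
    exact hA'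

end LibQR35
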